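import Mathlib

/-! Effaceability of Ext classes of positive degree and the induction principle for Ext. -/

open CategoryTheory Limits Abelian DerivedCategory

namespace Fdim

universe w w' w'' v v' v'' u u' u''

variable {C : Type u} [Category.{v} C] [Abelian C]

/-- The lowest non trivial term of a complex in degrees `≤ 0` maps onto `H^0`. -/
lemma epi_homologyMap_of_single (K : CochainComplex C ℤ) [K.IsStrictlyLE 0]
    (f : (HomologicalComplex.single C (ComplexShape.up ℤ) 0).obj (K.X 0) ⟶ K)
    (hf : f.f 0 = (HomologicalComplex.singleObjXSelf (ComplexShape.up ℤ) 0 (K.X 0)).hom) :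
    Epi (HomologicalComplex.homologyMap f 0) := by
  have hK : K.d 0 1 = 0 := (K.isZero_of_isStrictlyLE 0 1 (by lia)).eq_of_tgt _ _
  have i1 : IsIso (K.iCycles 0) := K.isIso_iCycles 0 1 (by simp) hK
  let S := (HomologicalComplex.single C (ComplexShape.up ℤ) 0).obj (K.X 0)
  have hS : S.d 0 1 = 0 := by simp [S]
  have i2 : IsIso (S.iCycles 0) := S.isIso_iCycles 0 1 (by simp) hS
  have i3 : IsIso (HomologicalComplex.cyclesMap f 0) := by
    have h1 : HomologicalComplex.cyclesMap f 0 ≫ K.iCycles 0 = S.iCycles 0 ≫ f.f 0 :=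
      HomologicalComplex.cyclesMap_i f 0
    have h2 : IsIso (HomologicalComplex.cyclesMap f 0 ≫ K.iCycles 0) := by
      rw [h1, hf]; infer_instance
    exact IsIso.of_isIso_comp_right _ (K.iCycles 0)
  have h3 : S.homologyπ 0 ≫ HomologicalComplex.homologyMap f 0 =
      HomologicalComplex.cyclesMap f 0 ≫ K.homologyπ 0 :=
    HomologicalComplex.homologyπ_naturality f 0
  have h4 : Epi (S.homologyπ 0 ≫ HomologicalComplex.homologyMap f 0) := by
    rw [h3]; infer_instance
  exact epi_of_epi (S.homologyπ 0) _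

/-- Every Ext class of positive degree dies on an epimorphism. -/
lemma exists_epi_comp_eq_zero [HasExt.{w} C] {X Y : C} {n : ℕ} (hn : 0 < n)
    (e : Ext.{w} X Y n) :
    ∃ (P : C) (p : P ⟶ X), Epi p ∧ (Ext.mk₀ p).comp e (zero_add n) = 0 := by
  let := HasDerivedCategory.standard C
  let f : Q.obj ((CochainComplex.singleFunctor C 0).obj X) ⟶
      Q.obj (((CochainComplex.singleFunctor C 0).obj Y)⟦(n : ℤ)⟧) :=
    e.hom ≫ (Q.commShiftIso (n : ℤ)).inv.app ((CochainComplex.singleFunctor C 0).obj Y)
  obtain ⟨K, hK, s, hs, g, hfac⟩ := right_fac_of_isStrictlyLE f 0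
  let ι : (CochainComplex.singleFunctor C 0).obj (K.X 0) ⟶ K :=
    HomologicalComplex.mkHomFromSingle (𝟙 (K.X 0)) (fun j hj =>
      (K.isZero_of_isStrictlyLE 0 j (by
        have : (0 : ℤ) + 1 = j := hj
        lia)).eq_of_tgt _ _)
  have hι : ι.f 0 =
      (HomologicalComplex.singleObjXSelf (ComplexShape.up ℤ) 0 (K.X 0)).hom := by
    simp [ι]
  have hιg : ι ≫ g = 0 := by
    apply HomologicalComplex.from_single_hom_ext
    have hz : IsZero ((((CochainComplex.singleFunctor C 0).obj Y)⟦(n : ℤ)⟧).X 0) := by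
      have hne : (0 : ℤ) + (n : ℤ) ≠ 0 := by lia
      exact HomologicalComplex.isZero_single_obj_X (ComplexShape.up ℤ) 0 Y _ hne
    exact hz.eq_of_tgt _ _
  obtain ⟨p, hp⟩ := (CochainComplex.singleFunctor C 0).map_surjective (ι ≫ s)
  refine ⟨K.X 0, p, ?_, ?_⟩
  · have h1 : Epi (HomologicalComplex.homologyMap (ι ≫ s) 0) := by
      rw [HomologicalComplex.homologyMap_comp]
      have := epi_homologyMap_of_single K ι hι
      have hq : QuasiIso s := by rwa [isIso_Q_map_iff_quasiIso] at hs
      have hq2 : IsIso (HomologicalComplex.homologyMap s 0) := inferInstance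
      exact @epi_comp _ _ _ _ _ _ this _ inferInstance
    rw [← hp] at h1
    have h2 : (HomologicalComplex.homologyMap ((CochainComplex.singleFunctor C 0).map p) 0) ≫
        (HomologicalComplex.singleObjHomologySelfIso (ComplexShape.up ℤ) 0 X).hom =
        (HomologicalComplex.singleObjHomologySelfIso (ComplexShape.up ℤ) 0 (K.X 0)).hom ≫ p :=
      (HomologicalComplex.homologyFunctorSingleIso C (ComplexShape.up ℤ) 0).hom.naturality p
    have h3 : Epi ((HomologicalComplex.singleObjHomologySelfIso
        (ComplexShape.up ℤ) 0 (K.X 0)).hom ≫ p) := by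
      rw [← h2]
      exact @epi_comp _ _ _ _ _ _ h1 _ inferInstance
    exact epi_of_epi (HomologicalComplex.singleObjHomologySelfIso (ComplexShape.up ℤ) 0
      (K.X 0)).hom p
  · ext
    rw [Ext.comp_hom, Ext.mk₀_hom, ShiftedHom.mk₀_comp, Ext.zero_hom]
    have h1 : e.hom = inv (Q.map s) ≫ Q.map g ≫
        (Q.commShiftIso (n : ℤ)).hom.app ((CochainComplex.singleFunctor C 0).obj Y) := by
      have : f ≫ (Q.commShiftIso (n : ℤ)).hom.app ((CochainComplex.singleFunctor C 0).obj Y) =
          e.hom := by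
        dsimp only [f]
        rw [Category.assoc]
        erw [Iso.inv_hom_id_app, Category.comp_id]
      rw [← this, hfac, Category.assoc]
    have h2 : (singleFunctor C 0).map p = Q.map (ι ≫ s) := by
      rw [← hp]; rfl
    have h3 : Q.map (ι ≫ s) ≫ (inv (Q.map s) ≫ Q.map g ≫
        (Q.commShiftIso (n : ℤ)).hom.app ((CochainComplex.singleFunctor C 0).obj Y)) = 0 := by
      rw [Functor.map_comp, Category.assoc, IsIso.hom_inv_id_assoc, ← Functor.map_comp_assoc,
        hιg, Functor.map_zero, zero_comp]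
    rw [h1, h2]
    exact h3

end Fdim
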