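import Mathlib
import Pool.Agent.Work.MP_f714fc_ag.Abs.ExtEff

/-! Ext and exact functors: naturality, composition of functors, adjunctions, equivalences. -/

open CategoryTheory Limits Abelian

namespace Fdim

universe w w' w'' v v' v'' u u' u''

variable {C : Type u} [Category.{v} C] [Abelian C] [HasExt.{w} C]
variable {D : Type u'} [Category.{v'} D] [Abelian D] [HasExt.{w'} D]
variable {E : Type u''} [Category.{v''} E] [Abelian E] [HasExt.{w''} E]

omit [HasExt.{w} C] in
/-- the short exact sequence attached to an epimorphism -/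
lemma shortExact_of_epi {P X : C} (p : P ⟶ X) [Epi p] :
    (ShortComplex.mk (kernel.ι p) p (kernel.condition p)).ShortExact where
  exact := ShortComplex.exact_kernel p
  mono_f := inferInstance
  epi_g := inferInstance

/-- every class of positive degree is a composition with an extension class -/
lemma exists_eq_extClass_comp {X Y : C} {n : ℕ} (e : Ext.{w} X Y (n + 1)) :
    ∃ (S : ShortComplex C) (hS : S.ShortExact) (i : S.X₃ ≅ X) (b : Ext.{w} S.X₁ Y n),
      e = (Ext.mk₀ i.inv).comp (hS.extClass.comp b (by rw [add_comm])) (zero_add _) := by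
  obtain ⟨P, p, hp, h0⟩ := exists_epi_comp_eq_zero (Nat.succ_pos n) e
  obtain ⟨b, hb⟩ := Ext.contravariant_sequence_exact₃ (shortExact_of_epi p) Y e h0
    (add_comm 1 n)
  refine ⟨_, shortExact_of_epi p, Iso.refl _, b, ?_⟩
  rw [hb]
  simp

/-- Induction principle for Ext classes. -/
lemma ext_induction {M : ∀ (n : ℕ) (X Y : C), Ext.{w} X Y n → Prop}
    (h0 : ∀ (X Y : C) (f : X ⟶ Y), M 0 X Y (Ext.mk₀ f))
    (h1 : ∀ (n : ℕ) (S : ShortComplex C) (hS : S.ShortExact) (Y : C) (b : Ext.{w} S.X₁ Y n),
      M n S.X₁ Y b → M (n + 1) S.X₃ Y (hS.extClass.comp b (add_comm 1 n))) :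
    ∀ (n : ℕ) (X Y : C) (e : Ext.{w} X Y n), M n X Y e := by
  intro n
  induction n with
  | zero =>
    intro X Y e
    obtain ⟨f, rfl⟩ := (Ext.mk₀_bijective X Y).2 e
    exact h0 X Y f
  | succ n ih =>
    intro X Y e
    obtain ⟨P, p, hp, hz⟩ := exists_epi_comp_eq_zero (Nat.succ_pos n) e
    obtain ⟨b, hb⟩ := Ext.contravariant_sequence_exact₃ (shortExact_of_epi p) Y e hz
      (add_comm 1 n)
    rw [← hb]
    exact h1 n _ (shortExact_of_epi p) Y b (ih _ _ b)

section functor

variable (F G : C ⥤ D) [F.Additive] [PreservesFiniteLimits F] [PreservesFiniteColimits F]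
  [G.Additive] [PreservesFiniteLimits G] [PreservesFiniteColimits G]

variable {F G} in
/-- `mapExactFunctor` is natural in the functor. -/
lemma mapExactFunctor_natTrans (τ : F ⟶ G) {X Y : C} {n : ℕ} (e : Ext.{w} X Y n) :
    (e.mapExactFunctor F : Ext.{w'} _ _ n).comp (Ext.mk₀ (τ.app Y)) (add_zero n) =
      (Ext.mk₀ (τ.app X)).comp (e.mapExactFunctor G : Ext.{w'} _ _ n) (zero_add n) := by
  refine ext_induction (M := fun n X Y e =>
    (e.mapExactFunctor F : Ext.{w'} _ _ n).comp (Ext.mk₀ (τ.app Y)) (add_zero n) =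
      (Ext.mk₀ (τ.app X)).comp (e.mapExactFunctor G : Ext.{w'} _ _ n) (zero_add n))
    ?_ ?_ n X Y e
  · intro X Y f
    rw [Ext.mapExactFunctor_mk₀, Ext.mapExactFunctor_mk₀, Ext.mk₀_comp_mk₀, Ext.mk₀_comp_mk₀,
      τ.naturality]
  · intro n S hS Y b ih
    have h : (hS.extClass.mapExactFunctor F : Ext.{w'} _ _ 1).comp
        (Ext.mk₀ (τ.app S.X₁)) (add_zero 1) =
        (Ext.mk₀ (τ.app S.X₃)).comp (hS.extClass.mapExactFunctor G : Ext.{w'} _ _ 1)
          (zero_add 1) := by
      rw [Ext.mapExactFunctor_extClass, Ext.mapExactFunctor_extClass]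
      exact ShortComplex.ShortExact.extClass_naturality (hS.map_of_exact F)
        (hS.map_of_exact G) (S.mapNatTrans τ)
    rw [Ext.mapExactFunctor_comp, Ext.mapExactFunctor_comp, Ext.comp_assoc_of_third_deg_zero,
      ih, ← Ext.comp_assoc_of_second_deg_zero, h, Ext.comp_assoc _ _ _ (zero_add 1)
        (add_comm 1 n) (by lia)]

/-- `mapExactFunctor` for the identity functor. -/
lemma mapExactFunctor_id {X Y : C} {n : ℕ} (e : Ext.{w} X Y n) :
    e.mapExactFunctor (𝟭 C) = e := by
  refine ext_induction (M := fun n X Y e => (e.mapExactFunctor (𝟭 C) : Ext.{w} _ _ n) = e)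
    ?_ ?_ n X Y e
  · intro X Y f
    rw [Ext.mapExactFunctor_mk₀]; rfl
  · intro n S hS Y b ih
    rw [Ext.mapExactFunctor_comp, ih, Ext.mapExactFunctor_extClass]; rfl

/-- `mapExactFunctor` for a composition of functors. -/
lemma mapExactFunctor_comp_functor (H : D ⥤ E) [H.Additive] [PreservesFiniteLimits H]
    [PreservesFiniteColimits H] [(F ⋙ H).Additive] [PreservesFiniteLimits (F ⋙ H)]
    [PreservesFiniteColimits (F ⋙ H)] {X Y : C} {n : ℕ} (e : Ext.{w} X Y n) :
    (e.mapExactFunctor (F ⋙ H) : Ext.{w''} _ _ n) =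
      (e.mapExactFunctor F : Ext.{w'} _ _ n).mapExactFunctor H := by
  refine ext_induction (M := fun n X Y e => (e.mapExactFunctor (F ⋙ H) : Ext.{w''} _ _ n) =
      (e.mapExactFunctor F : Ext.{w'} _ _ n).mapExactFunctor H)
    ?_ ?_ n X Y e
  · intro X Y f
    rw [Ext.mapExactFunctor_mk₀, Ext.mapExactFunctor_mk₀, Ext.mapExactFunctor_mk₀]; rfl
  · intro n S hS Y b ih
    have h : (hS.extClass.mapExactFunctor (F ⋙ H) : Ext.{w''} _ _ 1) =
        (hS.extClass.mapExactFunctor F : Ext.{w'} _ _ 1).mapExactFunctor H := by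
      rw [Ext.mapExactFunctor_extClass, Ext.mapExactFunctor_extClass]
      exact (Ext.mapExactFunctor_extClass H (hS.map_of_exact F)).symm
    rw [Ext.mapExactFunctor_comp, ih, h, Ext.mapExactFunctor_comp, Ext.mapExactFunctor_comp]

end functor

/-! ### adjunctions -/

section adj

variable {L : C ⥤ D} {R : D ⥤ C} (adj : L ⊣ R)
  [L.Additive] [PreservesFiniteLimits L] [PreservesFiniteColimits L]
  [R.Additive] [PreservesFiniteLimits R] [PreservesFiniteColimits R]

/-- `Ext(L A, B) → Ext(A, R B)` -/
noncomputable def extAdjTo {A : C} {B : D} {n : ℕ} (x : Ext.{w'} (L.obj A) B n) :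
    Ext.{w} A (R.obj B) n :=
  (Ext.mk₀ (adj.unit.app A)).comp (x.mapExactFunctor R) (zero_add n)

/-- `Ext(A, R B) → Ext(L A, B)` -/
noncomputable def extAdjInv {A : C} {B : D} {n : ℕ} (y : Ext.{w} A (R.obj B) n) :
    Ext.{w'} (L.obj A) B n :=
  (y.mapExactFunctor L).comp (Ext.mk₀ (adj.counit.app B)) (add_zero n)

lemma extAdj_left_inv {A : C} {B : D} {n : ℕ} (x : Ext.{w'} (L.obj A) B n) :
    extAdjInv adj (extAdjTo adj x) = x := by
  have h1 : ((x.mapExactFunctor R : Ext.{w} _ _ n).mapExactFunctor L : Ext.{w'} _ _ n).comp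
      (Ext.mk₀ (adj.counit.app B)) (add_zero n) =
      (Ext.mk₀ (adj.counit.app (L.obj A))).comp x (zero_add n) := by
    have := mapExactFunctor_natTrans adj.counit x
    rw [mapExactFunctor_comp_functor, mapExactFunctor_id] at this
    exact this
  unfold extAdjInv extAdjTo
  rw [Ext.mapExactFunctor_comp, Ext.mapExactFunctor_mk₀, Ext.comp_assoc_of_third_deg_zero, h1,
    Ext.mk₀_comp_mk₀_assoc, adj.left_triangle_components]
  exact Ext.mk₀_id_comp x

lemma extAdj_right_inv {A : C} {B : D} {n : ℕ} (y : Ext.{w} A (R.obj B) n) :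
    extAdjTo adj (extAdjInv adj y) = y := by
  have h1 : (Ext.mk₀ (adj.unit.app A)).comp
      ((y.mapExactFunctor L : Ext.{w'} _ _ n).mapExactFunctor R : Ext.{w} _ _ n) (zero_add n) =
      y.comp (Ext.mk₀ (adj.unit.app (R.obj B))) (add_zero n) := by
    have := mapExactFunctor_natTrans adj.unit y
    rw [mapExactFunctor_comp_functor, mapExactFunctor_id] at this
    exact this.symm
  unfold extAdjInv extAdjTo
  rw [Ext.mapExactFunctor_comp, Ext.mapExactFunctor_mk₀, ← Ext.comp_assoc_of_third_deg_zero, h1,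
    Ext.comp_assoc_of_third_deg_zero, Ext.mk₀_comp_mk₀, adj.right_triangle_components]
  exact Ext.comp_mk₀_id y

variable (k : Type*) [Ring k] [Linear k C] [Linear k D] [R.Linear k] in
/-- **Ext and adjunctions**: for exact adjoint functors `L ⊣ R` one has
`Ext(L A, B) = Ext(A, R B)`. -/
noncomputable def extAdjEquiv (A : C) (B : D) (n : ℕ) :
    Ext.{w'} (L.obj A) B n ≃ₗ[k] Ext.{w} A (R.obj B) n where
  toFun := extAdjTo adj
  invFun := extAdjInv adj
  left_inv := extAdj_left_inv adj
  right_inv := extAdj_right_inv adj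
  map_add' x y := by
    unfold extAdjTo
    rw [Ext.mapExactFunctor_add, Ext.comp_add]
  map_smul' c x := by
    unfold extAdjTo
    rw [Functor.mapExactFunctor_smul, Ext.comp_smul, RingHom.id_apply]

omit [L.Additive] [PreservesFiniteLimits L] [PreservesFiniteColimits L] in
/-- naturality in the second variable, all degrees -/
lemma extAdjTo_comp {A : C} {B B' : D} {p q n : ℕ} (x : Ext.{w'} (L.obj A) B p)
    (y : Ext.{w'} B B' q) (h : p + q = n) :
    extAdjTo adj (x.comp y h) = (extAdjTo adj x).comp (y.mapExactFunctor R) h := by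
  unfold extAdjTo
  rw [Ext.mapExactFunctor_comp, Ext.comp_assoc _ _ _ (zero_add p) h (by lia)]

/-- naturality in the first variable, all degrees -/
lemma extAdjTo_map_comp {A A' : C} {B : D} {p q n : ℕ} (z : Ext.{w} A' A p)
    (x : Ext.{w'} (L.obj A) B q) (h : p + q = n) :
    extAdjTo adj ((z.mapExactFunctor L : Ext.{w'} _ _ p).comp x h) =
      z.comp (extAdjTo adj x) h := by
  have h1 : (Ext.mk₀ (adj.unit.app A')).comp
      ((z.mapExactFunctor L : Ext.{w'} _ _ p).mapExactFunctor R : Ext.{w} _ _ p) (zero_add p) =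
      z.comp (Ext.mk₀ (adj.unit.app A)) (add_zero p) := by
    have := mapExactFunctor_natTrans adj.unit z
    rw [mapExactFunctor_comp_functor, mapExactFunctor_id] at this
    exact this.symm
  unfold extAdjTo
  rw [Ext.mapExactFunctor_comp, ← Ext.comp_assoc _ _ _ (zero_add p) h (by lia), h1,
    Ext.comp_assoc _ _ _ (add_zero p) (zero_add q) (by lia)]

omit [L.Additive] [PreservesFiniteLimits L] [PreservesFiniteColimits L] in
lemma extAdjTo_mk₀ {A : C} {B : D} (f : L.obj A ⟶ B) :
    extAdjTo adj (Ext.mk₀ f) = Ext.mk₀ (adj.homEquiv A B f) := by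
  unfold extAdjTo
  rw [Ext.mapExactFunctor_mk₀, Ext.mk₀_comp_mk₀, adj.homEquiv_unit]

/-- the inverse, naturality in the second variable -/
lemma extAdjInv_comp {A : C} {B B' : D} {p q n : ℕ} (x : Ext.{w} A (R.obj B) p)
    (y : Ext.{w'} B B' q) (h : p + q = n) :
    extAdjInv adj (x.comp (y.mapExactFunctor R) h) = (extAdjInv adj x).comp y h := by
  have := extAdjTo_comp adj (extAdjInv adj x) y h
  rw [extAdj_right_inv] at this
  rw [← this, extAdj_left_inv]

/-- the inverse, naturality in the first variable -/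
lemma extAdjInv_map_comp {A A' : C} {B : D} {p q n : ℕ} (z : Ext.{w} A' A p)
    (x : Ext.{w} A (R.obj B) q) (h : p + q = n) :
    extAdjInv adj (z.comp x h) = (z.mapExactFunctor L).comp (extAdjInv adj x) h := by
  have := extAdjTo_map_comp adj z (extAdjInv adj x) h
  rw [extAdj_right_inv] at this
  rw [← this, extAdj_left_inv]

/-- If the exact left adjoint `L` of the exact functor `R` is such that the counit is an
isomorphism (`R` fully faithful) then `R` induces isomorphisms on Ext. -/
lemma mapExactFunctor_bijective_of_right (hR : ∀ B, IsIso (adj.counit.app B)) (B B' : D)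
    (n : ℕ) : Function.Bijective
      (fun x : Ext.{w'} B B' n => (x.mapExactFunctor R : Ext.{w} _ _ n)) := by
  have key : ∀ x : Ext.{w'} B B' n, (x.mapExactFunctor R : Ext.{w} _ _ n) =
      extAdjTo adj ((Ext.mk₀ (adj.counit.app B)).comp x (zero_add n)) := by
    intro x
    unfold extAdjTo
    rw [Ext.mapExactFunctor_comp, Ext.mapExactFunctor_mk₀, Ext.mk₀_comp_mk₀_assoc,
      adj.right_triangle_components]
    exact (Ext.mk₀_id_comp _).symm
  have hb := hR B
  constructor
  · intro x y hxy
    have h2 : extAdjTo adj ((Ext.mk₀ (adj.counit.app B)).comp x (zero_add n)) =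
        extAdjTo adj ((Ext.mk₀ (adj.counit.app B)).comp y (zero_add n)) := by
      rw [← key, ← key]; exact hxy
    have h3 := congrArg (extAdjInv adj) h2
    rw [extAdj_left_inv, extAdj_left_inv] at h3
    have h4 := congrArg (fun z => (Ext.mk₀ (inv (adj.counit.app B))).comp z (zero_add n)) h3
    simpa using h4
  · intro y
    refine ⟨(Ext.mk₀ (inv (adj.counit.app B))).comp (extAdjInv adj y) (zero_add n), ?_⟩
    show Ext.mapExactFunctor R _ = y
    rw [key, Ext.mk₀_comp_mk₀_assoc, IsIso.hom_inv_id]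
    exact (congrArg (extAdjTo adj) (Ext.mk₀_id_comp _)).trans (extAdj_right_inv adj y)

/-- If the unit is an isomorphism (`L` fully faithful) then `L` induces isomorphisms on Ext. -/
lemma mapExactFunctor_bijective_of_left (hL : ∀ A, IsIso (adj.unit.app A)) (A A' : C)
    (n : ℕ) : Function.Bijective
      (fun x : Ext.{w} A A' n => (x.mapExactFunctor L : Ext.{w'} _ _ n)) := by
  have key : ∀ x : Ext.{w} A A' n, (x.mapExactFunctor L : Ext.{w'} _ _ n) =
      extAdjInv adj (x.comp (Ext.mk₀ (adj.unit.app A')) (add_zero n)) := by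
    intro x
    unfold extAdjInv
    rw [Ext.mapExactFunctor_comp, Ext.mapExactFunctor_mk₀, Ext.comp_assoc_of_third_deg_zero,
      Ext.mk₀_comp_mk₀, adj.left_triangle_components]
    exact (Ext.comp_mk₀_id _).symm
  have hb := hL A'
  constructor
  · intro x y hxy
    have h2 : extAdjInv adj (x.comp (Ext.mk₀ (adj.unit.app A')) (add_zero n)) =
        extAdjInv adj (y.comp (Ext.mk₀ (adj.unit.app A')) (add_zero n)) := by
      rw [← key, ← key]; exact hxy
    have h3 := congrArg (extAdjTo adj) h2
    rw [extAdj_right_inv, extAdj_right_inv] at h3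
    have h4 := congrArg (fun z => z.comp (Ext.mk₀ (inv (adj.unit.app A'))) (add_zero n)) h3
    simpa [Ext.comp_assoc_of_third_deg_zero] using h4
  · intro y
    refine ⟨(extAdjTo adj y).comp (Ext.mk₀ (inv (adj.unit.app A'))) (add_zero n), ?_⟩
    show Ext.mapExactFunctor L _ = y
    rw [key, Ext.comp_assoc_of_third_deg_zero, Ext.mk₀_comp_mk₀, IsIso.inv_hom_id]
    exact (congrArg (extAdjInv adj) (Ext.comp_mk₀_id _)).trans (extAdj_left_inv adj y)

end adj

/-! ### equivalences -/

section equiv

variable (F : C ⥤ D) [F.IsEquivalence] [F.Additive]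
  [PreservesFiniteLimits F] [PreservesFiniteColimits F]

/-- an equivalence of abelian categories is bijective on Ext -/
lemma mapExactFunctor_bijective_of_isEquivalence (X Y : C) (n : ℕ) :
    Function.Bijective (fun x : Ext.{w} X Y n => (x.mapExactFunctor F : Ext.{w'} _ _ n)) := by
  have h0 : F.asEquivalence.functor.Additive := inferInstanceAs F.Additive
  have h1 : F.asEquivalence.inverse.Additive := F.asEquivalence.inverse_additive
  have h2 : PreservesFiniteLimits F.asEquivalence.functor :=
    inferInstanceAs (PreservesFiniteLimits F)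
  have h3 : PreservesFiniteColimits F.asEquivalence.functor :=
    inferInstanceAs (PreservesFiniteColimits F)
  exact mapExactFunctor_bijective_of_left F.asEquivalence.toAdjunction
    (fun A => inferInstance) X Y n

variable (k : Type*) [Ring k] [Linear k C] [Linear k D] [F.Linear k] in
/-- Ext along an equivalence -/
noncomputable def extEquivOfIsEquivalence (X Y : C) (n : ℕ) :
    Ext.{w} X Y n ≃ₗ[k] Ext.{w'} (F.obj X) (F.obj Y) n :=
  LinearEquiv.ofBijective (F.mapExtLinearMap k X Y n)
    (mapExactFunctor_bijective_of_isEquivalence F X Y n)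

end equiv

end Fdim
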