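import Mathlib
import Pool.Agent.Work.MP_f714fc_ag.Coh.Efface

/-!
# Ext along a fully faithful exact functor with enough preimages of epimorphisms

Let `F : A ⥤ B` be an exact fully faithful functor of abelian categories such that for every
epimorphism `M → F a` there are `a'` and `F a' → M` with `F a' → F a` an epimorphism. Then
`F` induces isomorphisms on all groups `Ext` (`mapExt_bijective`). The same holds if all classes
of positive degree between objects of the image die on epimorphisms of the source
(`mapExt_bijective_of_eff`).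
-/

universe w w' v v' u u' t

open CategoryTheory Limits Category Abelian

attribute [-instance] CategoryTheory.catToReflQuiver

namespace Fdim

variable {A : Type u} [Category.{v} A] [Abelian A] {B : Type u'} [Category.{v'} B] [Abelian B]

/-- epimorphisms onto objects of the image are dominated by epimorphisms of the source -/
def EpiDom (F : A ⥤ B) : Prop :=
  ∀ (a : A) (M : B) (p : M ⟶ F.obj a), Epi p → ∃ (a' : A) (q : F.obj a' ⟶ M), Epi (q ≫ p)

/-- an equivalence has enough preimages of epimorphisms -/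
lemma epiDom_of_isEquivalence {A : Type u} [Category.{v} A] {B : Type u'} [Category.{v'} B]
    (F : A ⥤ B) [F.IsEquivalence] : EpiDom F := fun a M p hp =>
  ⟨F.objPreimage M, (F.objObjPreimageIso M).hom, by infer_instance⟩

/-- objects isomorphic to objects of the image are dominated as well -/
lemma EpiDom.exists_epi {A : Type u} [Category.{v} A] {B : Type u'} [Category.{v'} B]
    {F : A ⥤ B} (hF : EpiDom F) {a : A} {N M : B} (e : N ≅ F.obj a)
    (p : M ⟶ N) [Epi p] : ∃ (a' : A) (q : F.obj a' ⟶ M), Epi (q ≫ p) := by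
  obtain ⟨a', q, hq⟩ := hF a M (p ≫ e.hom) inferInstance
  refine ⟨a', q, ?_⟩
  have : Epi ((q ≫ p ≫ e.hom) ≫ e.inv) := inferInstance
  simpa using this

variable (F : A ⥤ B) [F.Additive] [PreservesFiniteLimits F] [PreservesFiniteColimits F]

variable [HasExt.{w} A] [HasExt.{w'} B]

lemma map_extClass_comp {S : ShortComplex A} (hS : S.ShortExact) {Y : A} {n : ℕ}
    (e : Ext S.X₁ Y n) :
    (hS.extClass.comp e (add_comm 1 n)).mapExactFunctor F =
      (hS.map_of_exact F).extClass.comp (e.mapExactFunctor F) (add_comm 1 n) := by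
  rw [Ext.mapExactFunctor_comp, Ext.mapExactFunctor_extClass]
  rfl

lemma map_mk₀_comp {X X' Y : A} {n : ℕ} (f : X ⟶ X') (e : Ext X' Y n) :
    ((Ext.mk₀ f).comp e (zero_add n)).mapExactFunctor F =
      (Ext.mk₀ (F.map f)).comp (e.mapExactFunctor F) (zero_add n) := by
  rw [Ext.mapExactFunctor_comp, Ext.mapExactFunctor_mk₀]

lemma mapExt_injective_succ (Y : A) (n : ℕ) (hn : ∀ X, Function.Bijective (F.mapExtAddHom X Y n))
    (X : A) : Function.Injective (F.mapExtAddHom X Y (n + 1)) := by
  rw [injective_iff_map_eq_zero]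
  intro e he
  rw [Functor.mapExtAddHom_apply] at he
  obtain ⟨P, p, hp, h⟩ := Fdim.Coh.ext_exists_epi e
  let S := ShortComplex.mk _ _ (kernel.condition p)
  have hS : S.ShortExact := { exact := ShortComplex.exact_kernel p }
  obtain ⟨e', he'⟩ := Ext.contravariant_sequence_exact₃ hS Y e h (add_comm 1 n)
  have h1 : (hS.map_of_exact F).extClass.comp (e'.mapExactFunctor F) (add_comm 1 n) = 0 := by
    rw [← map_extClass_comp F hS, he']
    exact he
  obtain ⟨y, hy⟩ := Ext.contravariant_sequence_exact₁ (hS.map_of_exact F) (F.obj Y)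
    (e'.mapExactFunctor F) (add_comm 1 n) h1
  obtain ⟨y', hy'⟩ := (hn P).surjective y
  rw [Functor.mapExtAddHom_apply] at hy'
  have h2 : (Ext.mk₀ S.f).comp y' (zero_add n) = e' := by
    apply (hn _).injective
    rw [Functor.mapExtAddHom_apply, Functor.mapExtAddHom_apply, ← hy, map_mk₀_comp, hy']
    rfl
  rw [← he', ← h2, hS.extClass_comp_assoc]

/-- the step: surjectivity in degree `n + 1` from effaceability of the classes of degree
`n + 1` on epimorphisms of the source -/
lemma mapExt_surjective_succ (X Y : A) (n : ℕ)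
    (hF : ∀ g : Ext.{w'} (F.obj X) (F.obj Y) (n + 1),
      ∃ (P : A) (p : P ⟶ X), Epi p ∧ (Ext.mk₀ (F.map p)).comp g (zero_add _) = 0)
    (hn : ∀ X, Function.Bijective (F.mapExtAddHom X Y n)) :
    Function.Surjective (F.mapExtAddHom X Y (n + 1)) := by
  intro g
  obtain ⟨P, f, hfe, h0⟩ := hF g
  let S := ShortComplex.mk _ _ (kernel.condition f)
  have hS : S.ShortExact := { exact := ShortComplex.exact_kernel f }
  obtain ⟨g', hg'⟩ := Ext.contravariant_sequence_exact₃ (hS.map_of_exact F) (F.obj Y) g h0
    (add_comm 1 n)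
  obtain ⟨g'', hg''⟩ := (hn S.X₁).surjective g'
  rw [Functor.mapExtAddHom_apply] at hg''
  refine ⟨hS.extClass.comp g'' (add_comm 1 n), ?_⟩
  rw [Functor.mapExtAddHom_apply, map_extClass_comp, hg'']
  exact hg'

/-- effaceable form, bounded degrees: if the classes of positive degree at most `N` between
objects of the image die on epimorphisms of the source, then `F` is bijective on `Ext` in degrees
at most `N` -/
theorem mapExt_bijective_of_eff_le [F.Full] [F.Faithful] (Y : A) (N : ℕ)
    (hF : ∀ (X : A) (n : ℕ), n + 1 ≤ N → ∀ g : Ext.{w'} (F.obj X) (F.obj Y) (n + 1),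
      ∃ (P : A) (p : P ⟶ X), Epi p ∧ (Ext.mk₀ (F.map p)).comp g (zero_add _) = 0)
    (X : A) (n : ℕ) (hn : n ≤ N) : Function.Bijective (F.mapExtAddHom X Y n) := by
  induction n generalizing X with
  | zero => simpa [Ext.mapExactFunctor₀] using
      ⟨Functor.Faithful.map_injective, Functor.Full.map_surjective⟩
  | succ n ih =>
    exact ⟨mapExt_injective_succ F Y n (fun X => ih X (by lia)) X,
      mapExt_surjective_succ F X Y n (hF X n hn) (fun X => ih X (by lia))⟩

/-- effaceable form: if the classes of positive degree between objects of the image die on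
epimorphisms of the source, then `F` is bijective on `Ext` -/
theorem mapExt_bijective_of_eff [F.Full] [F.Faithful] (Y : A)
    (hF : ∀ (X : A) (n : ℕ) (g : Ext.{w'} (F.obj X) (F.obj Y) (n + 1)),
      ∃ (P : A) (p : P ⟶ X), Epi p ∧ (Ext.mk₀ (F.map p)).comp g (zero_add _) = 0)
    (X : A) (n : ℕ) : Function.Bijective (F.mapExtAddHom X Y n) :=
  mapExt_bijective_of_eff_le F Y n (fun X n _ g => hF X n g) X n le_rfl

omit [F.Additive] [PreservesFiniteLimits F] [HasExt.{w} A] in
/-- classes of positive degree die on epimorphisms of the source -/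
lemma EpiDom.eff (hF : EpiDom F) [F.Full] [F.Faithful] (X : A) (M : B) (n : ℕ)
    (g : Ext.{w'} (F.obj X) M (n + 1)) :
    ∃ (P : A) (p : P ⟶ X), Epi p ∧ (Ext.mk₀ (F.map p)).comp g (zero_add _) = 0 := by
  obtain ⟨M, p, hp, h⟩ := Fdim.Coh.ext_exists_epi g
  obtain ⟨a', q, hq⟩ := hF X M p hp
  obtain ⟨f, hf⟩ := F.map_surjective (q ≫ p)
  refine ⟨a', f, ?_, ?_⟩
  · apply F.epi_of_epi_map
    rw [hf]; exact hq
  · rw [hf, ← Ext.mk₀_comp_mk₀, Ext.comp_assoc_of_second_deg_zero, h, Ext.comp_zero]

/-- an exact fully faithful functor with enough preimages of epimorphisms induces isomorphisms on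
the groups `Ext` of all degrees -/
theorem mapExt_bijective (hF : EpiDom F) [F.Full] [F.Faithful] (X Y : A) (n : ℕ) :
    Function.Bijective (F.mapExtAddHom X Y n) :=
  mapExt_bijective_of_eff F Y (fun X n g => hF.eff F X (F.obj Y) n g) X n

/-- the additive equivalence of the groups `Ext` -/
noncomputable def extAddEquiv (hF : EpiDom F) [F.Full] [F.Faithful] (X Y : A) (n : ℕ) :
    Ext.{w} X Y n ≃+ Ext.{w'} (F.obj X) (F.obj Y) n :=
  AddEquiv.ofBijective (F.mapExtAddHom X Y n) (mapExt_bijective F hF X Y n)

lemma extAddEquiv_apply (hF : EpiDom F) [F.Full] [F.Faithful] (X Y : A) (n : ℕ)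
    (e : Ext.{w} X Y n) : extAddEquiv F hF X Y n e = e.mapExactFunctor F := rfl

section

variable (k : Type t) [Ring k] [Linear k A] [Linear k B] [F.Linear k]

/-- the linear equivalence of the groups `Ext` -/
noncomputable def extLinEquiv (hF : EpiDom F) [F.Full] [F.Faithful] (X Y : A) (n : ℕ) :
    Ext.{w} X Y n ≃ₗ[k] Ext.{w'} (F.obj X) (F.obj Y) n :=
  LinearEquiv.ofBijective (F.mapExtLinearMap k X Y n) (mapExt_bijective F hF X Y n)

lemma extLinEquiv_apply (hF : EpiDom F) [F.Full] [F.Faithful] (X Y : A) (n : ℕ)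
    (e : Ext.{w} X Y n) : extLinEquiv F k hF X Y n e = e.mapExactFunctor F := rfl

end

end Fdim
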