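import Mathlib

/-!
MP_f714fc_ag, definitions in an abelian category: Serre functor form of the canonical twist,
generation by global sections, ampleness.  In the application C is the category of coherent
sheaves on a variety, T is the tensor product with a line bundle, O the structure sheaf.
-/

open CategoryTheory CategoryTheory.Abelian CategoryTheory.Limits

universe w v u t

namespace Fdim

section Serre

variable (k : Type t) [Field k] {C : Type u} [Category.{v} C] [Abelian C] [Linear k C]
  [HasExt.{w} C]

/-- The pairing Ext^p(A, B) x Ext^q(B, M) -> Ext^n(A, M) -> k given by the Yoneda product and a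
linear functional t. -/
noncomputable def serrePairing {A M : C} {n : ℕ} (tr : Ext.{w} A M n →ₗ[k] k) (B : C) (p q : ℕ)
    (h : p + q = n) : Ext.{w} A B p →ₗ[k] Ext.{w} B M q →ₗ[k] k :=
  (Ext.bilinearCompOfLinear k A B M p q n h).compr₂ tr

@[simp] theorem serrePairing_apply {A M : C} {n : ℕ} (tr : Ext.{w} A M n →ₗ[k] k) (B : C)
    (p q : ℕ) (h : p + q = n) (a : Ext.{w} A B p) (b : Ext.{w} B M q) :
    serrePairing k tr B p q h a b = tr (a.comp b h) := rfl

/-- Serre duality in the Serre functor form (Bondal and Kapranov): T[n] is the Serre functor,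
that is, for every object A there is a functional on Ext^n(A, T A) such that the Yoneda pairings
Ext^p(A, B) x Ext^q(B, T A) -> Ext^n(A, T A) -> k, p + q = n, are perfect for all B, and
Ext^p(A, B) = 0 for p > n. -/
def IsSerreTwist (n : ℕ) (T : C ⥤ C) : Prop :=
  ∀ A : C, ∃ tr : Ext.{w} A (T.obj A) n →ₗ[k] k, ∀ B : C,
    (∀ (p q : ℕ) (h : p + q = n), (serrePairing k tr B p q h).IsPerfPair) ∧
      ∀ p : ℕ, n < p → Subsingleton (Ext.{w} A B p)

end Serre

section Ample

variable {C : Type u} [Category.{v} C] [HasZeroMorphisms C]

/-- A is generated by finitely many global sections O -> A: no nonzero morphism kills them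
all. -/
def GenBySections (O A : C) : Prop :=
  ∃ (j : ℕ) (f : Fin j → (O ⟶ A)), ∀ (B : C) (g : A ⟶ B), (∀ i, f i ≫ g = 0) → g = 0

/-- Hartshorne's ampleness: for every A the n-fold twist of A is generated by global sections for
all large n; T n is the n-fold twist. -/
def IsAmpleTwist (O : C) (T : ℤ → (C ⥤ C)) : Prop :=
  ∀ A : C, ∃ n₀ : ℤ, ∀ n ≥ n₀, GenBySections O ((T n).obj A)

end Ample

end Fdim
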