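import Pool.Agent.Work.MP_f714fc_ag.Abs.Host
import Pool.Agent.Work.MP_f714fc_ag.Loc.Dim

/-!
# Affine charts of an abelian category of coherent sheaves (`MP_f714fc_ag`)

`ChartData D`: finitely many exact functors to categories of modules over noetherian domains of
dimension at most two (the sections over the members of a finite affine cover of an integral
surface), compatible with the twist and with the action of the sections.  From these data we prove
* `ChartData.isFin_of_forall`: an object has finite length if the supports of all its modules of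
  sections consist of maximal ideals;
* `ChartData.exists_section`: for `n` large there is a section of `O(n)` which is nonzero at
  finitely many given points;
* `ChartData.dim_le_weak`: if `r T = 0`, then for all large `n` there is a section of `O(n)` whose
  action on `T` has kernel and cokernel of finite length.
-/

open CategoryTheory CategoryTheory.Abelian CategoryTheory.Limits

universe w v u t a m

set_option linter.unusedSectionVars false
set_option linter.checkUnivs false

namespace Fdim

variable (k : Type t) [Field k] (C : Type u) [Category.{v} C] [Abelian C] [Linear k C]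
  [HasShift C ℤ] [∀ n : ℤ, (shiftFunctor C n).Additive] [∀ n : ℤ, (shiftFunctor C n).Linear k]

variable {k C} in
/-- finitely many affine charts of the surface -/
structure ChartData (D : IntAmpleData k C) where
  /-- the index set of the charts -/
  I : Type
  finI : Finite I
  /-- the rings of functions on the charts -/
  A : I → Type a
  ring : ∀ i, CommRing (A i)
  alg : ∀ i, Algebra k (A i)
  dom : ∀ i, IsDomain (A i)
  noethA : ∀ i, IsNoetherianRing (A i)
  /-- sections on the charts -/
  G : ∀ i, C ⥤ ModuleCat.{m} (A i)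
  add : ∀ i, (G i).Additive
  lim : ∀ i, PreservesFiniteLimits (G i)
  colim : ∀ i, PreservesFiniteColimits (G i)
  finite : ∀ i (T : C), Module.Finite (A i) ((G i).obj T)
  cons : ∀ T : C, (∀ i, Subsingleton ((G i).obj T)) → IsZero T
  eO : ∀ i, (G i).obj D.O ≃ₗ[A i] A i
  tw : ∀ i (n : ℤ) (T : C), (G i).obj (T⟦n⟧) ≃ₗ[A i] (G i).obj T
  tw_nat : ∀ i (n : ℤ) {S T : C} (f : S ⟶ T) (x : (G i).obj (S⟦n⟧)),
    tw i n T (((G i).map (f⟦n⟧')).hom x) = ((G i).map f).hom (tw i n S x)
  loc : ∀ i (n : ℤ), ShiftedHom D.O D.O n →ₗ[k] A i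
  act_eq : ∀ i (n : ℤ) (T : C) (s : ShiftedHom D.O D.O n) (x : (G i).obj T),
    tw i n T (((G i).map (D.act n T s)).hom x) = loc i n s • x
  tors : ∀ T : C, D.r T = 0 → ∀ i, ∃ a : A i, a ≠ 0 ∧ ∀ x : (G i).obj T, a • x = 0
  dim2 : ∀ i, ringKrullDim (A i) ≤ 2

namespace ChartData

variable {k C} {D : IntAmpleData k C} (X : ChartData.{v, u, t, a, m} D)

attribute [instance] ChartData.finI ChartData.ring ChartData.alg ChartData.dom ChartData.noethA
  ChartData.add ChartData.lim ChartData.colim ChartData.finite

/-- sections on a chart are exact -/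
lemma exact_of_shortExact (i : X.I) {S : ShortComplex C} (hS : S.ShortExact) :
    Function.Injective ((X.G i).map S.f).hom ∧
      Function.Exact ((X.G i).map S.f).hom ((X.G i).map S.g).hom ∧
      Function.Surjective ((X.G i).map S.g).hom := by
  have h := hS.map_of_exact (X.G i)
  exact ⟨h.moduleCat_injective_f, (ShortComplex.ShortExact.moduleCat_exact_iff_function_exact _).1
    h.exact, h.moduleCat_surjective_g⟩

lemma injective_of_mono (i : X.I) {S T : C} (f : S ⟶ T) [Mono f] :
    Function.Injective ((X.G i).map f).hom := by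
  have : Mono ((X.G i).map f) := inferInstance
  exact (ModuleCat.mono_iff_injective _).1 this

lemma surjective_of_epi (i : X.I) {S T : C} (f : S ⟶ T) [Epi f] :
    Function.Surjective ((X.G i).map f).hom := by
  have : Epi ((X.G i).map f) := inferInstance
  exact (ModuleCat.epi_iff_surjective _).1 this

/-- the generator of the sections of `O` -/
noncomputable def one (i : X.I) : (X.G i).obj D.O := (X.eO i).symm 1

lemma smul_one (i : X.I) (x : (X.G i).obj D.O) : X.eO i x • X.one i = x := by
  apply (X.eO i).injective
  rw [map_smul, one, LinearEquiv.apply_symm_apply, smul_eq_mul, mul_one]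

/-- if the morphisms `g a : O ⟶ Q` are jointly epi, the images of the generator generate the
sections of `Q` on every chart -/
lemma span_eq_top (i : X.I) {Q : C} {N : ℕ} (g : Fin N → (D.O ⟶ Q))
    (hg : ∀ (B : C) (h : Q ⟶ B), (∀ a, g a ≫ h = 0) → h = 0) :
    Submodule.span (X.A i) (Set.range fun a => ((X.G i).map (g a)).hom (X.one i)) = ⊤ := by
  have : HasFiniteBiproducts C := Abelian.hasFiniteBiproducts
  have hepi : Epi (biproduct.desc g) := by
    refine Preadditive.epi_of_cancel_zero _ fun {B} h hh => hg B h fun a => ?_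
    rw [← biproduct.ι_desc g a, Category.assoc, hh, comp_zero]
  rw [eq_top_iff]
  rintro z -
  obtain ⟨y, rfl⟩ := X.surjective_of_epi i (biproduct.desc g) z
  have hy : y = ∑ a, ((X.G i).map (biproduct.ι (fun _ => D.O) a)).hom
      (((X.G i).map (biproduct.π (fun _ => D.O) a)).hom y) := by
    have h2 := congrArg (X.G i).map (biproduct.total (f := fun _ : Fin N => D.O))
    rw [Functor.map_sum, CategoryTheory.Functor.map_id] at h2
    have h3 := congrArg (fun φ => φ.hom y) h2
    simp only [Functor.map_comp, ModuleCat.hom_sum, ModuleCat.hom_comp, ModuleCat.hom_id,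
      LinearMap.sum_apply, LinearMap.comp_apply, LinearMap.id_apply] at h3
    exact h3.symm
  rw [hy, map_sum]
  refine Submodule.sum_mem _ fun a _ => ?_
  rw [← ModuleCat.comp_apply, ← Functor.map_comp, biproduct.ι_desc,
    ← X.smul_one i (((X.G i).map (biproduct.π (fun _ => D.O) a)).hom y), map_smul]
  exact Submodule.smul_mem _ _ (Submodule.subset_span ⟨a, rfl⟩)

/-- the local function of a section -/
lemma loc_eq (i : X.I) (n : ℤ) (h : ShiftedHom D.O D.O n) :
    X.loc i n h = X.eO i (X.tw i n D.O (((X.G i).map h).hom (X.one i))) := by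
  have h1 := X.act_eq i n D.O h (X.one i)
  rw [D.act_O] at h1
  rw [h1, map_smul, one, LinearEquiv.apply_symm_apply, smul_eq_mul, mul_one]

/-- for `n` large there is a section of `O(n)` which is nonzero at finitely many given points -/
theorem exists_section [Infinite k] {J : Type*} [Finite J] (j : J → X.I)
    (q : ∀ l, Ideal (X.A (j l))) (hq : ∀ l, (q l).IsPrime) :
    ∃ n₀ : ℤ, ∀ n ≥ n₀, ∃ s : ShiftedHom D.O D.O n, ∀ l, X.loc (j l) n s ∉ q l := by
  obtain ⟨n₀, hn₀⟩ := D.gg D.O
  refine ⟨n₀, fun n hn => ?_⟩
  obtain ⟨N, g, hg⟩ := hn₀ n hn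
  let W : J → Subspace k (ShiftedHom D.O D.O n) := fun l =>
    ((q l).restrictScalars k).comap (X.loc (j l) n)
  have hW : ∀ l, W l ≠ ⊤ := by
    intro l htop
    have h1 : ∀ a, X.loc (j l) n (g a) ∈ q l := fun a => by
      have : g a ∈ W l := by rw [htop]; trivial
      exact this
    refine (hq l).ne_top ((Ideal.eq_top_iff_one _).2 ?_)
    obtain ⟨y, hy⟩ := (X.eO (j l)).surjective 1
    obtain ⟨z, rfl⟩ := (X.tw (j l) n D.O).surjective y
    rw [← hy]
    have hz : z ∈ Submodule.span (X.A (j l))
      (Set.range fun a => ((X.G (j l)).map (g a)).hom (X.one (j l))) := by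
      rw [X.span_eq_top (j l) g hg]; trivial
    clear hy
    induction hz using Submodule.span_induction with
    | mem x hx =>
      obtain ⟨a, rfl⟩ := hx
      have := h1 a
      rwa [X.loc_eq] at this
    | zero => rw [map_zero, map_zero]; exact (q l).zero_mem
    | add x y _ _ hx hy => rw [map_add, map_add]; exact (q l).add_mem hx hy
    | smul c x _ hx => rw [map_smul, map_smul]; exact (q l).mul_mem_left c hx
  have h3 : ∃ h : ShiftedHom D.O D.O n, ∀ l, h ∉ W l := by
    by_contra hno
    push Not at hno
    have : ⋃ l, (W l : Set (ShiftedHom D.O D.O n)) = Set.univ := by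
      ext h
      simpa using hno h
    obtain ⟨l, hl⟩ := Subspace.exists_eq_top_of_iUnion_eq_univ this
    exact hW l hl
  obtain ⟨h, hh⟩ := h3
  exact ⟨h, fun l hl => hh l hl⟩

/-- the image of the action of a section on a chart -/
lemma range_act (i : X.I) (n : ℤ) (T : C) (s : ShiftedHom D.O D.O n) :
    LinearMap.range ((X.G i).map (D.act n T s)).hom =
      LinearMap.range (LinearMap.lsmul (X.A i) ((X.G i).obj (T⟦n⟧)) (X.loc i n s)) := by
  ext y
  constructor
  · rintro ⟨x, rfl⟩
    refine ⟨(X.tw i n T).symm x, ?_⟩
    apply (X.tw i n T).injective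
    rw [LinearMap.lsmul_apply, map_smul, LinearEquiv.apply_symm_apply, X.act_eq]
  · rintro ⟨x, rfl⟩
    refine ⟨X.tw i n T x, ?_⟩
    apply (X.tw i n T).injective
    rw [X.act_eq, LinearMap.lsmul_apply, map_smul]

include X in
/-- an object whose sections on the charts are supported on maximal ideals has finite length -/
theorem isFin_of_forall (T : C) (h : ∀ (i : X.I) (q : Ideal (X.A i)), q.IsPrime →
    Module.annihilator (X.A i) ((X.G i).obj T) ≤ q → q.IsMaximal) : IsFin T := by
  refine ⟨D.noeth T, ⟨?_⟩⟩
  have hart : ∀ i, IsArtinian (X.A i) ((X.G i).obj T) := fun i =>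
    (isFiniteLength_iff_isNoetherian_isArtinian.1
      (Loc.isFiniteLength_of_forall_isMaximal ((X.G i).obj T) (h i))).2
  let F : Subobject T → ∀ i, Submodule (X.A i) ((X.G i).obj T) := fun Z i =>
    LinearMap.range ((X.G i).map Z.arrow).hom
  have hF : StrictMono F := by
    intro Z Z' hlt
    have hle : F Z ≤ F Z' := by
      intro i
      rintro _ ⟨x, rfl⟩
      refine ⟨((X.G i).map (Subobject.ofLE Z Z' hlt.le)).hom x, ?_⟩
      rw [← ModuleCat.comp_apply, ← Functor.map_comp, Subobject.ofLE_arrow]
    refine lt_of_le_of_ne hle fun heq => hlt.ne ?_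
    have hepi : Epi (Subobject.ofLE Z Z' hlt.le) := by
      refine Preadditive.epi_of_isZero_cokernel _ (X.cons _ fun i => ?_)
      have hs : Function.Surjective ((X.G i).map (Subobject.ofLE Z Z' hlt.le)).hom := by
        intro y
        have hy : ((X.G i).map Z'.arrow).hom y ∈ F Z' i := ⟨y, rfl⟩
        rw [← heq] at hy
        obtain ⟨x, hx⟩ := hy
        refine ⟨x, X.injective_of_mono i Z'.arrow ?_⟩
        rw [← hx, ← ModuleCat.comp_apply, ← Functor.map_comp, Subobject.ofLE_arrow]
      refine ⟨fun x y => ?_⟩
      have hz : ∀ x : (X.G i).obj (cokernel (Subobject.ofLE Z Z' hlt.le)), x = 0 := by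
        intro x
        obtain ⟨x, rfl⟩ := X.surjective_of_epi i (cokernel.π _) x
        obtain ⟨x, rfl⟩ := hs x
        rw [← ModuleCat.comp_apply, ← Functor.map_comp, cokernel.condition, Functor.map_zero]
        rfl
      rw [hz x, hz y]
    have hiso : IsIso (Subobject.ofLE Z Z' hlt.le) := isIso_of_mono_of_epi _
    exact le_antisymm hlt.le (Subobject.le_of_comm (inv (Subobject.ofLE Z Z' hlt.le))
      (by rw [IsIso.inv_comp_eq, Subobject.ofLE_arrow]))
  exact hF.wellFoundedLT

include X in
/-- Block (D): if `r T = 0`, then for all large `n` there is a section of `O(n)` whose action on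
`T` has kernel and cokernel of finite length. -/
theorem dim_le_weak [Infinite k] (T : C) (hT : D.r T = 0) : ∃ n₀ : ℤ, ∀ n ≥ n₀,
    ∃ s : ShiftedHom D.O D.O n, IsFin (kernel (D.act n T s)) ∧ IsFin (cokernel (D.act n T s)) := by
  let J : Type _ := Σ i : X.I, {q : Ideal (X.A i) //
    q ∈ (Module.annihilator (X.A i) ((X.G i).obj T)).minimalPrimes}
  have hJ : Finite J := by
    have : ∀ i, Finite {q : Ideal (X.A i) //
        q ∈ (Module.annihilator (X.A i) ((X.G i).obj T)).minimalPrimes} := fun i =>
      (Ideal.finite_minimalPrimes_of_isNoetherianRing (X.A i) _).to_subtype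
    infer_instance
  obtain ⟨n₀, hn₀⟩ := X.exists_section (J := J) (fun l => l.1) (fun l => l.2.1)
    (fun l => l.2.2.1.1)
  refine ⟨n₀, fun n hn => ?_⟩
  obtain ⟨s, hs⟩ := hn₀ n hn
  -- the key point: a module killed by the annihilator of `G T` and by `s` has finite length
  have key : ∀ (N : C), (∀ i, Module.annihilator (X.A i) ((X.G i).obj T) ≤
      Module.annihilator (X.A i) ((X.G i).obj N)) →
      (∀ i, X.loc i n s ∈ Module.annihilator (X.A i) ((X.G i).obj N)) → IsFin N := by
    intro N h1 h2
    refine X.isFin_of_forall N fun i q hq hN => ?_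
    obtain ⟨p, hp, hpq⟩ := Ideal.exists_minimalPrimes_le ((h1 i).trans hN)
    have hsp : X.loc i n s ∉ p := hs ⟨i, p, hp⟩
    have := hp.1.1
    obtain ⟨a, ha, ha'⟩ := X.tors T hT i
    refine Loc.isMaximal_of_lt (p := p) (X.dim2 i) (fun e => ha ?_) ?_
    · have : a ∈ p := hp.1.2 (Module.mem_annihilator.2 ha')
      rwa [e, Submodule.mem_bot] at this
    · exact lt_of_le_of_ne hpq fun e => hsp (e ▸ hN (h2 i))
  refine ⟨s, key _ (fun i a ha => ?_) (fun i => ?_), key _ (fun i a ha => ?_) (fun i => ?_)⟩
  · rw [Module.mem_annihilator] at ha ⊢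
    intro x
    apply X.injective_of_mono i (kernel.ι (D.act n T s))
    rw [map_smul, ha, map_zero]
  · rw [Module.mem_annihilator]
    intro x
    apply X.injective_of_mono i (kernel.ι (D.act n T s))
    rw [map_smul, map_zero, ← X.act_eq, ← ModuleCat.comp_apply, ← Functor.map_comp,
      kernel.condition, Functor.map_zero]
    exact map_zero _
  · rw [Module.mem_annihilator] at ha ⊢
    intro x
    obtain ⟨x, rfl⟩ := X.surjective_of_epi i (cokernel.π (D.act n T s)) x
    have : a • x = 0 := by
      apply (X.tw i n T).injective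
      rw [map_smul, ha, map_zero]
    rw [← map_smul, this, map_zero]
  · rw [Module.mem_annihilator]
    intro x
    obtain ⟨x, rfl⟩ := X.surjective_of_epi i (cokernel.π (D.act n T s)) x
    have h1 : X.loc i n s • x ∈ LinearMap.range ((X.G i).map (D.act n T s)).hom := by
      rw [X.range_act]; exact ⟨x, rfl⟩
    obtain ⟨y, hy⟩ := h1
    rw [← map_smul, ← hy, ← ModuleCat.comp_apply, ← Functor.map_comp, cokernel.condition,
      Functor.map_zero]
    rfl

end ChartData

end Fdim
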