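import Mathlib

/-!
MP_f714fc_ag, abstract part.  Common definitions: dimensions of Ext groups, Euler
characteristic, the numerical package of a surface-like abelian category.
-/

open CategoryTheory CategoryTheory.Abelian CategoryTheory.Limits

universe w v u t

namespace Fdim

variable (k : Type t) [Field k] {C : Type u} [Category.{v} C] [Abelian C] [Linear k C]
  [HasExt.{w} C]

/-- dimension of the Ext group in degree p -/
noncomputable def ext (A B : C) (p : ℕ) : ℕ := Module.finrank k (Ext A B p)

/-- Euler characteristic, truncated at degree 2 (the degrees at least 3 vanish below) -/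
noncomputable def chi (A B : C) : ℤ := (ext k A B 0 : ℤ) - ext k A B 1 + ext k A B 2

/-- objects of finite length -/
def IsFin (A : C) : Prop := IsNoetherianObject A ∧ IsArtinianObject A

/-- an object without nonzero subobjects of finite length -/
def NoFin (A : C) : Prop := ∀ (Z : C) (i : Z ⟶ A), Mono i → IsFin Z → IsZero Z

variable (C) in
/-- The numerical package of a smooth projective surface with canonical twist K and with the
structure sheaf O: everything the abstract key lemma uses. -/
structure SurfNum where
  /-- twist by the canonical bundle -/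
  K : C ⥤ C
  hK : K.IsEquivalence
  hKadd : K.Additive
  noeth : ∀ A : C, IsNoetherianObject A
  fin : ∀ (A B : C) (p : ℕ), Module.Finite k (Ext A B p)
  van : ∀ (A B : C) (p : ℕ), 3 ≤ p → Subsingleton (Ext A B p)
  serre : ∀ (A B : C) (p q : ℕ), p + q = 2 → ext k A B p = ext k B (K.obj A) q
  /-- the structure sheaf -/
  O : C
  /-- generic rank -/
  r : C → ℕ
  r_add : ∀ S : ShortComplex C, S.ShortExact → r S.X₂ = r S.X₁ + r S.X₃
  r_O : r O = 1
  r_K : ∀ A, r (K.obj A) = r A
  /-- degree with respect to the anticanonical class -/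
  d : C → ℤ
  d_def : ∀ A, d A = chi k O A - chi k A O
  /-- (N1) -/
  n1 : ∀ A B : C, chi k A B - chi k B A = r A * d B - r B * d A
  /-- (N2) -/
  n2 : ∀ T : C, r T = 0 → 0 ≤ d T
  n2' : ∀ T : C, r T = 0 → (d T = 0 ↔ IsFin T)
  fin_r : ∀ Z : C, IsFin Z → r Z = 0
  /-- finite sheaves have sections -/
  fin_pos : ∀ Z : C, IsFin Z → ¬ IsZero Z → 0 < chi k O Z
  fin_chi : ∀ Z : C, IsFin Z → chi k Z Z = 0
  /-- the canonical bundle has negative degree -/
  dKO : d (K.obj O) < 0
  /-- the canonical bundle is torsion free -/
  torsKO : ∀ (T : C) (f : T ⟶ K.obj O), r T = 0 → f = 0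
  /-- degrees of subobjects are bounded above -/
  bdd : ∀ A : C, ∃ c : ℤ, ∀ (A' : C) (i : A' ⟶ A), Mono i → d A' ≤ c

end Fdim
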