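import Pool.Agent.Work.MP_f714fc_ag.Abs.Host
import Pool.Agent.Work.MP_f714fc_ag.Coh.Efface

/-!
MP_f714fc_ag.  Two axioms of HostData are consequences of the others:
(S5) if a section of positive degree acts surjectively on T then T has finite length;
(S6) there is an object of rank zero which has not finite length.
-/

open CategoryTheory CategoryTheory.Abelian CategoryTheory.Limits

universe w v u t

namespace Fdim

namespace DimFree

section general

variable {C : Type u} [Category.{v} C] [Abelian C]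

/-- `A` is generated by morphisms from `O` -/
def Gen (O A : C) : Prop := ∀ (B : C) (g : A ⟶ B), (∀ f : O ⟶ A, f ≫ g = 0) → g = 0

lemma Gen.of_iso {O A A' : C} (h : Gen O A) (e : A ≅ A') : Gen O A' := fun B g hg => by
  have h1 : e.hom ≫ g = 0 := h B _ (fun f => by rw [← Category.assoc]; exact hg _)
  rw [← cancel_epi e.hom, h1, comp_zero]

variable (F : C ⥤ C)

/-- iterates of a functor on an object -/
def iterObj (T : C) : ℕ → C
  | 0 => T
  | m + 1 => F.obj (iterObj T m)

variable {F} (η : ∀ A : C, A ⟶ F.obj A)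

/-- the map to the iterates -/
def iterMap (T : C) : ∀ m : ℕ, T ⟶ iterObj F T m
  | 0 => 𝟙 T
  | m + 1 => iterMap T m ≫ η (iterObj F T m)

omit [Abelian C] in
lemma epi_app_iterObj (hF1 : ∀ A : C, Epi (η A) → Epi (η (F.obj A))) (T : C)
    (hT : Epi (η T)) (m : ℕ) : Epi (η (iterObj F T m)) := by
  induction m with
  | zero => exact hT
  | succ m ih => exact hF1 _ ih

omit [Abelian C] in
lemma epi_iterMap (hF1 : ∀ A : C, Epi (η A) → Epi (η (F.obj A))) (T : C)
    (hT : Epi (η T)) (m : ℕ) : Epi (iterMap η T m) := by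
  induction m with
  | zero => exact inferInstanceAs (Epi (𝟙 T))
  | succ m ih =>
    have := epi_app_iterObj η hF1 T hT m
    exact epi_comp (iterMap η T m) (η (iterObj F T m))

/-- over a noetherian object an epimorphism `T ⟶ F T` given by a natural transformation is a
monomorphism -/
lemma mono_app_of_epi (hF1 : ∀ A : C, Epi (η A) → Epi (η (F.obj A)))
    (hF2 : ∀ A : C, Mono (η (F.obj A)) → Mono (η A)) (T : C) [IsNoetherianObject T]
    (hT : Epi (η T)) : Mono (η T) := by
  let f : ℕ →o Subobject T :=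
    ⟨fun m => kernelSubobject (iterMap η T m), monotone_nat_of_le_succ fun m =>
      kernelSubobject_comp_le (iterMap η T m) (η (iterObj F T m))⟩
  obtain ⟨n, hn⟩ := monotone_chain_condition_of_isNoetherianObject f
  have hn' : kernelSubobject (iterMap η T n) = kernelSubobject (iterMap η T (n + 1)) :=
    hn (n + 1) (Nat.le_succ n)
  have hepi := epi_iterMap η hF1 T hT n
  have hmono : Mono (η (iterObj F T n)) := by
    refine Preadditive.mono_of_cancel_zero _ fun {Z} g hg => ?_
    have h1 : pullback.fst (iterMap η T n) g ≫ iterMap η T (n + 1) = 0 := by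
      change pullback.fst (iterMap η T n) g ≫ iterMap η T n ≫ η (iterObj F T n) = 0
      rw [pullback.condition_assoc, hg, comp_zero]
    have h2 : (kernelSubobject (iterMap η T (n + 1))).Factors
        (pullback.fst (iterMap η T n) g) := kernelSubobject_factors _ _ h1
    rw [← hn', kernelSubobject_factors_iff] at h2
    rw [pullback.condition] at h2
    exact (cancel_epi (pullback.snd (iterMap η T n) g)).mp (by rw [h2, comp_zero])
  have key : ∀ m : ℕ, Mono (η (iterObj F T m)) → Mono (η T) := by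
    intro m
    induction m with
    | zero => exact fun h => h
    | succ m ih => exact fun h => ih (hF2 _ h)
  exact key n hmono

/-- the natural transformation is an isomorphism on the subobjects of `T` -/
lemma isIso_app_of_mono [F.Additive] [F.PreservesMonomorphisms] [F.PreservesEpimorphisms]
    (hnat : ∀ {X Y : C} (f : X ⟶ Y), f ≫ η Y = η X ≫ F.map f)
    (hF1 : ∀ A : C, Epi (η A) → Epi (η (F.obj A)))
    (hF2 : ∀ A : C, Mono (η (F.obj A)) → Mono (η A)) (hn : ∀ A : C, IsNoetherianObject A)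
    (T : C) (hT : Epi (η T)) (A : C) (i : A ⟶ T) (hi : Mono i) : IsIso (η A) := by
  have hiso : ∀ Q : C, Epi (η Q) → IsIso (η Q) := fun Q hQ => by
    have := hn Q
    have := mono_app_of_epi η hF1 hF2 Q hQ
    exact isIso_of_mono_of_epi _
  have hTi := hiso T hT
  have hQ : Epi (η (cokernel i)) := by
    have h1 : Epi (cokernel.π i ≫ η (cokernel i)) := by
      rw [hnat]
      exact epi_comp _ _
    exact epi_of_epi (cokernel.π i) _
  have hQi := hiso _ hQ
  have h0 : (F.map i ≫ inv (η T)) ≫ cokernel.π i = 0 := by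
    rw [← cancel_mono (η (cokernel i)), Category.assoc, Category.assoc, hnat,
      IsIso.inv_hom_id_assoc, ← F.map_comp, cokernel.condition, F.map_zero, zero_comp]
  let l : F.obj A ⟶ A := Abelian.monoLift i (F.map i ≫ inv (η T)) h0
  have hl : l ≫ i = F.map i ≫ inv (η T) := Abelian.monoLift_comp _ _ _
  refine ⟨l, ?_, ?_⟩
  · rw [← cancel_mono i, Category.assoc, hl, ← Category.assoc, ← hnat i, Category.assoc,
      IsIso.hom_inv_id, Category.comp_id, Category.id_comp]
  · rw [← cancel_mono (F.map i), Category.assoc, ← hnat i, ← Category.assoc, hl, Category.assoc,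
      IsIso.inv_hom_id, Category.comp_id, Category.id_comp]

/-- an object all of whose subobjects are generated by morphisms from `O`, with
finite dimensional `Hom(O,T)`, has finite length -/
lemma isFin_of_gen (k : Type t) [Field k] [Linear k C] (O T : C) [Module.Finite k (O ⟶ T)]
    (h : ∀ (A : C) (i : A ⟶ T), Mono i → Gen O A) : IsFin T := by
  let V : Subobject T → Submodule k (O ⟶ T) := fun A =>
    { carrier := {f | A.Factors f}
      add_mem' := fun {f g} hf hg => Subobject.factors_add f g hf hg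
      zero_mem' := Subobject.factors_zero
      smul_mem' := fun r f hf => by
        have h1 : r • f = (r • A.factorThru f hf) ≫ A.arrow := by
          rw [Linear.smul_comp, Subobject.factorThru_arrow]
        change A.Factors (r • f)
        rw [h1]
        exact Subobject.factors_comp_arrow _ }
  have hV : StrictMono V := by
    intro A B hAB
    refine lt_of_le_not_ge (fun f hf => Subobject.factors_of_le f hAB.le hf) fun hBA => ?_
    have h1 : cokernel.π (Subobject.ofLE A B hAB.le) = 0 := by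
      refine h (B : C) B.arrow inferInstance _ _ fun f => ?_
      have h2 : A.Factors (f ≫ B.arrow) := hBA (Subobject.factors_comp_arrow f)
      have h3 : f = A.factorThru _ h2 ≫ Subobject.ofLE A B hAB.le := by
        rw [← cancel_mono B.arrow, Category.assoc, Subobject.ofLE_arrow,
          Subobject.factorThru_arrow]
      rw [h3, Category.assoc, cokernel.condition, comp_zero]
    have h4 : Epi (Subobject.ofLE A B hAB.le) := Preadditive.epi_of_cokernel_zero h1
    have h5 : IsIso (Subobject.ofLE A B hAB.le) := isIso_of_mono_of_epi _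
    refine hAB.not_ge ?_
    exact Subobject.le_of_comm (inv (Subobject.ofLE A B hAB.le)) (by
      rw [IsIso.inv_comp_eq, Subobject.ofLE_arrow])
  have h1 : WellFoundedLT (Subobject T) := hV.wellFoundedLT
  have h2 : WellFoundedGT (Subobject T) := hV.wellFoundedGT
  exact ⟨⟨h2⟩, ⟨h1⟩⟩

end general

section twist

variable {k : Type t} [Field k] {C : Type u} [Category.{v} C] [Abelian C] [Linear k C]
  [HasShift C ℤ] [∀ n : ℤ, (shiftFunctor C n).Additive] [∀ n : ℤ, (shiftFunctor C n).Linear k]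
  (D : AmpleData k C)

omit [∀ n : ℤ, (shiftFunctor C n).Additive] [∀ n : ℤ, (shiftFunctor C n).Linear k] in
lemma act_naturality {n : ℤ} (s : ShiftedHom D.O D.O n) {A B : C} (f : A ⟶ B) :
    f ≫ D.act n B s = D.act n A s ≫ f⟦n⟧' := by
  have h := D.central (ShiftedHom.mk₀ (0 : ℤ) rfl f) s (p := n) (by omega) (by omega)
  rwa [ShiftedHom.mk₀_comp, ShiftedHom.comp_mk₀] at h

omit [∀ n : ℤ, (shiftFunctor C n).Additive] [∀ n : ℤ, (shiftFunctor C n).Linear k] in
lemma act_shift {n : ℤ} (s : ShiftedHom D.O D.O n) (A : C) (m : ℤ) :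
    (D.act n A s)⟦m⟧' ≫ (shiftFunctorAdd' C n m (n + m) rfl).inv.app A =
      D.act n (A⟦m⟧) s ≫ (shiftFunctorAdd' C m n (n + m) (add_comm m n)).inv.app A := by
  have h := D.central (m := m) (𝟙 (A⟦m⟧) : ShiftedHom (A⟦m⟧) A m) s (p := n + m)
    rfl (add_comm m n)
  simpa [ShiftedHom.comp] using h

omit [∀ n : ℤ, (shiftFunctor C n).Additive] [∀ n : ℤ, (shiftFunctor C n).Linear k] in
lemma act_shift_self {n : ℤ} (s : ShiftedHom D.O D.O n) (A : C) :
    D.act n (A⟦n⟧) s = (D.act n A s)⟦n⟧' := by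
  have h := act_shift D s A n
  rwa [cancel_mono, eq_comm] at h

omit [Abelian C] [∀ n : ℤ, (shiftFunctor C n).Additive] in
lemma nonempty_iso_shift_mul {n : ℤ} {A : C} (e : A ≅ A⟦n⟧) (q : ℕ) :
    Nonempty (A ≅ A⟦(q : ℤ) * n⟧) := by
  induction q with
  | zero =>
    exact ⟨((shiftFunctorZero' C ((0 : ℕ) * n : ℤ) (by simp)).app A).symm⟩
  | succ q ih =>
    obtain ⟨e'⟩ := ih
    have h : (q : ℤ) * n + n = ((q + 1 : ℕ) : ℤ) * n := by push_cast; ring
    exact ⟨e ≪≫ (shiftFunctor C n).mapIso e' ≪≫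
      ((shiftFunctorAdd' C ((q : ℤ) * n) n _ h).app A).symm⟩

omit [∀ n : ℤ, (shiftFunctor C n).Linear k] in
/-- (S5): if a section of positive degree acts surjectively on `T`, then `T` has finite
length. -/
theorem isFin_of_epi_act (noeth : ∀ A : C, IsNoetherianObject A) (T : C)
    [Module.Finite k (D.O ⟶ T)] {n : ℤ} (hn : 1 ≤ n) (s : ShiftedHom D.O D.O n)
    (hepi : Epi (D.act n T s)) : IsFin T := by
  refine isFin_of_gen k D.O T fun A i hi => ?_
  have hiso : IsIso (D.act n A s) := by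
    refine isIso_app_of_mono (F := shiftFunctor C n) (fun A => D.act n A s)
      (fun f => act_naturality D s f) (fun A hA => ?_) (fun A hA => ?_) noeth T hepi A i hi
    · change Epi (D.act n (A⟦n⟧) s)
      rw [act_shift_self]
      exact inferInstanceAs (Epi ((shiftFunctor C n).map (D.act n A s)))
    · have h1 : Mono ((shiftFunctor C n).map (D.act n A s)) := by
        have h2 : Mono (D.act n (A⟦n⟧) s) := hA
        rwa [act_shift_self] at h2
      exact (shiftFunctor C n).mono_of_mono_map h1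
  obtain ⟨n₀, hgg⟩ := D.gg A
  obtain ⟨e⟩ := nonempty_iso_shift_mul (asIso (D.act n A s) : A ≅ A⟦n⟧) n₀.toNat
  have hle : n₀ ≤ (n₀.toNat : ℤ) * n := by nlinarith [Int.self_le_toNat n₀]
  obtain ⟨j, f, hf⟩ := hgg _ hle
  have hgen : Gen D.O (A⟦(n₀.toNat : ℤ) * n⟧) := fun B g hg => hf B g (fun i => hg (f i))
  exact hgen.of_iso e.symm

omit [∀ n : ℤ, (shiftFunctor C n).Linear k] in
/-- a simple object is acted on nontrivially by a section coming from a given epimorphism
onto `O` -/
lemma exists_act_ne_zero (Q : C) [Simple Q] {E : C} (π : E ⟶ D.O) [Epi π] :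
    ∃ (n : ℤ) (σ : D.O ⟶ E⟦n⟧), D.act n Q (σ ≫ π⟦n⟧') ≠ 0 := by
  obtain ⟨n, hE⟩ := D.gg E
  obtain ⟨m, hQ⟩ := D.gg Q
  obtain ⟨j, σ, hσ⟩ := hE n le_rfl
  obtain ⟨l, f, hf⟩ := hQ m le_rfl
  have hQm : Simple (Q⟦m⟧) := simple_obj (shiftFunctor C m) Q
  have hex : ∃ i, f i ≠ 0 := by
    by_contra hno
    push Not at hno
    have h1 : 𝟙 (Q⟦m⟧) = 0 := hf _ (𝟙 _) (fun i => by rw [hno i, zero_comp])
    exact id_nonzero _ h1
  obtain ⟨i, hi⟩ := hex
  by_contra hno
  push Not at hno
  have h2 : ∀ a, σ a ≫ (π ≫ (f i))⟦n⟧' = 0 := by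
    intro a
    have h3 : D.act n (Q⟦m⟧) (σ a ≫ π⟦n⟧') = 0 := by
      have h4 := act_shift D (σ a ≫ π⟦n⟧') Q m
      rw [hno n (σ a), Functor.map_zero, zero_comp] at h4
      exact (cancel_mono _).mp (by rw [← h4, zero_comp])
    have h5 := act_naturality D (σ a ≫ π⟦n⟧') (f i)
    rw [h3, comp_zero, D.act_O] at h5
    rw [Functor.map_comp, ← Category.assoc]
    exact h5.symm
  have h6 : (π ≫ (f i))⟦n⟧' = 0 := hσ _ _ h2
  have h7 : π ≫ f i = 0 := (shiftFunctor C n).map_injective (by rw [h6, Functor.map_zero])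
  exact hi ((cancel_epi π).mp (by rw [h7, comp_zero]))

omit [∀ n : ℤ, (shiftFunctor C n).Linear k] in
/-- every morphism from the kernel of an epimorphism onto `O` to a simple object extends -/
lemma exists_extension (Q : C) [Simple Q] {S : ShortComplex C} (hS : S.ShortExact)
    (e : S.X₃ ≅ D.O) (φ : S.X₁ ⟶ Q) : ∃ ψ : S.X₂ ⟶ Q, S.f ≫ ψ = φ := by
  have := hS.epi_g
  have hmono := hS.mono_f
  obtain ⟨n, σ, hσ⟩ := exists_act_ne_zero D Q (S.g ≫ e.hom)
  set s : ShiftedHom D.O D.O n := σ ≫ (S.g ≫ e.hom)⟦n⟧' with hs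
  have hQn : Simple (Q⟦n⟧) := simple_obj (shiftFunctor C n) Q
  have hiso : IsIso (D.act n Q s) := isIso_of_hom_simple hσ
  let θ : S.X₂ ⟶ S.X₂⟦n⟧ := D.act n S.X₂ s - (S.g ≫ e.hom) ≫ σ
  have h1 : θ ≫ (S.g ≫ e.hom)⟦n⟧' = 0 := by
    rw [Preadditive.sub_comp, ← act_naturality, D.act_O, hs]
    simp only [Category.assoc, sub_self]
  have h2 : θ ≫ S.g⟦n⟧' = 0 := by
    rw [Functor.map_comp, ← Category.assoc] at h1
    exact (cancel_mono (e.hom⟦n⟧')).mp (by rw [h1, zero_comp])
  have hSn : (S.map (shiftFunctor C n)).ShortExact := hS.map_of_exact (shiftFunctor C n)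
  have hmono3 : Mono (S.map (shiftFunctor C n)).f := hSn.mono_f
  have hmono2 : Mono (S.f⟦n⟧') := hmono3
  let θ' : S.X₂ ⟶ S.X₁⟦n⟧ := hSn.exact.lift θ h2
  have hθ' : θ' ≫ S.f⟦n⟧' = θ := hSn.exact.lift_f θ h2
  have h3 : S.f ≫ θ' = D.act n S.X₁ s := by
    rw [← cancel_mono (S.f⟦n⟧'), Category.assoc, hθ', Preadditive.comp_sub, act_naturality,
      ← Category.assoc, ← Category.assoc, S.zero, zero_comp, zero_comp, sub_zero]
  refine ⟨θ' ≫ φ⟦n⟧' ≫ inv (D.act n Q s), ?_⟩
  rw [← Category.assoc, h3, ← Category.assoc, ← act_naturality, Category.assoc,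
    IsIso.hom_inv_id, Category.comp_id]

variable [HasExt.{w} C]

omit [∀ n : ℤ, (shiftFunctor C n).Linear k] in
/-- `Ext^1(O, Q) = 0` for `Q` simple -/
theorem ext_one_O_simple (Q : C) [Simple Q] : Subsingleton (Ext D.O Q 1) := by
  refine subsingleton_of_forall_eq 0 fun x => ?_
  obtain ⟨P, p, hp, hx⟩ := Fdim.Coh.ext_exists_epi (n := 0) x
  let S : ShortComplex C := ShortComplex.mk (kernel.ι p) p (kernel.condition p)
  have hS : S.ShortExact := { exact := ShortComplex.exact_kernel p }
  obtain ⟨y, hy⟩ := Ext.contravariant_sequence_exact₃ hS Q x hx (n₀ := 0) rfl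
  obtain ⟨φ, rfl⟩ := (Ext.mk₀_bijective _ _).2 y
  obtain ⟨ψ, hψ⟩ := exists_extension D Q hS (Iso.refl _) φ
  rw [← hy, ← hψ, ← Ext.mk₀_comp_mk₀]
  exact hS.extClass_comp_assoc _

end twist

end DimFree

section host

open DimFree

variable (k : Type t) [Field k] (C : Type u) [Category.{v} C] [Abelian C] [Linear k C]
  [HasShift C ℤ] [∀ n : ℤ, (shiftFunctor C n).Additive] [∀ n : ℤ, (shiftFunctor C n).Linear k]
  [HasExt.{w} C]

/-- HostData with the weak form of `dim_le` and without `dim_ge` -/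
structure HostData0 extends IntAmpleData k C where
  dim_le0 : ∀ T : C, r T = 0 → ∃ n₀ : ℤ, ∀ n ≥ n₀, ∃ s : ShiftedHom O O n,
    IsFin (kernel (act n T s)) ∧ IsFin (cokernel (act n T s))
  fin : ∀ (A B : C) (p : ℕ), Module.Finite k (Ext A B p)
  van : ∀ (A B : C) (p : ℕ), 3 ≤ p → Subsingleton (Ext A B p)
  serre : ∀ (A B : C) (p q : ℕ), p + q = 2 → ext k A B p = ext k B (A⟦(-1 : ℤ)⟧) q

namespace HostData0

variable {k C} (H : HostData0.{w} k C)

set_option linter.unusedSectionVars false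

include H in
lemma subsingleton_of_ext_eq_zero {A B : C} {p : ℕ} (h : ext k A B p = 0) :
    Subsingleton (Ext A B p) := by
  have := H.fin A B p
  exact Module.finrank_zero_iff.mp h

lemma r_eq_zero_of_isZero {X : C} (hX : IsZero X) : H.r X = 0 := by
  let S : ShortComplex C := ShortComplex.mk (0 : X ⟶ X) (0 : X ⟶ X) (by simp)
  have hS : S.ShortExact :=
    { exact := ShortComplex.exact_of_isZero_X₂ _ hX
      mono_f := ⟨fun _ _ _ => hX.eq_of_tgt _ _⟩
      epi_g := ⟨fun _ _ _ => hX.eq_of_src _ _⟩ }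
  have h := H.r_add S hS
  change H.r X = H.r X + H.r X at h
  omega

lemma r_eq_zero_of_mono {A B : C} (i : A ⟶ B) [Mono i] (hB : H.r B = 0) : H.r A = 0 := by
  let S : ShortComplex C := ShortComplex.mk i (cokernel.π i) (cokernel.condition i)
  have hS : S.ShortExact := { exact := ShortComplex.exact_cokernel i }
  have h := H.r_add S hS
  change H.r B = H.r A + H.r (cokernel i) at h
  omega

lemma ext_one_simple_O (Q : C) [Simple Q] : Subsingleton (Ext Q H.O 1) := by
  refine H.subsingleton_of_ext_eq_zero ?_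
  rw [H.serre Q H.O 1 1 rfl]
  have hQ : Simple (Q⟦(-1 : ℤ)⟧) := simple_obj (shiftFunctor C (-1 : ℤ)) Q
  have := ext_one_O_simple.{w} H.toAmpleData (Q⟦(-1 : ℤ)⟧)
  exact Module.finrank_zero_of_subsingleton

lemma isZero_of_isZero_shift {X : C} {n : ℤ} (h : IsZero (X⟦n⟧)) : IsZero X := by
  rw [IsZero.iff_id_eq_zero] at h ⊢
  refine (shiftFunctor C n).map_injective ?_
  rw [CategoryTheory.Functor.map_id, h, Functor.map_zero]

/-- `O(n)` is torsion free -/
lemma isZero_of_mono_shift {A : C} {n : ℤ} (i : A ⟶ H.O⟦n⟧) [Mono i] (hA : H.r A = 0) :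
    IsZero A := by
  have h0 : Mono (i⟦-n⟧') := inferInstanceAs (Mono ((shiftFunctor C (-n)).map i))
  have h1 : IsZero (A⟦-n⟧) := H.tors_free _ (i⟦-n⟧' ≫ (shiftShiftNeg H.O n).hom)
    (mono_comp _ _) (by rw [H.r_shift, hA])
  exact isZero_of_isZero_shift h1

/-- if every torsion object is finite, nonzero sections are isomorphisms -/
lemma isIso_section (hall : ∀ T : C, H.r T = 0 → IsFin T) {n : ℤ} (s : H.O ⟶ H.O⟦n⟧)
    (hs : s ≠ 0) : IsIso s := by
  have hmono : Mono s := H.mono_of_ne n s hs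
  let S : ShortComplex C := ShortComplex.mk s (cokernel.π s) (cokernel.condition s)
  have hS : S.ShortExact := { exact := ShortComplex.exact_cokernel s }
  have hr : H.r (cokernel s) = 0 := by
    have h := H.r_add S hS
    change H.r (H.O⟦n⟧) = H.r H.O + H.r (cokernel s) at h
    rw [H.r_shift] at h
    omega
  by_cases hz : IsZero (cokernel s)
  · have : Epi s := Preadditive.epi_of_isZero_cokernel s hz
    exact isIso_of_mono_of_epi s
  · exfalso
    have hart : IsArtinianObject (cokernel s) := (hall _ hr).2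
    obtain ⟨Y, hY⟩ := exists_simple_subobject hz
    have hext := H.ext_one_simple_O (Y : C)
    obtain ⟨x₂, hx₂⟩ := Ext.covariant_sequence_exact₃ (Y : C) hS (Ext.mk₀ Y.arrow)
      (zero_add 1) (Subsingleton.elim (α := Ext (Y : C) H.O 1) _ _)
    obtain ⟨j, rfl⟩ := (Ext.mk₀_bijective _ _).2 x₂
    rw [Ext.mk₀_comp_mk₀, (Ext.mk₀_bijective _ _).1.eq_iff] at hx₂
    have hj : j ≫ cokernel.π s = Y.arrow := hx₂
    have hjm : Mono (j ≫ cokernel.π s) := by rw [hj]; infer_instance
    have hjm' : Mono j := mono_of_mono j (cokernel.π s)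
    have h0 : IsZero (Y : C) := H.isZero_of_mono_shift (n := n) j
      (H.r_eq_zero_of_mono Y.arrow hr)
    exact Simple.not_isZero (Y : C) h0

lemma not_isZero_O : ¬ IsZero H.O := fun h => by
  have h1 := H.r_eq_zero_of_isZero h
  rw [H.r_O] at h1
  exact one_ne_zero h1

/-- if nonzero sections are isomorphisms, epimorphisms onto `O` split -/
lemma exists_section_of_epi (hiso : ∀ (n : ℤ) (s : H.O ⟶ H.O⟦n⟧), s ≠ 0 → IsIso s) {E : C}
    (π : E ⟶ H.O) [Epi π] : ∃ t : H.O ⟶ E, t ≫ π = 𝟙 _ := by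
  obtain ⟨n, hE⟩ := H.gg E
  obtain ⟨j, σ, hσ⟩ := hE n le_rfl
  have hex : ∃ a, σ a ≫ π⟦n⟧' ≠ 0 := by
    by_contra hno
    push Not at hno
    have h1 : π⟦n⟧' = 0 := hσ _ _ hno
    have h2 : (𝟙 (H.O⟦n⟧)) = 0 := by
      rw [← cancel_epi (π⟦n⟧'), h1, zero_comp, zero_comp]
    have h3 : IsZero (H.O⟦n⟧) := (IsZero.iff_id_eq_zero _).mpr h2
    exact H.not_isZero_O (isZero_of_isZero_shift h3)
  obtain ⟨a, ha⟩ := hex
  have := hiso n _ ha
  obtain ⟨t, ht⟩ := (shiftFunctor C n).map_surjective (inv (σ a ≫ π⟦n⟧') ≫ σ a)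
  refine ⟨t, (shiftFunctor C n).map_injective ?_⟩
  rw [Functor.map_comp, ht, Category.assoc, IsIso.inv_hom_id, CategoryTheory.Functor.map_id]

lemma projective_O (hiso : ∀ (n : ℤ) (s : H.O ⟶ H.O⟦n⟧), s ≠ 0 → IsIso s) :
    Projective H.O where
  factors {E X} f e he := by
    obtain ⟨t, ht⟩ := H.exists_section_of_epi hiso (pullback.fst f e)
    refine ⟨t ≫ pullback.snd f e, ?_⟩
    rw [Category.assoc, ← pullback.condition, ← Category.assoc, ht, Category.id_comp]

/-- (S6): there is an object of rank zero of infinite length -/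
theorem dim_ge : ∃ T : C, H.r T = 0 ∧ ¬ IsFin T := by
  by_contra hno
  push Not at hno
  have hproj := H.projective_O (fun n s hs => H.isIso_section hno s hs)
  have h1 : ext k H.O H.O 0 = 0 := by
    rw [H.serre H.O H.O 0 2 rfl]
    have : Subsingleton (Ext H.O (H.O⟦(-1 : ℤ)⟧) 2) := Ext.subsingleton_of_projective _ _ 1
    exact Module.finrank_zero_of_subsingleton
  have h2 := H.subsingleton_of_ext_eq_zero h1
  have h3 : 𝟙 H.O = 0 := (Ext.mk₀_bijective _ _).1 (Subsingleton.elim _ _)
  exact H.not_isZero_O ((IsZero.iff_id_eq_zero _).mpr h3)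

/-- the strong form of `dim_le` -/
theorem dim_le (T : C) (hT : H.r T = 0) : ∃ n₀ : ℤ, ∀ n ≥ n₀, ∃ s : ShiftedHom H.O H.O n,
    IsFin (kernel (H.act n T s)) ∧ IsFin (cokernel (H.act n T s)) ∧
      (¬ IsFin T → ¬ IsZero (cokernel (H.act n T s))) := by
  obtain ⟨n₀, h⟩ := H.dim_le0 T hT
  refine ⟨max n₀ 1, fun n hn => ?_⟩
  obtain ⟨s, h1, h2⟩ := h n ((le_max_left _ _).trans hn)
  refine ⟨s, h1, h2, fun hT hz => hT ?_⟩
  have hepi : Epi (H.act n T s) := Preadditive.epi_of_isZero_cokernel _ hz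
  have hfin : Module.Finite k (H.O ⟶ T) := by
    have := H.fin H.O T 0
    exact Module.Finite.equiv (Ext.linearEquiv₀ (R := k))
  exact isFin_of_epi_act H.toAmpleData H.noeth T ((le_max_right _ _).trans hn) s hepi

/-- HostData from the weak form -/
def toHostData : HostData.{w} k C where
  toIntAmpleData := H.toIntAmpleData
  dim_le := H.dim_le
  dim_ge := H.dim_ge
  fin := H.fin
  van := H.van
  serre := H.serre

end HostData0

end host

end Fdim
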