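import Mathlib

set_option autoImplicit false

/-!
Additive functions on an abelian category, subobjects of maximal slope.
-/

namespace Pool.Agent.Work.MP_f714fc_ag.Abs

open CategoryTheory CategoryTheory.Limits ZeroObject

universe v u

variable {C : Type u} [Category.{v} C] [Abelian C]

/-- additive functions -/
def IsAdd (f : C → ℤ) : Prop := ∀ S : ShortComplex C, S.ShortExact → f S.X₂ = f S.X₁ + f S.X₃

lemma ses_of_epi {X I : C} (p : X ⟶ I) [Epi p] :
    (ShortComplex.mk (kernel.ι p) p (kernel.condition p)).ShortExact where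
  exact := ShortComplex.exact_of_f_is_kernel _ (kernelIsKernel p)
  mono_f := by dsimp; infer_instance
  epi_g := by dsimp; infer_instance

lemma ses_of_mono {X I : C} (i : I ⟶ X) [Mono i] :
    (ShortComplex.mk i (cokernel.π i) (cokernel.condition i)).ShortExact where
  exact := ShortComplex.exact_of_g_is_cokernel _ (cokernelIsCokernel i)
  mono_f := by dsimp; infer_instance
  epi_g := by dsimp; infer_instance

lemma ses_biprod (X Y : C) :
    (ShortComplex.mk (biprod.inl : X ⟶ X ⊞ Y) (biprod.snd : X ⊞ Y ⟶ Y) (by simp)).ShortExact :=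
  (ShortComplex.Splitting.ofHasBinaryBiproduct X Y).shortExact

lemma ses_zero_left (A : C) : (ShortComplex.mk (0 : (0 : C) ⟶ A) (𝟙 A) (by simp)).ShortExact where
  exact := by
    refine (ShortComplex.exact_iff_mono _ rfl).mpr ?_
    dsimp
    infer_instance
  mono_f := by
    dsimp
    exact ⟨fun _ _ _ => (isZero_zero C).eq_of_tgt _ _⟩
  epi_g := by dsimp; infer_instance

lemma ses_zero (Z : C) (hZ : IsZero Z) :
    (ShortComplex.mk (0 : Z ⟶ Z) (0 : Z ⟶ Z) (by simp)).ShortExact where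
  exact := ShortComplex.exact_of_isZero_X₂ _ hZ
  mono_f := ⟨fun _ _ _ => hZ.eq_of_tgt _ _⟩
  epi_g := ⟨fun _ _ _ => hZ.eq_of_src _ _⟩

lemma IsAdd.zero {f : C → ℤ} (hf : IsAdd f) {Z : C} (hZ : IsZero Z) : f Z = 0 := by
  have := hf _ (ses_zero Z hZ)
  dsimp at this
  omega

lemma IsAdd.epi {f : C → ℤ} (hf : IsAdd f) {X I : C} (p : X ⟶ I) [Epi p] :
    f X = f (kernel p) + f I := hf _ (ses_of_epi p)

lemma IsAdd.iso {f : C → ℤ} (hf : IsAdd f) {X Y : C} (e : X ≅ Y) : f X = f Y := by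
  have h1 := hf.epi e.hom
  rw [hf.zero (isZero_kernel_of_mono e.hom)] at h1
  omega

/-- the preimage of a subobject of the quotient -/
lemma pull_ses {S : ShortComplex C} (hS : S.ShortExact) {J : C} (j : J ⟶ S.X₃) :
    ∃ (P : C) (a : S.X₁ ⟶ P) (b : P ⟶ J) (w : a ≫ b = 0) (c : P ⟶ S.X₂),
      (ShortComplex.mk a b w).ShortExact ∧ a ≫ c = S.f ∧ c ≫ S.g = b ≫ j ∧ (Mono j → Mono c) := by
  have := hS.mono_f
  have := hS.epi_g
  have hw : S.f ≫ S.g = 0 ≫ j := by rw [S.zero, zero_comp]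
  have hw2 : pullback.lift S.f 0 hw ≫ pullback.snd S.g j = 0 := pullback.lift_snd _ _ _
  refine ⟨pullback S.g j, pullback.lift S.f 0 hw, pullback.snd S.g j, hw2, pullback.fst S.g j,
    ?_, pullback.lift_fst _ _ _, pullback.condition, fun hj => inferInstance⟩
  have hmono : Mono (pullback.lift S.f 0 hw) := by
    have : Mono (pullback.lift S.f 0 hw ≫ pullback.fst S.g j) := by
      rw [pullback.lift_fst]
      infer_instance
    exact mono_of_mono _ (pullback.fst S.g j)
  refine { exact := ?_, mono_f := hmono, epi_g := by dsimp; infer_instance }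
  rw [ShortComplex.exact_iff_exact_up_to_refinements]
  intro Z x hx
  dsimp at x hx ⊢
  have h1 : (x ≫ pullback.fst S.g j) ≫ S.g = 0 := by
    rw [Category.assoc, pullback.condition, ← Category.assoc, hx, zero_comp]
  refine ⟨Z, 𝟙 Z, inferInstance, hS.exact.lift _ h1, ?_⟩
  rw [Category.id_comp]
  apply pullback.hom_ext
  · rw [Category.assoc, pullback.lift_fst, hS.exact.lift_f]
  · rw [Category.assoc, pullback.lift_snd, comp_zero, hx]

variable (C) in
/-- A level: a class of objects `P` (closed under subobjects, quotients and extensions) with two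
additive functions `n` (the 'rank') and `e` (the 'degree'), and an autoequivalence `T` which lowers
the slope by `c`. -/
structure Lvl where
  T : C ≌ C
  P : C → Prop
  n : C → ℤ
  e : C → ℤ
  c : ℤ
  hc : 0 < c
  nadd : IsAdd n
  eadd : IsAdd e
  hP : ∀ S : ShortComplex C, S.ShortExact → (P S.X₂ ↔ P S.X₁ ∧ P S.X₃)
  hP0 : ∀ Z, IsZero Z → P Z
  n0 : ∀ X, P X → 0 ≤ n X
  e0 : ∀ X, P X → n X = 0 → 0 ≤ e X
  PT : ∀ X, P (T.functor.obj X) → P X
  nT : ∀ X, P X → n (T.functor.obj X) = n X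
  eT : ∀ X, P X → e (T.functor.obj X) = e X - c * n X

namespace Lvl

variable (L : Lvl C)

/-- all nonzero subobjects in the class have positive rank -/
def Good (A : C) : Prop := ∀ (X : C) (i : X ⟶ A) [Mono i], L.P X → ¬ IsZero X → 0 < L.n X

/-- all subobjects in the class have slope at most `p / q` -/
def Bd (p q : ℤ) (A : C) : Prop := ∀ (X : C) (i : X ⟶ A) [Mono i], L.P X → L.e X * q ≤ p * L.n X

/-- there is a nonzero subobject in the class -/
def Has (A : C) : Prop := ∃ (X : C) (i : X ⟶ A), Mono i ∧ L.P X ∧ ¬ IsZero X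

/-- bounds for the ranks of the subobjects in the class -/
def NB (N : ℤ) (A : C) : Prop := ∀ (X : C) (i : X ⟶ A) [Mono i], L.P X → L.n X ≤ N

/-- bounds for the degrees of the subobjects in the class -/
def EB (E : ℤ) (A : C) : Prop := ∀ (X : C) (i : X ⟶ A) [Mono i], L.P X → L.e X ≤ E

variable {L}

lemma P_iso {X Y : C} (f : X ≅ Y) (h : L.P X) : L.P Y := ((L.hP _ (ses_of_epi f.hom)).mp h).2

lemma P_epi {X I : C} (p : X ⟶ I) [Epi p] (h : L.P X) : L.P (kernel p) ∧ L.P I :=
  (L.hP _ (ses_of_epi p)).mp h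

lemma P_sub {X I : C} (i : I ⟶ X) [Mono i] (h : L.P X) : L.P I := ((L.hP _ (ses_of_mono i)).mp h).1

lemma P_biprod {X Y : C} (hX : L.P X) (hY : L.P Y) : L.P (X ⊞ Y) :=
  (L.hP _ (ses_biprod X Y)).mpr ⟨hX, hY⟩

/-- A subobject of maximal slope exists. -/
lemma exists_max_slope {A : C} (hg : L.Good A) {N E : ℤ} (hN : L.NB N A) (hE : L.EB E A)
    (hex : L.Has A) : ∃ (M : C) (i : M ⟶ A), Mono i ∧ L.P M ∧ ¬ IsZero M ∧
      ∀ (X : C) (j : X ⟶ A) [Mono j], L.P X → L.e X * L.n M ≤ L.e M * L.n X := by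
  classical
  set D : ℤ := ((N.toNat).factorial : ℤ) with hD
  have hD0 : 0 < D := by
    rw [hD]
    exact_mod_cast Nat.factorial_pos _
  -- multiples
  have hm : ∀ (X : C) (i : X ⟶ A) [Mono i], L.P X → ¬ IsZero X → ∃ m : ℤ, 0 < m ∧ m * L.n X = D := by
    intro X i _ hX hX0
    have h1 := hg X i hX hX0
    have h2 := hN X i hX
    have h3 : (L.n X).toNat ∣ (N.toNat).factorial :=
      Nat.dvd_factorial (by omega) (by omega)
    obtain ⟨m, hm⟩ := h3
    have h4 : D = L.n X * m := by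
      rw [hD, hm]
      push_cast
      rw [Int.toNat_of_nonneg h1.le]
    refine ⟨m, ?_, by rw [h4]; ring⟩
    have h5 : 0 < L.n X * (m : ℤ) := by rw [← h4]; exact hD0
    exact pos_of_mul_pos_right h5 h1.le |> fun h => h
  let Q : ℤ → Prop := fun z => ∃ (X : C) (i : X ⟶ A) (m : ℤ), Mono i ∧ L.P X ∧ ¬ IsZero X ∧ 0 < m ∧
    m * L.n X = D ∧ z = m * L.e X
  have hQb : ∃ b : ℤ, ∀ z, Q z → z ≤ b := by
    refine ⟨D * |E|, ?_⟩
    rintro z ⟨X, i, m, hi, hX, hX0, hm0, hmD, rfl⟩
    have h1 := hE X i hX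
    have h2 := hg X i hX hX0
    have h3 : m ≤ D := by rw [← hmD]; nlinarith
    have h4 : L.e X ≤ |E| := h1.trans (le_abs_self _)
    have h5 := abs_nonneg E
    calc m * L.e X ≤ m * |E| := mul_le_mul_of_nonneg_left h4 hm0.le
      _ ≤ D * |E| := mul_le_mul_of_nonneg_right h3 h5
  have hQe : ∃ z, Q z := by
    obtain ⟨X, i, hi, hX, hX0⟩ := hex
    obtain ⟨m, hm0, hmD⟩ := hm X i hX hX0
    exact ⟨m * L.e X, X, i, m, hi, hX, hX0, hm0, hmD, rfl⟩
  obtain ⟨z, ⟨M, i, m, hi, hM, hM0, hm0, hmD, hz⟩, hmax⟩ := Int.exists_greatest_of_bdd hQb hQe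
  refine ⟨M, i, hi, hM, hM0, ?_⟩
  intro X j _ hX
  by_cases hX0 : IsZero X
  · rw [L.eadd.zero hX0, L.nadd.zero hX0]
    simp
  · obtain ⟨m', hm0', hmD'⟩ := hm X j hX hX0
    have h1 := hmax (m' * L.e X) ⟨X, j, m', inferInstance, hX, hX0, hm0', hmD', rfl⟩
    rw [hz] at h1
    have h2 := hg X j hX hX0
    have h3 := hg M i hM hM0
    -- `m' e X ≤ m e M`, multiplied by `n X * n M`
    have h4 : (m' * L.e X) * (L.n X * L.n M) ≤ (m * L.e M) * (L.n X * L.n M) :=
      mul_le_mul_of_nonneg_right h1 (mul_pos h2 h3).le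
    have h5 : (m' * L.e X) * (L.n X * L.n M) = D * (L.e X * L.n M) := by rw [← hmD']; ring
    have h6 : (m * L.e M) * (L.n X * L.n M) = D * (L.e M * L.n X) := by rw [← hmD]; ring
    rw [h5, h6] at h4
    exact le_of_mul_le_mul_left h4 hD0

/-- The largest subobject of maximal slope. -/
theorem exists_max {A : C} [IsNoetherianObject A] (hg : L.Good A) {N E : ℤ} (hN : L.NB N A)
    (hE : L.EB E A) (hex : L.Has A) : ∃ (M : C) (i : M ⟶ A), Mono i ∧ L.P M ∧ ¬ IsZero M ∧
      (∀ (X : C) (j : X ⟶ A) [Mono j], L.P X → L.e X * L.n M ≤ L.e M * L.n X) ∧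
      (∀ (X : C) (j : X ⟶ A) [Mono j], L.P X → L.e X * L.n M = L.e M * L.n X →
        ∃ f : X ⟶ M, f ≫ i = j) := by
  classical
  let 𝓜 : Set (Subobject A) := {Q | L.P (Q : C) ∧ ¬ IsZero (Q : C) ∧
    ∀ (X : C) (j : X ⟶ A) [Mono j], L.P X → L.e X * L.n (Q : C) ≤ L.e (Q : C) * L.n X}
  have hne : 𝓜.Nonempty := by
    obtain ⟨M, i, hi, hM, hM0, hmax⟩ := exists_max_slope hg hN hE hex
    have e : M ≅ (Subobject.mk i : C) := (Subobject.underlyingIso i).symm
    refine ⟨Subobject.mk i, P_iso e hM, fun h => hM0 (h.of_iso e), ?_⟩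
    intro X j _ hX
    rw [← L.nadd.iso e, ← L.eadd.iso e]
    exact hmax X j hX
  obtain ⟨Q, ⟨hQ, hQ0, hQm⟩, hQmax⟩ := wellFounded_gt.has_min 𝓜 hne
  refine ⟨(Q : C), Q.arrow, inferInstance, hQ, hQ0, hQm, ?_⟩
  intro X j _ hX heq
  set f : (Q : C) ⊞ X ⟶ A := biprod.desc Q.arrow j with hf
  set p := factorThruImage f with hp
  have hfp : p ≫ image.ι f = f := image.fac f
  have hκ : kernel.ι p ≫ f = 0 := by
    have h1 : kernel.ι p ≫ p ≫ image.ι f = kernel.ι p ≫ f := congrArg (kernel.ι p ≫ ·) hfp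
    rw [← h1, ← Category.assoc, kernel.condition, zero_comp]
  have hPB : L.P ((Q : C) ⊞ X) := P_biprod hQ hX
  obtain ⟨hPK, hPI⟩ := P_epi p hPB
  have hnB : L.n ((Q : C) ⊞ X) = L.n (Q : C) + L.n X := L.nadd _ (ses_biprod _ _)
  have heB : L.e ((Q : C) ⊞ X) = L.e (Q : C) + L.e X := L.eadd _ (ses_biprod _ _)
  have hnI := L.nadd.epi p
  have heI := L.eadd.epi p
  have hdesc : f = biprod.fst ≫ Q.arrow + biprod.snd ≫ j := by
    rw [hf]
    apply biprod.hom_ext' <;> simp
  have hKmono : Mono (kernel.ι p ≫ biprod.fst ≫ Q.arrow) := by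
    refine Preadditive.mono_of_cancel_zero _ fun {Z} g hg0 => ?_
    have h1 : (g ≫ kernel.ι p ≫ biprod.fst) = 0 := by
      rw [← cancel_mono Q.arrow, zero_comp]
      simpa using hg0
    have h2 : g ≫ kernel.ι p ≫ (biprod.fst ≫ Q.arrow + biprod.snd ≫ j) = 0 := by
      rw [← hdesc, hκ, comp_zero]
    have h3 : (g ≫ kernel.ι p ≫ biprod.snd) ≫ j = 0 := by
      rw [Preadditive.comp_add, Preadditive.comp_add] at h2
      have h4 : g ≫ kernel.ι p ≫ biprod.fst ≫ Q.arrow = 0 := hg0
      rw [h4, zero_add] at h2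
      simpa using h2
    have h4 : (g ≫ kernel.ι p ≫ biprod.snd) = 0 := by
      rw [← cancel_mono j, h3, zero_comp]
    rw [← cancel_mono (kernel.ι p), zero_comp]
    apply biprod.hom_ext
    · simpa using h1
    · simpa using h4
  have hK := hQm _ (kernel.ι p ≫ biprod.fst ≫ Q.arrow) hPK
  have hI := hQm _ (image.ι f) hPI
  have hnQ : 0 < L.n (Q : C) := hg _ Q.arrow hQ hQ0
  have hIeq : L.e (image f) * L.n (Q : C) = L.e (Q : C) * L.n (image f) := by
    apply le_antisymm hI
    rw [hnB] at hnI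
    rw [heB] at heI
    have h1 : L.e (image f) = L.e (Q : C) + L.e X - L.e (kernel p) := by linarith
    have h2 : L.n (image f) = L.n (Q : C) + L.n X - L.n (kernel p) := by linarith
    rw [h1, h2]
    nlinarith
  have hQI : Mono (biprod.inl ≫ p : (Q : C) ⟶ image f) := by
    have : Mono ((biprod.inl ≫ p : (Q : C) ⟶ image f) ≫ image.ι f) := by
      rw [Category.assoc, hfp, hf, biprod.inl_desc]
      infer_instance
    exact mono_of_mono _ (image.ι f)
  have hI0 : ¬ IsZero (image f) := fun h => by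
    apply hQ0
    rw [IsZero.iff_id_eq_zero, ← cancel_mono (biprod.inl ≫ p : (Q : C) ⟶ image f)]
    exact h.eq_of_tgt _ _
  have hnI0 : 0 < L.n (image f) := hg _ (image.ι f) hPI hI0
  set R : Subobject A := Subobject.mk (image.ι f) with hR
  have e : image f ≅ (R : C) := (Subobject.underlyingIso (image.ι f)).symm
  have hRM : R ∈ 𝓜 := by
    refine ⟨P_iso e hPI, fun h => hI0 (h.of_iso e), ?_⟩
    intro Y l _ hY
    rw [← L.nadd.iso e, ← L.eadd.iso e]
    have h1 := hQm Y l hY
    -- `e Y n I n Q ≤ e I n Y n Q`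
    have h2 : (L.e Y * L.n (image f)) * L.n (Q : C) ≤ (L.e (image f) * L.n Y) * L.n (Q : C) := by
      have h3 := mul_le_mul_of_nonneg_right h1 hnI0.le
      have h4 : (L.e (image f) * L.n Y) * L.n (Q : C) = L.e (Q : C) * L.n Y * L.n (image f) := by
        rw [mul_right_comm, hIeq]
        ring
      rw [h4]
      calc _ = L.e Y * L.n (Q : C) * L.n (image f) := by ring
        _ ≤ _ := h3
    exact le_of_mul_le_mul_right h2 hnQ
  have hQR : Q ≤ R := Subobject.le_mk_of_comm (biprod.inl ≫ p) (by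
    rw [Category.assoc, hfp, hf, biprod.inl_desc])
  have hRQ : R ≤ Q := by
    rcases hQR.eq_or_lt with h | h
    · exact h.ge
    · exact absurd h (hQmax R hRM)
  refine ⟨biprod.inr ≫ p ≫ Subobject.ofMkLE (image.ι f) Q hRQ, ?_⟩
  rw [Category.assoc, Category.assoc, Subobject.ofMkLE_arrow, hfp, hf, biprod.inr_desc]

/-- A slice: a subobject of slope `p / q`, such that all subobjects of the quotient have a smaller
slope. -/
structure Slice (L : Lvl C) (p q : ℤ) (A : C) where
  sub : C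
  quo : C
  i : sub ⟶ A
  π : A ⟶ quo
  w : i ≫ π = 0
  ex : (ShortComplex.mk i π w).ShortExact
  P : L.P sub
  slope : L.e sub * q = p * L.n sub
  lt : ∀ (J : C) (j : J ⟶ quo) [Mono j], L.P J → ¬ IsZero J → L.e J * q < p * L.n J

lemma exists_slice {A : C} [IsNoetherianObject A] (hg : L.Good A) {N E : ℤ} (hN : L.NB N A)
    (hE : L.EB E A) {p q : ℤ} (hq : 0 < q) (hb : L.Bd p q A) : Nonempty (L.Slice p q A) := by
  by_cases hex : ∃ (X : C) (i : X ⟶ A), Mono i ∧ L.P X ∧ ¬ IsZero X ∧ L.e X * q = p * L.n X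
  · obtain ⟨X, i, hi, hX, hX0, hXs⟩ := hex
    obtain ⟨M, m, hm, hM, hM0, hmax, huniq⟩ := exists_max hg hN hE ⟨X, i, hi, hX, hX0⟩
    have hnM := hg M m hM hM0
    have hnX := hg X i hX hX0
    -- the slope of `M`
    have hMs : L.e M * q = p * L.n M := by
      apply le_antisymm (hb M m hM)
      have h1 := hmax X i hX
      -- `p n X n M = e X q n M ≤ e M n X q`
      have h2 : (p * L.n M) * L.n X ≤ (L.e M * q) * L.n X := by
        have h3 := mul_le_mul_of_nonneg_right h1 hq.le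
        calc (p * L.n M) * L.n X = (p * L.n X) * L.n M := by ring
          _ = (L.e X * q) * L.n M := by rw [hXs]
          _ = L.e X * L.n M * q := by ring
          _ ≤ L.e M * L.n X * q := h3
          _ = _ := by ring
      exact le_of_mul_le_mul_right h2 hnX
    refine ⟨⟨M, cokernel m, m, cokernel.π m, cokernel.condition m, ses_of_mono m, hM, hMs, ?_⟩⟩
    intro J j _ hJ hJ0
    obtain ⟨Y, a, b, w, c, hY, hac, hcb, hc⟩ := pull_ses (ses_of_mono m) j
    have hcm : Mono c := hc inferInstance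
    have hPY : L.P Y := (L.hP _ hY).mpr ⟨hM, hJ⟩
    have hnY : L.n Y = L.n M + L.n J := L.nadd _ hY
    have heY : L.e Y = L.e M + L.e J := L.eadd _ hY
    have h1 := hb Y c hPY
    rw [hnY, heY] at h1
    have h2 : L.e J * q ≤ p * L.n J := by nlinarith
    refine lt_of_le_of_ne h2 fun h3 => hJ0 ?_
    have h4 : L.e Y * L.n M = L.e M * L.n Y := by
      have h5 : (L.e Y * L.n M) * q = (L.e M * L.n Y) * q := by
        rw [hnY, heY]
        calc (L.e M + L.e J) * L.n M * q = (L.e M * q + L.e J * q) * L.n M := by ring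
          _ = (p * L.n M + p * L.n J) * L.n M := by rw [hMs, h3]
          _ = (p * L.n M) * (L.n M + L.n J) := by ring
          _ = (L.e M * q) * (L.n M + L.n J) := by rw [hMs]
          _ = _ := by ring
      exact mul_right_cancel₀ hq.ne' h5
    obtain ⟨g, hgc⟩ := huniq Y c hPY h4
    have hb0 : b ≫ j = 0 := by
      have h6 : c ≫ cokernel.π m = b ≫ j := hcb
      rw [← h6, ← hgc, Category.assoc, cokernel.condition, comp_zero]
    have : Epi b := hY.epi_g
    have hj0 : j = 0 := by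
      rw [← cancel_epi b, hb0, comp_zero]
    rw [IsZero.iff_id_eq_zero, ← cancel_mono j, hj0, comp_zero, comp_zero]
  · push Not at hex
    refine ⟨⟨0, A, 0, 𝟙 A, by simp, ses_zero_left A, L.hP0 _ (isZero_zero C), ?_, ?_⟩⟩
    · rw [L.eadd.zero (isZero_zero C), L.nadd.zero (isZero_zero C)]
      ring
    · intro J j hj hJ hJ0
      exact lt_of_le_of_ne (hb J j hJ) (hex J j hj hJ hJ0)

namespace Slice

variable {p q : ℤ} {A : C} (s : L.Slice p q A)

lemma mono_i : Mono s.i := s.ex.mono_f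
lemma epi_π : Epi s.π := s.ex.epi_g

/-- the quotient is again good -/
lemma good (hq : 0 < q) : L.Good s.quo := by
  intro J j _ hJ hJ0
  have h1 := s.lt J j hJ hJ0
  rcases (L.n0 J hJ).lt_or_eq with h2 | h2
  · exact h2
  · exfalso
    have h3 := L.e0 J hJ h2.symm
    rw [← h2, mul_zero] at h1
    nlinarith

lemma bd : L.Bd p q s.quo := by
  intro J j _ hJ
  by_cases hJ0 : IsZero J
  · rw [L.eadd.zero hJ0, L.nadd.zero hJ0]
    simp
  · exact (s.lt J j hJ hJ0).le

lemma nb {N : ℤ} (hN : L.NB N A) : L.NB (N - L.n s.sub) s.quo := by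
  intro J j _ hJ
  obtain ⟨Y, a, b, w, c, hY, hac, hcb, hc⟩ := pull_ses s.ex j
  have : Mono c := hc inferInstance
  have h1 := hN Y c ((L.hP _ hY).mpr ⟨s.P, hJ⟩)
  have h2 : L.n Y = L.n s.sub + L.n J := L.nadd _ hY
  linarith

lemma eb {E : ℤ} (hE : L.EB E A) : L.EB (E - L.e s.sub) s.quo := by
  intro J j _ hJ
  obtain ⟨Y, a, b, w, c, hY, hac, hcb, hc⟩ := pull_ses s.ex j
  have : Mono c := hc inferInstance
  have h1 := hE Y c ((L.hP _ hY).mpr ⟨s.P, hJ⟩)
  have h2 : L.e Y = L.e s.sub + L.e J := L.eadd _ hY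
  linarith

lemma n_sub_nonneg : 0 ≤ L.n s.sub := L.n0 _ s.P

lemma n_sub_pos (hg : L.Good A) (h : ¬ IsZero s.sub) : 0 < L.n s.sub := by
  have := s.mono_i
  exact hg _ s.i s.P h

/-- a nonzero subobject of slope `p / q` forces the slice to be nonzero -/
lemma sub_ne_zero {X : C} (x : X ⟶ A) [Mono x] (hX : L.P X) (hX0 : ¬ IsZero X)
    (hs : L.e X * q = p * L.n X) : ¬ IsZero s.sub := by
  intro h0
  have hπ : Mono s.π := by
    have h1 : s.i = 0 := h0.eq_of_src _ _
    exact (ShortComplex.exact_iff_mono _ h1).mp s.ex.exact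
  have := s.lt X (x ≫ s.π) hX hX0
  linarith

/-- a map from the slice to an object all of whose subobjects have a smaller slope is zero -/
lemma hom_zero (hb : L.Bd p q A) {X : C}
    (hX : ∀ (J : C) (j : J ⟶ X) [Mono j], L.P J → ¬ IsZero J → L.e J * q < p * L.n J)
    (f : s.sub ⟶ X) : f = 0 := by
  by_contra hf
  have := s.mono_i
  set g := factorThruImage f with hg
  have hfg : g ≫ image.ι f = f := image.fac f
  obtain ⟨hK, hI⟩ := P_epi g s.P
  have h0 : ¬ IsZero (image f) := by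
    intro h
    apply hf
    rw [← hfg, h.eq_of_tgt g 0, zero_comp]
  have h1 := hX _ (image.ι f) hI h0
  have h2 := hb _ (kernel.ι g ≫ s.i) hK
  have h3 := L.nadd.epi g
  have h4 := L.eadd.epi g
  have h5 := s.slope
  rw [h3, h4] at h5
  nlinarith

end Slice

/-- the twist lowers the slopes of all subobjects -/
lemma twist_lt {p q : ℤ} (hq : 0 < q) {X : C} (hg : L.Good X) (hb : L.Bd p q X) :
    ∀ (I : C) (j : I ⟶ L.T.functor.obj X) [Mono j], L.P I → ¬ IsZero I →
      L.e I * q < p * L.n I := by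
  intro I j _ hI hI0
  set J := L.T.inverse.obj I with hJ
  set l : J ⟶ X := L.T.inverse.map j ≫ L.T.unitIso.inv.app X with hl
  have : Mono (L.T.inverse.map j) := inferInstance
  have : Mono l := by rw [hl]; exact mono_comp _ _
  have e : L.T.functor.obj J ≅ I := L.T.counitIso.app I
  have hPJ : L.P J := L.PT _ (P_iso e.symm hI)
  have hJ0 : ¬ IsZero J := by
    intro h
    apply hI0
    have h1 : IsZero (L.T.functor.obj J) := by
      rw [IsZero.iff_id_eq_zero] at h ⊢
      rw [← L.T.functor.map_id, h, Functor.map_zero]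
    exact h1.of_iso e.symm
  have h1 := hb J l hPJ
  have h2 := hg J l hPJ hJ0
  have h3 := L.nT J hPJ
  have h4 := L.eT J hPJ
  rw [L.nadd.iso e] at h3
  rw [L.eadd.iso e] at h4
  rw [h3, h4]
  have h5 : 0 < L.c * L.n J * q := mul_pos (mul_pos L.hc h2) hq
  nlinarith

/-- A common maximal slope of two objects. -/
lemma exists_top {A B : C} (hgA : L.Good A) (hgB : L.Good B) {N E N' E' : ℤ} (hN : L.NB N A)
    (hE : L.EB E A) (hN' : L.NB N' B) (hE' : L.EB E' B) (hex : L.Has A ∨ L.Has B) :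
    ∃ p q : ℤ, 0 < q ∧ L.Bd p q A ∧ L.Bd p q B ∧
      ((∃ (X : C) (i : X ⟶ A), Mono i ∧ L.P X ∧ ¬ IsZero X ∧ L.e X * q = p * L.n X) ∨
        (∃ (X : C) (i : X ⟶ B), Mono i ∧ L.P X ∧ ¬ IsZero X ∧ L.e X * q = p * L.n X)) := by
  by_cases hA : L.Has A
  · obtain ⟨M, i, hi, hM, hM0, hmax⟩ := exists_max_slope hgA hN hE hA
    have hnM := hgA M i hM hM0
    by_cases hB : L.Has B
    · obtain ⟨M', i', hi', hM', hM0', hmax'⟩ := exists_max_slope hgB hN' hE' hB
      have hnM' := hgB M' i' hM' hM0'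
      rcases le_total (L.e M * L.n M') (L.e M' * L.n M) with h | h
      · refine ⟨L.e M', L.n M', hnM', ?_, fun X j _ hX => hmax' X j hX,
          Or.inr ⟨M', i', hi', hM', hM0', rfl⟩⟩
        intro X j _ hX
        have h1 := hmax X j hX
        have h2 := L.n0 X hX
        have h3 : (L.e X * L.n M') * L.n M ≤ (L.e M' * L.n X) * L.n M := by
          calc (L.e X * L.n M') * L.n M = (L.e X * L.n M) * L.n M' := by ring
            _ ≤ (L.e M * L.n X) * L.n M' := mul_le_mul_of_nonneg_right h1 hnM'.le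
            _ = (L.e M * L.n M') * L.n X := by ring
            _ ≤ (L.e M' * L.n M) * L.n X := mul_le_mul_of_nonneg_right h h2
            _ = _ := by ring
        exact le_of_mul_le_mul_right h3 hnM
      · refine ⟨L.e M, L.n M, hnM, fun X j _ hX => hmax X j hX, ?_,
          Or.inl ⟨M, i, hi, hM, hM0, rfl⟩⟩
        intro X j _ hX
        have h1 := hmax' X j hX
        have h2 := L.n0 X hX
        have h3 : (L.e X * L.n M) * L.n M' ≤ (L.e M * L.n X) * L.n M' := by
          calc (L.e X * L.n M) * L.n M' = (L.e X * L.n M') * L.n M := by ring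
            _ ≤ (L.e M' * L.n X) * L.n M := mul_le_mul_of_nonneg_right h1 hnM.le
            _ = (L.e M' * L.n M) * L.n X := by ring
            _ ≤ (L.e M * L.n M') * L.n X := mul_le_mul_of_nonneg_right h h2
            _ = _ := by ring
        exact le_of_mul_le_mul_right h3 hnM'
    · refine ⟨L.e M, L.n M, hnM, fun X j _ hX => hmax X j hX, ?_, Or.inl ⟨M, i, hi, hM, hM0, rfl⟩⟩
      intro X j hj hX
      have h0 : IsZero X := by
        by_contra h0
        exact hB ⟨X, j, hj, hX, h0⟩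
      rw [L.eadd.zero h0, L.nadd.zero h0]
      simp
  · have hB : L.Has B := hex.resolve_left hA
    obtain ⟨M', i', hi', hM', hM0', hmax'⟩ := exists_max_slope hgB hN' hE' hB
    have hnM' := hgB M' i' hM' hM0'
    refine ⟨L.e M', L.n M', hnM', ?_, fun X j _ hX => hmax' X j hX,
      Or.inr ⟨M', i', hi', hM', hM0', rfl⟩⟩
    intro X j hj hX
    have h0 : IsZero X := by
      by_contra h0
      exact hA ⟨X, j, hj, hX, h0⟩
    rw [L.eadd.zero h0, L.nadd.zero h0]
    simp

end Lvl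

end Pool.Agent.Work.MP_f714fc_ag.Abs
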