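import Pool.Agent.Work.MP_f714fc_ag.Abs.Core
import Pool.Agent.Work.MP_f714fc_ag.Abs.Slope

/-!
Objects of finite length in an abelian category: closure under subobjects, quotients and
extensions, and the induction along a composition series.
-/

open CategoryTheory CategoryTheory.Abelian CategoryTheory.Limits

universe w v u t

namespace Fdim

open Pool.Agent.Work.MP_f714fc_ag.Abs (ses_of_mono ses_of_epi IsAdd)

variable {C : Type u} [Category.{v} C] [Abelian C]

lemma factors_of_epi_comp {X X' Y : C} (U : Subobject Y) (p : X' ⟶ X) [Epi p] (f : X ⟶ Y)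
    (h : U.Factors (p ≫ f)) : U.Factors f := by
  have h1 : f ≫ cokernel.π U.arrow = 0 := by
    rw [← cancel_epi p, comp_zero, ← Category.assoc, ← U.factorThru_arrow _ h, Category.assoc,
      cokernel.condition, comp_zero]
  have h2 : monoLift U.arrow f h1 ≫ U.arrow = f := monoLift_comp _ _ _
  rw [← h2]
  exact Subobject.factors_comp_arrow _

/-- if `U ≤ V` have the same intersection with the subobject and the same image in the quotient,
they agree -/
lemma sub_le_of_ses {S : ShortComplex C} (hS : S.ShortExact) {U V : Subobject S.X₂} (h : U ≤ V)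
    (h1 : (Subobject.pullback S.f).obj V ≤ (Subobject.pullback S.f).obj U)
    (h2 : imageSubobject (V.arrow ≫ S.g) ≤ imageSubobject (U.arrow ≫ S.g)) :
    V ≤ U := by
  have := hS.mono_f
  apply Subobject.le_of_factors
  obtain ⟨A', π, hπ, x, hx⟩ := surjective_up_to_refinements_of_epi
    (factorThruImageSubobject (U.arrow ≫ S.g))
    (factorThruImageSubobject (V.arrow ≫ S.g) ≫ Subobject.ofLE _ _ h2)
  have h3 : π ≫ V.arrow ≫ S.g = x ≫ U.arrow ≫ S.g := by
    have h4 := congrArg (· ≫ (imageSubobject (U.arrow ≫ S.g)).arrow) hx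
    simp only [Category.assoc, Subobject.ofLE_arrow, imageSubobject_arrow_comp] at h4
    exact h4
  have h5 : (π ≫ V.arrow - x ≫ U.arrow) ≫ S.g = 0 := by
    rw [Preadditive.sub_comp, Category.assoc, Category.assoc, h3, sub_self]
  set w := hS.exact.lift _ h5 with hw
  have hwf : w ≫ S.f = π ≫ V.arrow - x ≫ U.arrow := hS.exact.lift_f _ h5
  have h6 : V.Factors (w ≫ S.f) := by
    rw [hwf, sub_eq_add_neg]
    refine Subobject.factors_add _ _ (Subobject.factors_comp_arrow _) ?_
    rw [← Preadditive.neg_comp]
    exact Subobject.factors_of_le _ h (Subobject.factors_comp_arrow _)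
  have h7 : ((Subobject.pullback S.f).obj V).Factors w := by
    have h8 : V.factorThru _ h6 ≫ V.arrow = w ≫ S.f := V.factorThru_arrow _ h6
    have h9 := (Subobject.isPullback S.f V).lift_snd _ _ h8
    rw [← h9]
    exact Subobject.factors_comp_arrow _
  have h8 : ((Subobject.pullback S.f).obj U).Factors w := Subobject.factors_of_le _ h1 h7
  have h9 : U.Factors (w ≫ S.f) := by
    rw [← ((Subobject.pullback S.f).obj U).factorThru_arrow _ h8, Category.assoc,
      ← (Subobject.isPullback S.f U).w, ← Category.assoc]
    exact Subobject.factors_comp_arrow _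
  apply factors_of_epi_comp U π
  have h10 : π ≫ V.arrow = w ≫ S.f + x ≫ U.arrow := by rw [hwf]; abel
  rw [h10]
  exact Subobject.factors_add _ _ h9 (Subobject.factors_comp_arrow _)

/-- the image of a subobject in the quotient and its intersection with the subobject -/
noncomputable def sesMap (S : ShortComplex C) (U : Subobject S.X₂) :
    Subobject S.X₁ × Subobject S.X₃ :=
  ((Subobject.pullback S.f).obj U, imageSubobject (U.arrow ≫ S.g))

lemma sesMap_strictMono {S : ShortComplex C} (hS : S.ShortExact) : StrictMono (sesMap S) := by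
  intro U V h
  have hle : sesMap S U ≤ sesMap S V := by
    refine ⟨(Subobject.pullback S.f).monotone h.le, ?_⟩
    have h1 : U.arrow ≫ S.g = Subobject.ofLE U V h.le ≫ V.arrow ≫ S.g := by
      rw [← Category.assoc, Subobject.ofLE_arrow]
    change imageSubobject (U.arrow ≫ S.g) ≤ imageSubobject (V.arrow ≫ S.g)
    rw [h1]
    exact imageSubobject_comp_le _ _
  refine lt_of_le_not_ge hle fun h' => ?_
  exact absurd (sub_le_of_ses hS h.le h'.1 h'.2) (not_le_of_gt h)

lemma isArtinian_ext {S : ShortComplex C} (hS : S.ShortExact) (h1 : IsArtinianObject S.X₁)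
    (h3 : IsArtinianObject S.X₃) : IsArtinianObject S.X₂ := by
  dsimp only [IsArtinianObject]
  rw [ObjectProperty.is_iff, isArtinianObject]
  exact (sesMap_strictMono hS).wellFoundedLT

lemma isNoetherian_ext {S : ShortComplex C} (hS : S.ShortExact) (h1 : IsNoetherianObject S.X₁)
    (h3 : IsNoetherianObject S.X₃) : IsNoetherianObject S.X₂ := by
  dsimp only [IsNoetherianObject]
  rw [ObjectProperty.is_iff, isNoetherianObject]
  exact (sesMap_strictMono hS).wellFoundedGT

/-- pulling back subobjects along an epimorphism is strictly monotone -/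
lemma pullback_strictMono {X Y : C} (p : X ⟶ Y) [Epi p] :
    StrictMono (Subobject.pullback p).obj := by
  intro U V h
  refine lt_of_le_not_ge ((Subobject.pullback p).monotone h.le) fun h' => ?_
  refine absurd ?_ (not_le_of_gt h)
  apply Subobject.le_of_factors
  have : Epi (Subobject.pullbackπ p V) :=
    Abelian.epi_fst_of_isLimit V.arrow p (Subobject.isPullback p V).isLimit
  apply factors_of_epi_comp U (Subobject.pullbackπ p V)
  rw [(Subobject.isPullback p V).w, ← Subobject.ofLE_arrow h', Category.assoc,
    ← (Subobject.isPullback p U).w, ← Category.assoc]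
  exact Subobject.factors_comp_arrow _

lemma isArtinian_of_epi {X Y : C} (p : X ⟶ Y) [Epi p] (h : IsArtinianObject X) :
    IsArtinianObject Y := by
  dsimp only [IsArtinianObject]
  rw [ObjectProperty.is_iff, isArtinianObject]
  exact (pullback_strictMono p).wellFoundedLT

lemma isNoetherian_of_epi {X Y : C} (p : X ⟶ Y) [Epi p] (h : IsNoetherianObject X) :
    IsNoetherianObject Y := by
  dsimp only [IsNoetherianObject]
  rw [ObjectProperty.is_iff, isNoetherianObject]
  exact (pullback_strictMono p).wellFoundedGT

namespace IsFin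

lemma of_mono {X Y : C} (i : X ⟶ Y) [Mono i] (h : IsFin Y) : IsFin X := by
  have := h.1
  have := h.2
  exact ⟨isNoetherianObject_of_mono i, isArtinianObject_of_mono i⟩

lemma of_epi {X Y : C} (p : X ⟶ Y) [Epi p] (h : IsFin X) : IsFin Y :=
  ⟨isNoetherian_of_epi p h.1, isArtinian_of_epi p h.2⟩

lemma of_iso {X Y : C} (e : X ≅ Y) (h : IsFin X) : IsFin Y := h.of_epi e.hom

lemma ext {S : ShortComplex C} (hS : S.ShortExact) (h1 : IsFin S.X₁) (h3 : IsFin S.X₃) :
    IsFin S.X₂ :=
  ⟨isNoetherian_ext hS h1.1 h3.1, isArtinian_ext hS h1.2 h3.2⟩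

lemma of_isZero {Z : C} (h : IsZero Z) : IsFin Z :=
  ⟨isNoetherianObject_of_isZero h, isArtinianObject_of_isZero h⟩

lemma iff_ses {S : ShortComplex C} (hS : S.ShortExact) : IsFin S.X₂ ↔ IsFin S.X₁ ∧ IsFin S.X₃ := by
  have := hS.mono_f
  have := hS.epi_g
  exact ⟨fun h => ⟨h.of_mono S.f, h.of_epi S.g⟩, fun h => ext hS h.1 h.2⟩

lemma biprod {X Y : C} (hX : IsFin X) (hY : IsFin Y) : IsFin (X ⊞ Y) :=
  ext (Pool.Agent.Work.MP_f714fc_ag.Abs.ses_biprod X Y) hX hY

lemma of_simple {Z : C} (hZ : Simple Z) : IsFin Z := by
  have h1 : IsSimpleOrder (Subobject Z) := inferInstance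
  have h2 : Finite (Subobject Z) := by
    classical
    exact Finite.of_surjective (fun b : Bool => if b then (⊤ : Subobject Z) else ⊥) (by
      intro U
      rcases h1.eq_bot_or_eq_top U with h | h
      · exact ⟨false, by simp [h]⟩
      · exact ⟨true, by simp [h]⟩)
  constructor
  · dsimp only [IsNoetherianObject]
    rw [ObjectProperty.is_iff, isNoetherianObject]
    infer_instance
  · dsimp only [IsArtinianObject]
    rw [ObjectProperty.is_iff, isArtinianObject]
    infer_instance

/-- the subobject of `X` corresponding to a subobject of an isomorphic image under an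
autoequivalence -/
noncomputable def eqvMap {D : Type*} [Category D] {E : Type*} [Category E] (G : D ⥤ E)
    [G.IsEquivalence] {Y : D} {X : E} (e : G.obj Y ≅ X) (U : Subobject Y) : Subobject X :=
  Subobject.mk (G.map U.arrow ≫ e.hom)

lemma eqvMap_le {D : Type*} [Category D] {E : Type*} [Category E] (G : D ⥤ E)
    [G.IsEquivalence] {Y : D} {X : E} (e : G.obj Y ≅ X) (U V : Subobject Y) :
    eqvMap G e U ≤ eqvMap G e V ↔ U ≤ V := by
  constructor
  · intro h
    refine Subobject.le_of_comm (G.preimage (Subobject.ofMkLEMk _ _ h)) ?_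
    apply G.map_injective
    rw [G.map_comp, G.map_preimage, ← cancel_mono e.hom, Category.assoc]
    exact Subobject.ofMkLEMk_comp _
  · intro h
    refine Subobject.mk_le_mk_of_comm (G.map (Subobject.ofLE U V h)) ?_
    rw [← Category.assoc, ← G.map_comp, Subobject.ofLE_arrow]

/-- an equivalence reflects finite length -/
lemma of_equivalence {D : Type*} [Category D] [Abelian D] (F : C ⥤ D) [F.IsEquivalence] {X : C}
    (h : IsFin (F.obj X)) : IsFin X := by
  have hm : StrictMono (eqvMap F (Iso.refl (F.obj X))) := fun U V hUV => by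
    rw [lt_iff_le_not_ge, eqvMap_le, eqvMap_le]
    exact lt_iff_le_not_ge.mp hUV
  obtain ⟨h1, h2⟩ := h
  constructor
  · dsimp only [IsNoetherianObject]
    rw [ObjectProperty.is_iff, isNoetherianObject]
    exact hm.wellFoundedGT
  · dsimp only [IsArtinianObject]
    rw [ObjectProperty.is_iff, isArtinianObject]
    exact hm.wellFoundedLT

/-- an equivalence preserves finite length -/
lemma map_equivalence {D : Type*} [Category D] [Abelian D] (F : C ⥤ D) [F.IsEquivalence] {X : C}
    (h : IsFin X) : IsFin (F.obj X) := by
  have h1 : IsFin (F.inv.obj (F.obj X)) := h.of_iso (F.asEquivalence.unitIso.app X)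
  exact of_equivalence F.inv h1

/-- induction on the length, for a property invariant under isomorphisms -/
theorem induct_iso {P : C → Prop} (hiso : ∀ X Y : C, (X ≅ Y) → P X → P Y)
    (h0 : ∀ Z, IsZero Z → P Z)
    (h1 : ∀ S : ShortComplex C, S.ShortExact → Simple S.X₁ → IsFin S.X₃ → P S.X₃ → P S.X₂)
    (X : C) (hX : IsFin X) : P X := by
  have hN := hX.1
  have key : ∀ U : Subobject X, P (cokernel U.arrow) := by
    intro U
    induction U using WellFoundedGT.induction with
    | _ U ih =>
      have hY : IsFin (cokernel U.arrow) := hX.of_epi (cokernel.π U.arrow)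
      by_cases hz : IsZero (cokernel U.arrow)
      · exact h0 _ hz
      have := hY.2
      obtain ⟨Z, hZ⟩ := exists_simple_subobject hz
      set q : X ⟶ cokernel Z.arrow := cokernel.π U.arrow ≫ cokernel.π Z.arrow with hq
      have hqe : Epi q := epi_comp _ _
      set V : Subobject X := kernelSubobject q with hV
      have hVq : V.arrow ≫ q = 0 := kernelSubobject_arrow_comp q
      have hUV : U ≤ V := by
        apply le_kernelSubobject
        rw [hq, ← Category.assoc, cokernel.condition, zero_comp]
      have hne : U ≠ V := by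
        intro h
        obtain ⟨A', π, hπ, x, hx⟩ := surjective_up_to_refinements_of_epi
          (cokernel.π U.arrow) Z.arrow
        have h2 : x ≫ q = 0 := by
          rw [hq, ← Category.assoc, ← hx, Category.assoc, cokernel.condition, comp_zero]
        have h3 : V.Factors x := kernelSubobject_factors q x h2
        rw [← h] at h3
        have h4 : x ≫ cokernel.π U.arrow = 0 := by
          rw [← U.factorThru_arrow x h3, Category.assoc, cokernel.condition, comp_zero]
        rw [h4] at hx
        have h5 : Z.arrow = 0 := by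
          rw [← cancel_epi π, hx, comp_zero]
        exact Simple.not_isZero (Z : C) (IsZero.of_mono_eq_zero _ h5)
      have hPV := ih V (lt_of_le_of_ne hUV hne)
      have hw : U.arrow ≫ cokernel.π V.arrow = 0 := by
        rw [← Subobject.ofLE_arrow hUV, Category.assoc, cokernel.condition, comp_zero]
      set g : cokernel U.arrow ⟶ cokernel V.arrow := cokernel.desc U.arrow (cokernel.π V.arrow) hw
        with hg
      have hπg : cokernel.π U.arrow ≫ g = cokernel.π V.arrow := cokernel.π_desc _ _ _
      have hge : Epi g := by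
        have : Epi (cokernel.π U.arrow ≫ g) := by rw [hπg]; infer_instance
        exact epi_of_epi (cokernel.π U.arrow) g
      have hzero : Z.arrow ≫ g = 0 := by
        obtain ⟨A', π, hπ, x, hx⟩ := surjective_up_to_refinements_of_epi
          (cokernel.π U.arrow) Z.arrow
        have h2 : x ≫ q = 0 := by
          rw [hq, ← Category.assoc, ← hx, Category.assoc, cokernel.condition, comp_zero]
        have h3 : V.Factors x := kernelSubobject_factors q x h2
        rw [← cancel_epi π, comp_zero, ← Category.assoc, hx, Category.assoc, hπg,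
          ← V.factorThru_arrow x h3, Category.assoc, cokernel.condition, comp_zero]
      have hS : (ShortComplex.mk Z.arrow g hzero).ShortExact := by
        refine { exact := ?_, mono_f := inferInstance, epi_g := hge }
        rw [ShortComplex.exact_iff_exact_up_to_refinements]
        intro A x hx
        dsimp at x hx ⊢
        obtain ⟨A', π, hπ, y, hy⟩ := surjective_up_to_refinements_of_epi (cokernel.π U.arrow) x
        have h2 : y ≫ cokernel.π V.arrow = 0 := by
          rw [← hπg, ← Category.assoc, ← hy, Category.assoc, hx, comp_zero]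
        have h3 : y ≫ q = 0 := by
          rw [← monoLift_comp V.arrow y h2, Category.assoc, hVq, comp_zero]
        have h4 : x ≫ cokernel.π Z.arrow = 0 := by
          rw [← cancel_epi π, comp_zero, ← Category.assoc, hy, Category.assoc]
          exact h3
        exact ⟨A, 𝟙 A, inferInstance, monoLift Z.arrow x h4, by rw [Category.id_comp, monoLift_comp]⟩
      exact h1 _ hS hZ (hX.of_epi (cokernel.π V.arrow)) hPV
  have h2 := key ⊥
  have h3 : cokernel.π (⊥ : Subobject X).arrow ≫ cokernel.desc _ (𝟙 X) (by
      rw [Subobject.bot_arrow, zero_comp]) = 𝟙 X := cokernel.π_desc _ _ _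
  have h4 : Mono (cokernel.π (⊥ : Subobject X).arrow) := by
    refine @mono_of_mono _ _ _ _ _ _ (cokernel.desc _ (𝟙 X) (by
      rw [Subobject.bot_arrow, zero_comp])) ?_
    rw [h3]
    infer_instance
  have h5 : IsIso (cokernel.π (⊥ : Subobject X).arrow) := isIso_of_mono_of_epi _
  exact hiso _ _ (asIso (cokernel.π (⊥ : Subobject X).arrow)).symm h2

/-- induction on the length -/
theorem induct {P : C → Prop} (h0 : ∀ Z, IsZero Z → P Z)
    (h1 : ∀ S : ShortComplex C, S.ShortExact → Simple S.X₁ → IsFin S.X₃ → P S.X₃ → P S.X₂)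
    (X : C) (hX : IsFin X) : P X := by
  have h : ∀ Y : C, (X ≅ Y) → P Y := by
    refine induct_iso (P := fun X => ∀ Y : C, (X ≅ Y) → P Y) ?_ ?_ ?_ X hX
    · intro X Y e h Z e'
      exact h Z (e ≪≫ e')
    · intro Z hZ Y e
      exact h0 Y (hZ.of_iso e.symm)
    · intro S hS hZ hF hP Y e
      have hw : (S.f ≫ e.hom) ≫ e.inv ≫ S.g = 0 := by simp
      have hT : (ShortComplex.mk (S.f ≫ e.hom) (e.inv ≫ S.g) hw).ShortExact := by
        refine ShortComplex.shortExact_of_iso (S₁ := S)
          (ShortComplex.isoMk (Iso.refl S.X₁) e (Iso.refl S.X₃) ?_ ?_) hS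
        · simp
        · simp
      exact h1 _ hT hZ hF (hP _ (Iso.refl _))
  exact h X (Iso.refl X)

end IsFin

end Fdim
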