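import Pool.Agent.Work.MP_f714fc_ag.Abs.Core

/-!
MP_f714fc_ag.  AmpleData: an abelian category with a twist (written as a shift by integers:
A(n) = A tensor L^n, L ample), a structure sheaf O, and the graded ring of sections
R_n = Hom(O, O(n)) acting centrally.  HostData: the axioms satisfied by the category of
coherent sheaves on a Fano surface, L = inverse of the canonical bundle.
-/

open CategoryTheory CategoryTheory.Abelian CategoryTheory.Limits

universe w v u t

namespace Fdim

variable (k : Type t) [Field k] (C : Type u) [Category.{v} C] [Abelian C] [Linear k C]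
  [HasShift C ℤ] [∀ n : ℤ, (shiftFunctor C n).Additive] [∀ n : ℤ, (shiftFunctor C n).Linear k]

/-- structure sheaf, sections of the powers of the ample line bundle acting centrally, ampleness
in the sense of Hartshorne -/
structure AmpleData where
  O : C
  act : ∀ (n : ℤ) (A : C), ShiftedHom O O n →ₗ[k] ShiftedHom A A n
  act_O : ∀ (n : ℤ) (s : ShiftedHom O O n), act n O s = s
  central : ∀ {A B : C} {m n p : ℤ} (f : ShiftedHom A B m) (s : ShiftedHom O O n)
    (h : n + m = p) (h' : m + n = p), f.comp (act n B s) h = (act n A s).comp f h'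
  act_comp : ∀ {m n p : ℤ} (s : ShiftedHom O O m) (t : ShiftedHom O O n) (h : n + m = p) (A : C),
    act p A (s.comp t h) = (act m A s).comp (act n A t) h
  /-- A(n) is generated by finitely many global sections for n large -/
  gg : ∀ A : C, ∃ n₀ : ℤ, ∀ n ≥ n₀, ∃ (j : ℕ) (f : Fin j → (O ⟶ A⟦n⟧)),
    ∀ (B : C) (g : A⟦n⟧ ⟶ B), (∀ i, f i ≫ g = 0) → g = 0

/-- integral, noetherian, with generic rank -/
structure IntAmpleData extends AmpleData k C where
  noeth : ∀ A : C, IsNoetherianObject A
  /-- generic rank -/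
  r : C → ℕ
  r_add : ∀ S : ShortComplex C, S.ShortExact → r S.X₂ = r S.X₁ + r S.X₃
  r_O : r O = 1
  r_shift : ∀ (A : C) (n : ℤ), r (A⟦n⟧) = r A
  /-- a nonzero section is injective (the surface is integral) -/
  mono_of_ne : ∀ (n : ℤ) (s : ShiftedHom O O n), s ≠ 0 → Mono s
  /-- O is torsion free -/
  tors_free : ∀ (A : C) (i : A ⟶ O), Mono i → r A = 0 → IsZero A

variable [HasExt.{w} C]

/-- the category of coherent sheaves on a Fano surface; A(-1) is the twist by the canonical
bundle -/
structure HostData extends IntAmpleData k C where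
  /-- dimension at most two -/
  dim_le : ∀ T : C, r T = 0 → ∃ n₀ : ℤ, ∀ n ≥ n₀, ∃ s : ShiftedHom O O n,
    IsFin (kernel (act n T s)) ∧ IsFin (cokernel (act n T s)) ∧
      (¬ IsFin T → ¬ IsZero (cokernel (act n T s)))
  /-- dimension at least two -/
  dim_ge : ∃ T : C, r T = 0 ∧ ¬ IsFin T
  fin : ∀ (A B : C) (p : ℕ), Module.Finite k (Ext A B p)
  van : ∀ (A B : C) (p : ℕ), 3 ≤ p → Subsingleton (Ext A B p)
  serre : ∀ (A B : C) (p q : ℕ), p + q = 2 → ext k A B p = ext k B (A⟦(-1 : ℤ)⟧) q

end Fdim
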