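import Pool.Agent.Work.MP_f714fc_ag.TruncKey
import Pool.Agent.Work.MP_f714fc_ag.Abs.Core

/-!
MP_f714fc_ag, ABS-E: the key lemma in the bounded derived category of a `k`-linear abelian
category whose Ext groups satisfy (L1) and (L2).
-/

open CategoryTheory CategoryTheory.Abelian CategoryTheory.Limits CategoryTheory.Triangulated
open Module

universe w' w v u t

namespace Fdim

variable {k : Type t} [Field k] {A : Type u} [Category.{v} A] [Abelian A] [Linear k A]
  [HasDerivedCategory.{w'} A] [HasExt.{w} A]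

/-- The objects of the heart. -/
def InHeart (M : DerivedCategory A) : Prop :=
  ∃ X : A, Nonempty (M ≅ (DerivedCategory.singleFunctor A 0).obj X)

/-- `Hom(M, N[p])` for `M`, `N` in the heart is an Ext group. -/
noncomputable def heartEquiv (k : Type t) [Field k] [Linear k A] {M N : DerivedCategory A}
    {X Y : A} (e : M ≅ (DerivedCategory.singleFunctor A 0).obj X)
    (e' : N ≅ (DerivedCategory.singleFunctor A 0).obj Y) (p : ℕ) :
    (M ⟶ (shiftFunctor (DerivedCategory A) (p : ℤ)).obj N) ≃ₗ[k] Ext.{w} X Y p :=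
  (Linear.homCongr k e ((shiftFunctor (DerivedCategory A) (p : ℤ)).mapIso e')).trans
    (Ext.homLinearEquiv (R := k)).symm

omit [HasExt.{w} A] in
lemma heart_neg {M N : DerivedCategory A} (hM : InHeart M) (hN : InHeart N) (n : ℤ)
    (hn : n < 0) (f : M ⟶ (shiftFunctor (DerivedCategory A) n).obj N) : f = 0 := by
  obtain ⟨X, ⟨e⟩⟩ := hM
  obtain ⟨Y, ⟨e'⟩⟩ := hN
  have h1 : DerivedCategory.TStructure.t.IsLE M 0 :=
    DerivedCategory.TStructure.t.isLE_of_iso e.symm 0
  have h2 : DerivedCategory.TStructure.t.IsGE N 0 :=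
    DerivedCategory.TStructure.t.isGE_of_iso e'.symm 0
  have h3 : DerivedCategory.TStructure.t.IsGE
      ((shiftFunctor (DerivedCategory A) n).obj N) (-n) :=
    DerivedCategory.TStructure.t.isGE_shift N 0 n (-n)
  exact DerivedCategory.TStructure.t.zero f 0 (-n)

/-- The hypotheses (L1), (L2) with finiteness and vanishing of Ext groups. -/
structure Two (k : Type t) [Field k] (A : Type u) [Category.{v} A] [Abelian A] [Linear k A]
    [HasExt.{w} A] : Prop where
  fin : ∀ (X Y : A) (p : ℕ), Module.Finite k (Ext.{w} X Y p)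
  van : ∀ (X Y : A) (p : ℕ), 3 ≤ p → Subsingleton (Ext.{w} X Y p)
  one : ∀ X Y : A, ext k Y X 2 ≤ ext k X Y 0 + ext k Y X 1
  two : ∀ X : A, ¬ IsZero X → ext k X X 2 + 1 ≤ ext k X X 0 + ext k X X 1

lemma Two.surfaceLike (h : Two.{w} k A) :
    FanoDim.SurfaceLike k (InHeart (A := A)) where
  fin M N hM hN n := by
    by_cases hn : n < 0
    · have : Subsingleton (M ⟶ (shiftFunctor (DerivedCategory A) n).obj N) :=
        ⟨fun f g => by rw [heart_neg hM hN n hn f, heart_neg hM hN n hn g]⟩
      infer_instance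
    · obtain ⟨X, ⟨e⟩⟩ := hM
      obtain ⟨Y, ⟨e'⟩⟩ := hN
      obtain ⟨p, rfl⟩ := Int.eq_ofNat_of_zero_le (not_lt.1 hn)
      have := h.fin X Y p
      exact Module.Finite.equiv (heartEquiv.{w', w} k e e' p).symm
  van M N hM hN n hn f := by
    obtain ⟨X, ⟨e⟩⟩ := hM
    obtain ⟨Y, ⟨e'⟩⟩ := hN
    obtain ⟨p, rfl⟩ := Int.eq_ofNat_of_zero_le (show 0 ≤ n by omega)
    have := h.van X Y p (by omega)
    exact (heartEquiv.{w', w} k e e' p).injective (Subsingleton.elim _ _)
  one M N hM hN := by
    obtain ⟨X, ⟨e⟩⟩ := hM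
    obtain ⟨Y, ⟨e'⟩⟩ := hN
    have h2 : FanoDim.ext k N M 2 = ext k Y X 2 := (heartEquiv.{w', w} k e' e 2).finrank_eq
    have h1 : FanoDim.ext k N M 1 = ext k Y X 1 := (heartEquiv.{w', w} k e' e 1).finrank_eq
    have h0 : FanoDim.ext k M N 0 = ext k X Y 0 := (heartEquiv.{w', w} k e e' 0).finrank_eq
    rw [h0, h1, h2]
    exact h.one X Y
  two M hM hz := by
    obtain ⟨X, ⟨e⟩⟩ := hM
    have h2 : FanoDim.ext k M M 2 = ext k X X 2 := (heartEquiv.{w', w} k e e 2).finrank_eq
    have h1 : FanoDim.ext k M M 1 = ext k X X 1 := (heartEquiv.{w', w} k e e 1).finrank_eq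
    have h0 : FanoDim.ext k M M 0 = ext k X X 0 := (heartEquiv.{w', w} k e e 0).finrank_eq
    rw [h0, h1, h2]
    refine h.two X fun hX => hz ?_
    exact ((DerivedCategory.singleFunctor A 0).map_isZero hX).of_iso e

/-- **Key lemma**, derived form. -/
theorem key_derived (h : Two.{w} k A) (F : DerivedCategory A) (a b : ℤ) (ha : F.IsGE a)
    (hb : F.IsLE b)
    (hF : finrank k (F ⟶ F) +
      finrank k (F ⟶ (shiftFunctor (DerivedCategory A) (1 : ℤ)).obj F) ≤ 1) :
    finrank k (F ⟶ (shiftFunctor (DerivedCategory A) (2 : ℤ)).obj F) = 0 := by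
  refine FanoDim.key_lemma h.surfaceLike F a b ha hb ?_ hF
  intro i
  have h1 : DerivedCategory.TStructure.t.IsGE
      ((DerivedCategory.TStructure.t.truncGELT i (i + 1)).obj F) i := inferInstance
  have h2 : DerivedCategory.TStructure.t.IsLE
      ((DerivedCategory.TStructure.t.truncGELT i (i + 1)).obj F) i := by
    have h3 : DerivedCategory.TStructure.t.IsLE
      ((DerivedCategory.TStructure.t.truncGELT i (i + 1)).obj F) (i + 1 - 1) := inferInstance
    rwa [add_sub_cancel_right] at h3
  have h3 := DerivedCategory.TStructure.t.isGE_shift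
    ((DerivedCategory.TStructure.t.truncGELT i (i + 1)).obj F) i i 0
  have h4 := DerivedCategory.TStructure.t.isLE_shift
    ((DerivedCategory.TStructure.t.truncGELT i (i + 1)).obj F) i i 0
  exact DerivedCategory.exists_iso_singleFunctor_obj_of_isGE_of_isLE _ 0

omit [HasDerivedCategory.{w'} A] in
/-- The case of dimension at most one: all second Ext groups vanish. -/
lemma Two.of_curve (fin : ∀ (X Y : A) (p : ℕ), Module.Finite k (Ext.{w} X Y p))
    (van : ∀ (X Y : A) (p : ℕ), 2 ≤ p → Subsingleton (Ext.{w} X Y p)) : Two.{w} k A where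
  fin := fin
  van X Y p hp := van X Y p (by omega)
  one X Y := by
    have := van Y X 2 le_rfl
    have h2 : ext k Y X 2 = 0 := Module.finrank_zero_of_subsingleton
    omega
  two X hX := by
    have := van X X 2 le_rfl
    have h2 : ext k X X 2 = 0 := Module.finrank_zero_of_subsingleton
    have h0 : 0 < ext k X X 0 := by
      have := fin X X 0
      have h3 : Nontrivial (Ext.{w} X X 0) := by
        refine ⟨Ext.mk₀ (𝟙 X), 0, fun hid => hX ?_⟩
        rw [Ext.mk₀_eq_zero_iff] at hid
        exact (IsZero.iff_id_eq_zero X).2 hid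
      exact Module.finrank_pos
    omega

/-- **Key lemma**, the form used for the Fano dimension. -/
theorem no_sphere_like (h : Two.{w} k A) (F : DerivedCategory A) (a b : ℤ) (ha : F.IsGE a)
    (hb : F.IsLE b) (h0 : finrank k (F ⟶ F) = 1)
    (h1 : ∀ f : F ⟶ (shiftFunctor (DerivedCategory A) (1 : ℤ)).obj F, f = 0)
    (h2 : finrank k (F ⟶ (shiftFunctor (DerivedCategory A) (2 : ℤ)).obj F) ≠ 0) : False := by
  have : Subsingleton (F ⟶ (shiftFunctor (DerivedCategory A) (1 : ℤ)).obj F) :=
    ⟨fun f g => by rw [h1 f, h1 g]⟩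
  have h3 : finrank k (F ⟶ (shiftFunctor (DerivedCategory A) (1 : ℤ)).obj F) = 0 :=
    Module.finrank_zero_of_subsingleton
  exact h2 (key_derived h F a b ha hb (by omega))

end Fdim
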