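import Pool.Agent.Work.MP_f714fc_ag.Abs.Host
import Pool.Agent.Work.MP_f714fc_ag.Abs.Fin

/-!
MP_f714fc_ag, block ABS-S2, parts P4 and P6: objects of finite length have rank zero, twists of the
structure sheaf are torsion free.
-/

open CategoryTheory CategoryTheory.Limits

universe w v u t

set_option linter.unusedSectionVars false

namespace Fdim

open Pool.Agent.Work.MP_f714fc_ag.Abs (ses_of_mono ses_of_epi IsAdd ses_biprod ses_zero)

section

variable {C : Type u} [Category.{v} C] [Abelian C] [HasShift C ℤ]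
  [∀ n : ℤ, (shiftFunctor C n).Additive]

/-- untwist a map to a twist -/
noncomputable def untw {A B : C} {n : ℤ} (f : A ⟶ B⟦n⟧) : A⟦-n⟧ ⟶ B :=
  f⟦-n⟧' ≫ (shiftFunctorCompIsoId C n (-n) (add_neg_cancel n)).hom.app B

omit [∀ n : ℤ, (shiftFunctor C n).Additive] in
lemma untw_inj {A B : C} {n : ℤ} {f g : A ⟶ B⟦n⟧} (h : untw f = untw g) : f = g :=
  (shiftFunctor C (-n)).map_injective
    ((cancel_mono ((shiftFunctorCompIsoId C n (-n) (add_neg_cancel n)).hom.app B)).1 h)

lemma untw_zero {A B : C} {n : ℤ} : untw (0 : A ⟶ B⟦n⟧) = 0 := by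
  rw [untw, Functor.map_zero, zero_comp]

lemma untw_ne_zero {A B : C} {n : ℤ} {f : A ⟶ B⟦n⟧} (h : f ≠ 0) : untw f ≠ 0 := fun h1 =>
  h (untw_inj (h1.trans untw_zero.symm))

omit [∀ n : ℤ, (shiftFunctor C n).Additive] in
lemma untw_mono {A B : C} {n : ℤ} {f : A ⟶ B⟦n⟧} [Mono f] : Mono (untw f) := by
  have : Mono (f⟦-n⟧') := inferInstance
  exact mono_comp _ _

omit [∀ n : ℤ, (shiftFunctor C n).Additive] in
lemma untw_epi {A B : C} {n : ℤ} {f : A ⟶ B⟦n⟧} [Epi f] : Epi (untw f) := by
  have : Epi (f⟦-n⟧') := inferInstance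
  exact epi_comp _ _

lemma isZero_shift_iff {A : C} (n : ℤ) : IsZero (A⟦n⟧) ↔ IsZero A := by
  constructor
  · intro h
    exact ((shiftFunctor C (-n)).map_isZero h).of_iso
      ((shiftFunctorCompIsoId C n (-n) (add_neg_cancel n)).app A).symm
  · intro h
    exact (shiftFunctor C n).map_isZero h

lemma isFin_shift_iff {A : C} (n : ℤ) : IsFin (A⟦n⟧) ↔ IsFin A :=
  ⟨fun h => IsFin.of_equivalence (shiftFunctor C n) h,
    fun h => IsFin.map_equivalence (shiftFunctor C n) h⟩

omit [∀ n : ℤ, (shiftFunctor C n).Additive] in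
/-- a twist of a short exact sequence -/
lemma ses_shift {S : ShortComplex C} [(shiftFunctor C (0 : ℤ)).Additive] (n : ℤ)
    [(shiftFunctor C n).Additive] (hS : S.ShortExact) :
    (S.map (shiftFunctor C n)).ShortExact :=
  hS.map_of_exact (shiftFunctor C n)

end

section

variable {k : Type t} [Field k] {C : Type u} [Category.{v} C] [Abelian C] [Linear k C]
  [HasShift C ℤ] [∀ n : ℤ, (shiftFunctor C n).Additive] [∀ n : ℤ, (shiftFunctor C n).Linear k]

namespace AmpleData

variable (H : AmpleData k C)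

/-- a nonzero object has nonzero sections after a large twist -/
lemma exists_sec (A : C) (hA : ¬ IsZero A) :
    ∃ n₀ : ℤ, ∀ n ≥ n₀, ∃ f : H.O ⟶ A⟦n⟧, f ≠ 0 := by
  obtain ⟨n₀, h⟩ := H.gg A
  refine ⟨n₀, fun n hn => ?_⟩
  obtain ⟨j, f, hf⟩ := h n hn
  by_contra h1
  push Not at h1
  have h2 := hf _ (𝟙 _) (fun i => by rw [h1 (f i), zero_comp])
  exact hA ((isZero_shift_iff n).1 ((IsZero.iff_id_eq_zero _).2 h2))

end AmpleData

namespace IntAmpleData

variable (H : IntAmpleData k C)

lemma isAdd_r : IsAdd (fun A => (H.r A : ℤ)) := by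
  intro S hS
  have := H.r_add S hS
  dsimp
  exact_mod_cast this

lemma r_zero {Z : C} (hZ : IsZero Z) : H.r Z = 0 := by
  have := H.isAdd_r.zero hZ
  exact_mod_cast this

lemma r_iso {A B : C} (e : A ≅ B) : H.r A = H.r B := by
  have := H.isAdd_r.iso e
  exact_mod_cast this

lemma r_mono {A B : C} (i : A ⟶ B) [Mono i] : H.r A ≤ H.r B := by
  have h : H.r B = H.r A + H.r (cokernel i) := H.r_add _ (ses_of_mono i)
  omega

lemma r_epi {A B : C} (p : A ⟶ B) [Epi p] : H.r B ≤ H.r A := by
  have h : H.r A = H.r (kernel p) + H.r B := H.r_add _ (ses_of_epi p)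
  omega

lemma r_kernel {A B : C} (p : A ⟶ B) [Epi p] : H.r A = H.r (kernel p) + H.r B :=
  H.r_add _ (ses_of_epi p)

lemma r_coker {A B : C} (i : A ⟶ B) [Mono i] : H.r B = H.r A + H.r (cokernel i) :=
  H.r_add _ (ses_of_mono i)

/-- the twists of the structure sheaf are torsion free -/
lemma tors_shift (n : ℤ) {A : C} (i : A ⟶ H.O⟦n⟧) [Mono i] (h : H.r A = 0) : IsZero A := by
  have := untw_mono (f := i)
  have h1 := H.tors_free (A⟦-n⟧) (untw i) inferInstance (by rw [H.r_shift, h])
  exact (isZero_shift_iff _).1 h1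

/-- every map from a torsion object to a twist of the structure sheaf is zero -/
lemma hom_tors (n : ℤ) {T : C} (h : H.r T = 0) (f : T ⟶ H.O⟦n⟧) : f = 0 := by
  have h1 : H.r (image f) = 0 := by
    have := H.r_epi (factorThruImage f)
    omega
  have h2 : IsZero (image f) := H.tors_shift n (image.ι f) h1
  rw [← image.fac f, h2.eq_of_tgt (factorThruImage f) 0, zero_comp]

lemma not_isZero_O : ¬ IsZero H.O := fun h => by
  have := H.r_zero h
  rw [H.r_O] at this
  omega

/-- nonzero maps from twists of the structure sheaf with torsion free target of rank one -/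
lemma mono_of_rank {n : ℤ} {A : C} (f : H.O⟦n⟧ ⟶ A) (h : H.r (image f) ≠ 0) : Mono f := by
  have h1 := H.r_kernel (factorThruImage f)
  rw [H.r_shift, H.r_O] at h1
  have h2 : H.r (kernel (factorThruImage f)) = 0 := by omega
  have h3 : IsZero (kernel (factorThruImage f)) :=
    H.tors_shift n (kernel.ι (factorThruImage f)) h2
  have h4 : Mono (factorThruImage f) := Preadditive.mono_of_isZero_kernel _ h3
  rw [← image.fac f]
  exact mono_comp _ _

end IntAmpleData

namespace HostData

variable [HasExt.{w} C] (H : HostData.{w} k C)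

/-- no twist of the structure sheaf is simple -/
lemma not_simple_O (n : ℤ) (h : Simple (H.O⟦n⟧)) : False := by
  obtain ⟨T, hT, hT1⟩ := H.dim_ge
  have hT0 : ¬ IsZero T := fun h => hT1 (IsFin.of_isZero h)
  obtain ⟨n₀, hn⟩ := H.exists_sec (T⟦-n⟧) (fun h => hT0 ((isZero_shift_iff _).1 h))
  obtain ⟨f, hf⟩ := hn n₀ le_rfl
  have h1 : f⟦n⟧' ≠ 0 := fun h => hf ((shiftFunctor C n).map_injective (by rw [h, Functor.map_zero]))
  have h2 : Mono (f⟦n⟧') := mono_of_nonzero_from_simple h1
  have h3 := H.r_mono (f⟦n⟧')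
  rw [H.r_shift, H.r_O, H.r_shift, H.r_shift, H.r_shift, hT] at h3
  omega

/-- simple objects have rank zero -/
lemma r_simple (Z : C) (hZ : Simple Z) : H.r Z = 0 := by
  by_contra h
  obtain ⟨n₀, hn⟩ := H.exists_sec Z (Simple.not_isZero Z)
  obtain ⟨f, hf⟩ := hn n₀ le_rfl
  have h1 := untw_ne_zero hf
  have h2 : Epi (untw f) := epi_of_nonzero_to_simple h1
  have h3 := H.r_kernel (untw f)
  rw [H.r_shift, H.r_O] at h3
  have h4 : H.r (kernel (untw f)) = 0 := by omega
  have h5 : IsZero (kernel (untw f)) := H.tors_shift _ (kernel.ι (untw f)) h4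
  have h6 : Mono (untw f) := Preadditive.mono_of_isZero_kernel _ h5
  have h7 : IsIso (untw f) := isIso_of_mono_of_epi _
  exact H.not_simple_O _ (Simple.of_iso (asIso (untw f)))

/-- P4: objects of finite length have rank zero -/
theorem r_fin (Z : C) (hZ : IsFin Z) : H.r Z = 0 := by
  refine IsFin.induct (P := fun Z => H.r Z = 0) (fun Z hZ => H.r_zero hZ) ?_ Z hZ
  intro S hS h1 _ h3
  rw [H.r_add S hS, H.r_simple _ h1, h3]

/-- P6: the canonical bundle is torsion free -/
theorem torsKO (T : C) (f : T ⟶ (shiftFunctor C (-1 : ℤ)).obj H.O) (hT : H.r T = 0) : f = 0 :=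
  H.hom_tors (-1) hT f

end HostData

end

end Fdim
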