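import Pool.Agent.Work.MP_f714fc_ag.Abs.S1Hom
import Pool.Agent.Work.MP_f714fc_ag.Abs.SurfP4

/-!
MP_f714fc_ag, block ABS-S1, parts P5, P6, P7 of note 6454 (Nakayama for a simple object).
-/

open CategoryTheory CategoryTheory.Abelian CategoryTheory.Limits

universe w v u t

namespace Fdim

set_option linter.unusedSectionVars false

attribute [local instance] Abelian.hasFiniteBiproducts

variable {k : Type t} [Field k] {C : Type u} [Category.{v} C] [Abelian C] [Linear k C]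
  [HasShift C ℤ] [∀ n : ℤ, (shiftFunctor C n).Additive] [∀ n : ℤ, (shiftFunctor C n).Linear k]

namespace AmpleData

variable (H : AmpleData k C)

/-- P5, cyclic case -/
theorem nak_cyclic (Z : C) [Simple Z] (X : C) (t : H.O ⟶ X) [Epi t]
    (hX : ∀ f : X ⟶ Z, f = 0) :
    ∃ (n : ℤ) (D : ShiftedHom H.O H.O n), H.act n X D = 0 ∧
      IsIso (H.act n Z D : Z ⟶ Z⟦n⟧) := by
  obtain ⟨u, hu⟩ := H.exists_hom_ne Z
  have hju : kernel.ι t ≫ u ≠ 0 := by
    intro h0
    obtain ⟨u', hu'⟩ : ∃ u' : X ⟶ Z, t ≫ u' = u :=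
      ⟨_, (Abelian.epiIsCokernelOfKernel _ (kernelIsKernel t)).fac (CokernelCofork.ofπ u h0)
        WalkingParallelPair.one⟩
    exact hu (by rw [← hu', hX u', comp_zero])
  have hepi : Epi (kernel.ι t ≫ u) := epi_of_nonzero_to_simple hju
  obtain ⟨n₀, h⟩ := H.gg' (kernel t)
  obtain ⟨j, a, ha⟩ := h n₀ le_rfl
  have h1 : JEpi (fun i => a i ≫ (kernel.ι t ≫ u)⟦n₀⟧') := ha.comp _
  obtain ⟨i, hi⟩ := h1.exists_ne (𝟙 (Z⟦n₀⟧)) (id_nonzero _)
  rw [Category.comp_id] at hi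
  refine ⟨n₀, (a i ≫ (kernel.ι t)⟦n₀⟧' : H.O ⟶ H.O⟦n₀⟧), ?_, ?_⟩
  · have h2 := H.nat t n₀ (a i ≫ (kernel.ι t)⟦n₀⟧' : H.O ⟶ H.O⟦n₀⟧)
    rw [H.act_O] at h2
    rw [← cancel_epi t, comp_zero]
    refine h2.trans ?_
    rw [Category.assoc, ← Functor.map_comp, kernel.condition, Functor.map_zero, comp_zero]
  · have h2 := H.nat u n₀ (a i ≫ (kernel.ι t)⟦n₀⟧' : H.O ⟶ H.O⟦n₀⟧)
    rw [H.act_O] at h2
    apply isIso_of_hom_simple
    intro h0
    apply hi
    rw [h0, comp_zero] at h2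
    rw [Functor.map_comp, ← Category.assoc]
    exact h2.symm

/-- P5 with a given finite generating family -/
theorem nak_gen (Z : C) [Simple Z] : ∀ (h : ℕ) (X : C) (t : Fin h → (H.O ⟶ X)), JEpi t →
    (∀ f : X ⟶ Z, f = 0) →
    ∃ (n : ℤ) (D : ShiftedHom H.O H.O n), H.act n X D = 0 ∧
      IsIso (H.act n Z D : Z ⟶ Z⟦n⟧) := by
  intro h
  induction h with
  | zero =>
    intro X t ht _
    obtain ⟨n₀, h⟩ := H.exists_iso_act Z
    obtain ⟨s, hs⟩ := h n₀ le_rfl
    refine ⟨n₀, s, ?_, hs⟩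
    have h1 : 𝟙 X = 0 := ht X _ (fun i => i.elim0)
    have h2 : (H.act n₀ X s : X ⟶ X⟦n₀⟧) = 𝟙 X ≫ H.act n₀ X s := (Category.id_comp _).symm
    exact h2.trans (by rw [h1, zero_comp])
  | succ h ih =>
    intro X t ht hX
    let φ : (⨁ fun _ : Fin h => H.O) ⟶ X := biproduct.desc (fun i => t i.castSucc)
    let m : Abelian.image φ ⟶ X := Abelian.image.ι φ
    let e : (⨁ fun _ : Fin h => H.O) ⟶ Abelian.image φ := Abelian.factorThruImage φ
    have hem : e ≫ m = φ := Abelian.image.fac φ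
    have hmπ : m ≫ cokernel.π φ = 0 := kernel.condition _
    -- the quotient is cyclic
    have hcyc : Epi (t (Fin.last h) ≫ cokernel.π φ) := by
      apply Preadditive.epi_of_cancel_zero
      intro B g hg
      rw [← cancel_epi (cokernel.π φ), comp_zero]
      apply ht
      intro i
      refine Fin.lastCases ?_ (fun i => ?_) i
      · rw [← Category.assoc]; exact hg
      · have h1 : t i.castSucc = biproduct.ι (fun _ : Fin h => H.O) i ≫ φ :=
          (biproduct.ι_desc (fun i : Fin h => t i.castSucc) i).symm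
        rw [h1, Category.assoc, cokernel.condition_assoc, zero_comp, comp_zero]
    obtain ⟨n, D1, hD1, hD1Z⟩ := H.nak_cyclic Z (cokernel φ) (t (Fin.last h) ≫ cokernel.π φ)
      (fun f => by rw [← cancel_epi (cokernel.π φ), hX (cokernel.π φ ≫ f), comp_zero])
    -- `D1` maps `X` into the subobject
    let S : ShortComplex C := ShortComplex.mk m (cokernel.π φ) hmπ
    have hS : S.Exact := by
      apply ShortComplex.exact_of_f_is_kernel
      exact kernelIsKernel _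
    have hS' : (S.map (shiftFunctor C n)).Exact := hS.map (shiftFunctor C n)
    have : Mono (S.map (shiftFunctor C n)).f := by
      change Mono (m⟦n⟧')
      infer_instance
    have hlift : (H.act n X D1 : X ⟶ X⟦n⟧) ≫ (cokernel.π φ)⟦n⟧' = 0 := by
      have h1 := H.nat (cokernel.π φ) n D1
      rw [hD1] at h1
      refine h1.symm.trans comp_zero
    let ψ : X ⟶ (Abelian.image φ)⟦n⟧ := hS'.lift (H.act n X D1 : X ⟶ X⟦n⟧) hlift
    have hψ : ψ ≫ m⟦n⟧' = H.act n X D1 := hS'.lift_f _ _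
    have hmψ : m ≫ ψ = H.act n (Abelian.image φ) D1 := by
      have h1 := H.nat m n D1
      rw [← hψ, ← Category.assoc] at h1
      exact (cancel_mono (m⟦n⟧')).1 h1
    -- no maps from the subobject to `Z`
    have hI : ∀ f : Abelian.image φ ⟶ Z, f = 0 := by
      intro f
      obtain ⟨eZ⟩ := H.iso_shift Z n
      have h1 : ψ ≫ f⟦n⟧' = 0 := by
        rw [← cancel_mono eZ.inv, zero_comp]
        exact hX _
      have h2 := H.nat f n D1
      rw [← hmψ, Category.assoc, h1, comp_zero] at h2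
      exact (cancel_mono (H.act n Z D1 : Z ⟶ Z⟦n⟧)).1 (h2.trans zero_comp.symm)
    have hgen : JEpi (fun i : Fin h => biproduct.ι (fun _ : Fin h => H.O) i ≫ e) := by
      intro B g hg
      rw [← cancel_epi e, comp_zero]
      apply biproduct.hom_ext'
      intro i
      rw [comp_zero, ← Category.assoc]
      exact hg i
    obtain ⟨n2, D2, hD2, hD2Z⟩ := ih (Abelian.image φ) _ hgen hI
    refine ⟨n2 + n, D1.comp D2 rfl, ?_, ?_⟩
    · rw [H.act_comp_eq D1 D2 rfl X, ← hψ]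
      have h1 : m⟦n⟧' ≫ (H.act n2 X D2 : X ⟶ X⟦n2⟧)⟦n⟧' = 0 := by
        rw [← Functor.map_comp, H.nat m n2 D2, hD2]
        have h2 : ((0 : ShiftedHom (Abelian.image φ) (Abelian.image φ) n2) :
          Abelian.image φ ⟶ (Abelian.image φ)⟦n2⟧) ≫ m⟦n2⟧' = 0 := zero_comp
        rw [h2, Functor.map_zero]
      simp only [Category.assoc]
      rw [← Category.assoc (m⟦n⟧'), h1, zero_comp, comp_zero]
    · rw [H.act_comp_eq D1 D2 rfl Z]
      infer_instance

/-- P5: Nakayama for a simple object -/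
theorem nakayama (Z : C) [Simple Z] (X : C) (hX : ∀ f : X ⟶ Z, f = 0) :
    ∃ (n : ℤ) (D : ShiftedHom H.O H.O n), H.act n X D = 0 ∧
      IsIso (H.act n Z D : Z ⟶ Z⟦n⟧) := by
  obtain ⟨m, h⟩ := H.gg' X
  obtain ⟨j, t, ht⟩ := h m le_rfl
  obtain ⟨eZ⟩ := H.iso_shift Z m
  obtain ⟨n, D, hD, hDZ⟩ := H.nak_gen Z j (X⟦m⟧) t ht (fun f => by
    obtain ⟨g, hg⟩ := (shiftFunctor C m).map_surjective (f ≫ eZ.hom)
    rw [hX g, Functor.map_zero] at hg
    rw [← cancel_mono eZ.hom, ← hg, zero_comp])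
  exact ⟨n, D, (H.act_shift_eq_zero m n X D).1 hD, hDZ⟩

include H in
/-- P6 -/
theorem ext_eq_zero_of_hom [HasExt.{w} C] (Z : C) [Simple Z] (X : C) (hX : ∀ f : X ⟶ Z, f = 0)
    {p : ℕ} (x : Ext.{w} X Z p) : x = 0 := by
  obtain ⟨n, D, hD, hDZ⟩ := H.nakayama Z X hX
  exact H.ext_zero D hD hDZ x

end AmpleData

namespace IntAmpleData

variable (H : IntAmpleData k C)

/-- an object generated by finitely many maps from an object of rank zero has rank zero -/
theorem r_of_jepi {Q : C} (hQ : H.r Q = 0) : ∀ (h : ℕ) (Y : C) (q : Fin h → (Q ⟶ Y)),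
    JEpi q → H.r Y = 0 := by
  intro h
  induction h with
  | zero =>
    intro Y q hq
    apply H.r_zero
    rw [IsZero.iff_id_eq_zero]
    exact hq Y _ (fun i => i.elim0)
  | succ h ih =>
    intro Y q hq
    have h1 : H.r (cokernel (q (Fin.last h))) = 0 := by
      apply ih _ (fun i : Fin h => q i.castSucc ≫ cokernel.π (q (Fin.last h)))
      intro B g hg
      rw [← cancel_epi (cokernel.π (q (Fin.last h))), comp_zero]
      apply hq
      intro i
      refine Fin.lastCases ?_ (fun i => ?_) i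
      · rw [cokernel.condition_assoc, zero_comp]
      · rw [← Category.assoc]; exact hg i
    have h2 := H.r_kernel (cokernel.π (q (Fin.last h)))
    have h3 := H.r_kernel (Abelian.factorThruImage (q (Fin.last h)))
    have h4 : H.r (Abelian.image (q (Fin.last h))) =
      H.r (kernel (cokernel.π (q (Fin.last h)))) := rfl
    omega

/-- P7 -/
theorem r_of_act_eq_zero (A : C) (n : ℤ) (D : ShiftedHom H.O H.O n) (hD : D ≠ 0)
    (h : H.act n A D = 0) : H.r A = 0 := by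
  have : Mono (D : H.O ⟶ H.O⟦n⟧) := H.mono_of_ne n D hD
  have hQ : H.r (cokernel (D : H.O ⟶ H.O⟦n⟧)) = 0 := by
    have h1 := H.r_coker (D : H.O ⟶ H.O⟦n⟧)
    rw [H.r_shift] at h1
    omega
  obtain ⟨m, hm⟩ := H.gg' A
  obtain ⟨j, t, ht⟩ := hm m le_rfl
  have hz : ∀ i, (D : H.O ⟶ H.O⟦n⟧) ≫ (t i)⟦n⟧' = 0 := by
    intro i
    have h1 := H.nat (t i) n D
    rw [H.act_O, (H.act_shift_eq_zero m n A D).2 h] at h1
    exact h1.symm.trans comp_zero
  have h2 : H.r ((A⟦m⟧)⟦n⟧) = 0 := by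
    apply H.r_of_jepi hQ j _ (fun i => cokernel.desc (D : H.O ⟶ H.O⟦n⟧) ((t i)⟦n⟧') (hz i))
    intro B g hg
    apply ht.shift n
    intro i
    have h3 : cokernel.desc (D : H.O ⟶ H.O⟦n⟧) ((t i)⟦n⟧') (hz i) ≫ g = 0 := hg i
    change (t i)⟦n⟧' ≫ g = 0
    rw [← cokernel.π_desc (D : H.O ⟶ H.O⟦n⟧) ((t i)⟦n⟧') (hz i), Category.assoc, h3,
      comp_zero]
  rw [H.r_shift, H.r_shift] at h2
  exact h2

/-- an object killed by a nonzero section has no maps to the twists of the structure sheaf -/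
theorem hom_O_eq_zero (A : C) (n : ℤ) (D : ShiftedHom H.O H.O n) (hD : D ≠ 0)
    (h : H.act n A D = 0) (m : ℤ) (a : A ⟶ H.O⟦m⟧) : a = 0 := by
  have : Mono (D : H.O ⟶ H.O⟦n⟧) := H.mono_of_ne n D hD
  have h1 := H.nat a n D
  have h2 : Mono (H.act n (H.O⟦m⟧) D : H.O⟦m⟧ ⟶ H.O⟦m⟧⟦n⟧) := by
    rw [H.act_shift m n (n + m) rfl (add_comm m n) H.O D, H.act_O]
    have : Mono ((D : H.O ⟶ H.O⟦n⟧)⟦m⟧') := inferInstance
    exact mono_comp _ _
  rw [h] at h1
  have h3 : ((0 : ShiftedHom A A n) : A ⟶ A⟦n⟧) ≫ a⟦n⟧' = 0 := zero_comp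
  exact (cancel_mono (H.act n (H.O⟦m⟧) D : H.O⟦m⟧ ⟶ H.O⟦m⟧⟦n⟧)).1
    (h1.trans (h3.trans zero_comp.symm))

end IntAmpleData

end Fdim
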