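import Pool.Agent.Work.MP_f714fc_ag.Abs.S1Rank
import Pool.Agent.Work.MP_f714fc_ag.Abs.S1Nak

/-!
MP_f714fc_ag, block ABS-S1: the Euler characteristic against a simple object is the generic
rank (note 6454).
-/

open CategoryTheory CategoryTheory.Abelian CategoryTheory.Limits ZeroObject

universe w v u t

namespace Fdim

set_option linter.unusedSectionVars false

variable {k : Type t} [Field k] {C : Type u} [Category.{v} C] [Abelian C] [Linear k C]
  [HasShift C ℤ] [∀ n : ℤ, (shiftFunctor C n).Additive]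
  [∀ n : ℤ, (shiftFunctor C n).Linear k] [HasExt.{w} C]

open Pool.Agent.Work.MP_f714fc_ag.Abs (ch_add_left ch ed FinExt)

namespace HostData

variable (H : HostData.{w} k C)

include H in
theorem finHom (A B : C) : Module.Finite k (A ⟶ B) := by
  have := H.fin A B 0
  exact Module.Finite.equiv (Ext.linearEquiv₀ (R := k) (X := A) (Y := B))

include H in
theorem ed_three_zero (A B : C) : ed k A B 3 = 0 := by
  have := H.van A B 3 le_rfl
  exact Module.finrank_zero_of_subsingleton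

include H in
theorem chi_ses {S : ShortComplex C} (hS : S.ShortExact) (Y : C) :
    chi k S.X₂ Y = chi k S.X₁ Y + chi k S.X₃ Y :=
  ch_add_left H.fin (fun A B => H.ed_three_zero A B) hS Y

theorem r_pw (X : C) (hX : H.r X = 1) (n : ℕ) : H.r (pw X n) = n := by
  induction n with
  | zero => exact H.r_zero (isZero_pw_zero X)
  | succ n ih =>
    have h6 := H.r_add _ (Pool.Agent.Work.MP_f714fc_ag.Abs.ses_biprod X (pw X n))
    change H.r (X ⊞ pw X n) = H.r X + H.r (pw X n) at h6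
    change H.r (X ⊞ pw X n) = n + 1
    rw [h6, ih, hX, add_comm]

/-- Euler characteristic when the higher Ext groups vanish -/
theorem chi_eq_hom (A Z : C) (h1 : ∀ x : Ext.{w} A Z 1, x = 0) (h2 : ∀ x : Ext.{w} A Z 2, x = 0) :
    chi k A Z = Module.finrank k (A ⟶ Z) := by
  have s1 : Subsingleton (Ext.{w} A Z 1) := ⟨fun x y => by rw [h1 x, h1 y]⟩
  have s2 : Subsingleton (Ext.{w} A Z 2) := ⟨fun x y => by rw [h2 x, h2 y]⟩
  have e0 : ext k A Z 0 = Module.finrank k (A ⟶ Z) :=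
    (Ext.linearEquiv₀ (R := k) (X := A) (Y := Z)).finrank_eq
  have e1 : ext k A Z 1 = 0 := Module.finrank_zero_of_subsingleton
  have e2 : ext k A Z 2 = 0 := Module.finrank_zero_of_subsingleton
  rw [chi, e0, e1, e2]
  simp

/-- a presentation by a good object -/
theorem exists_good [IsAlgClosed k] (Z : C) [Simple Z] (A : C) :
    ∃ (E : C) (q : E ⟶ A), Epi q ∧ (∀ p (x : Ext.{w} E Z (p + 1)), x = 0) ∧
      chi k E Z = H.r E := by
  obtain ⟨m, j, f, hf⟩ := H.gg_untw A
  refine ⟨pw (H.O⟦m⟧) j, pwDesc j f, hf.epi_pwDesc, ?_, ?_⟩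
  · intro p x
    exact ext_pw _ Z (p + 1) (fun y => H.toAmpleData.ext_shift_simple Z m y) j x
  · rw [chi_eq_hom _ _
      (fun x => ext_pw _ Z 1 (fun y => H.toAmpleData.ext_shift_simple Z m y) j x)
      (fun x => ext_pw _ Z 2 (fun y => H.toAmpleData.ext_shift_simple Z m y) j x),
      finrank_pw (fun A B => H.finHom A B), H.finrank_shift_simple Z (H.finHom Z Z) m, mul_one,
      H.r_pw _ (by rw [H.r_shift, H.r_O])]

/-- the kernel sequence -/
theorem ses_ker {E A : C} (q : E ⟶ A) [Epi q] :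
    (ShortComplex.mk (kernel.ι q) q (kernel.condition q)).ShortExact where
  exact := ShortComplex.exact_kernel q
  mono_f := inferInstance
  epi_g := inferInstance

theorem ext_shift_down {E A Z : C} (q : E ⟶ A) [Epi q] {p : ℕ}
    (hE : ∀ x : Ext.{w} E Z p, x = 0) (hA : ∀ x : Ext.{w} A Z (p + 1), x = 0)
    (x : Ext.{w} (kernel q) Z p) : x = 0 := by
  obtain ⟨y, hy⟩ := Ext.contravariant_sequence_exact₁ (ses_ker q) Z x (n₁ := p + 1)
    (add_comm 1 p) (hA _)
  rw [← hy, hE y, Ext.comp_zero]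

/-- **Block ABS-S1** -/
theorem chi_simple_thm [IsAlgClosed k] (A Z : C) (hZ : Simple Z) : chi k A Z = H.r A := by
  obtain ⟨E₀, q₀, hq₀, hE₀, hc₀⟩ := H.exists_good Z A
  obtain ⟨E₁, q₁, hq₁, hE₁, hc₁⟩ := H.exists_good Z (kernel q₀)
  have hv : ∀ (X : C) (p : ℕ), 3 ≤ p → ∀ x : Ext.{w} X Z p, x = 0 := by
    intro X p hp x
    have := H.van X Z p hp
    exact Subsingleton.elim _ _
  -- the second syzygy
  have hK2 : ∀ x : Ext.{w} (kernel q₀) Z 2, x = 0 :=
    ext_shift_down q₀ (hE₀ 1) (hv A 3 le_rfl)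
  have hK3 : ∀ x : Ext.{w} (kernel q₀) Z 3, x = 0 := hv _ 3 le_rfl
  have hN1 : ∀ x : Ext.{w} (kernel q₁) Z 1, x = 0 := ext_shift_down q₁ (hE₁ 0) hK2
  have hN2 : ∀ x : Ext.{w} (kernel q₁) Z 2, x = 0 := ext_shift_down q₁ (hE₁ 1) hK3
  have hN : chi k (kernel q₁) Z = H.r (kernel q₁) := by
    rw [chi_eq_hom _ _ hN1 hN2]
    rw [rank_of_nak H.toIntAmpleData (fun A B => H.finHom A B) Z
      (fun D hD => H.nakayama Z D hD)
      (fun D n s hs h => H.toIntAmpleData.r_of_act_eq_zero D n s hs h) _ hN1]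
  -- additivity
  have a0 := H.chi_ses (ses_ker q₀) Z
  have a1 := H.chi_ses (ses_ker q₁) Z
  have b0 := H.r_add _ (ses_ker q₀)
  have b1 := H.r_add _ (ses_ker q₁)
  change chi k E₀ Z = chi k (kernel q₀) Z + chi k A Z at a0
  change chi k E₁ Z = chi k (kernel q₁) Z + chi k (kernel q₀) Z at a1
  change H.r E₀ = H.r (kernel q₀) + H.r A at b0
  change H.r E₁ = H.r (kernel q₁) + H.r (kernel q₀) at b1
  rw [hc₀] at a0
  rw [hc₁, hN] at a1
  rw [b0] at a0
  rw [b1] at a1
  push_cast at a0 a1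
  linarith

end HostData

end Fdim
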