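import Pool.Agent.Work.MP_f714fc_ag.Abs.SurfOf
import Pool.Agent.Work.MP_f714fc_ag.Abs.S1

/-!
MP_f714fc_ag, block ABS-S2: everything the key lemma needs.
-/

set_option autoImplicit false

open CategoryTheory CategoryTheory.Abelian CategoryTheory.Limits

universe w v u t

namespace Fdim

variable {k : Type t} [Field k] {C : Type u} [Category.{v} C] [Abelian C] [Linear k C]
  [HasShift C ℤ] [∀ n : ℤ, (shiftFunctor C n).Additive] [∀ n : ℤ, (shiftFunctor C n).Linear k]
  [HasExt.{w} C]

/-- chi(A, Z) is the generic rank of A, Z simple (k algebraically closed) -/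
theorem HostData.chi_simple [IsAlgClosed k] (H : HostData.{w} k C) (A Z : C) (hZ : Simple Z) :
    chi k A Z = H.r A := H.chi_simple_thm A Z hZ

/-- Block ABS-S2: everything the key lemma needs -/
theorem HostData.surfNum [IsAlgClosed k] (H : HostData.{w} k C) :
    ∃ N : SurfNum.{w} k C, N.K = shiftFunctor C (-1 : ℤ) :=
  H.surfNum_of fun A Z hZ => H.chi_simple A Z hZ

end Fdim
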