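import Pool.Agent.Work.MP_f714fc_ag.Abs.Sheaf
import Pool.Agent.Work.MP_f714fc_ag.Abs.KeyDer

set_option autoImplicit false

/-!
The inequalities (L1), (L2) for all objects of a category with a numerical package `SurfNum`.
-/

namespace Pool.Agent.Work.MP_f714fc_ag.Abs

open CategoryTheory CategoryTheory.Abelian CategoryTheory.Limits ZeroObject

universe w v u t

section

variable {k : Type t} [Field k] {C : Type u} [Category.{v} C] [Abelian C] [Linear k C]
  [HasExt.{w} C]

variable (k) in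
/-- the first inequality, for all objects -/
def M1 (A B : C) : Prop := ch k B A ≤ (ed k A B 0 : ℤ) + ed k B A 0

variable (k) in
/-- the second inequality, for all objects -/
def M2 (H : C) : Prop := ¬ IsZero H → ch k H H + 1 ≤ 2 * (ed k H H 0 : ℤ)

/-- sections of the middle term -/
lemma hom_cov (hf : FinExt k C) {S : ShortComplex C} (hS : S.ShortExact) (X : C)
    (h : ed k X S.X₁ 2 = 0) : ch k X S.X₁ + ed k X S.X₃ 0 ≤ (ed k X S.X₂ 0 : ℤ) := by
  obtain ⟨a, b, c, h0, hn⟩ := cov_ranks hf hS X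
  have e0 := hn 0
  simp only [zero_add] at e0
  unfold ch
  omega

lemma hom_contra (hf : FinExt k C) {S : ShortComplex C} (hS : S.ShortExact) (Y : C) :
    ed k S.X₃ Y 0 ≤ ed k S.X₂ Y 0 := by
  obtain ⟨a, b, c, h0, hn⟩ := contra_ranks hf hS Y
  have e0 := hn 0
  omega

lemma stepM1 (hf : FinExt k C) (h3 : ∀ A B : C, ed k A B 3 = 0) {S R : ShortComplex C}
    (hS : S.ShortExact) (hR : R.ShortExact) (g1 : ed k R.X₂ S.X₁ 2 = 0)
    (g3 : ed k S.X₃ R.X₁ 2 = 0) (g4 : ch k R.X₁ S.X₃ ≤ ch k S.X₃ R.X₁)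
    (ih : M1 k S.X₃ R.X₃) : M1 k S.X₂ R.X₂ := by
  have e1 := ch_add_right hf h3 hS R.X₂
  have e2 := ch_add_left hf h3 hR S.X₃
  have e3 := hom_cov hf hS R.X₂ g1
  have e4 := hom_contra hf hR S.X₃
  have e5 := hom_contra hf hS R.X₂
  have e6 := hom_cov hf hR S.X₃ g3
  unfold M1 at ih ⊢
  omega

lemma stepM1_fin (hf : FinExt k C) (h3 : ∀ A B : C, ed k A B 3 = 0) {S R : ShortComplex C}
    (hS : S.ShortExact) (hR : R.ShortExact) (g1 : ed k R.X₃ S.X₁ 2 = 0)
    (g3 : ed k S.X₃ R.X₁ 2 = 0) (g4 : ch k R.X₁ S.X₃ ≤ ch k S.X₃ R.X₁)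
    (g5 : ch k R.X₁ S.X₁ = 0) (ih : M1 k S.X₃ R.X₃) : M1 k S.X₂ R.X₂ := by
  have e1 := ch_add_right hf h3 hS R.X₂
  have e2 := ch_add_left hf h3 hR S.X₃
  have e2' := ch_add_left hf h3 hR S.X₁
  have e3 := hom_cov hf hS R.X₃ g1
  have e4 := hom_contra hf hR S.X₂
  have e5 := hom_contra hf hS R.X₂
  have e6 := hom_cov hf hR S.X₃ g3
  unfold M1 at ih ⊢
  omega

lemma stepM2 (hf : FinExt k C) (h3 : ∀ A B : C, ed k A B 3 = 0) {S : ShortComplex C}
    (hS : S.ShortExact) (g1 : ed k S.X₂ S.X₁ 2 = 0)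
    (g3 : ed k S.X₃ S.X₁ 2 = 0) (g4 : ch k S.X₁ S.X₃ ≤ ch k S.X₃ S.X₁)
    (ih : M2 k S.X₃) : M2 k S.X₂ := by
  intro hH
  by_cases h0 : IsZero S.X₃
  · obtain ⟨a, b, c, ha, hn⟩ := cov_ranks hf hS S.X₂
    have e1 := hn 1
    have e2 := hn 2
    have e3 := ed_of_isZero_right hf S.X₂ h0 2
    have e4 := one_le_ed_self hf hH
    simp only [Nat.reduceAdd] at e1 e2
    unfold ch
    omega
  · have i := ih h0
    have e1 := ch_add_right hf h3 hS S.X₂
    have e2 := ch_add_left hf h3 hS S.X₃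
    have e3 := hom_cov hf hS S.X₂ g1
    have e4 := hom_contra hf hS S.X₃
    have e5 := hom_contra hf hS S.X₂
    have e6 := hom_cov hf hS S.X₃ g3
    omega

lemma stepM2_fin (hf : FinExt k C) (h3 : ∀ A B : C, ed k A B 3 = 0) {S : ShortComplex C}
    (hS : S.ShortExact) (g3 : ed k S.X₃ S.X₁ 2 = 0) (g4 : ch k S.X₁ S.X₃ ≤ ch k S.X₃ S.X₁)
    (g5 : ch k S.X₁ S.X₁ = 0) (ih : M2 k S.X₃) : M2 k S.X₂ := by
  intro hH
  have e1 := ch_add_right hf h3 hS S.X₂
  have e2 := ch_add_left hf h3 hS S.X₃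
  have e2' := ch_add_left hf h3 hS S.X₁
  have e3 := hom_cov hf hS S.X₃ g3
  have e4 := hom_contra hf hS S.X₃
  have e5 := hom_contra hf hS S.X₂
  by_cases h0 : IsZero S.X₃
  · have f0 := one_le_ed_self hf hH
    have f1 : ch k S.X₁ S.X₃ = 0 := by
      unfold ch
      rw [ed_of_isZero_right hf _ h0, ed_of_isZero_right hf _ h0, ed_of_isZero_right hf _ h0]
      simp
    have f2 : ch k S.X₃ S.X₁ = 0 := by
      unfold ch
      rw [ed_of_isZero_left hf h0, ed_of_isZero_left hf h0, ed_of_isZero_left hf h0]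
      simp
    have f3 : ch k S.X₃ S.X₃ = 0 := by
      unfold ch
      rw [ed_of_isZero_left hf h0, ed_of_isZero_left hf h0, ed_of_isZero_left hf h0]
      simp
    omega
  · have i := ih h0
    omega

theorem M1_level {L : Lvl C} (hc : Ctx k L)
    (base : ∀ A B : C, L.Good A → L.Good B → ¬ L.Has A → ¬ L.Has B → M1 k A B) :
    ∀ A B : C, L.Good A → L.Good B → M1 k A B := by
  have main : ∀ m : ℕ, ∀ A B : C, L.Good A → L.Good B → ∀ N N' : ℤ, L.NB N A → L.NB N' B →
      N + N' ≤ m → M1 k A B := by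
    intro m
    induction m using Nat.strong_induction_on with
    | _ m IH =>
    intro A B hgA hgB N N' hN hN' hm
    by_cases hex : L.Has A ∨ L.Has B
    · obtain ⟨E, hE⟩ := hc.eb A
      obtain ⟨E', hE'⟩ := hc.eb B
      have := hc.noeth A
      have := hc.noeth B
      obtain ⟨p, q, hq, hbA, hbB, hX⟩ := Lvl.exists_top hgA hgB hN hE hN' hE' hex
      obtain ⟨s⟩ := Lvl.exists_slice hgA hN hE hq hbA
      obtain ⟨s'⟩ := Lvl.exists_slice hgB hN' hE' hq hbB
      have hn := s.n_sub_nonneg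
      have hn' := s'.n_sub_nonneg
      have hpos : 0 < L.n s.sub + L.n s'.sub := by
        rcases hX with ⟨X, i, hi, hPX, hX0, hXs⟩ | ⟨X, i, hi, hPX, hX0, hXs⟩
        · have := s.n_sub_pos hgA (s.sub_ne_zero i hPX hX0 hXs)
          omega
        · have := s'.n_sub_pos hgB (s'.sub_ne_zero i hPX hX0 hXs)
          omega
      have hNq := s.nb hN
      have hNq' := s'.nb hN'
      have z1 := nonneg_of_NB hNq
      have z2 := nonneg_of_NB hNq'
      have ih : M1 k s.quo s'.quo :=
        IH ((N - L.n s.sub) + (N' - L.n s'.sub)).toNat (by omega) s.quo s'.quo (s.good hq)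
          (s'.good hq) _ _ hNq hNq' (by omega)
      have g1 : ed k B s.sub 2 = 0 := by
        rw [hc.serre, ed_zero_iff hc.fin]
        exact fun f => s.hom_zero hbA (Lvl.twist_lt hq hgB hbB) f
      have g3 : ed k s.quo s'.sub 2 = 0 := by
        rw [hc.serre, ed_zero_iff hc.fin]
        exact fun f => s'.hom_zero hbB (Lvl.twist_lt hq (s.good hq) s.bd) f
      have g4 : ch k s'.sub s.quo ≤ ch k s.quo s'.sub :=
        hc.sym p q hq s.quo s'.sub s'.P s'.slope s.bd
      exact stepM1 (S := ShortComplex.mk s.i s.π s.w) (R := ShortComplex.mk s'.i s'.π s'.w)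
        hc.fin hc.ext3 s.ex s'.ex g1 g3 g4 ih
    · push Not at hex
      exact base A B hgA hgB hex.1 hex.2
  intro A B hgA hgB
  obtain ⟨N, hN⟩ := hc.nb A
  obtain ⟨N', hN'⟩ := hc.nb B
  exact main (N + N').toNat A B hgA hgB N N' hN hN' (Int.self_le_toNat _)

theorem M2_level {L : Lvl C} (hc : Ctx k L)
    (base : ∀ H : C, L.Good H → ¬ L.Has H → M2 k H) :
    ∀ H : C, L.Good H → M2 k H := by
  have main : ∀ m : ℕ, ∀ H : C, L.Good H → ∀ N : ℤ, L.NB N H → N ≤ m → M2 k H := by
    intro m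
    induction m using Nat.strong_induction_on with
    | _ m IH =>
    intro H hg N hN hm
    by_cases hex : L.Has H
    · obtain ⟨E, hE⟩ := hc.eb H
      have := hc.noeth H
      obtain ⟨p, q, hq, hb, -, hX⟩ := Lvl.exists_top hg hg hN hE hN hE (Or.inl hex)
      obtain ⟨s⟩ := Lvl.exists_slice hg hN hE hq hb
      have hs0 : ¬ IsZero s.sub := by
        rcases hX with ⟨X, i, hi, hPX, hX0, hXs⟩ | ⟨X, i, hi, hPX, hX0, hXs⟩
        · exact s.sub_ne_zero i hPX hX0 hXs
        · exact s.sub_ne_zero i hPX hX0 hXs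
      have hpos := s.n_sub_pos hg hs0
      have hNq := s.nb hN
      have z1 := nonneg_of_NB hNq
      have ih : M2 k s.quo :=
        IH (N - L.n s.sub).toNat (by omega) s.quo (s.good hq) _ hNq (by omega)
      have g1 : ed k H s.sub 2 = 0 := by
        rw [hc.serre, ed_zero_iff hc.fin]
        exact fun f => s.hom_zero hb (Lvl.twist_lt hq hg hb) f
      have g3 : ed k s.quo s.sub 2 = 0 := by
        rw [hc.serre, ed_zero_iff hc.fin]
        exact fun f => s.hom_zero hb (Lvl.twist_lt hq (s.good hq) s.bd) f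
      have g4 : ch k s.sub s.quo ≤ ch k s.quo s.sub :=
        hc.sym p q hq s.quo s.sub s.P s.slope s.bd
      exact stepM2 (S := ShortComplex.mk s.i s.π s.w) hc.fin hc.ext3 s.ex g1 g3 g4 ih
    · exact base H hg hex
  intro H hg
  obtain ⟨N, hN⟩ := hc.nb H
  exact main N.toNat H hg N hN (Int.self_le_toNat _)

namespace SurfCat

variable (S : SurfCat.{w} k C)

theorem m1_noFin {A B : C} (hA : S.NoFin A) (hB : S.NoFin B) : M1 k A B := by
  refine M1_level S.ctx1 ?_ A B (S.good1 hA) (S.good1 hB)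
  intro A B _ _ hA hB
  refine M1_level S.ctx2 ?_ A B (S.good2 hA) (S.good2 hB)
  intro A B _ _ hA _
  have h0 := S.isZero_of_not_has2 hA
  unfold M1 ch
  rw [ed_of_isZero_right S.fin B h0, ed_of_isZero_right S.fin B h0,
    ed_of_isZero_right S.fin B h0]
  simp

theorem m2_noFin {H : C} (hH : S.NoFin H) : M2 k H := by
  refine M2_level S.ctx1 ?_ H (S.good1 hH)
  intro H _ hH
  refine M2_level S.ctx2 ?_ H (S.good2 hH)
  intro H _ hH h0
  exact absurd (S.isZero_of_not_has2 hH) h0

lemma isFin_iso {X Y : C} (e : X ≅ Y) (hX : S.IsFin X) : S.IsFin Y :=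
  ⟨(S.radd.iso e).symm.trans hX.1, (S.dadd.iso e).symm.trans hX.2⟩

lemma hom_fin {X Y : C} (hX : S.IsFin X) (hY : S.NoFin Y) (f : X ⟶ Y) : f = 0 := by
  have h1 : S.IsFin (Limits.image f) :=
    ((S.isFin_iff (ses_of_epi (Limits.factorThruImage f))).mp hX).2
  have h2 := hY _ (Limits.image.ι f) h1
  rw [← Limits.image.fac f, h2.eq_of_tgt (Limits.factorThruImage f) 0, zero_comp]

lemma noFin_T {Y : C} (hY : S.NoFin Y) : S.NoFin (S.T.functor.obj Y) := by
  intro I j _ hI
  have e : S.T.functor.obj (S.T.inverse.obj I) ≅ I := S.T.counitIso.app I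
  set l : S.T.inverse.obj I ⟶ Y := S.T.inverse.map j ≫ S.T.unitIso.inv.app _ with hl
  have : Mono (S.T.inverse.map j) := inferInstance
  have : Mono l := by rw [hl]; exact mono_comp _ _
  have hI' := S.isFin_iso e.symm hI
  have h1 : S.r (S.T.inverse.obj I) = 0 := by rw [← S.rT]; exact hI'.1
  have h2 : S.d (S.T.inverse.obj I) = 0 := by
    have h3 := S.dT (S.T.inverse.obj I)
    rw [h1, mul_zero, sub_zero] at h3
    rw [← h3]
    exact hI'.2
  have h3 : IsZero (S.T.inverse.obj I) := hY _ l ⟨h1, h2⟩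
  have h4 : IsZero (S.T.functor.obj (S.T.inverse.obj I)) := by
    rw [IsZero.iff_id_eq_zero] at h3 ⊢
    rw [← S.T.functor.map_id, h3, Functor.map_zero]
  exact h4.of_iso e.symm

/-- the maximal finite subobject -/
lemma exists_fin (H : C) : ∃ R : ShortComplex C, R.X₂ = H ∧ R.ShortExact ∧ S.IsFin R.X₁ ∧
    S.NoFin R.X₃ := by
  classical
  have := S.noeth H
  let 𝓜 : Set (Subobject H) := {Q | S.IsFin (Q : C)}
  have hne : 𝓜.Nonempty := by
    refine ⟨⊥, ?_⟩
    have h0 : IsZero ((⊥ : Subobject H) : C) := (isZero_zero C).of_iso Subobject.botCoeIsoZero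
    exact ⟨S.radd.zero h0, S.dadd.zero h0⟩
  obtain ⟨Q, hQ, hQmax⟩ := wellFounded_gt.has_min 𝓜 hne
  have hQf : S.IsFin (Q : C) := hQ
  refine ⟨ShortComplex.mk Q.arrow (cokernel.π Q.arrow) (cokernel.condition _), rfl,
    ses_of_mono Q.arrow, hQf, ?_⟩
  intro J j _ hJ
  obtain ⟨Y, a, b, w, c, hY, hac, hcb, hc⟩ := pull_ses (ses_of_mono Q.arrow) j
  have : Mono c := hc inferInstance
  have hYf : S.IsFin Y := (S.isFin_iff hY).mpr ⟨hQf, hJ⟩
  have h1 : Subobject.mk c ≤ Q := by
    rcases (Subobject.le_mk_of_comm a hac : Q ≤ Subobject.mk c).eq_or_lt with h1 | h1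
    · exact h1.ge
    · exact absurd h1 (hQmax _ (S.isFin_iso (Subobject.underlyingIso c).symm hYf))
  have : Epi b := hY.epi_g
  have hcb' : c ≫ cokernel.π Q.arrow = b ≫ j := hcb
  have h2 : b ≫ j = 0 := by
    rw [← hcb', ← Subobject.ofMkLE_arrow h1, Category.assoc, cokernel.condition, comp_zero]
  have hj0 : j = 0 := by rw [← cancel_epi b, h2, comp_zero]
  rw [IsZero.iff_id_eq_zero, ← cancel_mono j, hj0, comp_zero, comp_zero]

lemma ext2_fin {X Y : C} (hX : S.NoFin X) (hY : S.IsFin Y) : ed k X Y 2 = 0 := by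
  rw [S.serre, ed_zero_iff S.fin]
  exact fun f => S.hom_fin hY (S.noFin_T hX) f

lemma ch_fin_comm {X : C} (hX : S.IsFin X) (Y : C) : ch k X Y = ch k Y X := by
  have h := S.n1 X Y
  rw [hX.1, hX.2] at h
  linarith

lemma ch_fin_fin {X Y : C} (hX : S.IsFin X) (hY : S.IsFin Y) : ch k X Y = 0 := by
  have hB : S.IsFin (X ⊞ Y) := (S.isFin_iff (ses_biprod X Y)).mpr ⟨hX, hY⟩
  have h0 := S.ch_fin _ hB.1 hB.2
  have e1 := ch_add_right S.fin S.ext3 (ses_biprod X Y) (X ⊞ Y)
  have e2 := ch_add_left S.fin S.ext3 (ses_biprod X Y) X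
  have e3 := ch_add_left S.fin S.ext3 (ses_biprod X Y) Y
  have e4 := S.ch_fin X hX.1 hX.2
  have e5 := S.ch_fin Y hY.1 hY.2
  have e6 := S.ch_fin_comm hX Y
  dsimp at e1 e2 e3
  linarith

include S in
/-- **(L1)** for all objects -/
theorem m1 (A B : C) : M1 k A B := by
  obtain ⟨R, rfl, hR, hR1, hR3⟩ := S.exists_fin A
  obtain ⟨R', rfl, hR', hR1', hR3'⟩ := S.exists_fin B
  exact stepM1_fin S.fin S.ext3 hR hR' (S.ext2_fin hR3' hR1) (S.ext2_fin hR3 hR1')
    (S.ch_fin_comm hR1' _).le (S.ch_fin_fin hR1' hR1) (S.m1_noFin hR3 hR3')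

include S in
/-- **(L2)** for all objects -/
theorem m2 (H : C) : M2 k H := by
  obtain ⟨R, rfl, hR, hR1, hR3⟩ := S.exists_fin H
  exact stepM2_fin S.fin S.ext3 hR (S.ext2_fin hR3 hR1) (S.ch_fin_comm hR1 _).le
    (S.ch_fin_fin hR1 hR1) (S.m2_noFin hR3)

include S in
/-- the hypotheses of the key lemma -/
theorem two (van : ∀ (X Y : C) (p : ℕ), 3 ≤ p → Subsingleton (Ext.{w} X Y p)) :
    Fdim.Two.{w} k C where
  fin := S.fin
  van := van
  one X Y := by
    have h := S.m1 X Y
    unfold M1 ch at h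
    change ed k Y X 2 ≤ ed k X Y 0 + ed k Y X 1
    omega
  two X hX := by
    have h := S.m2 X hX
    unfold ch at h
    change ed k X X 2 + 1 ≤ ed k X X 0 + ed k X X 1
    omega

end SurfCat

/-! ### From the numerical package -/

/-- The package of `SurfCat` from the numerical package `SurfNum`. -/
noncomputable def surfCatOf (N : Fdim.SurfNum.{w} k C) : SurfCat.{w} k C := by
  have hK := N.hK
  have hKadd := N.hKadd
  have fin : FinExt k C := N.fin
  have ext3 : ∀ A B : C, ed k A B 3 = 0 := fun A B =>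
    (ed_eq_zero_iff fin A B 3).mpr (N.van A B 3 le_rfl)
  have serre0 : ∀ A B : C, ed k A B 0 = ed k B (N.K.obj A) 2 := fun A B => N.serre A B 0 2 rfl
  have serre1 : ∀ A B : C, ed k A B 1 = ed k B (N.K.obj A) 1 := fun A B => N.serre A B 1 1 rfl
  have serre2 : ∀ A B : C, ed k A B 2 = ed k B (N.K.obj A) 0 := fun A B => N.serre A B 2 0 rfl
  have chs : ∀ A B : C, ch k A B = ch k B (N.K.obj A) := by
    intro A B
    unfold ch
    rw [serre0 A B, serre1 A B, serre2 A B]
    ring
  have hd : ∀ A : C, N.d A = ch k N.O A - ch k A N.O := N.d_def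
  have hn1 : ∀ A B : C, ch k A B - ch k B A = (N.r A : ℤ) * N.d B - (N.r B : ℤ) * N.d A := N.n1
  exact
    { T := N.K.asEquivalence
      r := fun A => (N.r A : ℤ)
      d := N.d
      x := fun A => ch k N.O A
      c := -N.d (N.K.obj N.O)
      hc := by have := N.dKO; omega
      fin := fin
      ext3 := ext3
      serre := serre2
      radd := fun S hS => by
        have h := N.r_add S hS
        change (N.r S.X₂ : ℤ) = N.r S.X₁ + N.r S.X₃
        exact_mod_cast h
      dadd := fun S hS => by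
        rw [hd, hd, hd, ch_add_right fin ext3 hS, ch_add_left fin ext3 hS]
        ring
      xadd := fun S hS => ch_add_right fin ext3 hS N.O
      r_nonneg := fun A => Int.natCast_nonneg _
      d_nonneg := fun A hA => N.n2 A (by exact_mod_cast hA)
      x_nonneg := fun A hA hA' => by
        by_cases h0 : IsZero A
        · unfold ch
          rw [ed_of_isZero_right fin _ h0, ed_of_isZero_right fin _ h0,
            ed_of_isZero_right fin _ h0]
          simp
        · have h1 : Fdim.IsFin A := (N.n2' A (by exact_mod_cast hA)).mp hA'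
          exact (N.fin_pos A h1 h0).le
      rT := fun A => by
        have := N.r_K A
        exact_mod_cast this
      dT := fun A => by
        have h1 := hn1 (N.K.obj N.O) (N.K.obj A)
        have e1 : ch k (N.K.obj N.O) (N.K.obj A) = ch k N.O A := by
          rw [chs N.O A, chs A (N.K.obj N.O)]
        have e2 : ch k (N.K.obj A) (N.K.obj N.O) = ch k A N.O := by
          rw [chs A N.O, chs N.O (N.K.obj A)]
        rw [e1, e2, N.r_K, N.r_K, N.r_O, ← hd] at h1
        change N.d (N.K.obj A) = N.d A - -N.d (N.K.obj N.O) * (N.r A : ℤ)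
        push_cast at h1
        linarith
      xT := fun A _ => by
        change ch k N.O (N.K.obj A) = ch k N.O A - N.d A
        rw [hd, ← chs]
        ring
      ch_fin := fun A hA hA' =>
        N.fin_chi A ((N.n2' A (by exact_mod_cast hA)).mp hA')
      n1 := hn1
      noeth := N.noeth
      dbd := fun A => by
        obtain ⟨c, hc⟩ := N.bdd A
        exact ⟨c, fun X i hi => hc X i hi⟩
      xbd := fun A => by
        refine ⟨(ed k N.O A 0 : ℤ), fun X i hi hX => ?_⟩
        have hX' : N.r X = 0 := by exact_mod_cast hX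
        have h2 : ed k N.O X 2 = 0 := by
          rw [serre2, ed_zero_iff fin]
          exact fun f => N.torsKO X f hX'
        have h3 : ed k N.O X 0 ≤ ed k N.O A 0 := by
          obtain ⟨a, b, c, ha, hn⟩ := cov_ranks fin (ses_of_mono i) N.O
          have e0 := hn 0
          dsimp at ha e0
          omega
        unfold ch
        omega }

/-- **(L1), (L2)** from the numerical package. -/
theorem two_of_surfNum (N : Fdim.SurfNum.{w} k C) : Fdim.Two.{w} k C :=
  (surfCatOf N).two N.van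

end

end Pool.Agent.Work.MP_f714fc_ag.Abs

namespace Fdim

open CategoryTheory

universe w' v' u' t'

/-- **(L1), (L2)** from the numerical package. -/
theorem SurfNum.two {k : Type t'} [Field k] {C : Type u'} [Category.{v'} C] [Abelian C]
    [Linear k C] [HasExt.{w'} C] (N : SurfNum.{w'} k C) : Two.{w'} k C :=
  Pool.Agent.Work.MP_f714fc_ag.Abs.two_of_surfNum N

end Fdim
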