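import Pool.Agent.Work.MP_f714fc_ag.Abs.SerreDef
import Pool.Agent.Work.MP_f714fc_ag.Abs.Host
import Pool.Agent.Work.MP_f714fc_ag.Abs.KeyDer
import Pool.Agent.Work.MP_f714fc_ag.Abs.TwoOf
import Pool.Agent.Work.MP_f714fc_ag.Abs.Charts
import Pool.Agent.Work.MP_f714fc_ag.Abs.DimFree
import Pool.Agent.Work.MP_f714fc_ag.Abs.SurfNumOf

/-!
MP_f714fc_ag: from the Serre functor form of the canonical twist to `Two`, the hypotheses of the
key lemma.  Dimension at most one: directly.  Dimension two: through `HostData`.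
-/

open CategoryTheory CategoryTheory.Abelian CategoryTheory.Limits

universe w v u t a m

namespace Fdim

variable {k : Type t} [Field k] {C : Type u} [Category.{v} C] [Abelian C] [Linear k C]
  [HasExt.{w} C]

namespace IsSerreTwist

variable {n : ℕ} {T : C ⥤ C}

/-- vanishing above the dimension -/
theorem van (h : IsSerreTwist.{w} k n T) (A B : C) (p : ℕ) (hp : n < p) :
    Subsingleton (Ext.{w} A B p) := by
  obtain ⟨tr, htr⟩ := h A
  exact (htr B).2 p hp

/-- finiteness -/
theorem fin (h : IsSerreTwist.{w} k n T) (A B : C) (p : ℕ) : Module.Finite k (Ext.{w} A B p) := by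
  by_cases hp : n < p
  · have := h.van A B p hp
    infer_instance
  · obtain ⟨tr, htr⟩ := h A
    have hpq : p + (n - p) = n := by omega
    have h1 := (htr B).1 p (n - p) hpq
    have h2 : Module.IsReflexive k (Ext.{w} A B p) :=
      Module.IsReflexive.of_isPerfPair (serrePairing k tr B p (n - p) hpq)
    infer_instance

/-- equality of dimensions -/
theorem ext_eq (h : IsSerreTwist.{w} k n T) (A B : C) (p q : ℕ) (hpq : p + q = n) :
    ext k A B p = ext k B (T.obj A) q := by
  obtain ⟨tr, htr⟩ := h A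
  have h1 := (htr B).1 p q hpq
  have h2 := h.fin A B p
  exact Module.finrank_of_isPerfPair (serrePairing k tr B p q hpq)

/-- dimension at most one -/
theorem two_of_le_one (h : IsSerreTwist.{w} k n T) (hn : n ≤ 1) : Two.{w} k C :=
  Two.of_curve h.fin fun A B p hp => h.van A B p (by omega)

end IsSerreTwist

/-- isomorphic coefficients have the same dimension -/
theorem ext_eq_of_iso {A B B' : C} (e : B ≅ B') (p : ℕ) : ext k A B p = ext k A B' p := by
  let f : Ext.{w} A B p →ₗ[k] Ext.{w} A B' p :=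
    Ext.postcompOfLinear (Ext.mk₀ e.hom) k A (add_zero p)
  let g : Ext.{w} A B' p →ₗ[k] Ext.{w} A B p :=
    Ext.postcompOfLinear (Ext.mk₀ e.inv) k A (add_zero p)
  have hf : ∀ x, f x = x.comp (Ext.mk₀ e.hom) (add_zero p) := fun x => rfl
  have hg : ∀ x, g x = x.comp (Ext.mk₀ e.inv) (add_zero p) := fun x => rfl
  refine (LinearEquiv.ofLinearMap f g ?_ ?_).finrank_eq
  · ext x
    rw [LinearMap.comp_apply, hf, hg, Ext.comp_assoc_of_third_deg_zero, Ext.mk₀_comp_mk₀,
      e.inv_hom_id, Ext.comp_mk₀_id, LinearMap.id_apply]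
  · ext x
    rw [LinearMap.comp_apply, hf, hg, Ext.comp_assoc_of_third_deg_zero, Ext.mk₀_comp_mk₀,
      e.hom_inv_id, Ext.comp_mk₀_id, LinearMap.id_apply]

section Surface

variable [HasShift C ℤ] [∀ n : ℤ, (shiftFunctor C n).Additive]
  [∀ n : ℤ, (shiftFunctor C n).Linear k]

/-- Weak host data from the ample data and the Serre functor form of the canonical twist. -/
def HostData0.of (D : IntAmpleData k C) {T : C ⥤ C} (h : IsSerreTwist.{w} k 2 T)
    (e : ∀ A : C, Nonempty (T.obj A ≅ A⟦(-1 : ℤ)⟧))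
    (dim_le0 : ∀ T : C, D.r T = 0 → ∃ n₀ : ℤ, ∀ n ≥ n₀, ∃ s : ShiftedHom D.O D.O n,
      IsFin (kernel (D.act n T s)) ∧ IsFin (cokernel (D.act n T s))) : HostData0.{w} k C where
  toIntAmpleData := D
  dim_le0 := dim_le0
  fin := h.fin
  van A B p hp := h.van A B p (by omega)
  serre A B p q hpq := by
    obtain ⟨i⟩ := e A
    rw [h.ext_eq A B p q hpq, ext_eq_of_iso i q]

/-- A surface with an anticanonical ample twist satisfies the hypotheses of the key lemma. -/
theorem two_of_charts [IsAlgClosed k] [Infinite k] (D : IntAmpleData k C) (X : ChartData.{v, u, t, a, m} D)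
    {T : C ⥤ C} (h : IsSerreTwist.{w} k 2 T) (e : ∀ A : C, Nonempty (T.obj A ≅ A⟦(-1 : ℤ)⟧)) :
    Two.{w} k C := by
  obtain ⟨N, -⟩ := (HostData0.of D h e (fun T hT => X.dim_le_weak T hT)).toHostData.surfNum
  exact N.two

end Surface

end Fdim
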