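import Pool.Agent.Work.MP_f714fc_ag.Abs.KeyDer

/-!
MP_f714fc_ag, ABS-E: no fully faithful functor between bounded derived categories sends a
sphere like object into a category satisfying (L1) and (L2).
-/

open CategoryTheory CategoryTheory.Abelian CategoryTheory.Limits CategoryTheory.Triangulated
open Module

universe w₁' w₁ v₁ u₁ w₂' w₂ v₂ u₂ w' w v u t

namespace Fdim

section Finite

variable {k : Type t} [Field k] {A : Type u} [Category.{v} A] [Abelian A] [Linear k A]
  [HasDerivedCategory.{w'} A] [HasExt.{w} A]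

omit [HasExt.{w} A] [Linear k A] in
lemma inHeart_trunc (F : DerivedCategory A) (i : ℤ) : InHeart
    ((shiftFunctor (DerivedCategory A) i).obj
      ((DerivedCategory.TStructure.t.truncGELT i (i + 1)).obj F)) := by
  have h1 : DerivedCategory.TStructure.t.IsGE
      ((DerivedCategory.TStructure.t.truncGELT i (i + 1)).obj F) i := inferInstance
  have h2 : DerivedCategory.TStructure.t.IsLE
      ((DerivedCategory.TStructure.t.truncGELT i (i + 1)).obj F) i := by
    have h3 : DerivedCategory.TStructure.t.IsLE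
      ((DerivedCategory.TStructure.t.truncGELT i (i + 1)).obj F) (i + 1 - 1) := inferInstance
    rwa [add_sub_cancel_right] at h3
  have h3 := DerivedCategory.TStructure.t.isGE_shift
    ((DerivedCategory.TStructure.t.truncGELT i (i + 1)).obj F) i i 0
  have h4 := DerivedCategory.TStructure.t.isLE_shift
    ((DerivedCategory.TStructure.t.truncGELT i (i + 1)).obj F) i i 0
  exact DerivedCategory.exists_iso_singleFunctor_obj_of_isGE_of_isLE _ 0

/-- Morphisms between bounded objects form a finite dimensional space. -/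
lemma Two.finite_hom (h : Two.{w} k A) (X Y : DerivedCategory A) (a b a' b' : ℤ)
    (hX : X.IsGE a) (hX' : X.IsLE b) (hY : Y.IsGE a') (hY' : Y.IsLE b') :
    Module.Finite k (X ⟶ Y) := by
  let T : FanoDim.Tower (DerivedCategory.TStructure.t (C := A)) := FanoDim.Tower.ofObj _ X a
  let S : FanoDim.Tower (DerivedCategory.TStructure.t (C := A)) := FanoDim.Tower.ofObj _ Y a'
  have h1 : ∀ i j, Module.Finite k (T.H i ⟶ S.H j) := by
    intro i j
    have : Module.Finite k ((shiftFunctor (DerivedCategory A) i).obj (T.H i) ⟶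
        (shiftFunctor (DerivedCategory A) (i - j)).obj
          ((shiftFunctor (DerivedCategory A) j).obj (S.H j))) :=
      h.surfaceLike.fin _ _ (inHeart_trunc X i) (inHeart_trunc Y j) (i - j)
    exact Module.Finite.equiv
      (FanoDim.shiftHomOfIso k (FanoDim.isoZero (S.H j)) i j (i - j) (by omega)).symm
  have h2 : ∀ i j, Module.Finite k (T.F i ⟶ S.F j) := fun i j =>
    T.finite_left (S.F j) (fun l => S.finite_right (T.H l) (h1 l) j) i
  have e1 : IsIso ((DerivedCategory.TStructure.t.truncLTι (b + 1)).app X) :=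
    (DerivedCategory.TStructure.t.isLE_iff_isIso_truncLTι_app b (b + 1) rfl X).1 hX'
  have e2 : IsIso ((DerivedCategory.TStructure.t.truncLTι (b' + 1)).app Y) :=
    (DerivedCategory.TStructure.t.isLE_iff_isIso_truncLTι_app b' (b' + 1) rfl Y).1 hY'
  have : Module.Finite k ((DerivedCategory.TStructure.t.truncLT (b + 1)).obj X ⟶
      (DerivedCategory.TStructure.t.truncLT (b' + 1)).obj Y) := h2 (b + 1) (b' + 1)
  exact Module.Finite.equiv (Linear.homCongr k
    (@asIso _ _ _ _ ((DerivedCategory.TStructure.t.truncLTι (b + 1)).app X) e1)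
    (@asIso _ _ _ _ ((DerivedCategory.TStructure.t.truncLTι (b' + 1)).app Y) e2))

end Finite

section Division

variable {k : Type t} [Field k] [IsAlgClosed k] {D : Type u} [Category.{v} D] [Preadditive D]
  [Linear k D]

/-- A nonzero object with finite dimensional endomorphisms, all zero or invertible, has
endomorphism ring `k`. -/
lemma finrank_end_eq_one (F : D) [Module.Finite k (F ⟶ F)] (hF : 𝟙 F ≠ 0)
    (h : ∀ f : F ⟶ F, f ≠ 0 → IsIso f) : finrank k (F ⟶ F) = 1 := by
  rw [finrank_eq_one_iff_of_nonzero' (𝟙 F) hF]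
  intro g
  have : Nontrivial (F ⟶ F) := ⟨𝟙 F, 0, hF⟩
  obtain ⟨c, hc⟩ := Module.End.exists_eigenvalue (Linear.leftComp k F g)
  obtain ⟨x, hx⟩ := hc.exists_hasEigenvector
  have h1 : g ≫ x = c • x := hx.apply_eq_smul
  have h2 : (g - c • 𝟙 F) ≫ x = 0 := by
    rw [Preadditive.sub_comp, h1, Linear.smul_comp, Category.id_comp, sub_self]
  have := h x hx.2
  have h3 : g - c • 𝟙 F = 0 := by
    rw [← cancel_mono x, h2, zero_comp]
  exact ⟨c, (sub_eq_zero.1 h3).symm⟩

end Division

/-- Maps to a shift, through a fully faithful functor. -/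
noncomputable def shEquiv {D : Type u₁} [Category.{v₁} D] {E : Type u₂} [Category.{v₂} E]
    [HasShift D ℤ] [HasShift E ℤ] (G : D ⥤ E) [G.Full] [G.Faithful] [G.CommShift ℤ]
    (X Y : D) (n : ℤ) : (X ⟶ Y⟦n⟧) ≃ (G.obj X ⟶ (G.obj Y)⟦n⟧) :=
  (Functor.FullyFaithful.ofFullyFaithful G).homEquiv.trans
    ((G.commShiftIso n).app Y).homToEquiv

section Main

variable {k : Type t} [Field k] [IsAlgClosed k]
  {A : Type u₁} [Category.{v₁} A] [Abelian A] [Linear k A] [HasDerivedCategory.{w₁'} A]
  [HasExt.{w₁} A]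
  {B : Type u₂} [Category.{v₂} B] [Abelian B] [Linear k B] [HasDerivedCategory.{w₂'} B]
  [HasExt.{w₂} B]

omit [IsAlgClosed k] [Linear k A] [HasExt.{w₁} A] in
/-- The object `M` in degree zero of the bounded derived category. -/
noncomputable def bd (M : A) : DerivedCategory.Bounded A :=
  ⟨(DerivedCategory.singleFunctor A 0).obj M, ⟨0, inferInstance⟩, ⟨0, inferInstance⟩⟩

/-- **No fully faithful functor.** -/
theorem no_fully_faithful (M : A) (h0 : finrank k (M ⟶ M) = 1)
    (h1 : Subsingleton (Ext.{w₁} M M 1)) (h2 : Nontrivial (Ext.{w₁} M M 2))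
    (hB : Two.{w₂} k B) (Φ : DerivedCategory.Bounded A ⥤ DerivedCategory.Bounded B)
    [Φ.Full] [Φ.Faithful] [Φ.CommShift ℤ] : False := by
  let G : DerivedCategory.Bounded A ⥤ DerivedCategory B := Φ ⋙ DerivedCategory.Bounded.ι
  let F : DerivedCategory B := G.obj (bd M)
  obtain ⟨⟨a, ha⟩, ⟨b, hb⟩⟩ := (Φ.obj (bd M)).property
  have ha' : F.IsGE a := ha
  have hb' : F.IsLE b := hb
  -- degree zero
  have hfin : Module.Finite k (F ⟶ F) := hB.finite_hom F F a b a b ha' hb' ha' hb'
  have hfin2 : Module.Finite k (F ⟶ (shiftFunctor (DerivedCategory B) (2 : ℤ)).obj F) := by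
    have h3 : ((shiftFunctor (DerivedCategory B) (2 : ℤ)).obj F).IsGE (a - 2) :=
      DerivedCategory.TStructure.t.isGE_shift F a 2 (a - 2)
    have h4 : ((shiftFunctor (DerivedCategory B) (2 : ℤ)).obj F).IsLE (b - 2) :=
      DerivedCategory.TStructure.t.isLE_shift F b 2 (b - 2)
    exact hB.finite_hom _ _ a b _ _ ha' hb' h3 h4
  -- endomorphisms of `M`
  have hM1 : 𝟙 M ≠ 0 := by
    intro h
    have : Subsingleton (M ⟶ M) :=
      ⟨fun f g => ((IsZero.iff_id_eq_zero M).2 h).eq_of_src f g⟩
    rw [Module.finrank_zero_of_subsingleton] at h0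
    omega
  have hM2 : ∀ f : M ⟶ M, f ≠ 0 → IsIso f := by
    intro f hf
    obtain ⟨c, hc⟩ := (finrank_eq_one_iff_of_nonzero' (𝟙 M) hM1).1 h0 f
    have hc0 : c ≠ 0 := by
      rintro rfl
      rw [zero_smul] at hc
      exact hf hc.symm
    rw [← hc]
    exact ⟨c⁻¹ • 𝟙 M, by simp [smul_smul, hc0], by simp [smul_smul, hc0]⟩
  -- the whole functor
  let H : A ⥤ DerivedCategory.Bounded A :=
    DerivedCategory.TStructure.t.bounded.lift (DerivedCategory.singleFunctor A 0)
      (fun X => ⟨⟨0, inferInstance⟩, ⟨0, inferInstance⟩⟩)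
  let L : A ⥤ DerivedCategory B := H ⋙ G
  have hL : L.obj M = F := rfl
  have hLfull : L.Full := inferInstance
  have hLfaith : L.Faithful := inferInstance
  have hF1 : ∀ f : F ⟶ F, f ≠ 0 → IsIso f := by
    intro f hf
    obtain ⟨g, hg⟩ := L.map_surjective (X := M) (Y := M) f
    have hg0 : g ≠ 0 := by
      rintro rfl
      rw [L.map_zero] at hg
      exact hf hg.symm
    have hi : IsIso g := hM2 g hg0
    have hj : IsIso (L.map g) := inferInstance
    rw [← hg]
    exact hj
  have hF0 : 𝟙 F ≠ 0 := by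
    intro h
    apply hM1
    apply L.map_injective
    rw [L.map_zero, L.map_id]
    exact h
  have hF : finrank k (F ⟶ F) = 1 := finrank_end_eq_one F hF0 hF1
  -- the comparison
  let e : ∀ n : ℕ, Ext.{w₁} M M n ≃ (F ⟶ (shiftFunctor (DerivedCategory B) (n : ℤ)).obj F) :=
    fun n => (Ext.homEquiv (X := M) (Y := M) (n := n)).trans
      ((shEquiv DerivedCategory.Bounded.ι (bd M) (bd M) (n : ℤ)).symm.trans
        (shEquiv G (bd M) (bd M) (n : ℤ)))
  have s1 : Subsingleton (F ⟶ (shiftFunctor (DerivedCategory B) (1 : ℤ)).obj F) :=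
    (e 1).symm.subsingleton
  have s2 : Nontrivial (F ⟶ (shiftFunctor (DerivedCategory B) (2 : ℤ)).obj F) :=
    (e 2).symm.nontrivial
  refine no_sphere_like hB F a b ha' hb' hF (fun f => Subsingleton.elim _ _) ?_
  exact Module.finrank_pos.ne'

end Main

end Fdim
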