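import Mathlib

set_option autoImplicit false

/-!
Dimensions of Ext groups in a linear abelian category, and the dimension relations which follow
from the long exact sequences.
-/

namespace Pool.Agent.Work.MP_f714fc_ag.Abs

open CategoryTheory CategoryTheory.Abelian CategoryTheory.Limits

universe w v u t

variable (k : Type t) [Field k] {C : Type u} [Category.{v} C] [Abelian C] [Linear k C]
  [HasExt.{w} C]

/-- the dimension of `Ext ^ n (A, B)` -/
noncomputable def ed (A B : C) (n : ℕ) : ℕ := Module.finrank k (Ext A B n)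

variable (C) in
/-- All Ext groups are finite dimensional. -/
def FinExt : Prop := ∀ (A B : C) (n : ℕ), Module.Finite k (Ext A B n)

variable {k}

lemma ed_eq_zero_iff (hf : FinExt k C) (A B : C) (n : ℕ) :
    ed k A B n = 0 ↔ Subsingleton (Ext A B n) := by
  have := hf A B n
  rw [ed]
  exact Module.finrank_zero_iff

lemma ed_zero_iff (hf : FinExt k C) (A B : C) : ed k A B 0 = 0 ↔ ∀ f : A ⟶ B, f = 0 := by
  rw [ed_eq_zero_iff hf]
  constructor
  · intro h f
    exact (Ext.mk₀_eq_zero_iff f).mp (Subsingleton.elim _ _)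
  · intro h
    refine ⟨fun x y => ?_⟩
    obtain ⟨f, rfl⟩ := (Ext.mk₀_bijective A B).2 x
    obtain ⟨g, rfl⟩ := (Ext.mk₀_bijective A B).2 y
    rw [h f, h g]

/-- the post-composition as a linear map -/
noncomputable def postL {A B B' : C} {n p m : ℕ} (α : Ext B B' p) (h : n + p = m) :
    Ext A B n →ₗ[k] Ext A B' m where
  toFun x := x.comp α h
  map_add' x y := by rw [Ext.add_comp]
  map_smul' r x := by rw [Ext.smul_comp, RingHom.id_apply]

/-- the pre-composition as a linear map -/
noncomputable def preL {A A' B : C} {n p m : ℕ} (α : Ext A A' p) (h : p + n = m) :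
    Ext A' B n →ₗ[k] Ext A B m where
  toFun x := α.comp x h
  map_add' x y := by rw [Ext.comp_add]
  map_smul' r x := by rw [Ext.comp_smul, RingHom.id_apply]

lemma postL_apply {A B B' : C} {n p m : ℕ} (α : Ext B B' p) (h : n + p = m) (x : Ext A B n) :
    postL (k := k) α h x = x.comp α h := rfl

lemma preL_apply {A A' B : C} {n p m : ℕ} (α : Ext A A' p) (h : p + n = m) (x : Ext A' B n) :
    preL (k := k) α h x = α.comp x h := rfl

lemma finrank_eq_of_exact {V₁ V₂ V₃ : Type*} [AddCommGroup V₁] [Module k V₁] [AddCommGroup V₂]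
    [Module k V₂] [AddCommGroup V₃] [Module k V₃] [Module.Finite k V₂] (f : V₁ →ₗ[k] V₂)
    (g : V₂ →ₗ[k] V₃) (h : LinearMap.range f = LinearMap.ker g) :
    Module.finrank k V₂ = Module.finrank k (LinearMap.range f) +
      Module.finrank k (LinearMap.range g) := by
  rw [h, add_comm]
  exact (LinearMap.finrank_range_add_finrank_ker g).symm

/-- The long exact sequence in the second variable, in terms of the ranks of its maps. -/
theorem cov_ranks (hf : FinExt k C) {S : ShortComplex C} (hS : S.ShortExact) (X : C) :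
    ∃ a b c : ℕ → ℕ, ed k X S.X₁ 0 = a 0 ∧ ∀ n, ed k X S.X₂ n = a n + b n ∧
      ed k X S.X₃ n = b n + c n ∧ ed k X S.X₁ (n + 1) = c n + a (n + 1) := by
  have := hf
  refine ⟨fun n => Module.finrank k (LinearMap.range
      (postL (k := k) (A := X) (Ext.mk₀ S.f) (add_zero n))),
    fun n => Module.finrank k (LinearMap.range
      (postL (k := k) (A := X) (Ext.mk₀ S.g) (add_zero n))),
    fun n => Module.finrank k (LinearMap.range
      (postL (k := k) (A := X) hS.extClass (rfl : n + 1 = n + 1))), ?_, fun n => ⟨?_, ?_, ?_⟩⟩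
  · have h1 : Function.Injective (postL (k := k) (A := X) (Ext.mk₀ S.f) (add_zero 0)) := by
      have := hS.mono_f
      exact Ext.postcomp_mk₀_injective_of_mono X S.f
    exact (LinearMap.finrank_range_of_inj h1).symm
  · have := hf X S.X₂ n
    refine finrank_eq_of_exact _ _ ?_
    ext x
    rw [LinearMap.mem_range, LinearMap.mem_ker]
    constructor
    · rintro ⟨y, rfl⟩
      rw [postL_apply, postL_apply, Ext.comp_assoc_of_third_deg_zero, Ext.mk₀_comp_mk₀, S.zero,
        Ext.mk₀_zero, Ext.comp_zero]
    · intro h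
      exact Ext.covariant_sequence_exact₂ X hS x h
  · have := hf X S.X₃ n
    refine finrank_eq_of_exact _ _ ?_
    ext x
    rw [LinearMap.mem_range, LinearMap.mem_ker]
    constructor
    · rintro ⟨y, rfl⟩
      rw [postL_apply, postL_apply, Ext.comp_assoc_of_second_deg_zero,
        ShortComplex.ShortExact.comp_extClass, Ext.comp_zero]
    · intro h
      exact Ext.covariant_sequence_exact₃ X hS x rfl h
  · have := hf X S.X₁ (n + 1)
    refine finrank_eq_of_exact _ _ ?_
    ext x
    rw [LinearMap.mem_range, LinearMap.mem_ker]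
    constructor
    · rintro ⟨y, rfl⟩
      rw [postL_apply, postL_apply, Ext.comp_assoc_of_third_deg_zero,
        ShortComplex.ShortExact.extClass_comp, Ext.comp_zero]
    · intro h
      exact Ext.covariant_sequence_exact₁ X hS x h rfl

/-- The long exact sequence in the first variable, in terms of the ranks of its maps. -/
theorem contra_ranks (hf : FinExt k C) {S : ShortComplex C} (hS : S.ShortExact) (Y : C) :
    ∃ a b c : ℕ → ℕ, ed k S.X₃ Y 0 = a 0 ∧ ∀ n, ed k S.X₂ Y n = a n + b n ∧
      ed k S.X₁ Y n = b n + c n ∧ ed k S.X₃ Y (n + 1) = c n + a (n + 1) := by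
  refine ⟨fun n => Module.finrank k (LinearMap.range
      (preL (k := k) (B := Y) (Ext.mk₀ S.g) (zero_add n))),
    fun n => Module.finrank k (LinearMap.range
      (preL (k := k) (B := Y) (Ext.mk₀ S.f) (zero_add n))),
    fun n => Module.finrank k (LinearMap.range
      (preL (k := k) (B := Y) hS.extClass (add_comm 1 n))), ?_, fun n => ⟨?_, ?_, ?_⟩⟩
  · have h1 : Function.Injective (preL (k := k) (B := Y) (Ext.mk₀ S.g) (zero_add 0)) := by
      have := hS.epi_g
      exact Ext.precomp_mk₀_injective_of_epi Y S.g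
    exact (LinearMap.finrank_range_of_inj h1).symm
  · have := hf S.X₂ Y n
    refine finrank_eq_of_exact _ _ ?_
    ext x
    rw [LinearMap.mem_range, LinearMap.mem_ker]
    constructor
    · rintro ⟨y, rfl⟩
      rw [preL_apply, preL_apply, Ext.mk₀_comp_mk₀_assoc, S.zero, Ext.mk₀_zero, Ext.zero_comp]
    · intro h
      exact Ext.contravariant_sequence_exact₂ hS Y x h
  · have := hf S.X₁ Y n
    refine finrank_eq_of_exact _ _ ?_
    ext x
    rw [LinearMap.mem_range, LinearMap.mem_ker]
    constructor
    · rintro ⟨y, rfl⟩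
      rw [preL_apply, preL_apply, ← Ext.comp_assoc_of_second_deg_zero,
        ShortComplex.ShortExact.extClass_comp, Ext.zero_comp]
    · intro h
      exact Ext.contravariant_sequence_exact₁ hS Y x (add_comm 1 n) h
  · have := hf S.X₃ Y (n + 1)
    refine finrank_eq_of_exact _ _ ?_
    ext x
    rw [LinearMap.mem_range, LinearMap.mem_ker]
    constructor
    · rintro ⟨y, rfl⟩
      rw [preL_apply, preL_apply, ← Ext.comp_assoc (Ext.mk₀ S.g) hS.extClass y (zero_add 1)
        (add_comm 1 n) (by omega), ShortComplex.ShortExact.comp_extClass, Ext.zero_comp]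
    · intro h
      exact Ext.contravariant_sequence_exact₃ hS Y x h (add_comm 1 n)

variable (k) in
/-- the Euler form, when Ext groups of degree larger than 2 vanish -/
noncomputable def ch (A B : C) : ℤ := (ed k A B 0 : ℤ) - ed k A B 1 + ed k A B 2

lemma ch_add_right (hf : FinExt k C) (h3 : ∀ A B : C, ed k A B 3 = 0) {S : ShortComplex C}
    (hS : S.ShortExact) (X : C) : ch k X S.X₂ = ch k X S.X₁ + ch k X S.X₃ := by
  obtain ⟨a, b, c, h0, h⟩ := cov_ranks hf hS X
  have e0 := h 0
  have e1 := h 1
  have e2 := h 2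
  have e3 := h3 X S.X₁
  simp only [zero_add, Nat.reduceAdd] at e0 e1 e2
  unfold ch
  omega

lemma ch_add_left (hf : FinExt k C) (h3 : ∀ A B : C, ed k A B 3 = 0) {S : ShortComplex C}
    (hS : S.ShortExact) (Y : C) : ch k S.X₂ Y = ch k S.X₁ Y + ch k S.X₃ Y := by
  obtain ⟨a, b, c, h0, h⟩ := contra_ranks hf hS Y
  have e0 := h 0
  have e1 := h 1
  have e2 := h 2
  have e3 := h3 S.X₃ Y
  simp only [zero_add, Nat.reduceAdd] at e0 e1 e2
  unfold ch
  omega

end Pool.Agent.Work.MP_f714fc_ag.Abs
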