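import Pool.Agent.Work.MP_f714fc_ag.Abs.Host

/-!
MP_f714fc_ag, block ABS-S1, base: naturality of the action of sections, jointly epimorphic
families, simple objects (steps P0 (a), (b) and P1 of note 6454).
-/

open CategoryTheory CategoryTheory.Abelian CategoryTheory.Limits

universe w v u t

namespace Fdim

set_option linter.unusedSectionVars false

attribute [local instance] Abelian.hasFiniteBiproducts

variable {k : Type t} [Field k] {C : Type u} [Category.{v} C] [Abelian C] [Linear k C]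
  [HasShift C ℤ] [∀ n : ℤ, (shiftFunctor C n).Additive] [∀ n : ℤ, (shiftFunctor C n).Linear k]

section JEpi

/-- jointly epimorphic family -/
def JEpi {ι : Type*} {X : ι → C} {Y : C} (f : ∀ i, X i ⟶ Y) : Prop :=
  ∀ (B : C) (g : Y ⟶ B), (∀ i, f i ≫ g = 0) → g = 0

theorem JEpi.comp {ι : Type*} {X : ι → C} {Y Z : C} {f : ∀ i, X i ⟶ Y} (hf : JEpi f)
    (p : Y ⟶ Z) [Epi p] : JEpi (fun i => f i ≫ p) := by
  intro B g hg
  have h1 : p ≫ g = 0 := hf B _ (fun i => by rw [← Category.assoc]; exact hg i)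
  exact (cancel_epi p).1 (by rw [h1, comp_zero])

theorem JEpi.shift {ι : Type*} {X : ι → C} {Y : C} {f : ∀ i, X i ⟶ Y} (hf : JEpi f) (n : ℤ) :
    JEpi (fun i => (f i)⟦n⟧') := by
  intro B g hg
  -- transport `g : Y⟦n⟧ ⟶ B` to `Y ⟶ B⟦-n⟧`
  let e : B ≅ (B⟦-n⟧)⟦n⟧ := (shiftFunctorCompIsoId C (-n) n (by lia)).symm.app B
  obtain ⟨g', hg'⟩ := (shiftFunctor C n).map_surjective (g ≫ e.hom)
  have h1 : g' = 0 := by
    apply hf
    intro i
    apply (shiftFunctor C n).map_injective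
    rw [Functor.map_comp, hg', ← Category.assoc, hg i, zero_comp, Functor.map_zero]
  rw [h1, Functor.map_zero] at hg'
  rw [← cancel_mono e.hom, ← hg', zero_comp]

theorem JEpi.exists_ne {ι : Type*} {X : ι → C} {Y B : C} {f : ∀ i, X i ⟶ Y} (hf : JEpi f)
    (g : Y ⟶ B) (hg : g ≠ 0) : ∃ i, f i ≫ g ≠ 0 := by
  by_contra h
  push Not at h
  exact hg (hf B g h)

/-- The epimorphism from a finite sum of copies of `X`. -/
theorem JEpi.epi_desc {j : ℕ} {X Y : C} {f : Fin j → (X ⟶ Y)} (hf : JEpi f) :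
    Epi (biproduct.desc f) := by
  apply Preadditive.epi_of_cancel_zero
  intro B g hg
  apply hf B g
  intro i
  have := biproduct.ι_desc f i
  rw [← this, Category.assoc, hg, comp_zero]

end JEpi

namespace AmpleData

variable (H : AmpleData k C)

theorem nat {A B : C} (f : A ⟶ B) (n : ℤ) (s : ShiftedHom H.O H.O n) :
    f ≫ H.act n B s = H.act n A s ≫ f⟦n⟧' := by
  have h := H.central (ShiftedHom.mk₀ (0 : ℤ) rfl f) s (add_zero n) (zero_add n)
  rw [ShiftedHom.mk₀_comp, ShiftedHom.comp_mk₀] at h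
  exact h

theorem act_shift (m n p : ℤ) (h : n + m = p) (h' : m + n = p) (A : C)
    (s : ShiftedHom H.O H.O n) :
    H.act n (A⟦m⟧) s = (H.act n A s)⟦m⟧' ≫ (shiftFunctorAdd' C n m p h).inv.app A ≫
      (shiftFunctorAdd' C m n p h').hom.app A := by
  have hc := H.central (A := A⟦m⟧) (B := A) (𝟙 (A⟦m⟧) : ShiftedHom (A⟦m⟧) A m) s h h'
  unfold ShiftedHom.comp at hc
  rw [Category.id_comp, CategoryTheory.Functor.map_id, Category.id_comp] at hc
  rw [← Category.assoc, hc, Category.assoc, Iso.inv_hom_id_app]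
  exact (Category.comp_id _).symm

theorem act_shift_eq_zero (m n : ℤ) (A : C) (s : ShiftedHom H.O H.O n) :
    H.act n (A⟦m⟧) s = 0 ↔ H.act n A s = 0 := by
  rw [H.act_shift m n (n + m) rfl (add_comm m n) A s]
  constructor
  · intro h
    have h1 : (H.act n A s)⟦m⟧' = 0 := by
      rw [← cancel_mono ((shiftFunctorAdd' C n m (n + m) rfl).inv.app A ≫
        (shiftFunctorAdd' C m n (n + m) (add_comm m n)).hom.app A), h, zero_comp]
    exact (shiftFunctor C m).map_injective (by rw [h1, Functor.map_zero])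
  · intro h
    rw [h, Functor.map_zero, zero_comp]

theorem isIso_act_shift (m n : ℤ) (A : C) (s : ShiftedHom H.O H.O n) [IsIso (H.act n A s)] :
    IsIso (H.act n (A⟦m⟧) s) := by
  rw [H.act_shift m n (n + m) rfl (add_comm m n) A s]
  infer_instance

theorem act_comp_eq {m n p : ℤ} (s : ShiftedHom H.O H.O m) (t : ShiftedHom H.O H.O n)
    (h : n + m = p) (A : C) :
    H.act p A (s.comp t h) =
      H.act m A s ≫ (H.act n A t)⟦m⟧' ≫ (shiftFunctorAdd' C n m p h).inv.app A :=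
  H.act_comp s t h A

theorem gg' (A : C) : ∃ n₀ : ℤ, ∀ n ≥ n₀, ∃ (j : ℕ) (f : Fin j → (H.O ⟶ A⟦n⟧)), JEpi f := by
  obtain ⟨n₀, h⟩ := H.gg A
  exact ⟨n₀, fun n hn => by obtain ⟨j, f, hf⟩ := h n hn; exact ⟨j, f, hf⟩⟩

/-- sections of `O(n)` -/
theorem gg_O : ∃ n₀ : ℤ, ∀ n ≥ n₀, ∃ (j : ℕ) (s : Fin j → ShiftedHom H.O H.O n),
    JEpi (fun i => (s i : H.O ⟶ H.O⟦n⟧)) := by
  obtain ⟨n₀, h⟩ := H.gg H.O
  exact ⟨n₀, fun n hn => by obtain ⟨j, f, hf⟩ := h n hn; exact ⟨j, f, hf⟩⟩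

/-- P0 (b): a generating family of sections of `O(n)` acts on every object by a jointly
epimorphic family -/
theorem jepi_act {ι : Type*} {n : ℤ} (s : ι → ShiftedHom H.O H.O n)
    (hs : JEpi (fun i => (s i : H.O ⟶ H.O⟦n⟧))) (B : C) :
    JEpi (fun i => (H.act n B (s i) : B ⟶ B⟦n⟧)) := by
  -- a generating family for a twist of `B`
  obtain ⟨m₀, hm₀⟩ := H.gg' B
  obtain ⟨j, v, hv⟩ := hm₀ m₀ le_rfl
  -- first for `B⟦m₀⟧`
  have key : JEpi (fun i => (H.act n (B⟦m₀⟧) (s i) : B⟦m₀⟧ ⟶ B⟦m₀⟧⟦n⟧)) := by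
    intro D g hg
    have h1 : ∀ a, (v a)⟦n⟧' ≫ g = 0 := by
      intro a
      apply hs
      intro i
      have h2 := H.nat (v a) n (s i)
      rw [H.act_O] at h2
      rw [← Category.assoc]
      change ((s i : H.O ⟶ H.O⟦n⟧) ≫ (v a)⟦n⟧') ≫ g = 0
      rw [← h2, Category.assoc]
      have := hg i
      rw [this, comp_zero]
    exact (hv.shift n) D g h1
  intro D g hg
  have h3 : (shiftFunctorAdd' C m₀ n (n + m₀) (add_comm _ _)).inv.app B ≫
      (shiftFunctorAdd' C n m₀ (n + m₀) rfl).hom.app B ≫ g⟦m₀⟧' = 0 := by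
    apply key
    intro i
    change H.act n (B⟦m₀⟧) (s i) ≫ _ = 0
    rw [H.act_shift m₀ n (n + m₀) rfl (add_comm m₀ n) B (s i)]
    simp only [Category.assoc, Iso.hom_inv_id_app_assoc, Iso.inv_hom_id_app_assoc]
    rw [← Functor.map_comp, hg i, Functor.map_zero]
  have h4 : g⟦m₀⟧' = 0 := by
    rw [← cancel_epi ((shiftFunctorAdd' C n m₀ (n + m₀) rfl).hom.app B),
      ← cancel_epi ((shiftFunctorAdd' C m₀ n (n + m₀) (add_comm _ _)).inv.app B), h3]
    simp
  exact (shiftFunctor C m₀).map_injective (by rw [h4, Functor.map_zero])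

/-- for a nonzero object some section in a generating family acts by a nonzero map -/
theorem exists_act_ne {ι : Type*} {n : ℤ} (s : ι → ShiftedHom H.O H.O n)
    (hs : JEpi (fun i => (s i : H.O ⟶ H.O⟦n⟧))) (B : C) (hB : ¬ IsZero B) :
    ∃ i, H.act n B (s i) ≠ 0 := by
  have hne : 𝟙 (B⟦n⟧) ≠ 0 := by
    intro h0
    apply hB
    rw [IsZero.iff_id_eq_zero]
    apply (shiftFunctor C n).map_injective
    rw [CategoryTheory.Functor.map_id, Functor.map_zero, h0]
  obtain ⟨i, hi⟩ := (H.jepi_act s hs B).exists_ne (𝟙 (B⟦n⟧)) hne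
  exact ⟨i, fun h => hi (by rw [h, zero_comp])⟩

/-- the natural transformation given by a section -/
def actNat {n : ℤ} (s : ShiftedHom H.O H.O n) : 𝟭 C ⟶ shiftFunctor C n where
  app A := H.act n A s
  naturality _ _ f := H.nat f n s

end AmpleData

instance simple_shift (Z : C) [Simple Z] (n : ℤ) : Simple (Z⟦n⟧) :=
  simple_obj (shiftFunctor C n) Z

end Fdim
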