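import Pool.Agent.Work.MP_f714fc_ag.Abs.S1Hom
import Pool.Agent.Work.MP_f714fc_ag.Abs.SurfP4
import Pool.Agent.Work.MP_f714fc_ag.Abs.Ranks

/-!
MP_f714fc_ag, block ABS-S1: finite sums of twists of the structure sheaf against a simple object
(preparation of step P8 of note 6454).
-/

open CategoryTheory CategoryTheory.Abelian CategoryTheory.Limits ZeroObject

universe w v u t

namespace Fdim

set_option linter.unusedSectionVars false

attribute [local instance] Abelian.hasFiniteBiproducts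

variable {k : Type t} [Field k] {C : Type u} [Category.{v} C] [Abelian C] [Linear k C]

section pw

/-- the sum of `n` copies of `X` -/
noncomputable def pw (X : C) : ℕ → C
  | 0 => 0
  | n + 1 => X ⊞ pw X n

theorem isZero_pw_zero (X : C) : IsZero (pw X 0) := isZero_zero C

/-- the map from the sum of copies -/
noncomputable def pwDesc {X Y : C} : ∀ n : ℕ, (Fin n → (X ⟶ Y)) → (pw X n ⟶ Y)
  | 0, _ => 0
  | n + 1, f => biprod.desc (f 0) (pwDesc n (fun i => f i.succ))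

theorem pwDesc_comp {X Y Z : C} (n : ℕ) (f : Fin n → (X ⟶ Y)) (g : Y ⟶ Z) :
    pwDesc n f ≫ g = pwDesc n (fun i => f i ≫ g) := by
  induction n with
  | zero => exact zero_comp
  | succ n ih =>
    change biprod.desc (f 0) (pwDesc n (fun i => f i.succ)) ≫ g =
      biprod.desc (f 0 ≫ g) (pwDesc n (fun i => f i.succ ≫ g))
    rw [← ih (fun i => f i.succ)]
    apply biprod.hom_ext' <;> simp

theorem pwDesc_zero {X Y : C} (n : ℕ) : pwDesc n (fun _ => (0 : X ⟶ Y)) = 0 := by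
  induction n with
  | zero => rfl
  | succ n ih =>
    change biprod.desc 0 (pwDesc n (fun _ => (0 : X ⟶ Y))) = 0
    rw [ih]
    apply biprod.hom_ext' <;> simp

theorem pwDesc_inj {X Y : C} (n : ℕ) (f g : Fin n → (X ⟶ Y)) (h : pwDesc n f = pwDesc n g) :
    f = g := by
  induction n with
  | zero => funext i; exact i.elim0
  | succ n ih =>
    have h1 : f 0 = g 0 := by
      have := congrArg (fun t => biprod.inl ≫ t) h
      simpa [pwDesc] using this
    have h2 : pwDesc n (fun i => f i.succ) = pwDesc n (fun i => g i.succ) := by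
      have := congrArg (fun t => biprod.inr ≫ t) h
      simpa [pwDesc] using this
    have h3 := ih _ _ h2
    funext i
    refine Fin.cases h1 (fun i => ?_) i
    exact congrFun h3 i

theorem pwDesc_comp_eq_zero {X Y Z : C} (n : ℕ) (f : Fin n → (X ⟶ Y)) (g : Y ⟶ Z) :
    pwDesc n f ≫ g = 0 ↔ ∀ i, f i ≫ g = 0 := by
  rw [pwDesc_comp]
  constructor
  · intro h i
    have := pwDesc_inj n (fun i => f i ≫ g) (fun _ => 0) (by rw [h, pwDesc_zero])
    exact congrFun this i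
  · intro h
    rw [show (fun i => f i ≫ g) = fun _ => 0 from funext h, pwDesc_zero]

theorem JEpi.epi_pwDesc {X Y : C} {n : ℕ} {f : Fin n → (X ⟶ Y)} (hf : JEpi f) :
    Epi (pwDesc n f) :=
  Preadditive.epi_of_cancel_zero _ (fun g hg => hf _ g ((pwDesc_comp_eq_zero n f g).1 hg))

/-- maps from a biproduct -/
noncomputable def biprodHom (k : Type t) [Field k] [Linear k C] (X Y Z : C) :
    (X ⊞ Y ⟶ Z) ≃ₗ[k] (X ⟶ Z) × (Y ⟶ Z) where
  toFun f := (biprod.inl ≫ f, biprod.inr ≫ f)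
  map_add' f g := by simp
  map_smul' c f := by simp
  invFun p := biprod.desc p.1 p.2
  left_inv f := by apply biprod.hom_ext' <;> simp
  right_inv p := by simp

theorem finrank_pw (hfin : ∀ A B : C, Module.Finite k (A ⟶ B)) (X Z : C) (n : ℕ) :
    Module.finrank k (pw X n ⟶ Z) = n * Module.finrank k (X ⟶ Z) := by
  induction n with
  | zero =>
    have : Subsingleton (pw X 0 ⟶ Z) := ⟨fun f g => (isZero_pw_zero X).eq_of_src _ _⟩
    rw [Module.finrank_zero_of_subsingleton, zero_mul]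
  | succ n ih =>
    have := hfin X Z
    have := hfin (pw X n) Z
    rw [show Module.finrank k (pw X (n + 1) ⟶ Z) =
      Module.finrank k ((X ⟶ Z) × (pw X n ⟶ Z)) from (biprodHom k X (pw X n) Z).finrank_eq,
      Module.finrank_prod, ih]
    ring

variable [HasExt.{w} C]

theorem ext_pw (X Z : C) (p : ℕ) (h : ∀ x : Ext.{w} X Z p, x = 0) (n : ℕ)
    (x : Ext.{w} (pw X n) Z p) : x = 0 := by
  induction n with
  | zero =>
    have h0 : (𝟙 (pw X 0) : pw X 0 ⟶ pw X 0) = 0 := (isZero_pw_zero X).eq_of_src _ _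
    rw [← Ext.mk₀_id_comp x, h0, Ext.mk₀_zero, Ext.zero_comp]
  | succ n ih =>
    have key : ∀ y : Ext.{w} (X ⊞ pw X n) Z p, y = 0 := by
      intro y
      apply Ext.biprod_ext (X₁ := X) (X₂ := pw X n)
      · rw [h ((Ext.mk₀ biprod.inl).comp y (zero_add p)), Ext.comp_zero]
      · rw [ih ((Ext.mk₀ biprod.inr).comp y (zero_add p)), Ext.comp_zero]
    exact key x

end pw

variable [HasShift C ℤ] [∀ n : ℤ, (shiftFunctor C n).Additive]
  [∀ n : ℤ, (shiftFunctor C n).Linear k]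

namespace AmpleData

variable (H : AmpleData k C)

/-- generation by twists: `O⟦-n⟧ ⟶ A` -/
theorem gg_untw (A : C) : ∃ (n : ℤ) (j : ℕ) (f : Fin j → (H.O⟦n⟧ ⟶ A)), JEpi f := by
  obtain ⟨n₀, h⟩ := H.gg' A
  obtain ⟨j, f, hf⟩ := h n₀ le_rfl
  refine ⟨-n₀, j, fun i => untw (f i), ?_⟩
  have h1 := (hf.shift (-n₀)).comp ((shiftFunctorCompIsoId C n₀ (-n₀) (by lia)).hom.app A)
  exact h1

/-- nonzero sections act by monomorphisms -/
def Tf (E : C) : Prop := ∀ (n : ℤ) (s : ShiftedHom H.O H.O n), s ≠ 0 →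
  Mono (H.act n E s : E ⟶ E⟦n⟧)

theorem Tf.shift {E : C} (hE : H.Tf E) (m : ℤ) : H.Tf (E⟦m⟧) := by
  intro n s hs
  rw [H.act_shift m n (n + m) rfl (add_comm m n) E s]
  have := hE n s hs
  infer_instance

theorem Tf.biprod {X Y : C} (hX : H.Tf X) (hY : H.Tf Y) : H.Tf (X ⊞ Y) := by
  intro n s hs
  have h1 := hX n s hs
  have h2 := hY n s hs
  apply Preadditive.mono_of_cancel_zero
  intro W g hg
  apply biprod.hom_ext
  · have h3 : (g ≫ biprod.fst) ≫ (H.act n X s : X ⟶ X⟦n⟧) = 0 := by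
      rw [Category.assoc, H.nat, ← Category.assoc, hg, zero_comp]
    rw [(cancel_mono (H.act n X s : X ⟶ X⟦n⟧)).1 (h3.trans zero_comp.symm), zero_comp]
  · have h3 : (g ≫ biprod.snd) ≫ (H.act n Y s : Y ⟶ Y⟦n⟧) = 0 := by
      rw [Category.assoc, H.nat, ← Category.assoc, hg, zero_comp]
    rw [(cancel_mono (H.act n Y s : Y ⟶ Y⟦n⟧)).1 (h3.trans zero_comp.symm), zero_comp]

theorem Tf.of_isZero {E : C} (hE : IsZero E) : H.Tf E := by
  intro n s hs
  apply Preadditive.mono_of_cancel_zero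
  intro W g hg
  exact hE.eq_of_tgt _ _

theorem Tf.pw {X : C} (hX : H.Tf X) (n : ℕ) : H.Tf (pw X n) := by
  induction n with
  | zero => exact Tf.of_isZero H (isZero_pw_zero X)
  | succ n ih => exact Tf.biprod H hX ih

/-- P7, second part -/
theorem isZero_of_mono {K E : C} (hE : H.Tf E) (i : K ⟶ E) [Mono i] {n : ℤ}
    (s : ShiftedHom H.O H.O n) (hs : s ≠ 0) (h : H.act n K s = 0) : IsZero K := by
  have h1 := hE n s hs
  have h2 := H.nat i n s
  rw [h] at h2
  have h3 : i ≫ (H.act n E s : E ⟶ E⟦n⟧) = 0 := h2.trans zero_comp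
  have h4 : i = 0 := (cancel_mono (H.act n E s : E ⟶ E⟦n⟧)).1 (h3.trans zero_comp.symm)
  rw [IsZero.iff_id_eq_zero, ← cancel_mono i, h4, comp_zero, comp_zero]

section simple

variable [HasExt.{w} C] (Z : C) [Simple Z]

/-- P3 for all twists -/
theorem ext_shift_simple (m : ℤ) {p : ℕ} (x : Ext.{w} (H.O⟦m⟧) Z (p + 1)) : x = 0 := by
  obtain ⟨e⟩ := H.iso_shift Z m
  have h1 : Function.Bijective (fun x : Ext.{w} H.O Z (p + 1) =>
      (x.mapExactFunctor (shiftFunctor C m) : Ext.{w} _ _ (p + 1))) :=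
    mapExactFunctor_bijective_of_isEquivalence (shiftFunctor C m) H.O Z (p + 1)
  obtain ⟨y, hy⟩ := h1.2 (x.comp (Ext.mk₀ e.hom) (add_zero _))
  rw [H.ext_O_simple Z y] at hy
  have h2 : x.comp (Ext.mk₀ e.hom) (add_zero _) = 0 := by
    rw [← hy]
    change (0 : Ext.{w} H.O Z (p + 1)).mapExactFunctor (shiftFunctor C m) =
      (0 : Ext.{w} (H.O⟦m⟧) (Z⟦m⟧) (p + 1))
    rw [Ext.mapExactFunctor_zero]
  have h3 : (x.comp (Ext.mk₀ e.hom) (add_zero _)).comp (Ext.mk₀ e.inv) (add_zero _) = 0 := by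
    rw [h2, Ext.zero_comp]
  rw [Ext.comp_assoc_of_third_deg_zero, Ext.mk₀_comp_mk₀, Iso.hom_inv_id, Ext.comp_mk₀_id] at h3
  exact h3

/-- P2 for all twists -/
theorem finrank_shift_simple [IsAlgClosed k] (hfin : Module.Finite k (Z ⟶ Z)) (m : ℤ) :
    Module.finrank k (H.O⟦m⟧ ⟶ Z) = 1 := by
  obtain ⟨e⟩ := H.iso_shift Z m
  have e1 : (H.O ⟶ Z) ≃ₗ[k] (H.O⟦m⟧ ⟶ Z⟦m⟧) :=
    LinearEquiv.ofBijective ((shiftFunctor C m).mapLinearMap k)
      ⟨fun _ _ h => (shiftFunctor C m).map_injective h,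
        fun f => ⟨(shiftFunctor C m).preimage f, (shiftFunctor C m).map_preimage f⟩⟩
  have e2 : (H.O⟦m⟧ ⟶ Z) ≃ₗ[k] (H.O⟦m⟧ ⟶ Z⟦m⟧) := Linear.homCongr k (Iso.refl _) e
  rw [e2.finrank_eq, ← e1.finrank_eq, H.finrank_hom_O Z hfin]

end simple

end AmpleData

end Fdim
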