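import Pool.Agent.Work.MP_f714fc_ag.Abs.S1Base
import Pool.Agent.Work.MP_f714fc_ag.Abs.ExtAdj

/-!
MP_f714fc_ag, block ABS-S1, steps P0 (c), P1, P2, P3 of note 6454: simple objects in an
abelian category with ample data.
-/

open CategoryTheory CategoryTheory.Abelian CategoryTheory.Limits

universe w v u t

namespace Fdim

set_option linter.unusedSectionVars false

attribute [local instance] Abelian.hasFiniteBiproducts

variable {k : Type t} [Field k] {C : Type u} [Category.{v} C] [Abelian C] [Linear k C]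
  [HasShift C ℤ] [∀ n : ℤ, (shiftFunctor C n).Additive] [∀ n : ℤ, (shiftFunctor C n).Linear k]

namespace AmpleData

variable (H : AmpleData k C)

section central

variable [HasExt.{w} C]

/-- P0 (c): sections are central on Ext -/
theorem ext_central {A B : C} {n : ℤ} (s : ShiftedHom H.O H.O n) {p : ℕ} (x : Ext.{w} A B p) :
    x.comp (Ext.mk₀ (H.act n B s : B ⟶ B⟦n⟧)) (add_zero p) =
      (Ext.mk₀ (H.act n A s : A ⟶ A⟦n⟧)).comp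
        (x.mapExactFunctor (shiftFunctor C n) : Ext.{w} (A⟦n⟧) (B⟦n⟧) p) (zero_add p) := by
  have h := Fdim.mapExactFunctor_natTrans (H.actNat s) x
  rw [Fdim.mapExactFunctor_id] at h
  exact h

theorem ext_zero {A B : C} {n : ℤ} (s : ShiftedHom H.O H.O n) (hA : H.act n A s = 0)
    (hB : IsIso (H.act n B s : B ⟶ B⟦n⟧)) {p : ℕ} (x : Ext.{w} A B p) : x = 0 := by
  have h := H.ext_central s x
  have hA' : (H.act n A s : A ⟶ A⟦n⟧) = 0 := hA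
  rw [hA', Ext.mk₀_zero, Ext.zero_comp] at h
  have h2 : (x.comp (Ext.mk₀ (H.act n B s : B ⟶ B⟦n⟧)) (add_zero p)).comp
      (Ext.mk₀ (inv (H.act n B s : B ⟶ B⟦n⟧))) (add_zero p) = 0 := by
    rw [h, Ext.zero_comp]
  rw [Ext.comp_assoc_of_third_deg_zero, Ext.mk₀_comp_mk₀, IsIso.hom_inv_id,
    Ext.comp_mk₀_id] at h2
  exact h2

end central

theorem ne_zero_of_isIso_simple (Z : C) [Simple Z] {Y : C} (f : Z ⟶ Y) (hf : IsIso f) :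
    f ≠ 0 := by
  intro h0
  have h3 := IsIso.hom_inv_id f
  generalize inv f = g at h3
  rw [h0, zero_comp] at h3
  exact id_nonzero Z h3.symm

section simple

variable (Z : C) [Simple Z]

theorem isIso_act_of_ne {n : ℤ} (s : ShiftedHom H.O H.O n) (h : H.act n Z s ≠ 0) :
    IsIso (H.act n Z s : Z ⟶ Z⟦n⟧) :=
  isIso_of_hom_simple h

/-- P1 -/
theorem exists_iso_of_jepi {ι : Type*} {n : ℤ} (s : ι → ShiftedHom H.O H.O n)
    (hs : JEpi (fun i => (s i : H.O ⟶ H.O⟦n⟧))) :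
    ∃ i, IsIso (H.act n Z (s i) : Z ⟶ Z⟦n⟧) := by
  obtain ⟨i, hi⟩ := H.exists_act_ne s hs Z (Simple.not_isZero Z)
  exact ⟨i, H.isIso_act_of_ne Z _ hi⟩

/-- P1 -/
theorem exists_iso_act : ∃ n₀ : ℤ, ∀ n ≥ n₀, ∃ s : ShiftedHom H.O H.O n,
    IsIso (H.act n Z s : Z ⟶ Z⟦n⟧) := by
  obtain ⟨n₀, h⟩ := H.gg_O
  refine ⟨n₀, fun n hn => ?_⟩
  obtain ⟨j, s, hs⟩ := h n hn
  obtain ⟨i, hi⟩ := H.exists_iso_of_jepi Z s hs
  exact ⟨s i, hi⟩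

include H in
/-- P1: all twists of a simple object are isomorphic to it -/
theorem iso_shift (n : ℤ) : Nonempty (Z ≅ Z⟦n⟧) := by
  obtain ⟨n₀, h⟩ := H.exists_iso_act Z
  -- it is enough to treat large n
  obtain ⟨s, hs⟩ := h (max n₀ (n₀ + n)) (le_max_left _ _)
  obtain ⟨t, ht⟩ := h (max n₀ (n₀ + n) - n) (by
    have := le_max_right n₀ (n₀ + n)
    lia)
  -- `Z ≅ Z⟦m⟧`, `Z ≅ Z⟦m - n⟧`
  let e1 : Z ≅ Z⟦max n₀ (n₀ + n)⟧ := @asIso _ _ _ _ _ hs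
  let e2 : Z ≅ Z⟦max n₀ (n₀ + n) - n⟧ := @asIso _ _ _ _ _ ht
  let e3 : Z⟦n⟧ ≅ (Z⟦max n₀ (n₀ + n) - n⟧)⟦n⟧ := (shiftFunctor C n).mapIso e2
  let e4 : Z⟦max n₀ (n₀ + n)⟧ ≅ (Z⟦max n₀ (n₀ + n) - n⟧)⟦n⟧ :=
    (shiftFunctorAdd' C (max n₀ (n₀ + n) - n) n (max n₀ (n₀ + n)) (by lia)).app Z
  exact ⟨e1 ≪≫ e4 ≪≫ e3.symm⟩

/-- there is a nonzero map from the structure sheaf -/
theorem exists_hom_ne : ∃ u : H.O ⟶ Z, u ≠ 0 := by
  obtain ⟨n₀, h⟩ := H.gg' Z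
  obtain ⟨j, f, hf⟩ := h n₀ le_rfl
  obtain ⟨e⟩ := H.iso_shift Z n₀
  have hne : e.inv ≠ 0 := by
    intro h0
    apply Simple.not_isZero Z
    rw [IsZero.iff_id_eq_zero, ← e.hom_inv_id, h0, comp_zero]
  obtain ⟨i, hi⟩ := hf.exists_ne e.inv hne
  exact ⟨f i ≫ e.inv, hi⟩

variable [IsAlgClosed k] (hfin : Module.Finite k (Z ⟶ Z))

include hfin in
theorem finrank_end : Module.finrank k (Z ⟶ Z) = 1 :=
  finrank_endomorphism_simple_eq_one k Z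

include hfin in
/-- two maps from a simple object to a twist, the second nonzero -/
theorem eq_smul_of_simple {n : ℤ} (a b : Z ⟶ Z⟦n⟧) (hb : b ≠ 0) : ∃ c : k, a = c • b := by
  have : IsIso b := isIso_of_hom_simple hb
  have h1 := finrank_end (k := k) Z hfin
  have hid : (𝟙 Z : Z ⟶ Z) ≠ 0 := id_nonzero Z
  obtain ⟨c, hc⟩ := (finrank_eq_one_iff_of_nonzero' (𝟙 Z) hid).1 h1 (a ≫ inv b)
  refine ⟨c, ?_⟩
  have h2 : (a ≫ inv b) ≫ b = (c • 𝟙 Z) ≫ b := by rw [hc]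
  rw [Category.assoc, IsIso.inv_hom_id, Category.comp_id, Linear.smul_comp,
    Category.id_comp] at h2
  exact h2

include hfin in
/-- P2 -/
theorem eq_smul (u v : H.O ⟶ Z) (hu : u ≠ 0) : ∃ c : k, v = c • u := by
  have : Epi u := epi_of_nonzero_to_simple hu
  obtain ⟨n₀, h⟩ := H.gg' (pullback u v)
  obtain ⟨j, t, ht⟩ := h n₀ le_rfl
  have hb : JEpi (fun i => (t i ≫ (pullback.snd u v)⟦n₀⟧' : H.O ⟶ H.O⟦n₀⟧)) := ht.comp _
  obtain ⟨i, hi⟩ := H.exists_iso_of_jepi Z (fun i => (t i ≫ (pullback.snd u v)⟦n₀⟧' :)) hb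
  set b : ShiftedHom H.O H.O n₀ := t i ≫ (pullback.snd u v)⟦n₀⟧' with hbdef
  set a : ShiftedHom H.O H.O n₀ := t i ≫ (pullback.fst u v)⟦n₀⟧' with hadef
  have h1 : u ≫ H.act n₀ Z a = v ≫ H.act n₀ Z b := by
    rw [H.nat, H.nat, H.act_O, H.act_O]
    change (t i ≫ (pullback.fst u v)⟦n₀⟧') ≫ u⟦n₀⟧' = (t i ≫ (pullback.snd u v)⟦n₀⟧') ≫ v⟦n₀⟧'
    rw [Category.assoc, Category.assoc, ← Functor.map_comp, ← Functor.map_comp,
      pullback.condition]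
  have hbne : (H.act n₀ Z b : Z ⟶ Z⟦n₀⟧) ≠ 0 := ne_zero_of_isIso_simple Z _ hi
  obtain ⟨c, hc⟩ := eq_smul_of_simple (k := k) Z hfin (H.act n₀ Z a : Z ⟶ Z⟦n₀⟧)
    (H.act n₀ Z b : Z ⟶ Z⟦n₀⟧) hbne
  refine ⟨c, ?_⟩
  have hi' : IsIso (H.act n₀ Z b : Z ⟶ Z⟦n₀⟧) := hi
  have h2 : v ≫ (H.act n₀ Z b : Z ⟶ Z⟦n₀⟧) = (c • u) ≫ (H.act n₀ Z b : Z ⟶ Z⟦n₀⟧) := by
    rw [Linear.smul_comp, ← Linear.comp_smul, ← hc]
    exact h1.symm
  exact (cancel_mono _).1 h2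

include hfin in
/-- P2 -/
theorem finrank_hom_O : Module.finrank k (H.O ⟶ Z) = 1 := by
  obtain ⟨u, hu⟩ := H.exists_hom_ne Z
  rw [finrank_eq_one_iff_of_nonzero' u hu]
  intro v
  obtain ⟨c, hc⟩ := H.eq_smul Z hfin u v hu
  exact ⟨c, hc.symm⟩

end simple

section P3

variable [HasExt.{w} C] (Z : C) [Simple Z]

/-- P3 -/
theorem ext_O_simple {p : ℕ} (x : Ext.{w} H.O Z (p + 1)) : x = 0 := by
  obtain ⟨P, q, hq, h0⟩ := Fdim.exists_epi_comp_eq_zero (Nat.succ_pos p) x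
  obtain ⟨n₀, h⟩ := H.gg' P
  obtain ⟨j, t, ht⟩ := h n₀ le_rfl
  have hb : JEpi (fun i => (t i ≫ q⟦n₀⟧' : H.O ⟶ H.O⟦n₀⟧)) := ht.comp _
  obtain ⟨i, hi⟩ := H.exists_iso_of_jepi Z (fun i => (t i ≫ q⟦n₀⟧' :)) hb
  set b : ShiftedHom H.O H.O n₀ := t i ≫ q⟦n₀⟧' with hbdef
  have hi' : IsIso (H.act n₀ Z b : Z ⟶ Z⟦n₀⟧) := hi
  have h1 := H.ext_central b x
  have h2 : (Ext.mk₀ (H.act n₀ H.O b : H.O ⟶ H.O⟦n₀⟧)).comp
        (x.mapExactFunctor (shiftFunctor C n₀) : Ext.{w} (H.O⟦n₀⟧) (Z⟦n₀⟧) (p + 1))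
        (zero_add (p + 1)) = 0 := by
    rw [H.act_O]
    change (Ext.mk₀ (t i ≫ q⟦n₀⟧')).comp _ _ = 0
    rw [← Ext.mk₀_comp_mk₀, Ext.comp_assoc_of_second_deg_zero]
    have h3 : (Ext.mk₀ (q⟦n₀⟧')).comp
        (x.mapExactFunctor (shiftFunctor C n₀) : Ext.{w} (H.O⟦n₀⟧) (Z⟦n₀⟧) (p + 1))
        (zero_add (p + 1)) = 0 := by
      have h4 := Ext.mapExactFunctor_comp (shiftFunctor C n₀) (Ext.mk₀ q) x (zero_add (p + 1))
      rw [Ext.mapExactFunctor_mk₀] at h4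
      rw [← h4, h0, Ext.mapExactFunctor_zero]
    rw [h3, Ext.comp_zero]
  rw [h2] at h1
  have h5 : (x.comp (Ext.mk₀ (H.act n₀ Z b : Z ⟶ Z⟦n₀⟧)) (add_zero (p + 1))).comp
      (Ext.mk₀ (inv (H.act n₀ Z b : Z ⟶ Z⟦n₀⟧))) (add_zero (p + 1)) = 0 := by
    rw [h1, Ext.zero_comp]
  rw [Ext.comp_assoc_of_third_deg_zero, Ext.mk₀_comp_mk₀, IsIso.hom_inv_id,
    Ext.comp_mk₀_id] at h5
  exact h5

end P3

end AmpleData

end Fdim
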