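import Pool.Agent.Work.MP_f714fc_ag.Abs.S1Free

/-!
MP_f714fc_ag, block ABS-S1, step P8 of note 6454: the Euler characteristic against a simple
object is the generic rank, given the Nakayama lemma (P5) and the rank of killed objects (P7).
-/

open CategoryTheory CategoryTheory.Abelian CategoryTheory.Limits ZeroObject

universe w v u t

namespace Fdim

set_option linter.unusedSectionVars false

variable {k : Type t} [Field k] {C : Type u} [Category.{v} C] [Abelian C] [Linear k C]

/-- dual families: a pairing nondegenerate on the right has a dual basis on the left -/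
theorem exists_dual {V W : Type v} [AddCommGroup V] [Module k V] [AddCommGroup W] [Module k W]
    [FiniteDimensional k V] (L : W →ₗ[k] Module.Dual k V)
    (hL : ∀ g : V, (∀ x : W, L x g = 0) → g = 0) : Function.Surjective L := by
  rw [← LinearMap.range_eq_top]
  have h1 : (LinearMap.range L).dualCoannihilator = ⊥ := by
    rw [eq_bot_iff]
    intro g hg
    rw [Submodule.mem_dualCoannihilator] at hg
    exact hL g (fun x => hg (L x) ⟨x, rfl⟩)
  have h2 := Subspace.dualCoannihilator_dualAnnihilator_eq (W := LinearMap.range L)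
  rw [h1, Submodule.dualAnnihilator_bot] at h2
  exact h2.symm

variable [HasShift C ℤ] [∀ n : ℤ, (shiftFunctor C n).Additive]
  [∀ n : ℤ, (shiftFunctor C n).Linear k] [HasExt.{w} C]

/-- The main step of P8. -/
theorem rank_of_nak_aux (H : IntAmpleData k C)
    (hfin : ∀ A B : C, Module.Finite k (A ⟶ B)) (Z : C) [Simple Z]
    (hnak : ∀ D : C, (∀ f : D ⟶ Z, f = 0) → ∃ (n : ℤ) (s : ShiftedHom H.O H.O n),
      H.act n D s = 0 ∧ IsIso (H.act n Z s : Z ⟶ Z⟦n⟧))
    (hr : ∀ (D : C) (n : ℤ) (s : ShiftedHom H.O H.O n), s ≠ 0 → H.act n D s = 0 → H.r D = 0)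
    (X : C) (hX1 : Module.finrank k (X ⟶ Z) = 1) (hXT : H.toAmpleData.Tf X) (hXr : H.r X = 1)
    (N : C) {j : ℕ} (t : Fin j → (X ⟶ N)) (ht : JEpi t)
    (h1 : ∀ x : Ext.{w} N Z 1, x = 0) : H.r N = Module.finrank k (N ⟶ Z) := by
  classical
  have hfV := hfin N Z
  -- coordinate of a map `X ⟶ Z`
  have hfX := hfin X Z
  let bX : Module.Basis (Fin 1) k (X ⟶ Z) := Module.basisUnique (Fin 1) hX1
  let co : (X ⟶ Z) →ₗ[k] k := bX.coord 0
  have hco : ∀ f : X ⟶ Z, co f = 0 → f = 0 := by
    intro f hf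
    apply bX.ext_elem
    intro i
    obtain rfl : i = 0 := Subsingleton.elim _ _
    rw [map_zero bX.repr]
    exact hf
  -- pairing
  let L : (X ⟶ N) →ₗ[k] Module.Dual k (N ⟶ Z) :=
    { toFun := fun s => co ∘ₗ Linear.leftComp k Z s
      map_add' := by
        intro a b
        apply LinearMap.ext
        intro g
        change co ((a + b) ≫ g) = co (a ≫ g) + co (b ≫ g)
        rw [Preadditive.add_comp, map_add]
      map_smul' := by
        intro c a
        apply LinearMap.ext
        intro g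
        change co ((c • a) ≫ g) = c • co (a ≫ g)
        rw [Linear.smul_comp, map_smul] }
  have hLap : ∀ s g, L s g = co (s ≫ g) := fun s g => rfl
  have hL : Function.Surjective L := by
    apply exists_dual
    intro g hg
    apply ht Z g
    intro i
    apply hco
    rw [← hLap]
    exact hg (t i)
  -- dual basis
  set e := Module.finrank k (N ⟶ Z) with he
  let b : Module.Basis (Fin e) k (N ⟶ Z) := Module.finBasis k (N ⟶ Z)
  choose s hs using fun a : Fin e => hL (b.coord a)
  set G : pw X e ⟶ N := pwDesc e s with hG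
  have hGinj : ∀ g : N ⟶ Z, G ≫ g = 0 → g = 0 := by
    intro g hg
    rw [hG, pwDesc_comp_eq_zero] at hg
    apply b.ext_elem
    intro a
    rw [map_zero b.repr]
    have h2 : L (s a) g = 0 := by rw [hLap, hg a, map_zero]
    rw [hs a] at h2
    exact h2
  -- surjectivity of restriction
  have hfE := hfin (pw X e) Z
  have hGsurj : ∀ f : pw X e ⟶ Z, ∃ g : N ⟶ Z, G ≫ g = f := by
    have h3 : Function.Injective (Linear.leftComp k Z G) := by
      rw [injective_iff_map_eq_zero]
      exact hGinj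
    have h4 : Module.finrank k (N ⟶ Z) = Module.finrank k (pw X e ⟶ Z) := by
      rw [finrank_pw hfin, hX1, mul_one]
    have h5 := (LinearMap.injective_iff_surjective_of_finrank_eq_finrank h4).1 h3
    intro f
    obtain ⟨g, hg⟩ := h5 f
    exact ⟨g, hg⟩
  -- cokernel
  have hC : ∀ f : cokernel G ⟶ Z, f = 0 := by
    intro f
    have h2 : cokernel.π G ≫ f = 0 := hGinj _ (by rw [← Category.assoc, cokernel.condition,
      zero_comp])
    exact (cancel_epi (cokernel.π G)).1 (h2.trans comp_zero.symm)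
  obtain ⟨n1, s1, hs1, hs1'⟩ := hnak _ hC
  have hs10 : s1 ≠ 0 := by
    intro h0
    rw [h0, map_zero] at hs1'
    exact AmpleData.ne_zero_of_isIso_simple Z _ hs1' rfl
  have hrC : H.r (cokernel G) = 0 := hr _ n1 s1 hs10 hs1
  have hExtC : ∀ (p : ℕ) (x : Ext.{w} (cokernel G) Z p), x = 0 :=
    fun p x => H.toAmpleData.ext_zero s1 hs1 hs1' x
  -- image
  let I := Abelian.image G
  let S1 : ShortComplex C := ShortComplex.mk (Abelian.image.ι G) (cokernel.π G)
    (kernel.condition _)
  have hS1 : S1.ShortExact :=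
    { exact := ShortComplex.exact_of_f_is_kernel _ (kernelIsKernel (cokernel.π G))
      mono_f := inferInstanceAs (Mono (Abelian.image.ι G))
      epi_g := inferInstanceAs (Epi (cokernel.π G)) }
  let S2 : ShortComplex C := ShortComplex.mk (kernel.ι G) (Abelian.factorThruImage G) (by
    rw [← cancel_mono (Abelian.image.ι G), Category.assoc, Abelian.image.fac, kernel.condition,
      zero_comp])
  have hS2 : S2.ShortExact :=
    { exact := by
        apply ShortComplex.exact_of_f_is_kernel
        refine KernelFork.IsLimit.ofι' _ _ (fun {W} g hg => ⟨kernel.lift G g ?_, ?_⟩)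
        · rw [← Abelian.image.fac G, ← Category.assoc, hg, zero_comp]
        · exact kernel.lift_ι _ _ _
      mono_f := inferInstanceAs (Mono (kernel.ι G))
      epi_g := inferInstanceAs (Epi (Abelian.factorThruImage G)) }
  have hI : ∀ x : Ext.{w} I Z 1, x = 0 := by
    intro x
    obtain ⟨y, hy⟩ := Ext.contravariant_sequence_exact₁ hS1 Z x (n₁ := 2) rfl
      (hExtC 2 _)
    rw [← hy, h1 y, Ext.comp_zero]
  -- kernel
  have hK : ∀ f : kernel G ⟶ Z, f = 0 := by
    intro f
    obtain ⟨y, hy⟩ := Ext.contravariant_sequence_exact₁ hS2 Z (Ext.mk₀ f) (n₁ := 1) rfl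
      (hI _)
    obtain ⟨y', rfl⟩ := (Ext.mk₀_bijective _ _).2 y
    rw [Ext.mk₀_comp_mk₀] at hy
    have hy' := (Ext.mk₀_bijective _ _).1 hy
    obtain ⟨g, hg⟩ := hGsurj y'
    rw [← hy', ← hg]
    change kernel.ι G ≫ G ≫ g = 0
    rw [← Category.assoc, kernel.condition, zero_comp]
  obtain ⟨n2, s2, hs2, hs2'⟩ := hnak _ hK
  have hs20 : s2 ≠ 0 := by
    intro h0
    rw [h0, map_zero] at hs2'
    exact AmpleData.ne_zero_of_isIso_simple Z _ hs2' rfl
  have hKz : IsZero (kernel G) :=
    H.toAmpleData.isZero_of_mono (hXT.pw _ e) (kernel.ι G) s2 hs20 hs2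
  -- ranks
  have r1 := H.r_add S1 hS1
  have r2 := H.r_add S2 hS2
  change H.r N = H.r I + H.r (cokernel G) at r1
  change H.r (pw X e) = H.r (kernel G) + H.r I at r2
  rw [hrC, add_zero] at r1
  rw [H.r_zero hKz, zero_add] at r2
  rw [r1, ← r2]
  -- rank of the sum
  have hpw : ∀ n, H.r (pw X n) = n := by
    intro n
    induction n with
    | zero => exact H.r_zero (isZero_pw_zero X)
    | succ n ih =>
      have h6 := H.r_add _ (Pool.Agent.Work.MP_f714fc_ag.Abs.ses_biprod X (pw X n))
      change H.r (X ⊞ pw X n) = H.r X + H.r (pw X n) at h6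
      change H.r (X ⊞ pw X n) = n + 1
      rw [h6, ih, hXr, add_comm]
  exact hpw e

theorem IntAmpleData.tf_O (H : IntAmpleData k C) : H.toAmpleData.Tf H.O := by
  intro n s hs
  rw [H.act_O]
  exact H.mono_of_ne n s hs

theorem rank_of_nak (H : IntAmpleData k C) [IsAlgClosed k]
    (hfin : ∀ A B : C, Module.Finite k (A ⟶ B)) (Z : C) [Simple Z]
    (hnak : ∀ D : C, (∀ f : D ⟶ Z, f = 0) → ∃ (n : ℤ) (s : ShiftedHom H.O H.O n),
      H.act n D s = 0 ∧ IsIso (H.act n Z s : Z ⟶ Z⟦n⟧))
    (hr : ∀ (D : C) (n : ℤ) (s : ShiftedHom H.O H.O n), s ≠ 0 → H.act n D s = 0 → H.r D = 0)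
    (N : C) (h1 : ∀ x : Ext.{w} N Z 1, x = 0) : H.r N = Module.finrank k (N ⟶ Z) := by
  obtain ⟨m, j, t, ht⟩ := H.gg_untw N
  exact rank_of_nak_aux H hfin Z hnak hr (H.O⟦m⟧)
    (H.toAmpleData.finrank_shift_simple Z (hfin Z Z) m) (H.tf_O.shift _ m)
    (by rw [H.r_shift, H.r_O]) N t ht h1

end Fdim
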