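import Pool.Agent.Work.MP_f714fc_ag.Coh.Efface

/-!
MP_f714fc_ag, abstract part (ABS-P).  Serre duality for all objects of an abelian category from
Serre duality for a generating class of objects.
-/

open CategoryTheory CategoryTheory.Abelian CategoryTheory.Limits

universe w v u t

namespace Fdim

variable {k : Type t} [Field k] {C : Type u} [Category.{v} C] [Abelian C] [Linear k C]
  [HasExt.{w} C]

/-- the pairing of Ext^p(X,A) and Ext^q(A,Y) given by a functional on Ext^n(X,Y), p + q = n -/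
noncomputable def pairing {X Y : C} {n : ℕ} (t : Ext X Y n →ₗ[k] k) (A : C) (p q : ℕ)
    (h : p + q = n) : Ext X A p →ₗ[k] Ext A Y q →ₗ[k] k :=
  (Ext.bilinearCompOfLinear k X A Y p q n h).compr₂ t

@[simp] lemma pairing_apply {X Y : C} {n : ℕ} (t : Ext X Y n →ₗ[k] k) (A : C) (p q : ℕ)
    (h : p + q = n) (x : Ext X A p) (y : Ext A Y q) : pairing t A p q h x y = t (x.comp y h) := rfl

/-- the short exact sequence of an epimorphism -/
noncomputable abbrev kerSeq {M A : C} (u : M ⟶ A) : ShortComplex C :=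
  ShortComplex.mk (kernel.ι u) u (kernel.condition u)

omit [HasExt.{w} C] in
lemma kerSeq_exact {M A : C} (u : M ⟶ A) [Epi u] : (kerSeq u).ShortExact :=
  { exact := ShortComplex.exact_kernel u }

section compare

variable {X Y : C} {n : ℕ} (t : Ext X Y n →ₗ[k] k)

lemma inj_zero (N : C → Prop)
    (hN0 : ∀ M, N M → Function.Bijective (pairing t M n 0 (add_zero n)).flip)
    {M A : C} (hM : N M) (u : M ⟶ A) [Epi u] :
    Function.Injective (pairing t A n 0 (add_zero n)).flip := by
  rw [injective_iff_map_eq_zero]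
  intro y hy
  have h1 : (Ext.mk₀ u).comp y (zero_add 0) = 0 := by
    apply (hN0 M hM).1
    rw [map_zero]
    ext x
    have := LinearMap.congr_fun hy (x.comp (Ext.mk₀ u) (add_zero n))
    simpa using this
  exact (injective_iff_map_eq_zero _).1 (Ext.precomp_mk₀_injective_of_epi Y u) y h1

theorem flip_bijective (van : ∀ B : C, Subsingleton (Ext X B (n + 1))) (N : C → Prop)
    (hN0 : ∀ M, N M → Function.Bijective (pairing t M n 0 (add_zero n)).flip)
    (hN : ∀ A : C, ∃ M, N M ∧ ∃ u : M ⟶ A, Epi u ∧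
      (∀ q, 1 ≤ q → q ≤ n → Subsingleton (Ext M Y q)) ∧
      (∀ p, p < n → Subsingleton (Ext X M p))) :
    ∀ (q p : ℕ) (h : p + q = n) (A : C), Function.Bijective (pairing t A p q h).flip := by
  intro q
  induction q with
  | zero =>
    intro p h A
    obtain rfl : p = n := by omega
    have inj : ∀ A : C, Function.Injective (pairing t A p 0 (add_zero p)).flip := by
      intro A
      obtain ⟨M, hM, u, hu, -, -⟩ := hN A
      exact inj_zero t N hN0 hM u
    refine ⟨inj A, ?_⟩
    intro φ
    obtain ⟨M, hM, u, hu, -, -⟩ := hN A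
    obtain ⟨z, hz⟩ := (hN0 M hM).2 (φ.comp (Ext.postcompOfLinear (Ext.mk₀ u) k X (add_zero p)))
    have hz' : ∀ x : Ext X M p, t (x.comp z (add_zero p)) = φ (x.comp (Ext.mk₀ u) (add_zero p)) :=
      fun x => LinearMap.congr_fun hz x
    have hS := kerSeq_exact u
    have h0 : (Ext.mk₀ (kerSeq u).f).comp z (zero_add 0) = 0 := by
      apply inj (kerSeq u).X₁
      rw [map_zero]
      ext x
      have := hz' (x.comp (Ext.mk₀ (kerSeq u).f) (add_zero p))
      rw [Ext.comp_assoc_of_third_deg_zero, Ext.comp_assoc_of_third_deg_zero, Ext.mk₀_comp_mk₀,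
        (kerSeq u).zero] at this
      simpa using this
    obtain ⟨y, hy⟩ := Ext.contravariant_sequence_exact₂ hS Y z h0
    refine ⟨y, ?_⟩
    ext x
    obtain ⟨x', hx'⟩ := Ext.covariant_sequence_exact₃ X hS x rfl
      (@Subsingleton.elim _ (van _) _ _)
    have h2 : t (x.comp y h) = φ x := by
      rw [← hx', Ext.comp_assoc_of_second_deg_zero]
      rw [hy]
      exact hz' x'
    simpa using h2
  | succ q ih =>
    intro p h A
    obtain ⟨M, hM, u, hu, hq, hp⟩ := hN A
    have hS := kerSeq_exact u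
    have e1 : p + 1 + q = n := by omega
    have e2 : 1 + q = q + 1 := by omega
    have sM : Subsingleton (Ext M Y (q + 1)) := hq _ (by omega) (by omega)
    have sX : Subsingleton (Ext X M p) := hp _ (by omega)
    constructor
    · rw [injective_iff_map_eq_zero]
      intro y hy
      obtain ⟨y', hy'⟩ := Ext.contravariant_sequence_exact₃ hS Y y
        (@Subsingleton.elim _ sM _ _) e2
      -- the functional of y'
      set φ := (pairing t (kerSeq u).X₁ (p + 1) q e1).flip y' with hφ
      have hker : LinearMap.ker (Ext.postcompOfLinear (Ext.mk₀ (kerSeq u).f) k X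
          (add_zero (p + 1))) ≤ LinearMap.ker φ := by
        intro x hx
        obtain ⟨x3, hx3⟩ := Ext.covariant_sequence_exact₁ X hS x hx rfl
        have := LinearMap.congr_fun hy x3
        have h3 : t (x3.comp y h) = 0 := by simpa using this
        rw [LinearMap.mem_ker, hφ]
        have h4 : t (x.comp y' e1) = 0 := by
          rw [← hx3, Ext.comp_assoc x3 hS.extClass y' rfl e2 (by omega), hy']
          exact h3
        simpa using h4
      obtain ⟨φ', hφ'⟩ := (LinearMap.exists_extend
        ((LinearMap.ker (Ext.postcompOfLinear (Ext.mk₀ (kerSeq u).f) k X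
          (add_zero (p + 1)))).liftQ φ hker ∘ₗ
          ((Ext.postcompOfLinear (Ext.mk₀ (kerSeq u).f) k X
          (add_zero (p + 1))).quotKerEquivRange).symm.toLinearMap))
      have hφ2 : ∀ x : Ext X (kerSeq u).X₁ (p + 1),
          φ' (x.comp (Ext.mk₀ (kerSeq u).f) (add_zero (p + 1))) = φ x := by
        intro x
        have := LinearMap.congr_fun hφ' ⟨_, LinearMap.mem_range_self (Ext.postcompOfLinear
          (Ext.mk₀ (kerSeq u).f) k X (add_zero (p + 1))) x⟩
        have h5 : ((Ext.postcompOfLinear (Ext.mk₀ (kerSeq u).f) k X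
          (add_zero (p + 1))).quotKerEquivRange).symm ⟨_, LinearMap.mem_range_self
          (Ext.postcompOfLinear (Ext.mk₀ (kerSeq u).f) k X (add_zero (p + 1))) x⟩ =
          Submodule.Quotient.mk x := by
          rw [LinearEquiv.symm_apply_eq]
          rfl
        simp only [LinearMap.comp_apply, LinearEquiv.coe_coe] at this
        rw [h5] at this
        exact this
      obtain ⟨m, hm⟩ := (ih (p + 1) e1 M).2 φ'
      have h6 : (Ext.mk₀ (kerSeq u).f).comp m (zero_add q) = y' := by
        apply (ih (p + 1) e1 (kerSeq u).X₁).1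
        ext x
        have h7 : t ((x.comp (Ext.mk₀ (kerSeq u).f) (add_zero (p + 1))).comp m e1) =
            φ' (x.comp (Ext.mk₀ (kerSeq u).f) (add_zero (p + 1))) :=
          LinearMap.congr_fun hm _
        rw [hφ2, Ext.comp_assoc_of_second_deg_zero] at h7
        rw [hφ] at h7
        simpa using h7
      rw [← hy', ← h6]
      exact hS.extClass_comp_assoc m
    · intro φ
      have hinj : Function.Injective (Ext.postcompOfLinear hS.extClass k X (rfl : p + 1 = p + 1)) := by
        rw [injective_iff_map_eq_zero]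
        intro x hx
        obtain ⟨x2, hx2⟩ := Ext.covariant_sequence_exact₃ X hS x rfl hx
        rw [← hx2, @Subsingleton.elim _ sX x2 0]
        simp
      obtain ⟨g, hg⟩ := LinearMap.exists_leftInverse_of_injective _ (LinearMap.ker_eq_bot.2 hinj)
      obtain ⟨y', hy'⟩ := (ih (p + 1) e1 (kerSeq u).X₁).2 (φ.comp g)
      refine ⟨hS.extClass.comp y' e2, ?_⟩
      ext x
      have h8 : t ((x.comp hS.extClass rfl).comp y' e1) = φ (g (x.comp hS.extClass rfl)) :=
        LinearMap.congr_fun hy' _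
      have h9 : g (x.comp hS.extClass rfl) = x := LinearMap.congr_fun hg x
      rw [h9, Ext.comp_assoc x hS.extClass y' rfl e2 (by omega)] at h8
      simpa using h8

/-- finite dimension of the groups in the comparison theorem -/
theorem finite_of_gen (N : C → Prop) (hN0 : ∀ M, N M → Module.Finite k (Ext M Y 0))
    (hN : ∀ A : C, ∃ M, N M ∧ ∃ u : M ⟶ A, Epi u ∧
      (∀ q, 1 ≤ q → q ≤ n → Subsingleton (Ext M Y q))) :
    ∀ (q : ℕ), q ≤ n → ∀ (A : C), Module.Finite k (Ext A Y q) := by
  intro q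
  induction q with
  | zero =>
    intro _ A
    obtain ⟨M, hM, u, hu, -⟩ := hN A
    have := hN0 M hM
    exact Module.Finite.of_injective (Ext.precompOfLinear (Ext.mk₀ u) k Y (zero_add 0))
      (Ext.precomp_mk₀_injective_of_epi Y u)
  | succ q ih =>
    intro hq A
    obtain ⟨M, hM, u, hu, hMq⟩ := hN A
    have hS := kerSeq_exact u
    have e2 : 1 + q = q + 1 := by omega
    have := ih (by omega) (kerSeq u).X₁
    refine Module.Finite.of_surjective (Ext.precompOfLinear hS.extClass k Y e2) ?_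
    intro y
    obtain ⟨y', hy'⟩ := Ext.contravariant_sequence_exact₃ hS Y y
        (@Subsingleton.elim _ (hMq _ (by omega) hq) _ _) e2
    exact ⟨y', hy'⟩

end compare

section equiv

variable {D : Type u} [Category.{v} D] [Abelian D] [HasExt.{w} D]

/-- an exact equivalence is surjective on Ext groups -/
theorem mapExt_surjective_of_equiv (F : C ⥤ D) [F.Additive] [PreservesFiniteLimits F]
    [PreservesFiniteColimits F] [F.IsEquivalence] (q : ℕ) :
    ∀ (X Y : C) (y : Ext (F.obj X) (F.obj Y) q), ∃ x : Ext X Y q, x.mapExactFunctor F = y := by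
  induction q with
  | zero =>
    intro X Y y
    obtain ⟨f, rfl⟩ := (Ext.mk₀_bijective _ _).2 y
    obtain ⟨g, rfl⟩ := F.map_surjective f
    exact ⟨Ext.mk₀ g, Ext.mapExactFunctor_mk₀ F g⟩
  | succ q ih =>
    intro X Y y
    obtain ⟨P, p, hp, h0⟩ := Coh.ext_exists_epi y
    -- P is the image of an object
    let e := F.objObjPreimageIso P
    obtain ⟨u, hu⟩ := F.map_surjective (e.hom ≫ p)
    have hepi : Epi (F.map u) := by rw [hu]; infer_instance
    have hu' : Epi u := F.epi_of_epi_map hepi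
    have hS := kerSeq_exact u
    have h1 : (Ext.mk₀ (F.map u)).comp y (zero_add _) = 0 := by
      rw [hu, ← Ext.mk₀_comp_mk₀_assoc, h0, Ext.comp_zero]
    have e2 : 1 + q = q + 1 := by omega
    obtain ⟨z, hz⟩ := Ext.contravariant_sequence_exact₃ (hS.map_of_exact F) (F.obj Y) y h1 e2
    obtain ⟨z', hz'⟩ := ih _ _ z
    refine ⟨hS.extClass.comp z' e2, ?_⟩
    rw [Ext.mapExactFunctor_comp, Ext.mapExactFunctor_extClass, hz']
    exact hz

theorem subsingleton_map_of_equiv (F : C ⥤ D) [F.Additive] [PreservesFiniteLimits F]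
    [PreservesFiniteColimits F] [F.IsEquivalence] (q : ℕ) (X Y : C) [Subsingleton (Ext X Y q)] :
    Subsingleton (Ext (F.obj X) (F.obj Y) q) := by
  constructor
  intro a b
  obtain ⟨a', rfl⟩ := mapExt_surjective_of_equiv F q X Y a
  obtain ⟨b', rfl⟩ := mapExt_surjective_of_equiv F q X Y b
  rw [Subsingleton.elim a' b']

end equiv

section generate

variable (W : C ⥤ C) (n : ℕ) (LL : C → Prop) (t : ∀ L : C, Ext L (W.obj L) n →ₗ[k] k)

/-- A generating class of objects with Serre duality of dimension n for the twist W. -/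
structure GenDuality : Prop where
  van : ∀ A B : C, Subsingleton (Ext A B (n + 1))
  sum : ∀ L M, LL L → LL M → LL (L ⊞ M)
  neg : ∀ A B : C, ∃ L, LL L ∧ ∃ u : L ⟶ B, Epi u ∧
    ∀ q, 1 ≤ q → q ≤ n → Subsingleton (Ext L A q)
  cyc : ∀ L M, LL L → LL M → ∀ (u : L ⟶ M) (ξ : Ext M (W.obj L) n),
    t M (ξ.comp (Ext.mk₀ (W.map u)) (add_zero n)) = t L ((Ext.mk₀ u).comp ξ (zero_add n))
  perf : ∀ L M, LL L → LL M → ∀ (p q : ℕ) (h : p + q = n), (pairing (t L) M p q h).IsPerfPair

variable {W n LL t}

namespace GenDuality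

variable (H : GenDuality W n LL t)

include H

lemma fin_LL (L M : C) (hL : LL L) (hM : LL M) (q : ℕ) (hq : q ≤ n) :
    Module.Finite k (Ext M (W.obj L) q) := by
  have hn : n - q + q = n := by omega
  have := H.perf L M hL hM (n - q) q hn
  have : Module.IsReflexive k (Ext M (W.obj L) q) :=
    .of_isPerfPair (pairing (t L) M (n - q) q hn).flip
  infer_instance

lemma neg' (L : C) (hL : LL L) (A : C) : ∃ M, LL M ∧ ∃ u : M ⟶ A, Epi u ∧
      (∀ q, 1 ≤ q → q ≤ n → Subsingleton (Ext M (W.obj L) q)) ∧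
      (∀ p, p < n → Subsingleton (Ext L M p)) := by
  obtain ⟨M, hM, u, hu, h⟩ := H.neg (W.obj L) A
  refine ⟨M, hM, u, hu, h, ?_⟩
  intro p hp
  have := h (n - p) (by omega) (by omega)
  have hn : p + (n - p) = n := by omega
  have h1 := H.perf L M hL hM p (n - p) hn
  constructor
  intro a b
  apply (LinearMap.IsPerfPair.bijective_left (pairing (t L) M p (n - p) hn)).1
  ext y
  rw [Subsingleton.elim y 0]
  simp

/-- step 1: duality for L in the class and A arbitrary -/
theorem step1 (L : C) (hL : LL L) (A : C) (p q : ℕ) (h : p + q = n) :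
    (pairing (t L) A p q h).IsPerfPair := by
  have h1 : Function.Bijective (pairing (t L) A p q h).flip := by
    refine flip_bijective (t L) (fun B => H.van L B) LL ?_ ?_ q p h A
    · intro M hM
      exact (LinearMap.IsPerfPair.flip (H.perf L M hL hM n 0 (add_zero n))).bijective_left
    · intro A
      exact H.neg' L hL A
  have h2 : Module.Finite k (Ext A (W.obj L) q) := by
    refine finite_of_gen (n := n) LL ?_ ?_ q (by omega) A
    · intro M hM
      exact H.fin_LL L M hL hM 0 (by omega)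
    · intro A
      obtain ⟨M, hM, u, hu, h, -⟩ := H.neg' L hL A
      exact ⟨M, hM, u, hu, h⟩
  have h3 : Module.Finite k (Module.Dual k (Ext L A p)) :=
    Module.Finite.equiv (LinearEquiv.ofBijective _ h1)
  have h4 : Module.Finite k (Ext L A p) := (Module.finite_dual_iff k).1 h3
  have h5 := LinearMap.IsPerfPair.of_bijective _ h1
  exact h5.flip

variable [W.Additive] [PreservesFiniteLimits W] [PreservesFiniteColimits W]

omit H in
lemma lift_ker {A B L : C} (u : L ⟶ B) [Epi u] (η : Ext A (W.obj L) n)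
    (hη : η.comp (Ext.mk₀ (W.map u)) (add_zero n) = 0) :
    ∃ ζ : Ext A (W.obj (kernel u)) n, ζ.comp (Ext.mk₀ (W.map (kernel.ι u))) (add_zero n) = η :=
  Ext.covariant_sequence_exact₂ A ((kerSeq_exact u).map_of_exact W) η hη

lemma surj {A B L : C} (u : L ⟶ B) [Epi u] (η : Ext A (W.obj B) n) :
    ∃ η' : Ext A (W.obj L) n, η'.comp (Ext.mk₀ (W.map u)) (add_zero n) = η :=
  Ext.covariant_sequence_exact₃ A ((kerSeq_exact u).map_of_exact W) η rfl
    (@Subsingleton.elim _ (H.van _ _) _ _)

/-- the functional is well defined -/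
lemma well (A L : C) (hL : LL L) (u : L ⟶ A) [Epi u] (η : Ext A (W.obj L) n)
    (hη : η.comp (Ext.mk₀ (W.map u)) (add_zero n) = 0) :
    t L ((Ext.mk₀ u).comp η (zero_add n)) = 0 := by
  obtain ⟨ζ, hζ⟩ := lift_ker u η hη
  obtain ⟨M, hM, v, hv, -⟩ := H.neg A (kernel u)
  obtain ⟨ζ', hζ'⟩ := H.surj v ζ
  have h1 : η = ζ'.comp (Ext.mk₀ (W.map (v ≫ kernel.ι u))) (add_zero n) := by
    rw [← hζ, ← hζ', W.map_comp, ← Ext.mk₀_comp_mk₀, Ext.comp_assoc_of_third_deg_zero]
  rw [h1, ← Ext.comp_assoc_of_third_deg_zero, H.cyc M L hM hL]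
  rw [Ext.mk₀_comp_mk₀_assoc, Category.assoc, kernel.condition, comp_zero, Ext.mk₀_zero,
    Ext.zero_comp, map_zero]

/-- step 2: the functional for an arbitrary object -/
theorem step2 (A : C) : ∃ tA : Ext A (W.obj A) n →ₗ[k] k, ∀ (L : C), LL L → ∀ (u : L ⟶ A)
    (η : Ext A (W.obj L) n),
    tA (η.comp (Ext.mk₀ (W.map u)) (add_zero n)) = t L ((Ext.mk₀ u).comp η (zero_add n)) := by
  obtain ⟨L0, hL0, u0, hu0, -⟩ := H.neg A A
  let π : Ext A (W.obj L0) n →ₗ[k] Ext A (W.obj A) n :=
    Ext.postcompOfLinear (Ext.mk₀ (W.map u0)) k A (add_zero n)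
  have hπ : Function.Surjective π := fun η => H.surj u0 η
  let τ : Ext A (W.obj L0) n →ₗ[k] k :=
    (t L0).comp (Ext.precompOfLinear (Ext.mk₀ u0) k (W.obj L0) (zero_add n))
  obtain ⟨g, hg⟩ := LinearMap.exists_rightInverse_of_surjective π (LinearMap.range_eq_top.2 hπ)
  have hgg : ∀ x, π (g x) = x := fun x => LinearMap.congr_fun hg x
  have hτ : ∀ η, π η = 0 → τ η = 0 := fun η hη => H.well A L0 hL0 u0 η hη
  refine ⟨τ.comp g, ?_⟩
  intro L hL u η
  set θ := η.comp (Ext.mk₀ (W.map u)) (add_zero n) with hθ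
  set η0 := g θ with hη0
  have e0 : η0.comp (Ext.mk₀ (W.map u0)) (add_zero n) = θ := hgg θ
  -- the element on the sum
  have hw : Epi (biprod.desc u0 u) := by
    have : biprod.inl ≫ biprod.desc u0 u = u0 := biprod.inl_desc _ _
    have h : Epi (biprod.inl ≫ biprod.desc u0 u) := by rw [this]; exact hu0
    exact epi_of_epi biprod.inl _
  let η' : Ext A (W.obj (L0 ⊞ L)) n := η0.comp (Ext.mk₀ (W.map biprod.inl)) (add_zero n) -
    η.comp (Ext.mk₀ (W.map biprod.inr)) (add_zero n)
  have h1 : η'.comp (Ext.mk₀ (W.map (biprod.desc u0 u))) (add_zero n) = 0 := by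
    simp only [η', sub_eq_add_neg, Ext.add_comp, Ext.neg_comp, Ext.comp_assoc_of_third_deg_zero,
      Ext.mk₀_comp_mk₀, ← W.map_comp, biprod.inl_desc, biprod.inr_desc]
    rw [e0, ← hθ, add_neg_cancel]
  have h2 := H.well A (L0 ⊞ L) (H.sum _ _ hL0 hL) (biprod.desc u0 u) η' h1
  have h3 : t (L0 ⊞ L) ((Ext.mk₀ (biprod.desc u0 u)).comp
      (η0.comp (Ext.mk₀ (W.map biprod.inl)) (add_zero n)) (zero_add n)) =
      t L0 ((Ext.mk₀ u0).comp η0 (zero_add n)) := by
    rw [← Ext.comp_assoc_of_third_deg_zero, H.cyc L0 _ hL0 (H.sum _ _ hL0 hL),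
      Ext.mk₀_comp_mk₀_assoc, biprod.inl_desc]
  have h4 : t (L0 ⊞ L) ((Ext.mk₀ (biprod.desc u0 u)).comp
      (η.comp (Ext.mk₀ (W.map biprod.inr)) (add_zero n)) (zero_add n)) =
      t L ((Ext.mk₀ u).comp η (zero_add n)) := by
    rw [← Ext.comp_assoc_of_third_deg_zero, H.cyc L _ hL (H.sum _ _ hL0 hL),
      Ext.mk₀_comp_mk₀_assoc, biprod.inr_desc]
  have h5 : t L0 ((Ext.mk₀ u0).comp η0 (zero_add n)) =
      t L ((Ext.mk₀ u).comp η (zero_add n)) := by
    have : (Ext.mk₀ (biprod.desc u0 u)).comp η' (zero_add n) =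
        (Ext.mk₀ (biprod.desc u0 u)).comp
      (η0.comp (Ext.mk₀ (W.map biprod.inl)) (add_zero n)) (zero_add n) -
      (Ext.mk₀ (biprod.desc u0 u)).comp
      (η.comp (Ext.mk₀ (W.map biprod.inr)) (add_zero n)) (zero_add n) := by
      simp only [η', sub_eq_add_neg, Ext.comp_add, Ext.comp_neg]
    rw [this, map_sub, h3, h4] at h2
    exact sub_eq_zero.1 h2
  exact h5

/-- the Serre functor property of a twist: one functional for every object, perfect pairings in
all degrees -/
def IsSerre (W : C ⥤ C) (n : ℕ) : Prop :=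
  ∀ A : C, ∃ tA : Ext A (W.obj A) n →ₗ[k] k, ∀ (B : C) (p q : ℕ) (h : p + q = n),
    (pairing tA B p q h).IsPerfPair

/-- **Serre duality from a generating class** -/
theorem serre [W.IsEquivalence] (A : C) : ∃ tA : Ext A (W.obj A) n →ₗ[k] k,
    (∀ (L : C), LL L → ∀ (u : L ⟶ A) (η : Ext A (W.obj L) n),
      tA (η.comp (Ext.mk₀ (W.map u)) (add_zero n)) = t L ((Ext.mk₀ u).comp η (zero_add n))) ∧
    ∀ (B : C) (p q : ℕ) (h : p + q = n), (pairing tA B p q h).IsPerfPair := by
  obtain ⟨tA, htA⟩ := H.step2 A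
  refine ⟨tA, htA, ?_⟩
  -- the test objects are the W L
  let N : C → Prop := fun M => ∃ L, LL L ∧ M = W.obj L
  have hN1 : ∀ M, N M → Function.Bijective (pairing tA M n 0 (add_zero n)).flip := by
    rintro M ⟨L, hL, rfl⟩
    have h1 := (H.step1 L hL A 0 n (zero_add n)).bijective_left
    -- Hom(L, A) and Hom(W L, W A)
    have h2 : ∀ u : L ⟶ A, (pairing tA (W.obj L) n 0 (add_zero n)).flip (Ext.mk₀ (W.map u)) =
        pairing (t L) A 0 n (zero_add n) (Ext.mk₀ u) := by
      intro u
      ext η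
      exact htA L hL u η
    constructor
    · rw [injective_iff_map_eq_zero]
      intro y hy
      obtain ⟨f, rfl⟩ := (Ext.mk₀_bijective _ _).2 y
      obtain ⟨g, rfl⟩ := W.map_surjective f
      rw [h2] at hy
      have := h1.1 (hy.trans (map_zero _).symm)
      rw [Ext.mk₀_eq_zero_iff] at this
      rw [this, W.map_zero, Ext.mk₀_zero]
    · intro φ
      obtain ⟨x, hx⟩ := h1.2 φ
      obtain ⟨f, rfl⟩ := (Ext.mk₀_bijective _ _).2 x
      exact ⟨Ext.mk₀ (W.map f), (h2 f).trans hx⟩
  have hN2 : ∀ B : C, ∃ M, N M ∧ ∃ u : M ⟶ B, Epi u ∧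
      (∀ q, 1 ≤ q → q ≤ n → Subsingleton (Ext M (W.obj A) q)) ∧
      (∀ p, p < n → Subsingleton (Ext A M p)) := by
    intro B
    obtain ⟨L, hL, u, hu, hq⟩ := H.neg A (W.objPreimage B)
    refine ⟨W.obj L, ⟨L, hL, rfl⟩, W.map u ≫ (W.objObjPreimageIso B).hom, ?_, ?_, ?_⟩
    · infer_instance
    · intro q h1 h2
      have := hq q h1 h2
      exact subsingleton_map_of_equiv W q L A
    · intro p hp
      have h1 := hq (n - p) (by omega) (by omega)
      have h2 := (H.step1 L hL A (n - p) p (by omega)).bijective_right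
      constructor
      intro a b
      apply h2.1
      ext y
      rw [@Subsingleton.elim _ h1 y 0]
      simp
  intro B p q h
  have h1 : Function.Bijective (pairing tA B p q h).flip :=
    flip_bijective tA (fun B => H.van A B) N hN1 hN2 q p h B
  have h2 : Module.Finite k (Ext B (W.obj A) q) := by
    refine finite_of_gen (n := n) N ?_ ?_ q (by omega) B
    · rintro M ⟨L, hL, rfl⟩
      have h3 := H.step1 L hL A 0 n (zero_add n)
      have : Module.IsReflexive k (Ext L A 0) := .of_isPerfPair (pairing (t L) A 0 n (zero_add n))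
      have : Module.Finite k (Ext L A 0) := inferInstance
      have h4 : Function.Bijective (pairing tA (W.obj L) n 0 (add_zero n)).flip :=
        hN1 _ ⟨L, hL, rfl⟩
      have h5 : Module.IsReflexive k (Ext A (W.obj L) n) :=
        .of_isPerfPair (pairing (t L) A 0 n (zero_add n)).flip
      have h6 : Module.Finite k (Ext A (W.obj L) n) := inferInstance
      exact Module.Finite.equiv (LinearEquiv.ofBijective _ h4).symm
    · intro A'
      obtain ⟨M, hM, u, hu, h, -⟩ := hN2 A'
      exact ⟨M, hM, u, hu, h⟩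
  have h3 : Module.Finite k (Module.Dual k (Ext A B p)) :=
    Module.Finite.equiv (LinearEquiv.ofBijective _ h1)
  have h4 : Module.Finite k (Ext A B p) := (Module.finite_dual_iff k).1 h3
  have h5 := LinearMap.IsPerfPair.of_bijective (R := k) _ h1
  exact h5.flip

end GenDuality

end generate

end Fdim
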