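import Pool.Agent.Work.MP_f714fc_ag.Abs.SerreDef

/-!
MP_f714fc_ag: Serre duality for one object A does not change if the dual object M is replaced by
an isomorphic one.
-/

open CategoryTheory CategoryTheory.Abelian CategoryTheory.Limits

universe w v u t

namespace Fdim

variable {k : Type t} [Field k] {C : Type u} [Category.{v} C] [Abelian C] [Linear k C]
  [HasExt.{w} C]

/-- composition with an isomorphism as a linear equivalence of Ext groups -/
noncomputable def extIsoRight (k : Type t) [Field k] [Linear k C] (A : C) {M M' : C}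
    (e : M ≅ M') (q : ℕ) : Ext.{w} A M q ≃ₗ[k] Ext.{w} A M' q :=
  LinearEquiv.ofLinearMap (Ext.postcompOfLinear (Ext.mk₀ e.hom) k A (add_zero q))
    (Ext.postcompOfLinear (Ext.mk₀ e.inv) k A (add_zero q))
    (by
      ext x
      change (x.comp (Ext.mk₀ e.inv) (add_zero q)).comp (Ext.mk₀ e.hom) (add_zero q) = x
      rw [Ext.comp_assoc_of_third_deg_zero, Ext.mk₀_comp_mk₀, e.inv_hom_id, Ext.comp_mk₀_id])
    (by
      ext x
      change (x.comp (Ext.mk₀ e.hom) (add_zero q)).comp (Ext.mk₀ e.inv) (add_zero q) = x
      rw [Ext.comp_assoc_of_third_deg_zero, Ext.mk₀_comp_mk₀, e.hom_inv_id, Ext.comp_mk₀_id])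

theorem extIsoRight_apply (A : C) {M M' : C} (e : M ≅ M') (q : ℕ) (x : Ext.{w} A M q) :
    extIsoRight k A e q x = x.comp (Ext.mk₀ e.hom) (add_zero q) := rfl

theorem extIsoRight_symm_apply (A : C) {M M' : C} (e : M ≅ M') (q : ℕ) (x : Ext.{w} A M' q) :
    (extIsoRight k A e q).symm x = x.comp (Ext.mk₀ e.inv) (add_zero q) := rfl

/-- Serre duality for A along an isomorphism of dual objects -/
theorem serrePairing_isPerfPair_iso {n : ℕ} {A M M' : C} (e : M ≅ M')
    (tr : Ext.{w} A M n →ₗ[k] k) (B : C) (p q : ℕ) (h : p + q = n)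
    (hp : (serrePairing k tr B p q h).IsPerfPair) :
    (serrePairing k (tr ∘ₗ (extIsoRight k A e n).symm.toLinearMap) B p q h).IsPerfPair := by
  have key : ∀ (a : Ext.{w} A B p) (b : Ext.{w} B M' q),
      serrePairing k (tr ∘ₗ (extIsoRight k A e n).symm.toLinearMap) B p q h a b =
        serrePairing k tr B p q h a ((extIsoRight k B e q).symm b) := by
    intro a b
    rw [serrePairing_apply, serrePairing_apply, LinearMap.comp_apply]
    change tr ((extIsoRight k A e n).symm _) = _
    rw [extIsoRight_symm_apply, extIsoRight_symm_apply, Ext.comp_assoc_of_third_deg_zero]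
  have hl := LinearMap.IsPerfPair.bijective_left (serrePairing k tr B p q h)
  have hr := LinearMap.IsPerfPair.bijective_right (serrePairing k tr B p q h)
  constructor
  · have h1 : ⇑(serrePairing k (tr ∘ₗ (extIsoRight k A e n).symm.toLinearMap) B p q h) =
        ⇑((extIsoRight k B e q).symm.dualMap) ∘ ⇑(serrePairing k tr B p q h) := by
      funext a
      apply LinearMap.ext
      intro b
      exact key a b
    rw [h1]
    exact (extIsoRight k B e q).symm.dualMap.bijective.comp hl
  · have h1 : ⇑(serrePairing k (tr ∘ₗ (extIsoRight k A e n).symm.toLinearMap) B p q h).flip =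
        ⇑(serrePairing k tr B p q h).flip ∘ ⇑(extIsoRight k B e q).symm := by
      funext b
      apply LinearMap.ext
      intro a
      exact key a b
    rw [h1]
    exact hr.comp (extIsoRight k B e q).symm.bijective

end Fdim
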