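import Pool.Agent.Work.MP_f714fc_ag.Abs.SerreTwo

/-!
MP_f714fc_ag, abstract part.  Transport of duality along exact equivalences (twists), and along
isomorphisms of the two outer objects.
-/

open CategoryTheory CategoryTheory.Abelian CategoryTheory.Limits

universe w v u t

namespace Fdim

section equiv

variable {C : Type u} [Category.{v} C] [Abelian C] [HasExt.{w} C]
  {D : Type u} [Category.{v} D] [Abelian D] [HasExt.{w} D]

/-- an exact equivalence is injective on Ext groups -/
theorem mapExt_injective_of_equiv (F : C ⥤ D) [F.Additive] [PreservesFiniteLimits F]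
    [PreservesFiniteColimits F] [F.IsEquivalence] (q : ℕ) :
    ∀ (X Y : C) (x : Ext X Y q), x.mapExactFunctor F = 0 → x = 0 := by
  induction q with
  | zero =>
    intro X Y x hx
    obtain ⟨f, rfl⟩ := (Ext.mk₀_bijective _ _).2 x
    rw [Ext.mapExactFunctor_mk₀, Ext.mk₀_eq_zero_iff] at hx
    rw [F.map_eq_zero_iff.1 hx, Ext.mk₀_zero]
  | succ q ih =>
    intro X Y x hx
    obtain ⟨P, p, hp, h0⟩ := Coh.ext_exists_epi x
    have hS := kerSeq_exact p
    have e2 : 1 + q = q + 1 := by omega
    obtain ⟨z, hz⟩ := Ext.contravariant_sequence_exact₃ hS Y x h0 e2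
    have h1 : (hS.map_of_exact F).extClass.comp (z.mapExactFunctor F) e2 = 0 := by
      have h := Ext.mapExactFunctor_comp F hS.extClass z e2
      rw [hz, hx, Ext.mapExactFunctor_extClass] at h
      exact h.symm
    obtain ⟨w, hw⟩ := Ext.contravariant_sequence_exact₁ (hS.map_of_exact F) (F.obj Y)
      (z.mapExactFunctor F) e2 h1
    obtain ⟨w', rfl⟩ := mapExt_surjective_of_equiv F q _ _ w
    have h2 : z - (Ext.mk₀ (kerSeq p).f).comp w' (zero_add q) = 0 := by
      apply ih
      rw [sub_eq_add_neg, Ext.mapExactFunctor_add]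
      have h3 : (-(Ext.mk₀ (kerSeq p).f).comp w' (zero_add q)).mapExactFunctor F =
          -((Ext.mk₀ (kerSeq p).f).comp w' (zero_add q)).mapExactFunctor F :=
        map_neg (F.mapExtAddHom _ _ q) _
      rw [h3, Ext.mapExactFunctor_comp, Ext.mapExactFunctor_mk₀]
      have h4 : (Ext.mk₀ (F.map (kerSeq p).f)).comp (w'.mapExactFunctor F) (zero_add q) =
        z.mapExactFunctor F := hw
      rw [h4, add_neg_cancel]
    rw [← hz, sub_eq_zero.1 h2]
    exact hS.extClass_comp_assoc w'

theorem mapExt_bijective_of_equiv (F : C ⥤ D) [F.Additive] [PreservesFiniteLimits F]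
    [PreservesFiniteColimits F] [F.IsEquivalence] (X Y : C) (q : ℕ) :
    Function.Bijective (F.mapExtAddHom X Y q) :=
  ⟨(injective_iff_map_eq_zero _).2 (mapExt_injective_of_equiv F q X Y),
    fun y => mapExt_surjective_of_equiv F q X Y y⟩

variable {k : Type t} [Field k] [Linear k C] [Linear k D]

/-- the linear equivalence on Ext groups of an exact linear equivalence -/
noncomputable def extEquiv (F : C ⥤ D) [F.Additive] [F.Linear k] [PreservesFiniteLimits F]
    [PreservesFiniteColimits F] [F.IsEquivalence] (X Y : C) (q : ℕ) :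
    Ext X Y q ≃ₗ[k] Ext (F.obj X) (F.obj Y) q :=
  LinearEquiv.ofBijective (F.mapExtLinearMap k X Y q) (mapExt_bijective_of_equiv F X Y q)

@[simp] lemma extEquiv_apply (F : C ⥤ D) [F.Additive] [F.Linear k] [PreservesFiniteLimits F]
    [PreservesFiniteColimits F] [F.IsEquivalence] (X Y : C) (q : ℕ) (x : Ext X Y q) :
    extEquiv (k := k) F X Y q x = x.mapExactFunctor F := rfl

namespace PairDual

/-- transport of duality along an exact linear equivalence -/
theorem map (F : C ⥤ D) [F.Additive] [F.Linear k] [PreservesFiniteLimits F]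
    [PreservesFiniteColimits F] [F.IsEquivalence] {X Y : C} {n : ℕ} {t : Ext X Y n →ₗ[k] k}
    {B : C} (h : PairDual t B) (t' : Ext (F.obj X) (F.obj Y) n →ₗ[k] k)
    (ht : ∀ ξ : Ext X Y n, t' (ξ.mapExactFunctor F) = t ξ) : PairDual t' (F.obj B) := by
  refine of ?_ ?_ ?_ ?_ ?_
  · intro p
    have := h.fin p
    exact Module.Finite.equiv (extEquiv (k := k) F X B p)
  · intro p q hpq y' hy
    obtain ⟨y, rfl⟩ := mapExt_surjective_of_equiv F q _ _ y'
    have : y = 0 := by
      apply h.inj p q hpq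
      intro x
      have h1 := hy (x.mapExactFunctor F)
      rwa [← Ext.mapExactFunctor_comp, ht] at h1
    rw [this, Ext.mapExactFunctor_zero]
  · intro p q hpq φ
    obtain ⟨y, hy⟩ := h.surj p q hpq (φ.comp (extEquiv (k := k) F X B p).toLinearMap)
    refine ⟨y.mapExactFunctor F, fun x' => ?_⟩
    obtain ⟨x, rfl⟩ := mapExt_surjective_of_equiv F p _ _ x'
    rw [← Ext.mapExactFunctor_comp, ht, hy]
    rfl
  · intro p hp
    have := h.vanX p hp
    exact subsingleton_map_of_equiv F p X B
  · intro q hq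
    have := h.vanY q hq
    exact subsingleton_map_of_equiv F q B Y

/-- transport of duality along isomorphisms of the outer objects -/
theorem congr {X Y X' Y' : C} (a : X ≅ X') (b : Y ≅ Y') {n : ℕ} {t : Ext X Y n →ₗ[k] k}
    {B : C} (h : PairDual t B) (t' : Ext X' Y' n →ₗ[k] k)
    (ht : ∀ ξ : Ext X' Y' n, t' ξ = t ((Ext.mk₀ a.hom).comp (ξ.comp (Ext.mk₀ b.inv)
      (add_zero n)) (zero_add n))) : PairDual t' B := by
  have cX : ∀ p, Ext X B p ≃ₗ[k] Ext X' B p := fun p =>
    LinearEquiv.ofLinearMap (Ext.precompOfLinear (Ext.mk₀ a.inv) k B (zero_add p))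
      (Ext.precompOfLinear (Ext.mk₀ a.hom) k B (zero_add p))
      (by ext x; simp) (by ext x; simp)
  refine of ?_ ?_ ?_ ?_ ?_
  · intro p
    have := h.fin p
    exact Module.Finite.equiv (cX p)
  · intro p q hpq y hy
    have h1 : y.comp (Ext.mk₀ b.inv) (add_zero q) = 0 := by
      apply h.inj p q hpq
      intro x
      have h2 := hy ((Ext.mk₀ a.inv).comp x (zero_add p))
      rw [ht, Ext.comp_assoc (Ext.mk₀ a.inv) x y (zero_add p) hpq (by omega),
        Ext.comp_assoc_of_third_deg_zero, Ext.mk₀_comp_mk₀_assoc, a.hom_inv_id,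
        Ext.mk₀_id_comp, Ext.comp_assoc_of_third_deg_zero] at h2
      exact h2
    have h3 : y = (y.comp (Ext.mk₀ b.inv) (add_zero q)).comp (Ext.mk₀ b.hom) (add_zero q) := by
      rw [Ext.comp_assoc_of_third_deg_zero, Ext.mk₀_comp_mk₀, b.inv_hom_id, Ext.comp_mk₀_id]
    rw [h3, h1, Ext.zero_comp]
  · intro p q hpq φ
    obtain ⟨y, hy⟩ := h.surj p q hpq
      (φ.comp (Ext.precompOfLinear (Ext.mk₀ a.inv) k B (zero_add p)))
    refine ⟨y.comp (Ext.mk₀ b.hom) (add_zero q), fun x => ?_⟩
    rw [ht, Ext.comp_assoc_of_third_deg_zero, Ext.comp_assoc_of_third_deg_zero,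
      Ext.mk₀_comp_mk₀, b.hom_inv_id, Ext.comp_mk₀_id,
      ← Ext.comp_assoc (Ext.mk₀ a.hom) x y (zero_add p) hpq (by omega), hy]
    simp
  · intro p hp
    have := h.vanX p hp
    refine ⟨fun x y => ?_⟩
    have h1 : ∀ x : Ext X' B p, x = 0 := by
      intro x
      have h2 : x = (Ext.mk₀ a.inv).comp ((Ext.mk₀ a.hom).comp x (zero_add p)) (zero_add p) := by
        rw [Ext.mk₀_comp_mk₀_assoc, a.inv_hom_id, Ext.mk₀_id_comp]
      rw [h2, Subsingleton.elim ((Ext.mk₀ a.hom).comp x (zero_add p)) 0, Ext.comp_zero]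
    rw [h1 x, h1 y]
  · intro q hq
    have := h.vanY q hq
    refine ⟨fun x y => ?_⟩
    have h1 : ∀ x : Ext B Y' q, x = 0 := by
      intro x
      have h2 : x = (x.comp (Ext.mk₀ b.inv) (add_zero q)).comp (Ext.mk₀ b.hom) (add_zero q) := by
        rw [Ext.comp_assoc_of_third_deg_zero, Ext.mk₀_comp_mk₀, b.inv_hom_id, Ext.comp_mk₀_id]
      rw [h2, Subsingleton.elim (x.comp (Ext.mk₀ b.inv) (add_zero q)) 0, Ext.zero_comp]
    rw [h1 x, h1 y]

end PairDual

end equiv

end Fdim
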