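import Pool.Agent.Work.MP_f714fc_ag.Abs.SerreGen

/-!
MP_f714fc_ag, abstract part (ABS-P).  Serre duality for all objects from Serre duality for a
family of basic objects (line bundles) whose finite sums generate.
-/

open CategoryTheory CategoryTheory.Abelian CategoryTheory.Limits

universe w v u t s

namespace Fdim

section sums

variable {C : Type u} [Category.{v} C] [Abelian C] [HasExt.{w} C]

lemma ext_comp_sum {X Y Z : C} {a b c : ℕ} (h : a + b = c) (x : Ext X Y a) {J : Type*}
    (s : Finset J) (y : J → Ext Y Z b) :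
    x.comp (∑ j ∈ s, y j) h = ∑ j ∈ s, x.comp (y j) h :=
  map_sum (Ext.bilinearComp X Y Z a b c h x) y s

lemma ext_sum_comp {X Y Z : C} {a b c : ℕ} (h : a + b = c) {J : Type*}
    (s : Finset J) (x : J → Ext X Y a) (y : Ext Y Z b) :
    (∑ j ∈ s, x j).comp y h = ∑ j ∈ s, (x j).comp y h :=
  map_sum ((Ext.bilinearComp X Y Z a b c h).flip y) x s

lemma mk₀_sum {X Y : C} {J : Type*} (s : Finset J) (f : J → (X ⟶ Y)) :
    Ext.mk₀ (∑ j ∈ s, f j) = ∑ j ∈ s, Ext.mk₀ (f j) :=
  map_sum (Ext.addEquiv₀ (X := X) (Y := Y)).symm f s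

end sums

variable {k : Type t} [Field k] {C : Type u} [Category.{v} C] [Abelian C] [Linear k C]
  [HasExt.{w} C]

/-- E is a finite direct sum of basic objects -/
structure BasicSum {ι : Type s} (L : ι → C) (E : C) where
  J : Type
  [fin : Fintype J]
  [dec : DecidableEq J]
  f : J → ι
  inc : ∀ a, L (f a) ⟶ E
  pr : ∀ a, E ⟶ L (f a)
  inc_pr : ∀ a, inc a ≫ pr a = 𝟙 _
  inc_pr_ne : ∀ a b, a ≠ b → inc a ≫ pr b = 0
  total : ∑ a, pr a ≫ inc a = 𝟙 E

attribute [instance] BasicSum.fin BasicSum.dec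

namespace BasicSum

variable {ι : Type s} {L : ι → C} {E E' : C}

omit [HasExt.{w} C] [Linear k C] in
lemma total_fst (S : BasicSum L E) (E' : C) :
    ∑ a, ((biprod.fst : E ⊞ E' ⟶ E) ≫ S.pr a) ≫ (S.inc a ≫ (biprod.inl : E ⟶ E ⊞ E')) =
      biprod.fst ≫ biprod.inl := by
  have h : ∀ a, ((biprod.fst : E ⊞ E' ⟶ E) ≫ S.pr a) ≫ (S.inc a ≫ (biprod.inl : E ⟶ E ⊞ E')) =
      biprod.fst ≫ (S.pr a ≫ S.inc a) ≫ biprod.inl := fun a => by simp only [Category.assoc]
  rw [Finset.sum_congr rfl fun a _ => h a, ← Preadditive.comp_sum, ← Preadditive.sum_comp,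
    S.total, Category.id_comp]

omit [HasExt.{w} C] [Linear k C] in
lemma total_snd (S : BasicSum L E') (E : C) :
    ∑ a, ((biprod.snd : E ⊞ E' ⟶ E') ≫ S.pr a) ≫ (S.inc a ≫ (biprod.inr : E' ⟶ E ⊞ E')) =
      biprod.snd ≫ biprod.inr := by
  have h : ∀ a, ((biprod.snd : E ⊞ E' ⟶ E') ≫ S.pr a) ≫ (S.inc a ≫ (biprod.inr : E' ⟶ E ⊞ E')) =
      biprod.snd ≫ (S.pr a ≫ S.inc a) ≫ biprod.inr := fun a => by simp only [Category.assoc]
  rw [Finset.sum_congr rfl fun a _ => h a, ← Preadditive.comp_sum, ← Preadditive.sum_comp,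
    S.total, Category.id_comp]

/-- sum of two finite sums -/
noncomputable def add (S : BasicSum L E) (S' : BasicSum L E') : BasicSum L (E ⊞ E') where
  J := S.J ⊕ S'.J
  f := Sum.elim S.f S'.f
  inc := fun a => match a with
    | Sum.inl a => S.inc a ≫ biprod.inl
    | Sum.inr a => S'.inc a ≫ biprod.inr
  pr := fun a => match a with
    | Sum.inl a => biprod.fst ≫ S.pr a
    | Sum.inr a => biprod.snd ≫ S'.pr a
  inc_pr := by
    rintro (a | a)
    · simp [S.inc_pr]
    · simp [S'.inc_pr]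
  inc_pr_ne := by
    rintro (a | a) (b | b) h
    · have : a ≠ b := fun e => h (by rw [e])
      simp [S.inc_pr_ne a b this]
      rfl
    · simp
      rfl
    · simp
      rfl
    · have : a ≠ b := fun e => h (by rw [e])
      simp [S'.inc_pr_ne a b this]
      rfl
  total := by
    rw [Fintype.sum_sum_type]
    exact (congrArg₂ (· + ·) (S.total_fst E') (S'.total_snd E)).trans biprod.total

variable {W : C ⥤ C} {n : ℕ} (τ : ∀ i, Ext (L i) (W.obj (L i)) n →ₗ[k] k)

/-- the trace functional of a finite sum -/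
noncomputable def trace (S : BasicSum L E) : Ext E (W.obj E) n →ₗ[k] k :=
  ∑ a, (τ (S.f a)).comp ((Ext.precompOfLinear (Ext.mk₀ (S.inc a)) k _ (zero_add n)).comp
    (Ext.postcompOfLinear (Ext.mk₀ (W.map (S.pr a))) k _ (add_zero n)))

lemma trace_apply (S : BasicSum L E) (ξ : Ext E (W.obj E) n) :
    S.trace τ ξ = ∑ a, τ (S.f a) ((Ext.mk₀ (S.inc a)).comp
      (ξ.comp (Ext.mk₀ (W.map (S.pr a))) (add_zero n)) (zero_add n)) := by
  simp [trace, LinearMap.sum_apply]

variable [W.Additive]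

/-- cyclicity of the trace -/
lemma trace_cyc (hτ : ∀ i j (u : L i ⟶ L j) (ξ : Ext (L j) (W.obj (L i)) n),
      τ j (ξ.comp (Ext.mk₀ (W.map u)) (add_zero n)) = τ i ((Ext.mk₀ u).comp ξ (zero_add n)))
    (S : BasicSum L E) (S' : BasicSum L E') (u : E ⟶ E') (ξ : Ext E' (W.obj E) n) :
    S'.trace τ (ξ.comp (Ext.mk₀ (W.map u)) (add_zero n)) =
      S.trace τ ((Ext.mk₀ u).comp ξ (zero_add n)) := by
  rw [trace_apply, trace_apply]
  -- the common double sum
  have hL : ∀ b, (Ext.mk₀ (S'.inc b)).comp ((ξ.comp (Ext.mk₀ (W.map u)) (add_zero n)).comp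
      (Ext.mk₀ (W.map (S'.pr b))) (add_zero n)) (zero_add n) =
      ∑ a, ((Ext.mk₀ (S'.inc b)).comp (ξ.comp (Ext.mk₀ (W.map (S.pr a))) (add_zero n))
        (zero_add n)).comp (Ext.mk₀ (W.map (S.inc a ≫ u ≫ S'.pr b))) (add_zero n) := by
    intro b
    have h1 : W.map u ≫ W.map (S'.pr b) =
        ∑ a, W.map (S.pr a) ≫ W.map (S.inc a ≫ u ≫ S'.pr b) := by
      calc W.map u ≫ W.map (S'.pr b) = W.map (𝟙 E ≫ u ≫ S'.pr b) := by
            rw [Category.id_comp, W.map_comp]
        _ = W.map (∑ a, S.pr a ≫ S.inc a ≫ u ≫ S'.pr b) := by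
            rw [← S.total, Preadditive.sum_comp]
            simp only [Category.assoc]
        _ = _ := by rw [W.map_sum]; simp only [W.map_comp]
    rw [Ext.comp_assoc_of_third_deg_zero, Ext.mk₀_comp_mk₀, h1, mk₀_sum, ext_comp_sum,
      ext_comp_sum]
    refine Finset.sum_congr rfl fun a _ => ?_
    rw [Ext.comp_assoc_of_third_deg_zero, Ext.comp_assoc_of_third_deg_zero, Ext.mk₀_comp_mk₀]
  have hR : ∀ a, (Ext.mk₀ (S.inc a)).comp (((Ext.mk₀ u).comp ξ (zero_add n)).comp
      (Ext.mk₀ (W.map (S.pr a))) (add_zero n)) (zero_add n) =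
      ∑ b, (Ext.mk₀ (S.inc a ≫ u ≫ S'.pr b)).comp ((Ext.mk₀ (S'.inc b)).comp
        (ξ.comp (Ext.mk₀ (W.map (S.pr a))) (add_zero n)) (zero_add n)) (zero_add n) := by
    intro a
    have h1 : S.inc a ≫ u = ∑ b, (S.inc a ≫ u ≫ S'.pr b) ≫ S'.inc b := by
      calc S.inc a ≫ u = (S.inc a ≫ u) ≫ 𝟙 E' := by rw [Category.comp_id]
        _ = _ := by
          rw [← S'.total, Preadditive.comp_sum]
          simp only [Category.assoc]
    rw [Ext.comp_assoc_of_third_deg_zero, Ext.mk₀_comp_mk₀_assoc, h1, mk₀_sum, ext_sum_comp]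
    refine Finset.sum_congr rfl fun b _ => ?_
    rw [Ext.mk₀_comp_mk₀_assoc]
  simp only [hL, hR, map_sum]
  rw [Finset.sum_comm]
  refine Finset.sum_congr rfl fun a _ => Finset.sum_congr rfl fun b _ => ?_
  exact hτ _ _ _ _

/-- perfectness of the pairings of a sum -/
lemma trace_perf (hp : ∀ i (B : C) (p q : ℕ) (h : p + q = n), (pairing (τ i) B p q h).IsPerfPair)
    (S : BasicSum L E) (B : C) (p q : ℕ) (h : p + q = n) :
    (pairing (S.trace τ) B p q h).IsPerfPair := by
  have key : ∀ (x : Ext E B p) (y : Ext B (W.obj E) q), S.trace τ (x.comp y h) =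
      ∑ a, τ (S.f a) (((Ext.mk₀ (S.inc a)).comp x (zero_add p)).comp
        (y.comp (Ext.mk₀ (W.map (S.pr a))) (add_zero q)) h) := by
    intro x y
    rw [trace_apply]
    refine Finset.sum_congr rfl fun a _ => ?_
    congr 1
    rw [Ext.comp_assoc_of_third_deg_zero, Ext.comp_assoc (Ext.mk₀ (S.inc a)) x _ (zero_add p) h
      (by omega)]
  have hx : ∀ x : Ext E B p, ∑ a, (Ext.mk₀ (S.pr a)).comp
      ((Ext.mk₀ (S.inc a)).comp x (zero_add p)) (zero_add p) = x := by
    intro x
    simp only [Ext.mk₀_comp_mk₀_assoc]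
    rw [← ext_sum_comp, ← mk₀_sum, S.total, Ext.mk₀_id_comp]
  have hy : ∀ y : Ext B (W.obj E) q, ∑ a, (y.comp (Ext.mk₀ (W.map (S.pr a))) (add_zero q)).comp
      (Ext.mk₀ (W.map (S.inc a))) (add_zero q) = y := by
    intro y
    simp only [Ext.comp_assoc_of_third_deg_zero, Ext.mk₀_comp_mk₀, ← W.map_comp]
    rw [← ext_comp_sum, ← mk₀_sum, ← W.map_sum, S.total, W.map_id, Ext.comp_mk₀_id]
  have hxp : ∀ a b (x : Ext (L (S.f a)) B p), (Ext.mk₀ (S.inc b)).comp
      ((Ext.mk₀ (S.pr a)).comp x (zero_add p)) (zero_add p) =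
      if h : b = a then (by subst h; exact x) else 0 := by
    intro a b x
    rw [Ext.mk₀_comp_mk₀_assoc]
    split_ifs with h
    · subst h
      rw [S.inc_pr, Ext.mk₀_id_comp]
    · rw [S.inc_pr_ne b a h, Ext.mk₀_zero, Ext.zero_comp]
  have hyp : ∀ a b (y : Ext B (W.obj (L (S.f a))) q), (y.comp (Ext.mk₀ (W.map (S.inc a)))
      (add_zero q)).comp (Ext.mk₀ (W.map (S.pr b))) (add_zero q) =
      if h : b = a then (by subst h; exact y) else 0 := by
    intro a b y
    rw [Ext.comp_assoc_of_third_deg_zero, Ext.mk₀_comp_mk₀, ← W.map_comp]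
    split_ifs with h
    · subst h
      rw [S.inc_pr, W.map_id, Ext.comp_mk₀_id]
    · rw [S.inc_pr_ne a b (fun e => h e.symm), W.map_zero, Ext.mk₀_zero, Ext.comp_zero]
  constructor
  · constructor
    · rw [injective_iff_map_eq_zero]
      intro x hx0
      rw [← hx x]
      refine Finset.sum_eq_zero fun a _ => ?_
      have : (Ext.mk₀ (S.inc a)).comp x (zero_add p) = 0 := by
        apply (hp (S.f a) B p q h).bijective_left.1
        rw [map_zero]
        ext y
        have h1 := LinearMap.congr_fun hx0 (y.comp (Ext.mk₀ (W.map (S.inc a))) (add_zero q))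
        rw [pairing_apply, key] at h1
        rw [Finset.sum_eq_single a] at h1
        · rw [hyp, dif_pos rfl] at h1
          simpa using h1
        · intro b _ hb
          rw [hyp, dif_neg hb, Ext.comp_zero, map_zero]
        · simp
      rw [this, Ext.comp_zero]
    · intro φ
      choose x hx' using fun a => (hp (S.f a) B p q h).bijective_left.2
        (φ.comp (Ext.postcompOfLinear (Ext.mk₀ (W.map (S.inc a))) k B (add_zero q)))
      refine ⟨∑ a, (Ext.mk₀ (S.pr a)).comp (x a) (zero_add p), ?_⟩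
      ext y
      rw [pairing_apply, key]
      have h2 : ∀ a, (Ext.mk₀ (S.inc a)).comp (∑ b, (Ext.mk₀ (S.pr b)).comp (x b) (zero_add p))
          (zero_add p) = x a := by
        intro a
        rw [ext_comp_sum, Finset.sum_eq_single a]
        · rw [hxp, dif_pos rfl]
        · intro b _ hb
          rw [hxp, dif_neg (fun e => hb e.symm)]
        · simp
      simp only [h2]
      have h3 : ∀ a (y : Ext B (W.obj (L (S.f a))) q), τ (S.f a) ((x a).comp y h) =
          φ (y.comp (Ext.mk₀ (W.map (S.inc a))) (add_zero q)) :=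
        fun a y => LinearMap.congr_fun (hx' a) y
      simp only [h3]
      rw [← map_sum, hy]
  · constructor
    · rw [injective_iff_map_eq_zero]
      intro y hy0
      rw [← hy y]
      refine Finset.sum_eq_zero fun a _ => ?_
      have : y.comp (Ext.mk₀ (W.map (S.pr a))) (add_zero q) = 0 := by
        apply (hp (S.f a) B p q h).bijective_right.1
        rw [map_zero]
        ext x
        have h1 := LinearMap.congr_fun hy0 ((Ext.mk₀ (S.pr a)).comp x (zero_add p))
        rw [LinearMap.flip_apply, pairing_apply, key] at h1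
        rw [Finset.sum_eq_single a] at h1
        · rw [hxp, dif_pos rfl] at h1
          simpa using h1
        · intro b _ hb
          rw [hxp, dif_neg hb, Ext.zero_comp, map_zero]
        · simp
      rw [this, Ext.zero_comp]
    · intro φ
      choose y hy' using fun a => (hp (S.f a) B p q h).bijective_right.2
        (φ.comp (Ext.precompOfLinear (Ext.mk₀ (S.pr a)) k B (zero_add p)))
      refine ⟨∑ a, (y a).comp (Ext.mk₀ (W.map (S.inc a))) (add_zero q), ?_⟩
      ext x
      rw [LinearMap.flip_apply, pairing_apply, key]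
      have h2 : ∀ a, (∑ b, (y b).comp (Ext.mk₀ (W.map (S.inc b))) (add_zero q)).comp
          (Ext.mk₀ (W.map (S.pr a))) (add_zero q) = y a := by
        intro a
        rw [ext_sum_comp, Finset.sum_eq_single a]
        · rw [hyp, dif_pos rfl]
        · intro b _ hb
          rw [hyp, dif_neg (fun e => hb e.symm)]
        · simp
      simp only [h2]
      have h3 : ∀ a (x : Ext (L (S.f a)) B p), τ (S.f a) (x.comp (y a) h) =
          φ ((Ext.mk₀ (S.pr a)).comp x (zero_add p)) :=
        fun a x => LinearMap.congr_fun (hy' a) x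
      simp only [h3]
      rw [← map_sum, hx]

end BasicSum

section final

variable {ι : Type s} (W : C ⥤ C) (n : ℕ) (L : ι → C)
  (τ : ∀ i, Ext (L i) (W.obj (L i)) n →ₗ[k] k)

/-- Basic objects (line bundles) with Serre duality against all objects, whose finite sums
generate, in finite cohomological dimension. -/
structure BasicDuality : Prop where
  /-- cyclicity -/
  cyc : ∀ i j (u : L i ⟶ L j) (ξ : Ext (L j) (W.obj (L i)) n),
      τ j (ξ.comp (Ext.mk₀ (W.map u)) (add_zero n)) = τ i ((Ext.mk₀ u).comp ξ (zero_add n))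
  perf : ∀ i (B : C) (p q : ℕ) (h : p + q = n), (pairing (τ i) B p q h).IsPerfPair
  van : ∀ i (B : C) (p : ℕ), n < p → Subsingleton (Ext B (W.obj (L i)) p)
  gen : ∀ A B : C, ∃ E, Nonempty (BasicSum L E) ∧ ∃ u : E ⟶ B, Epi u ∧
    ∀ q, 1 ≤ q → q ≤ n → Subsingleton (Ext E A q)
  bound : ∃ N₀ : ℕ, ∀ N, N₀ ≤ N → ∀ A B : C, Subsingleton (Ext A B N)

namespace BasicDuality

variable {W n L τ} (H : BasicDuality W n L τ)

include H

omit H in
lemma subsingleton_sum [W.Additive] {E : C} (S : BasicSum L E) (A : C) (p : ℕ)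
    (h : ∀ i, Subsingleton (Ext A (W.obj (L i)) p)) : Subsingleton (Ext A (W.obj E) p) := by
  suffices ∀ y : Ext A (W.obj E) p, y = 0 from ⟨fun a b => (this a).trans (this b).symm⟩
  intro y
  have hy : ∑ a, (y.comp (Ext.mk₀ (W.map (S.pr a))) (add_zero p)).comp
      (Ext.mk₀ (W.map (S.inc a))) (add_zero p) = y := by
    simp only [Ext.comp_assoc_of_third_deg_zero, Ext.mk₀_comp_mk₀, ← W.map_comp]
    rw [← ext_comp_sum, ← mk₀_sum, ← W.map_sum, S.total, W.map_id, Ext.comp_mk₀_id]
  rw [← hy]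
  refine Finset.sum_eq_zero fun a _ => ?_
  rw [@Subsingleton.elim _ (h (S.f a)) (y.comp (Ext.mk₀ (W.map (S.pr a))) (add_zero p)) 0,
    Ext.zero_comp]

variable [W.IsEquivalence] [W.Additive]

/-- finite cohomological dimension becomes dimension n -/
theorem van_all (A B : C) (p : ℕ) (hp : n < p) : Subsingleton (Ext A B p) := by
  obtain ⟨N₀, hN₀⟩ := H.bound
  suffices ∀ d p : ℕ, n < p → N₀ ≤ p + d → ∀ A B : C, Subsingleton (Ext A B p) from
    this N₀ p hp (by omega) A B
  intro d
  induction d with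
  | zero => intro p _ h A B; exact hN₀ p (by omega) A B
  | succ d ih =>
    intro p hp h A B
    let B' := W.objPreimage B
    let e : W.obj B' ≅ B := W.objObjPreimageIso B
    obtain ⟨E, ⟨S⟩, u, hu, -⟩ := H.gen A B'
    have hE : Subsingleton (Ext A (W.obj E) p) :=
      subsingleton_sum S A p fun i => H.van i A p hp
    have hW : ∀ y : Ext A (W.obj B') p, y = 0 := by
      intro y
      obtain ⟨z, hz⟩ : ∃ z : Ext A (W.obj E) p,
          z.comp (Ext.mk₀ (W.map u)) (add_zero p) = y :=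
        Ext.covariant_sequence_exact₃ A ((kerSeq_exact u).map_of_exact W) y rfl
        (@Subsingleton.elim _ (ih (p + 1) (by omega) (by omega) A _) _ _)
      rw [← hz, @Subsingleton.elim _ hE z 0, Ext.zero_comp]
    suffices ∀ y : Ext A B p, y = 0 from ⟨fun a b => (this a).trans (this b).symm⟩
    intro y
    have h1 : y = (y.comp (Ext.mk₀ e.inv) (add_zero p)).comp (Ext.mk₀ e.hom) (add_zero p) := by
      rw [Ext.comp_assoc_of_third_deg_zero, Ext.mk₀_comp_mk₀, e.inv_hom_id, Ext.comp_mk₀_id]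
    rw [h1, hW (y.comp (Ext.mk₀ e.inv) (add_zero p)), Ext.zero_comp]

omit [W.IsEquivalence] [W.Additive] in
open Classical in
/-- the trace on all finite sums -/
noncomputable def tr (_H : BasicDuality W n L τ) (E : C) : Ext E (W.obj E) n →ₗ[k] k :=
  if h : Nonempty (BasicSum L E) then h.some.trace τ else 0

omit [W.IsEquivalence] in
lemma tr_eq {E : C} (S : BasicSum L E) (ξ : Ext E (W.obj E) n) : H.tr E ξ = S.trace τ ξ := by
  have h : Nonempty (BasicSum L E) := ⟨S⟩
  rw [tr, dif_pos h]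
  have := BasicSum.trace_cyc τ H.cyc S h.some (𝟙 E) ξ
  rwa [W.map_id, Ext.comp_mk₀_id, Ext.mk₀_id_comp] at this

theorem genDuality : GenDuality W n (fun E => Nonempty (BasicSum L E)) H.tr where
  van A B := H.van_all A B (n + 1) (by omega)
  sum := by
    rintro E E' ⟨S⟩ ⟨S'⟩
    exact ⟨S.add S'⟩
  neg A B := H.gen A B
  cyc := by
    rintro E E' ⟨S⟩ ⟨S'⟩ u ξ
    rw [H.tr_eq S', H.tr_eq S]
    exact BasicSum.trace_cyc τ H.cyc S S' u ξ
  perf := by
    rintro E M ⟨S⟩ - p q h
    have : H.tr E = S.trace τ := LinearMap.ext fun ξ => H.tr_eq S ξ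
    rw [this]
    exact BasicSum.trace_perf τ H.perf S M p q h

/-- **Serre duality for all objects** from the duality of the basic objects -/
theorem serre (A : C) : ∃ tA : Ext A (W.obj A) n →ₗ[k] k,
    (∀ i (u : L i ⟶ A) (η : Ext A (W.obj (L i)) n),
      tA (η.comp (Ext.mk₀ (W.map u)) (add_zero n)) = τ i ((Ext.mk₀ u).comp η (zero_add n))) ∧
    ∀ (B : C) (p q : ℕ) (h : p + q = n), (pairing tA B p q h).IsPerfPair := by
  obtain ⟨tA, h1, h2⟩ := H.genDuality.serre A
  refine ⟨tA, ?_, h2⟩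
  intro i u η
  -- a basic object is a finite sum of one term
  let S : BasicSum L (L i) :=
    { J := Unit
      f := fun _ => i
      inc := fun _ => 𝟙 _
      pr := fun _ => 𝟙 _
      inc_pr := fun _ => Category.comp_id _
      inc_pr_ne := fun a b h => absurd (Subsingleton.elim a b) h
      total := by simp }
  rw [h1 (L i) ⟨S⟩ u η, H.tr_eq S, BasicSum.trace_apply]
  simp [S]

end BasicDuality

end final

end Fdim
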