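import Pool.Agent.Work.MP_f714fc_ag.Abs.SerreGen

/-!
MP_f714fc_ag, abstract part (SD1).  The objects B for which the pairings of Ext^p(X,B) and
Ext^q(B,Y) are perfect (p + q = n) and both groups vanish in degrees above n satisfy two out of
three in short exact sequences.
-/

open CategoryTheory CategoryTheory.Abelian CategoryTheory.Limits

universe w v u t

namespace Fdim

section lin

variable {k : Type*} [Field k] {U V : Type*} [AddCommGroup U] [Module k U] [AddCommGroup V]
  [Module k V]

/-- a functional which vanishes on the kernel of a linear map factors through it -/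
lemma dual_factor (a : U →ₗ[k] V) (φ : U →ₗ[k] k) (h : ∀ u, a u = 0 → φ u = 0) :
    ∃ φ' : V →ₗ[k] k, ∀ u, φ' (a u) = φ u := by
  obtain ⟨φ', hφ'⟩ := LinearMap.exists_extend
    ((LinearMap.ker a).liftQ φ (fun u hu => h u hu) ∘ₗ a.quotKerEquivRange.symm.toLinearMap)
  refine ⟨φ', fun u => ?_⟩
  have := LinearMap.congr_fun hφ' ⟨_, LinearMap.mem_range_self a u⟩
  have h5 : a.quotKerEquivRange.symm ⟨_, LinearMap.mem_range_self a u⟩ =
      Submodule.Quotient.mk u := by
    rw [LinearEquiv.symm_apply_eq]
    rfl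
  simp only [LinearMap.comp_apply, LinearEquiv.coe_coe] at this
  rw [h5] at this
  exact this

/-- a subspace on which only the zero functional vanishes is everything -/
lemma surjective_of_dual (a : U →ₗ[k] V) (h : ∀ φ : V →ₗ[k] k, (∀ u, φ (a u) = 0) → φ = 0) :
    Function.Surjective a := by
  rw [← LinearMap.range_eq_top]
  by_contra hne
  obtain ⟨f, hf, hf'⟩ := Submodule.exists_le_ker_of_lt_top _ (lt_top_iff_ne_top.2 hne)
  exact hf (h f fun u => hf' (LinearMap.mem_range_self a u))

/-- middle term of an exact sequence of finite dimensional spaces -/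
lemma finite_mid {k : Type*} [Field k] {A B D : Type*} [AddCommGroup A] [Module k A]
    [AddCommGroup B] [Module k B] [AddCommGroup D] [Module k D] [Module.Finite k A] [Module.Finite k D] (f : A →ₗ[k] B)
    (g : B →ₗ[k] D) (h : ∀ b, g b = 0 → ∃ a, f a = b) : Module.Finite k B := by
  have h1 : Module.Finite k (LinearMap.range f) := inferInstance
  have h2 : LinearMap.ker g ≤ LinearMap.range f := fun b hb => h b hb
  have h3 : Module.Finite k (LinearMap.ker g) := Submodule.finiteDimensional_of_le h2
  have h4 : Module.Finite k (B ⧸ LinearMap.ker g) :=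
    Module.Finite.equiv g.quotKerEquivRange.symm
  exact Module.Finite.of_submodule_quotient (LinearMap.ker g)

end lin

variable {k : Type t} [Field k] {C : Type u} [Category.{v} C] [Abelian C] [Linear k C]
  [HasExt.{w} C]

/-- degree zero of the comparison -/
theorem flip_bijective_zero {X Y : C} {n : ℕ} (t : Ext X Y n →ₗ[k] k)
    (van : ∀ B : C, Subsingleton (Ext X B (n + 1))) (N : C → Prop)
    (hN0 : ∀ M, N M → Function.Bijective (pairing t M n 0 (add_zero n)).flip)
    (hN : ∀ A : C, ∃ M, N M ∧ ∃ u : M ⟶ A, Epi u) (A : C) :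
    Function.Bijective (pairing t A n 0 (add_zero n)).flip := by
  have inj : ∀ A : C, Function.Injective (pairing t A n 0 (add_zero n)).flip := by
    intro A
    obtain ⟨M, hM, u, hu⟩ := hN A
    exact inj_zero t N hN0 hM u
  refine ⟨inj A, ?_⟩
  intro φ
  obtain ⟨M, hM, u, hu⟩ := hN A
  obtain ⟨z, hz⟩ := (hN0 M hM).2 (φ.comp (Ext.postcompOfLinear (Ext.mk₀ u) k X (add_zero n)))
  have hz' : ∀ x : Ext X M n, t (x.comp z (add_zero n)) = φ (x.comp (Ext.mk₀ u) (add_zero n)) :=
    fun x => LinearMap.congr_fun hz x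
  have hS := kerSeq_exact u
  have h0 : (Ext.mk₀ (kerSeq u).f).comp z (zero_add 0) = 0 := by
    apply inj (kerSeq u).X₁
    rw [map_zero]
    ext x
    have := hz' (x.comp (Ext.mk₀ (kerSeq u).f) (add_zero n))
    rw [Ext.comp_assoc_of_third_deg_zero, Ext.comp_assoc_of_third_deg_zero, Ext.mk₀_comp_mk₀,
      (kerSeq u).zero] at this
    simpa using this
  obtain ⟨y, hy⟩ := Ext.contravariant_sequence_exact₂ hS Y z h0
  refine ⟨y, ?_⟩
  ext x
  obtain ⟨x', hx'⟩ := Ext.covariant_sequence_exact₃ X hS x rfl
    (@Subsingleton.elim _ (van _) _ _)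
  have h2 : t (x.comp y (add_zero n)) = φ x := by
    rw [← hx', Ext.comp_assoc_of_second_deg_zero]
    rw [hy]
    exact hz' x'
  simpa using h2

/-- duality of B against the pair X, Y with a functional on Ext^n(X,Y) -/
structure PairDual {X Y : C} {n : ℕ} (t : Ext X Y n →ₗ[k] k) (B : C) : Prop where
  fin : ∀ p, Module.Finite k (Ext X B p)
  bij : ∀ (p q : ℕ) (h : p + q = n), Function.Bijective (pairing t B p q h).flip
  vanX : ∀ p, n < p → Subsingleton (Ext X B p)
  vanY : ∀ q, n < q → Subsingleton (Ext B Y q)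

namespace PairDual

variable {X Y : C} {n : ℕ} {t : Ext X Y n →ₗ[k] k}

lemma perf {B : C} (h : PairDual t B) (p q : ℕ) (hpq : p + q = n) :
    (pairing t B p q hpq).IsPerfPair := by
  have := h.fin p
  have h5 := LinearMap.IsPerfPair.of_bijective (R := k) _ (h.bij p q hpq)
  exact h5.flip

lemma inj {B : C} (h : PairDual t B) (p q : ℕ) (hpq : p + q = n) (y : Ext B Y q)
    (hy : ∀ x : Ext X B p, t (x.comp y hpq) = 0) : y = 0 :=
  (h.bij p q hpq).1 ((LinearMap.ext hy).trans (map_zero _).symm)

lemma surj {B : C} (h : PairDual t B) (p q : ℕ) (hpq : p + q = n) (φ : Ext X B p →ₗ[k] k) :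
    ∃ y : Ext B Y q, ∀ x : Ext X B p, t (x.comp y hpq) = φ x := by
  obtain ⟨y, hy⟩ := (h.bij p q hpq).2 φ
  exact ⟨y, fun x => LinearMap.congr_fun hy x⟩

lemma of {B : C} (fin : ∀ p, Module.Finite k (Ext X B p))
    (inj : ∀ (p q : ℕ) (hpq : p + q = n) (y : Ext B Y q),
      (∀ x : Ext X B p, t (x.comp y hpq) = 0) → y = 0)
    (surj : ∀ (p q : ℕ) (hpq : p + q = n) (φ : Ext X B p →ₗ[k] k),
      ∃ y : Ext B Y q, ∀ x : Ext X B p, t (x.comp y hpq) = φ x)
    (vanX : ∀ p, n < p → Subsingleton (Ext X B p))
    (vanY : ∀ q, n < q → Subsingleton (Ext B Y q)) : PairDual t B := by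
  refine ⟨fin, fun p q h => ⟨?_, ?_⟩, vanX, vanY⟩
  · rw [injective_iff_map_eq_zero]
    intro y hy
    exact inj p q h y fun x => LinearMap.congr_fun hy x
  · intro φ
    obtain ⟨y, hy⟩ := surj p q h φ
    exact ⟨y, LinearMap.ext hy⟩

/-- invariance under isomorphism -/
lemma of_iso {B B' : C} (h : PairDual t B) (e : B ≅ B') : PairDual t B' := by
  have cX : ∀ p, Ext X B p ≃ₗ[k] Ext X B' p := fun p =>
    LinearEquiv.ofLinearMap (Ext.postcompOfLinear (Ext.mk₀ e.hom) k X (add_zero p))
      (Ext.postcompOfLinear (Ext.mk₀ e.inv) k X (add_zero p))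
      (by ext x; simp) (by ext x; simp)
  refine of ?_ ?_ ?_ ?_ ?_
  · intro p
    have := h.fin p
    exact Module.Finite.equiv (cX p)
  · intro p q hpq y hy
    have h1 : (Ext.mk₀ e.hom).comp y (zero_add q) = 0 := by
      apply h.inj p q hpq
      intro x
      rw [← Ext.comp_assoc_of_second_deg_zero]
      exact hy _
    have h2 : y = (Ext.mk₀ e.inv).comp ((Ext.mk₀ e.hom).comp y (zero_add q)) (zero_add q) := by
      rw [Ext.mk₀_comp_mk₀_assoc, e.inv_hom_id, Ext.mk₀_id_comp]
    rw [h2, h1, Ext.comp_zero]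
  · intro p q hpq φ
    obtain ⟨y, hy⟩ := h.surj p q hpq
      (φ.comp (Ext.postcompOfLinear (Ext.mk₀ e.hom) k X (add_zero p)))
    refine ⟨(Ext.mk₀ e.inv).comp y (zero_add q), fun x => ?_⟩
    rw [← Ext.comp_assoc_of_second_deg_zero, hy]
    simp
  · intro p hp
    have := h.vanX p hp
    refine ⟨fun a b => ?_⟩
    have h1 : ∀ a : Ext X B' p, a = 0 := by
      intro a
      have h2 : a = (a.comp (Ext.mk₀ e.inv) (add_zero p)).comp (Ext.mk₀ e.hom) (add_zero p) := by
        rw [Ext.comp_assoc_of_third_deg_zero, Ext.mk₀_comp_mk₀, e.inv_hom_id, Ext.comp_mk₀_id]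
      rw [h2, Subsingleton.elim (a.comp (Ext.mk₀ e.inv) (add_zero p)) 0, Ext.zero_comp]
    rw [h1 a, h1 b]
  · intro q hq
    have := h.vanY q hq
    refine ⟨fun a b => ?_⟩
    have h1 : ∀ a : Ext B' Y q, a = 0 := by
      intro a
      have h2 : a = (Ext.mk₀ e.inv).comp ((Ext.mk₀ e.hom).comp a (zero_add q)) (zero_add q) := by
        rw [Ext.mk₀_comp_mk₀_assoc, e.inv_hom_id, Ext.mk₀_id_comp]
      rw [h2, Subsingleton.elim ((Ext.mk₀ e.hom).comp a (zero_add q)) 0, Ext.comp_zero]
    rw [h1 a, h1 b]

section ses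

variable {S : ShortComplex C} (hS : S.ShortExact)

include hS

theorem third (h1 : PairDual t S.X₁) (h2 : PairDual t S.X₂) : PairDual t S.X₃ := by
  refine of ?_ ?_ ?_ ?_ ?_
  · intro p
    have := h1.fin (p + 1)
    have := h2.fin p
    exact finite_mid (Ext.postcompOfLinear (Ext.mk₀ S.g) k X (add_zero p))
      (Ext.postcompOfLinear hS.extClass k X (rfl : p + 1 = p + 1))
      (fun b hb => Ext.covariant_sequence_exact₃ X hS b rfl hb)
  · intro p q hpq y hy
    have e1 : (Ext.mk₀ S.g).comp y (zero_add q) = 0 := by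
      apply h2.inj p q hpq
      intro x
      rw [← Ext.comp_assoc_of_second_deg_zero]
      exact hy _
    rcases q with _ | q
    · have := hS.epi_g
      exact (injective_iff_map_eq_zero _).1 (Ext.precomp_mk₀_injective_of_epi Y S.g) y e1
    · have e2 : 1 + q = q + 1 := by omega
      have e3 : p + 1 + q = n := by omega
      obtain ⟨y', hy'⟩ := Ext.contravariant_sequence_exact₃ hS Y y e1 e2
      obtain ⟨φ, hφ⟩ := dual_factor
        (Ext.postcompOfLinear (Ext.mk₀ S.f) k X (add_zero (p + 1)))
        ((pairing t S.X₁ (p + 1) q e3).flip y') (by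
          intro x hx
          obtain ⟨x3, hx3⟩ := Ext.covariant_sequence_exact₁ X hS x hx rfl
          have : t (x.comp y' e3) = 0 := by
            rw [← hx3, Ext.comp_assoc x3 hS.extClass y' rfl e2 (by omega), hy']
            exact hy x3
          simpa using this)
      obtain ⟨y2, hy2⟩ := h2.surj (p + 1) q e3 φ
      have e4 : (Ext.mk₀ S.f).comp y2 (zero_add q) - y' = 0 := by
        apply h1.inj (p + 1) q e3
        intro x
        have h5 := hy2 (x.comp (Ext.mk₀ S.f) (add_zero (p + 1)))
        have h6 : φ (x.comp (Ext.mk₀ S.f) (add_zero (p + 1))) = t (x.comp y' e3) := hφ x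
        rw [h6, Ext.comp_assoc_of_second_deg_zero] at h5
        rw [sub_eq_add_neg, Ext.comp_add, Ext.comp_neg, map_add, map_neg, h5]
        ring
      rw [← hy', ← sub_eq_zero.1 e4]
      exact hS.extClass_comp_assoc y2
  · intro p q hpq φ
    obtain ⟨y2, hy2⟩ := h2.surj p q hpq
      (φ.comp (Ext.postcompOfLinear (Ext.mk₀ S.g) k X (add_zero p)))
    have e1 : (Ext.mk₀ S.f).comp y2 (zero_add q) = 0 := by
      apply h1.inj p q hpq
      intro x
      rw [← Ext.comp_assoc_of_second_deg_zero, hy2]
      simp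
    obtain ⟨y3, hy3⟩ := Ext.contravariant_sequence_exact₂ hS Y y2 e1
    -- the difference vanishes on the image of g
    have e2 : ∀ x : Ext X S.X₃ p, x.comp hS.extClass (rfl : p + 1 = p + 1) = 0 →
        (φ - (pairing t S.X₃ p q hpq).flip y3) x = 0 := by
      intro x hx
      obtain ⟨x2, hx2⟩ := Ext.covariant_sequence_exact₃ X hS x rfl hx
      have h5 := hy2 x2
      rw [← hy3, ← Ext.comp_assoc_of_second_deg_zero] at h5
      rw [← hx2]
      simp only [LinearMap.sub_apply, LinearMap.flip_apply, pairing_apply]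
      rw [h5]
      simp
    obtain ⟨ψ, hψ⟩ := dual_factor
      (Ext.postcompOfLinear hS.extClass k X (rfl : p + 1 = p + 1)) _ e2
    rcases q with _ | q
    · refine ⟨y3, fun x => ?_⟩
      have := h1.vanX (p + 1) (by omega)
      have h6 := hψ x
      rw [Subsingleton.elim ((Ext.postcompOfLinear hS.extClass k X (rfl : p + 1 = p + 1)) x) 0,
        map_zero] at h6
      have h7 := h6.symm
      simp only [LinearMap.sub_apply, LinearMap.flip_apply, pairing_apply] at h7
      exact (sub_eq_zero.1 h7).symm
    · have e3 : p + 1 + q = n := by omega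
      have e4 : 1 + q = q + 1 := by omega
      obtain ⟨y1, hy1⟩ := h1.surj (p + 1) q e3 ψ
      refine ⟨y3 + hS.extClass.comp y1 e4, fun x => ?_⟩
      have h6 := hψ x
      have h8 := hy1 (x.comp hS.extClass (rfl : p + 1 = p + 1))
      rw [Ext.comp_assoc x hS.extClass y1 rfl e4 (by omega)] at h8
      have h9 : ψ (x.comp hS.extClass (rfl : p + 1 = p + 1)) = φ x - t (x.comp y3 hpq) := by
        have h10 : ψ (x.comp hS.extClass (rfl : p + 1 = p + 1)) =
          (φ - (pairing t S.X₃ p (q + 1) hpq).flip y3) x := h6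
        rw [h10]
        simp only [LinearMap.sub_apply, LinearMap.flip_apply, pairing_apply]
      rw [Ext.comp_add, map_add, h8, h9]
      ring
  · intro p hp
    suffices ∀ x : Ext X S.X₃ p, x = 0 from ⟨fun a b => (this a).trans (this b).symm⟩
    intro x
    have := h1.vanX (p + 1) (by omega)
    have := h2.vanX p hp
    obtain ⟨x2, hx2⟩ := Ext.covariant_sequence_exact₃ X hS x rfl (Subsingleton.elim _ _)
    rw [← hx2, Subsingleton.elim x2 0, Ext.zero_comp]
  · intro q hq
    suffices ∀ y : Ext S.X₃ Y q, y = 0 from ⟨fun a b => (this a).trans (this b).symm⟩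
    intro y
    rcases q with _ | q
    · omega
    have := h2.vanY (q + 1) hq
    have e2 : 1 + q = q + 1 := by omega
    obtain ⟨y', hy'⟩ := Ext.contravariant_sequence_exact₃ hS Y y (Subsingleton.elim _ _) e2
    rcases Nat.lt_or_ge n q with hnq | hnq
    · have := h1.vanY q hnq
      rw [← hy', Subsingleton.elim y' 0, Ext.comp_zero]
    · obtain rfl : q = n := by omega
      have := hS.mono_f
      obtain ⟨φ, hφ⟩ := dual_factor
        (Ext.postcompOfLinear (Ext.mk₀ S.f) k X (add_zero 0))
        ((pairing t S.X₁ 0 q (zero_add q)).flip y') (by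
          intro x hx
          rw [(injective_iff_map_eq_zero _).1 (Ext.postcomp_mk₀_injective_of_mono X S.f) x hx,
            map_zero])
      obtain ⟨y2, hy2⟩ := h2.surj 0 q (zero_add q) φ
      have e4 : (Ext.mk₀ S.f).comp y2 (zero_add q) - y' = 0 := by
        apply h1.inj 0 q (zero_add q)
        intro x
        have h5 := hy2 (x.comp (Ext.mk₀ S.f) (add_zero 0))
        have h6 : φ (x.comp (Ext.mk₀ S.f) (add_zero 0)) = t (x.comp y' (zero_add q)) := hφ x
        rw [h6, Ext.comp_assoc_of_second_deg_zero] at h5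
        rw [sub_eq_add_neg, Ext.comp_add, Ext.comp_neg, map_add, map_neg, h5]
        ring
      rw [← hy', ← sub_eq_zero.1 e4]
      exact hS.extClass_comp_assoc y2

theorem first (h2 : PairDual t S.X₂) (h3 : PairDual t S.X₃) : PairDual t S.X₁ := by
  refine of ?_ ?_ ?_ ?_ ?_
  · intro p
    have := h2.fin p
    rcases p with _ | p
    · have := hS.mono_f
      exact Module.Finite.of_injective (Ext.postcompOfLinear (Ext.mk₀ S.f) k X (add_zero 0))
        (Ext.postcomp_mk₀_injective_of_mono X S.f)
    · have := h3.fin p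
      exact finite_mid (Ext.postcompOfLinear hS.extClass k X (rfl : p + 1 = p + 1))
        (Ext.postcompOfLinear (Ext.mk₀ S.f) k X (add_zero (p + 1)))
        (fun b hb => Ext.covariant_sequence_exact₁ X hS b hb rfl)
  · intro p q hpq y hy
    have e2 : 1 + q = q + 1 := by omega
    have e1 : hS.extClass.comp y e2 = 0 := by
      rcases p with _ | p
      · have := h3.vanY (q + 1) (by omega)
        exact Subsingleton.elim _ _
      · apply h3.inj p (q + 1) (by omega)
        intro x
        rw [← Ext.comp_assoc x hS.extClass y rfl e2 (by omega)]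
        exact hy _
    obtain ⟨y2, hy2⟩ := Ext.contravariant_sequence_exact₁ hS Y y e2 e1
    obtain ⟨φ, hφ⟩ := dual_factor
      (Ext.postcompOfLinear (Ext.mk₀ S.g) k X (add_zero p))
      ((pairing t S.X₂ p q hpq).flip y2) (by
        intro x hx
        obtain ⟨x1, hx1⟩ := Ext.covariant_sequence_exact₂ X hS x hx
        have : t (x.comp y2 hpq) = 0 := by
          rw [← hx1, Ext.comp_assoc_of_second_deg_zero, hy2]
          exact hy x1
        simpa using this)
    obtain ⟨y3, hy3⟩ := h3.surj p q hpq φ
    have e4 : (Ext.mk₀ S.g).comp y3 (zero_add q) - y2 = 0 := by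
      apply h2.inj p q hpq
      intro x
      have h5 := hy3 (x.comp (Ext.mk₀ S.g) (add_zero p))
      have h6 : φ (x.comp (Ext.mk₀ S.g) (add_zero p)) = t (x.comp y2 hpq) := hφ x
      rw [h6, Ext.comp_assoc_of_second_deg_zero] at h5
      rw [sub_eq_add_neg, Ext.comp_add, Ext.comp_neg, map_add, map_neg, h5]
      ring
    rw [← hy2, ← sub_eq_zero.1 e4, Ext.mk₀_comp_mk₀_assoc, S.zero, Ext.mk₀_zero, Ext.zero_comp]
  · intro p q hpq φ
    have e2 : 1 + q = q + 1 := by omega
    -- a first approximation
    obtain ⟨y1, hy1⟩ : ∃ y1 : Ext S.X₁ Y q, ∀ x : Ext X S.X₁ p,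
        x.comp (Ext.mk₀ S.f) (add_zero p) = 0 →
          (φ - (pairing t S.X₁ p q hpq).flip y1) x = 0 := by
      rcases p with _ | p
      · refine ⟨0, fun x hx => ?_⟩
        have := hS.mono_f
        rw [(injective_iff_map_eq_zero _).1 (Ext.postcomp_mk₀_injective_of_mono X S.f) x hx,
            map_zero]
      · obtain ⟨y3, hy3⟩ := h3.surj p (q + 1) (by omega)
          (φ.comp (Ext.postcompOfLinear hS.extClass k X (rfl : p + 1 = p + 1)))
        have e1 : (Ext.mk₀ S.g).comp y3 (zero_add (q + 1)) = 0 := by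
          apply h2.inj p (q + 1) (by omega)
          intro x
          rw [← Ext.comp_assoc_of_second_deg_zero, hy3]
          simp
        obtain ⟨y1, hy1⟩ := Ext.contravariant_sequence_exact₃ hS Y y3 e1 e2
        refine ⟨y1, fun x hx => ?_⟩
        obtain ⟨x3, hx3⟩ := Ext.covariant_sequence_exact₁ X hS x hx rfl
        have h5 := hy3 x3
        rw [← hy1, ← Ext.comp_assoc x3 hS.extClass y1 rfl e2 (by omega), hx3] at h5
        simp only [LinearMap.sub_apply, LinearMap.flip_apply, pairing_apply]
        rw [h5]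
        simp [hx3]
    obtain ⟨ψ, hψ⟩ := dual_factor
      (Ext.postcompOfLinear (Ext.mk₀ S.f) k X (add_zero p)) _ hy1
    obtain ⟨y2, hy2⟩ := h2.surj p q hpq ψ
    refine ⟨y1 + (Ext.mk₀ S.f).comp y2 (zero_add q), fun x => ?_⟩
    have h8 := hy2 (x.comp (Ext.mk₀ S.f) (add_zero p))
    have h9 : ψ (x.comp (Ext.mk₀ S.f) (add_zero p)) = φ x - t (x.comp y1 hpq) := by
      have h10 : ψ (x.comp (Ext.mk₀ S.f) (add_zero p)) =
        (φ - (pairing t S.X₁ p q hpq).flip y1) x := hψ x
      rw [h10]
      simp only [LinearMap.sub_apply, LinearMap.flip_apply, pairing_apply]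
    rw [Ext.comp_assoc_of_second_deg_zero] at h8
    rw [Ext.comp_add, map_add, h8, h9]
    ring
  · intro p hp
    suffices ∀ x : Ext X S.X₁ p, x = 0 from ⟨fun a b => (this a).trans (this b).symm⟩
    intro x
    rcases p with _ | p
    · omega
    have := h2.vanX (p + 1) hp
    obtain ⟨x3, hx3⟩ := Ext.covariant_sequence_exact₁ X hS x (Subsingleton.elim _ _) rfl
    rcases Nat.lt_or_ge n p with hnp | hnp
    · have := h3.vanX p hnp
      rw [← hx3, Subsingleton.elim x3 0, Ext.zero_comp]
    · obtain rfl : p = n := by omega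
      have hsurj : Function.Surjective
          (Ext.postcompOfLinear (Ext.mk₀ S.g) k X (add_zero p)) := by
        apply surjective_of_dual
        intro φ hφ
        obtain ⟨y3, hy3⟩ := h3.surj p 0 (add_zero p) φ
        have e1 : (Ext.mk₀ S.g).comp y3 (zero_add 0) = 0 := by
          apply h2.inj p 0 (add_zero p)
          intro x
          rw [← Ext.comp_assoc_of_second_deg_zero, hy3]
          exact hφ x
        have := hS.epi_g
        have e2 := (injective_iff_map_eq_zero _).1 (Ext.precomp_mk₀_injective_of_epi Y S.g) y3 e1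
        ext x
        rw [← hy3 x, e2]
        simp
      obtain ⟨x2, hx2⟩ := hsurj x3
      have hx2' : x2.comp (Ext.mk₀ S.g) (add_zero p) = x3 := hx2
      rw [← hx3, ← hx2', Ext.comp_assoc_of_second_deg_zero, hS.comp_extClass, Ext.comp_zero]
  · intro q hq
    suffices ∀ y : Ext S.X₁ Y q, y = 0 from ⟨fun a b => (this a).trans (this b).symm⟩
    intro y
    have := h3.vanY (q + 1) (by omega)
    have := h2.vanY q hq
    obtain ⟨y2, hy2⟩ := Ext.contravariant_sequence_exact₁ hS Y y (by omega : 1 + q = q + 1)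
      (Subsingleton.elim _ _)
    rw [← hy2, Subsingleton.elim y2 0, Ext.comp_zero]

theorem second (h1 : PairDual t S.X₁) (h3 : PairDual t S.X₃) : PairDual t S.X₂ := by
  refine of ?_ ?_ ?_ ?_ ?_
  · intro p
    have := h1.fin p
    have := h3.fin p
    exact finite_mid (Ext.postcompOfLinear (Ext.mk₀ S.f) k X (add_zero p))
      (Ext.postcompOfLinear (Ext.mk₀ S.g) k X (add_zero p))
      (fun b hb => Ext.covariant_sequence_exact₂ X hS b hb)
  · intro p q hpq y hy
    have e1 : (Ext.mk₀ S.f).comp y (zero_add q) = 0 := by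
      apply h1.inj p q hpq
      intro x
      rw [← Ext.comp_assoc_of_second_deg_zero]
      exact hy _
    obtain ⟨y3, hy3⟩ := Ext.contravariant_sequence_exact₂ hS Y y e1
    obtain ⟨φ, hφ⟩ := dual_factor
      (Ext.postcompOfLinear hS.extClass k X (rfl : p + 1 = p + 1))
      ((pairing t S.X₃ p q hpq).flip y3) (by
        intro x hx
        obtain ⟨x2, hx2⟩ := Ext.covariant_sequence_exact₃ X hS x rfl hx
        have : t (x.comp y3 hpq) = 0 := by
          rw [← hx2, Ext.comp_assoc_of_second_deg_zero, hy3]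
          exact hy x2
        simpa using this)
    have hφ' : ∀ x : Ext X S.X₃ p, φ (x.comp hS.extClass (rfl : p + 1 = p + 1)) =
        t (x.comp y3 hpq) := fun x => hφ x
    rcases q with _ | q
    · have := h1.vanX (p + 1) (by omega)
      have e3 : y3 = 0 := by
        apply h3.inj p 0 hpq
        intro x
        rw [← hφ' x, Subsingleton.elim (x.comp hS.extClass (rfl : p + 1 = p + 1)) 0, map_zero]
      rw [← hy3, e3, Ext.comp_zero]
    · have e3 : p + 1 + q = n := by omega
      have e4 : 1 + q = q + 1 := by omega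
      obtain ⟨y1, hy1⟩ := h1.surj (p + 1) q e3 φ
      have e5 : hS.extClass.comp y1 e4 - y3 = 0 := by
        apply h3.inj p (q + 1) hpq
        intro x
        have h5 := hy1 (x.comp hS.extClass (rfl : p + 1 = p + 1))
        rw [hφ', Ext.comp_assoc x hS.extClass y1 rfl e4 (by omega)] at h5
        rw [sub_eq_add_neg, Ext.comp_add, Ext.comp_neg, map_add, map_neg, h5]
        ring
      rw [← hy3, ← sub_eq_zero.1 e5]
      exact hS.comp_extClass_assoc y1 e4
  · intro p q hpq φ
    obtain ⟨y1, hy1⟩ := h1.surj p q hpq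
      (φ.comp (Ext.postcompOfLinear (Ext.mk₀ S.f) k X (add_zero p)))
    have e2 : 1 + q = q + 1 := by omega
    have e1 : hS.extClass.comp y1 e2 = 0 := by
      rcases p with _ | p
      · have := h3.vanY (q + 1) (by omega)
        exact Subsingleton.elim _ _
      · apply h3.inj p (q + 1) (by omega)
        intro x
        rw [← Ext.comp_assoc x hS.extClass y1 rfl e2 (by omega), hy1]
        have : (x.comp hS.extClass (rfl : p + 1 = p + 1)).comp (Ext.mk₀ S.f)
            (add_zero (p + 1)) = 0 := by
          rw [Ext.comp_assoc_of_third_deg_zero, hS.extClass_comp, Ext.comp_zero]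
        simp [this]
    obtain ⟨y2, hy2⟩ := Ext.contravariant_sequence_exact₁ hS Y y1 e2 e1
    have e3 : ∀ x : Ext X S.X₂ p, x.comp (Ext.mk₀ S.g) (add_zero p) = 0 →
        (φ - (pairing t S.X₂ p q hpq).flip y2) x = 0 := by
      intro x hx
      obtain ⟨x1, hx1⟩ := Ext.covariant_sequence_exact₂ X hS x hx
      have h5 := hy1 x1
      rw [← hy2, ← Ext.comp_assoc_of_second_deg_zero] at h5
      rw [← hx1]
      simp only [LinearMap.sub_apply, LinearMap.flip_apply, pairing_apply]
      rw [h5]
      simp
    obtain ⟨ψ, hψ⟩ := dual_factor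
      (Ext.postcompOfLinear (Ext.mk₀ S.g) k X (add_zero p)) _ e3
    obtain ⟨y3, hy3⟩ := h3.surj p q hpq ψ
    refine ⟨y2 + (Ext.mk₀ S.g).comp y3 (zero_add q), fun x => ?_⟩
    have h8 := hy3 (x.comp (Ext.mk₀ S.g) (add_zero p))
    have h9 : ψ (x.comp (Ext.mk₀ S.g) (add_zero p)) = φ x - t (x.comp y2 hpq) := by
      have h10 : ψ (x.comp (Ext.mk₀ S.g) (add_zero p)) =
        (φ - (pairing t S.X₂ p q hpq).flip y2) x := hψ x
      rw [h10]
      simp only [LinearMap.sub_apply, LinearMap.flip_apply, pairing_apply]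
    rw [Ext.comp_assoc_of_second_deg_zero] at h8
    rw [Ext.comp_add, map_add, h8, h9]
    ring
  · intro p hp
    suffices ∀ x : Ext X S.X₂ p, x = 0 from ⟨fun a b => (this a).trans (this b).symm⟩
    intro x
    have := h1.vanX p hp
    have := h3.vanX p hp
    obtain ⟨x1, hx1⟩ := Ext.covariant_sequence_exact₂ X hS x (Subsingleton.elim _ _)
    rw [← hx1, Subsingleton.elim x1 0, Ext.zero_comp]
  · intro q hq
    suffices ∀ y : Ext S.X₂ Y q, y = 0 from ⟨fun a b => (this a).trans (this b).symm⟩
    intro y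
    have := h1.vanY q hq
    have := h3.vanY q hq
    obtain ⟨y3, hy3⟩ := Ext.contravariant_sequence_exact₂ hS Y y (Subsingleton.elim _ _)
    rw [← hy3, Subsingleton.elim y3 0, Ext.comp_zero]

end ses

/-- **(SD1)** if every object is a quotient of an object with duality and the groups Ext^p(X,B)
vanish for p > n, all B, then all objects have duality -/
theorem all (hN : ∀ B : C, ∃ M : C, PairDual t M ∧ ∃ u : M ⟶ B, Epi u)
    (van : ∀ (B : C) (p : ℕ), n < p → Subsingleton (Ext X B p)) (B : C) : PairDual t B := by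
  -- finiteness, descending induction
  have fin : ∀ (d p : ℕ), n < p + d → ∀ B : C, Module.Finite k (Ext X B p) := by
    intro d
    induction d with
    | zero =>
      intro p hp B
      have := van B p (by omega)
      infer_instance
    | succ d ih =>
      intro p hp B
      obtain ⟨M, hM, u, hu⟩ := hN B
      have hS := kerSeq_exact u
      have := hM.fin p
      have := ih (p + 1) (by omega) (kerSeq u).X₁
      exact finite_mid (Ext.postcompOfLinear (Ext.mk₀ (kerSeq u).g) k X (add_zero p))
        (Ext.postcompOfLinear hS.extClass k X (rfl : p + 1 = p + 1))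
        (fun b hb => Ext.covariant_sequence_exact₃ X hS b rfl hb)
  -- injectivity and surjectivity, induction on q
  have main : ∀ (q p : ℕ) (hpq : p + q = n),
      (∀ (B : C) (y : Ext B Y q), (∀ x : Ext X B p, t (x.comp y hpq) = 0) → y = 0) ∧
      (∀ (B : C) (φ : Ext X B p →ₗ[k] k),
        ∃ y : Ext B Y q, ∀ x : Ext X B p, t (x.comp y hpq) = φ x) := by
    intro q
    induction q with
    | zero =>
      intro p hpq
      obtain rfl : p = n := by omega
      have hb := fun B => flip_bijective_zero t (fun B => van B (p + 1) (by omega))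
        (fun M => PairDual t M) (fun M hM => hM.bij p 0 (add_zero p))
        (fun A => by obtain ⟨M, hM, u, hu⟩ := hN A; exact ⟨M, hM, u, hu⟩) B
      refine ⟨fun B y hy => ?_, fun B φ => ?_⟩
      · exact (hb B).1 ((LinearMap.ext hy).trans (map_zero _).symm)
      · obtain ⟨y, hy⟩ := (hb B).2 φ
        exact ⟨y, fun x => LinearMap.congr_fun hy x⟩
    | succ q ih =>
      intro p hpq
      have e2 : 1 + q = q + 1 := by omega
      have e3 : p + 1 + q = n := by omega
      have inj : ∀ (B : C) (y : Ext B Y (q + 1)), (∀ x : Ext X B p, t (x.comp y hpq) = 0) →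
          y = 0 := by
        intro B y hy
        obtain ⟨M, hM, u, hu⟩ := hN B
        have hS := kerSeq_exact u
        have e1 : (Ext.mk₀ (kerSeq u).g).comp y (zero_add (q + 1)) = 0 := by
          apply hM.inj p (q + 1) hpq
          intro x
          rw [← Ext.comp_assoc_of_second_deg_zero]
          exact hy _
        obtain ⟨y', hy'⟩ := Ext.contravariant_sequence_exact₃ hS Y y e1 e2
        obtain ⟨φ, hφ⟩ := dual_factor
          (Ext.postcompOfLinear (Ext.mk₀ (kerSeq u).f) k X (add_zero (p + 1)))
          ((pairing t (kerSeq u).X₁ (p + 1) q e3).flip y') (by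
            intro x hx
            obtain ⟨x3, hx3⟩ := Ext.covariant_sequence_exact₁ X hS x hx rfl
            have : t (x.comp y' e3) = 0 := by
              rw [← hx3, Ext.comp_assoc x3 hS.extClass y' rfl e2 (by omega), hy']
              exact hy x3
            simpa using this)
        obtain ⟨y2, hy2⟩ := hM.surj (p + 1) q e3 φ
        have e4 : (Ext.mk₀ (kerSeq u).f).comp y2 (zero_add q) - y' = 0 := by
          apply (ih (p + 1) e3).1 (kerSeq u).X₁
          intro x
          have h5 := hy2 (x.comp (Ext.mk₀ (kerSeq u).f) (add_zero (p + 1)))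
          have h6 : φ (x.comp (Ext.mk₀ (kerSeq u).f) (add_zero (p + 1))) = t (x.comp y' e3) :=
            hφ x
          rw [h6, Ext.comp_assoc_of_second_deg_zero] at h5
          rw [sub_eq_add_neg, Ext.comp_add, Ext.comp_neg, map_add, map_neg, h5]
          ring
        rw [← hy', ← sub_eq_zero.1 e4]
        exact hS.extClass_comp_assoc y2
      refine ⟨inj, fun B φ => ?_⟩
      obtain ⟨M, hM, u, hu⟩ := hN B
      have hS := kerSeq_exact u
      obtain ⟨y2, hy2⟩ := hM.surj p (q + 1) hpq
        (φ.comp (Ext.postcompOfLinear (Ext.mk₀ (kerSeq u).g) k X (add_zero p)))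
      have e1 : (Ext.mk₀ (kerSeq u).f).comp y2 (zero_add (q + 1)) = 0 := by
        apply inj (kerSeq u).X₁
        intro x
        rw [← Ext.comp_assoc_of_second_deg_zero, hy2]
        have : (x.comp (Ext.mk₀ (kerSeq u).f) (add_zero p)).comp (Ext.mk₀ (kerSeq u).g)
            (add_zero p) = 0 := by
          rw [Ext.comp_assoc_of_third_deg_zero, Ext.mk₀_comp_mk₀, (kerSeq u).zero, Ext.mk₀_zero,
            Ext.comp_zero]
        simp only [LinearMap.comp_apply, Ext.bilinearCompOfLinear_apply_apply,
          LinearMap.flip_apply]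
        rw [this, map_zero]
      obtain ⟨y3, hy3⟩ := Ext.contravariant_sequence_exact₂ hS Y y2 e1
      have e5 : ∀ x : Ext X (kerSeq u).X₃ p, x.comp hS.extClass (rfl : p + 1 = p + 1) = 0 →
          (φ - (pairing t (kerSeq u).X₃ p (q + 1) hpq).flip y3) x = 0 := by
        intro x hx
        obtain ⟨x2, hx2⟩ := Ext.covariant_sequence_exact₃ X hS x rfl hx
        have h5 := hy2 x2
        rw [← hy3, ← Ext.comp_assoc_of_second_deg_zero] at h5
        rw [← hx2]
        simp only [LinearMap.sub_apply, LinearMap.flip_apply, pairing_apply]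
        rw [h5]
        simp
      obtain ⟨ψ, hψ⟩ := dual_factor
        (Ext.postcompOfLinear hS.extClass k X (rfl : p + 1 = p + 1)) _ e5
      obtain ⟨y1, hy1⟩ := (ih (p + 1) e3).2 (kerSeq u).X₁ ψ
      refine ⟨y3 + hS.extClass.comp y1 e2, fun x => ?_⟩
      have h6 := hψ x
      have h8 := hy1 (x.comp hS.extClass (rfl : p + 1 = p + 1))
      rw [Ext.comp_assoc x hS.extClass y1 rfl e2 (by omega)] at h8
      have h9 : ψ (x.comp hS.extClass (rfl : p + 1 = p + 1)) = φ x - t (x.comp y3 hpq) := by
        have h10 : ψ (x.comp hS.extClass (rfl : p + 1 = p + 1)) =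
          (φ - (pairing t (kerSeq u).X₃ p (q + 1) hpq).flip y3) x := h6
        rw [h10]
        simp only [LinearMap.sub_apply, LinearMap.flip_apply, pairing_apply]
      rw [Ext.comp_add, map_add, h8, h9]
      ring
  -- vanishing above n
  have vanY : ∀ (q : ℕ), n < q → ∀ B : C, Subsingleton (Ext B Y q) := by
    intro q
    induction q with
    | zero => intro h; omega
    | succ q ih =>
      intro hq B
      suffices ∀ y : Ext B Y (q + 1), y = 0 from ⟨fun a b => (this a).trans (this b).symm⟩
      intro y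
      obtain ⟨M, hM, u, hu⟩ := hN B
      have hS := kerSeq_exact u
      have e2 : 1 + q = q + 1 := by omega
      obtain ⟨y', hy'⟩ := Ext.contravariant_sequence_exact₃ hS Y y
        (@Subsingleton.elim _ (hM.vanY (q + 1) hq) _ _) e2
      rcases Nat.lt_or_ge n q with hnq | hnq
      · rw [← hy', @Subsingleton.elim _ (ih hnq (kerSeq u).X₁) y' 0, Ext.comp_zero]
      · obtain rfl : q = n := by omega
        obtain ⟨φ, hφ⟩ := dual_factor
          (Ext.postcompOfLinear (Ext.mk₀ (kerSeq u).f) k X (add_zero 0))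
          ((pairing t (kerSeq u).X₁ 0 q (zero_add q)).flip y') (by
            intro x hx
            have := hS.mono_f
            rw [(injective_iff_map_eq_zero _).1
              (Ext.postcomp_mk₀_injective_of_mono X (kerSeq u).f) x hx, map_zero])
        obtain ⟨y2, hy2⟩ := hM.surj 0 q (zero_add q) φ
        have e4 : (Ext.mk₀ (kerSeq u).f).comp y2 (zero_add q) - y' = 0 := by
          apply (main q 0 (zero_add q)).1 (kerSeq u).X₁
          intro x
          have h5 := hy2 (x.comp (Ext.mk₀ (kerSeq u).f) (add_zero 0))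
          have h6 : φ (x.comp (Ext.mk₀ (kerSeq u).f) (add_zero 0)) =
            t (x.comp y' (zero_add q)) := hφ x
          rw [h6, Ext.comp_assoc_of_second_deg_zero] at h5
          rw [sub_eq_add_neg, Ext.comp_add, Ext.comp_neg, map_add, map_neg, h5]
          ring
        rw [← hy', ← sub_eq_zero.1 e4]
        exact hS.extClass_comp_assoc y2
  refine of (fun p => fin (n + 1) p (by omega) B) (fun p q h => (main q p h).1 B)
    (fun p q h => (main q p h).2 B) (fun p hp => van B p hp) (fun q hq => vanY q hq B)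

end PairDual

end Fdim
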