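import Mathlib
import Pool.Agent.Work.MP_f714fc_ag.Abs.H1

/-!
MP_f714fc_ag.  Serre vanishing in abstract form, and comparison of Ext groups.

`F : C ⥤ D` is an exact fully faithful functor of abelian categories, `E n : C` are objects
(n-fold negative twists of the structure sheaf) such that every object is a quotient of a finite
sum of copies of `E n` for all large `n`.  If the higher Ext groups from `F (E n)` to `F (E m)`
vanish for `n` large, and the cohomological dimension is finite, then the same holds for all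
objects, and `F` induces isomorphisms on Ext.
-/

universe w w' v v' u u' t

open CategoryTheory Limits Category Abelian

attribute [-instance] CategoryTheory.catToReflQuiver

namespace Fdim

variable {C : Type u} [Category.{v} C] [Abelian C] {D : Type u'} [Category.{v'} D] [Abelian D]
  (F : C ⥤ D) [F.Additive] [PreservesFiniteLimits F] [PreservesFiniteColimits F]
  [HasExt.{w'} D]

attribute [local instance] Abelian.hasFiniteBiproducts

omit [PreservesFiniteLimits F] [PreservesFiniteColimits F] in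
lemma subsingleton_ext_biproduct_left {J : Type} [Finite J] (f : J → C) (Y : D) (p : ℕ)
    (h : ∀ j, Subsingleton (Ext.{w'} (F.obj (f j)) Y p)) :
    Subsingleton (Ext.{w'} (F.obj (⨁ f)) Y p) := by
  cases nonempty_fintype J
  classical
  refine ⟨fun a b => ?_⟩
  have key : ∀ e : Ext.{w'} (F.obj (⨁ f)) Y p, e = 0 := by
    intro e
    have h1 : F.map (𝟙 (⨁ f)) = ∑ j, F.map (biproduct.π f j) ≫ F.map (biproduct.ι f j) := by
      rw [← biproduct.total, Functor.map_sum]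
      simp only [Functor.map_comp]
    have h2 : e = (Ext.mk₀ (F.map (𝟙 (⨁ f)))).comp e (zero_add p) := by
      rw [CategoryTheory.Functor.map_id, Ext.mk₀_id_comp]
    rw [h2, h1, Ext.mk₀_sum, Ext.sum_comp]
    apply Finset.sum_eq_zero
    intro j _
    rw [← Ext.mk₀_comp_mk₀_assoc, Subsingleton.elim ((Ext.mk₀ (F.map (biproduct.ι f j))).comp e _)
      0, Ext.comp_zero]
  rw [key a, key b]

omit [PreservesFiniteLimits F] [PreservesFiniteColimits F] in
lemma subsingleton_ext_biproduct_right {J : Type} [Finite J] (f : J → C) (X : D) (p : ℕ)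
    (h : ∀ j, Subsingleton (Ext.{w'} X (F.obj (f j)) p)) :
    Subsingleton (Ext.{w'} X (F.obj (⨁ f)) p) := by
  cases nonempty_fintype J
  classical
  refine ⟨fun a b => ?_⟩
  have key : ∀ e : Ext.{w'} X (F.obj (⨁ f)) p, e = 0 := by
    intro e
    have h1 : F.map (𝟙 (⨁ f)) = ∑ j, F.map (biproduct.π f j) ≫ F.map (biproduct.ι f j) := by
      rw [← biproduct.total, Functor.map_sum]
      simp only [Functor.map_comp]
    have h2 : e = e.comp (Ext.mk₀ (F.map (𝟙 (⨁ f)))) (add_zero p) := by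
      rw [CategoryTheory.Functor.map_id, Ext.comp_mk₀_id]
    rw [h2, h1, Ext.mk₀_sum, Ext.comp_sum]
    apply Finset.sum_eq_zero
    intro j _
    rw [← Ext.mk₀_comp_mk₀, ← Ext.comp_assoc_of_second_deg_zero,
      Subsingleton.elim (e.comp (Ext.mk₀ (F.map (biproduct.π f j))) _) 0, Ext.zero_comp]
  rw [key a, key b]

/-- every object is a quotient of a finite sum of copies of `E n`, for all large `n` -/
def GenLarge (E : ℤ → C) : Prop :=
  ∀ X : C, ∃ n₀ : ℤ, ∀ n ≥ n₀, ∃ (j : ℕ) (f : Fin j → (E n ⟶ X)),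
    ∀ (B : C) (g : X ⟶ B), (∀ i, f i ≫ g = 0) → g = 0

lemma GenLarge.epi {E : ℤ → C} (hE : GenLarge E) (X : C) : ∃ n₀ : ℤ, ∀ n ≥ n₀,
    ∃ (j : ℕ) (p : (⨁ fun _ : Fin j => E n) ⟶ X), Epi p := by
  obtain ⟨n₀, h⟩ := hE X
  refine ⟨n₀, fun n hn => ?_⟩
  obtain ⟨j, f, hf⟩ := h n hn
  refine ⟨j, biproduct.desc f, ?_⟩
  rw [Preadditive.epi_iff_cancel_zero]
  intro B g hg
  apply hf
  intro i
  have := congrArg (fun x => biproduct.ι (fun _ : Fin j => E n) i ≫ x) hg
  simpa using this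

/-- Serre vanishing in one degree -/
lemma serre_vanishing_aux {E : ℤ → C} (h1 : GenLarge E)
    (h2 : ∀ m : ℤ, ∃ n₀ : ℤ, ∀ n ≥ n₀, ∀ p : ℕ, 1 ≤ p →
      Subsingleton (Ext.{w'} (F.obj (E n)) (F.obj (E m)) p))
    (N : ℕ) (h3 : ∀ (n : ℤ) (Y : C) (p : ℕ), N ≤ p →
      Subsingleton (Ext.{w'} (F.obj (E n)) (F.obj Y) p)) (d : ℕ) :
    ∀ p : ℕ, 1 ≤ p → N ≤ p + d → ∀ Y : C, ∃ n₀ : ℤ, ∀ n ≥ n₀,
      Subsingleton (Ext.{w'} (F.obj (E n)) (F.obj Y) p) := by
  induction d with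
  | zero => exact fun p _ hp Y => ⟨0, fun n _ => h3 n Y p (by simpa using hp)⟩
  | succ d ih =>
    intro p hp hN Y
    obtain ⟨m₀, hm₀⟩ := h1.epi Y
    obtain ⟨j, π, hπ⟩ := hm₀ m₀ le_rfl
    let S : ShortComplex C := ShortComplex.mk (kernel.ι π) π (kernel.condition π)
    have hS : S.ShortExact := { exact := ShortComplex.exact_kernel π }
    obtain ⟨a, ha⟩ := ih (p + 1) (by omega) (by omega) (kernel π)
    obtain ⟨b, hb⟩ := h2 m₀
    refine ⟨max a b, fun n hn => ⟨fun x y => ?_⟩⟩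
    have key : ∀ e : Ext.{w'} (F.obj (E n)) (F.obj Y) p, e = 0 := by
      intro e
      have hK : Subsingleton (Ext.{w'} (F.obj (E n)) (F.obj (kernel π)) (p + 1)) :=
        ha n ((le_max_left a b).trans hn)
      have hP : Subsingleton (Ext.{w'} (F.obj (E n))
          (F.obj (⨁ fun _ : Fin j => E m₀)) p) :=
        subsingleton_ext_biproduct_right F _ _ p
          (fun _ => hb n ((le_max_right a b).trans hn) p hp)
      obtain ⟨x₂, hx₂⟩ := Ext.covariant_sequence_exact₃ (F.obj (E n)) (hS.map_of_exact F) e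
        (rfl : p + 1 = p + 1) (Subsingleton.elim (α := Ext.{w'} (F.obj (E n))
          (F.obj (kernel π)) (p + 1)) _ _)
      have h0 : x₂ = 0 := Subsingleton.elim (h := hP) _ _
      rw [← hx₂, h0]
      exact Ext.zero_comp (X := F.obj (E n)) (Y := (S.map F).X₂) (n := p)
        (Ext.mk₀ (S.map F).g) p (add_zero p)
    rw [key x, key y]

/-- Serre vanishing -/
theorem serre_vanishing {E : ℤ → C} (h1 : GenLarge E)
    (h2 : ∀ m : ℤ, ∃ n₀ : ℤ, ∀ n ≥ n₀, ∀ p : ℕ, 1 ≤ p →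
      Subsingleton (Ext.{w'} (F.obj (E n)) (F.obj (E m)) p))
    (N : ℕ) (h3 : ∀ (n : ℤ) (Y : C) (p : ℕ), N ≤ p →
      Subsingleton (Ext.{w'} (F.obj (E n)) (F.obj Y) p)) (Y : C) :
    ∃ n₀ : ℤ, ∀ n ≥ n₀, ∀ p : ℕ, 1 ≤ p →
      Subsingleton (Ext.{w'} (F.obj (E n)) (F.obj Y) p) := by
  have h : ∀ M : ℕ, ∃ n₀ : ℤ, ∀ n ≥ n₀, ∀ p : ℕ, 1 ≤ p → p < M →
      Subsingleton (Ext.{w'} (F.obj (E n)) (F.obj Y) p) := by
    intro M
    induction M with
    | zero => exact ⟨0, fun n _ p _ hp => absurd hp (Nat.not_lt_zero p)⟩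
    | succ M ih =>
      obtain ⟨a, ha⟩ := ih
      by_cases hM : 1 ≤ M
      · obtain ⟨b, hb⟩ := serre_vanishing_aux F h1 h2 N h3 N M hM (by omega) Y
        refine ⟨max a b, fun n hn p hp hpM => ?_⟩
        rcases Nat.lt_succ_iff_lt_or_eq.1 hpM with h | rfl
        · exact ha n ((le_max_left a b).trans hn) p hp h
        · exact hb n ((le_max_right a b).trans hn)
      · exact ⟨a, fun n hn p hp hpM => absurd hp (by omega)⟩
  obtain ⟨n₀, hn₀⟩ := h N
  refine ⟨n₀, fun n hn p hp => ?_⟩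
  by_cases hpN : p < N
  · exact hn₀ n hn p hp hpN
  · exact h3 n Y p (by omega)

/-- a finite sum of copies of `E n` surjects to `X` and has no higher Ext to `Y` -/
theorem exists_epi_vanishing {E : ℤ → C} (h1 : GenLarge E)
    (h2 : ∀ m : ℤ, ∃ n₀ : ℤ, ∀ n ≥ n₀, ∀ p : ℕ, 1 ≤ p →
      Subsingleton (Ext.{w'} (F.obj (E n)) (F.obj (E m)) p))
    (N : ℕ) (h3 : ∀ (n : ℤ) (Y : C) (p : ℕ), N ≤ p →
      Subsingleton (Ext.{w'} (F.obj (E n)) (F.obj Y) p)) (X Y : C) :
    ∃ n₀ : ℤ, ∀ n ≥ n₀, ∃ (j : ℕ) (π : (⨁ fun _ : Fin j => E n) ⟶ X), Epi π ∧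
      ∀ p : ℕ, 1 ≤ p → Subsingleton (Ext.{w'} (F.obj (⨁ fun _ : Fin j => E n)) (F.obj Y) p) := by
  obtain ⟨a, ha⟩ := h1.epi X
  obtain ⟨b, hb⟩ := serre_vanishing F h1 h2 N h3 Y
  refine ⟨max a b, fun n hn => ?_⟩
  obtain ⟨j, π, hπ⟩ := ha n ((le_max_left a b).trans hn)
  exact ⟨j, π, hπ, fun p hp => subsingleton_ext_biproduct_left F _ _ p
    (fun _ => hb n ((le_max_right a b).trans hn) p hp)⟩

/-- comparison of Ext groups -/
theorem mapExt_bijective_of_serre [HasExt.{w} C] [F.Full] [F.Faithful] {E : ℤ → C}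
    (h1 : GenLarge E)
    (h2 : ∀ m : ℤ, ∃ n₀ : ℤ, ∀ n ≥ n₀, ∀ p : ℕ, 1 ≤ p →
      Subsingleton (Ext.{w'} (F.obj (E n)) (F.obj (E m)) p))
    (N : ℕ) (h3 : ∀ (n : ℤ) (Y : C) (p : ℕ), N ≤ p →
      Subsingleton (Ext.{w'} (F.obj (E n)) (F.obj Y) p)) (X Y : C) (n : ℕ) :
    Function.Bijective (F.mapExtAddHom X Y n) := by
  apply mapExt_bijective_of_eff F Y
  intro X n g
  obtain ⟨a, ha⟩ := exists_epi_vanishing F h1 h2 N h3 X Y
  obtain ⟨j, π, hπ, hv⟩ := ha a le_rfl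
  have := hv (n + 1) (by omega)
  exact ⟨_, π, hπ, Subsingleton.elim _ _⟩

end Fdim
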