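import Pool.Agent.Work.MP_f714fc_ag.Abs.Ranks
import Pool.Agent.Work.MP_f714fc_ag.Abs.Slope

set_option autoImplicit false

/-!
Rigid objects of an abelian category which looks like the category of coherent sheaves on a
surface with ample anticanonical bundle: the two inequalities between dimensions of Ext groups.
-/

namespace Pool.Agent.Work.MP_f714fc_ag.Abs

open CategoryTheory CategoryTheory.Abelian CategoryTheory.Limits ZeroObject

universe w v u t

section

variable {k : Type t} [Field k] {C : Type u} [Category.{v} C] [Abelian C] [Linear k C]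
  [HasExt.{w} C]

lemma ed_of_isZero_left (hf : FinExt k C) {A : C} (hA : IsZero A) (B : C) (n : ℕ) :
    ed k A B n = 0 := by
  rw [ed_eq_zero_iff hf]
  refine ⟨fun x y => ?_⟩
  rw [← Ext.mk₀_id_comp x, ← Ext.mk₀_id_comp y, hA.eq_of_src (𝟙 A) 0, Ext.mk₀_zero,
    Ext.zero_comp, Ext.zero_comp]

lemma ed_of_isZero_right (hf : FinExt k C) (A : C) {B : C} (hB : IsZero B) (n : ℕ) :
    ed k A B n = 0 := by
  rw [ed_eq_zero_iff hf]
  refine ⟨fun x y => ?_⟩
  rw [← Ext.comp_mk₀_id x, ← Ext.comp_mk₀_id y, hB.eq_of_src (𝟙 B) 0, Ext.mk₀_zero,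
    Ext.comp_zero, Ext.comp_zero]

lemma one_le_ed_self (hf : FinExt k C) {A : C} (hA : ¬ IsZero A) : 1 ≤ ed k A A 0 := by
  rw [Nat.one_le_iff_ne_zero]
  intro h
  rw [ed_zero_iff hf] at h
  exact hA ((IsZero.iff_id_eq_zero A).mpr (h _))

/-- Mukai's lemma for the subobject. -/
lemma mukai (hf : FinExt k C) {S : ShortComplex C} (hS : S.ShortExact)
    (h1 : ed k S.X₁ S.X₃ 0 = 0) (h2 : ed k S.X₃ S.X₁ 2 = 0) (h3 : ed k S.X₂ S.X₂ 1 = 0) :
    ed k S.X₁ S.X₁ 1 = 0 := by
  rw [ed_eq_zero_iff hf] at h1 h2 h3 ⊢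
  refine ⟨fun x y => ?_⟩
  have key : ∀ x : Ext S.X₁ S.X₁ 1, x = 0 := by
    intro x
    set z := x.comp (Ext.mk₀ S.f) (add_zero 1) with hz
    have e1 : hS.extClass.comp z (rfl : 1 + 1 = 2) = 0 := by
      have e2 : hS.extClass.comp x (rfl : 1 + 1 = 2) = 0 := Subsingleton.elim _ _
      rw [hz, ← Ext.comp_assoc_of_third_deg_zero, e2, Ext.zero_comp]
    obtain ⟨y, hy⟩ := Ext.contravariant_sequence_exact₁ hS S.X₂ z (rfl : 1 + 1 = 2) e1
    have hy0 : y = 0 := Subsingleton.elim _ _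
    rw [hy0, Ext.comp_zero] at hy
    obtain ⟨g, hg⟩ := Ext.covariant_sequence_exact₁ S.X₁ hS x hy.symm (rfl : 0 + 1 = 1)
    have hg0 : g = 0 := Subsingleton.elim _ _
    rw [hg0, Ext.zero_comp] at hg
    exact hg.symm
  rw [key x, key y]

/-- the inductive step of the first inequality -/
lemma step1 (hf : FinExt k C) (h3 : ∀ A B : C, ed k A B 3 = 0) {S R : ShortComplex C}
    (hS : S.ShortExact) (hR : R.ShortExact) (g1 : ed k R.X₂ S.X₁ 2 = 0)
    (g2 : ed k R.X₁ S.X₃ 0 = 0) (g3 : ed k S.X₃ R.X₁ 2 = 0)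
    (g4 : ch k R.X₁ S.X₃ ≤ ch k S.X₃ R.X₁) (g5 : ed k R.X₂ S.X₂ 1 = 0)
    (ih : ed k R.X₃ S.X₃ 1 = 0 → ed k R.X₃ S.X₃ 2 ≤ ed k S.X₃ R.X₃ 0) :
    ed k R.X₂ S.X₂ 2 ≤ ed k S.X₂ R.X₂ 0 := by
  obtain ⟨a, b, c, ha, h⟩ := cov_ranks hf hS R.X₂
  obtain ⟨a', b', c', ha', h'⟩ := contra_ranks hf hR S.X₃
  obtain ⟨p, q, r, hp, hh⟩ := contra_ranks hf hS R.X₂
  obtain ⟨p', q', r', hp', hh'⟩ := cov_ranks hf hR S.X₃
  have e0 := h 0
  have e1 := h 1
  have e2 := h 2
  have e0' := h' 0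
  have e1' := h' 1
  have e2' := h' 2
  have f0 := hh 0
  have f0' := hh' 0
  have f1' := hh' 1
  have k1 := h3 R.X₂ S.X₁
  have k2 := h3 R.X₃ S.X₃
  simp only [zero_add, Nat.reduceAdd] at e0 e1 e2 e0' e1' e2' f0 f0' f1'
  unfold ch at g4
  have i1 : ed k R.X₃ S.X₃ 1 = 0 := by omega
  have i2 := ih i1
  omega

/-- the inductive step of the second inequality -/
lemma step2 (hf : FinExt k C) (h3 : ∀ A B : C, ed k A B 3 = 0) {S : ShortComplex C}
    (hS : S.ShortExact) (g0 : ¬ IsZero S.X₁) (g1 : ed k S.X₂ S.X₁ 2 = 0)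
    (g2 : ed k S.X₁ S.X₃ 0 = 0) (g3 : ed k S.X₃ S.X₁ 2 = 0)
    (g4 : ch k S.X₁ S.X₃ ≤ ch k S.X₃ S.X₁) (g5 : ed k S.X₂ S.X₂ 1 = 0)
    (ih : ed k S.X₃ S.X₃ 1 = 0 → ed k S.X₃ S.X₃ 2 ≤ ed k S.X₃ S.X₃ 0) :
    ed k S.X₂ S.X₂ 2 + 1 ≤ ed k S.X₂ S.X₂ 0 := by
  have m1 := mukai hf hS g2 g3 g5
  have m2 := one_le_ed_self hf g0
  obtain ⟨a, b, c, ha, h⟩ := cov_ranks hf hS S.X₂
  obtain ⟨a', b', c', ha', h'⟩ := contra_ranks hf hS S.X₁
  obtain ⟨p, q, r, hp, hh⟩ := contra_ranks hf hS S.X₃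
  have e0 := h 0
  have e1 := h 1
  have e2 := h 2
  have e0' := h' 0
  have e1' := h' 1
  have e2' := h' 2
  have f0 := hh 0
  have f1 := hh 1
  have f2 := hh 2
  have k1 := h3 S.X₂ S.X₁
  have k2 := h3 S.X₃ S.X₁
  have k3 := h3 S.X₃ S.X₃
  simp only [zero_add, Nat.reduceAdd] at e0 e1 e2 e0' e1' e2' f0 f1 f2
  unfold ch at g4
  have i1 : ed k S.X₃ S.X₃ 1 = 0 := by omega
  have i2 := ih i1
  omega

variable (k) in
/-- the first inequality -/
def L1 (A B : C) : Prop := ed k B A 1 = 0 → ed k B A 2 ≤ ed k A B 0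

variable (k) in
/-- the second inequality -/
def L2 (H : C) : Prop := ed k H H 1 = 0 → ¬ IsZero H → ed k H H 2 + 1 ≤ ed k H H 0

variable (k) in
/-- The data of a level together with what is needed for the induction. -/
structure Ctx (L : Lvl C) : Prop where
  fin : FinExt k C
  ext3 : ∀ A B : C, ed k A B 3 = 0
  serre : ∀ A B : C, ed k A B 2 = ed k B (L.T.functor.obj A) 0
  noeth : ∀ A : C, IsNoetherianObject A
  nb : ∀ A : C, ∃ N, L.NB N A
  eb : ∀ A : C, ∃ E, L.EB E A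
  sym : ∀ p q : ℤ, 0 < q → ∀ X Y : C, L.P Y → L.e Y * q = p * L.n Y → L.Bd p q X →
    ch k Y X ≤ ch k X Y

omit [HasExt.{w} C] in
lemma nonneg_of_NB {L : Lvl C} {N : ℤ} {A : C} (h : L.NB N A) : 0 ≤ N := by
  have : Mono (0 : (0 : C) ⟶ A) := ⟨fun _ _ _ => (isZero_zero C).eq_of_tgt _ _⟩
  have h1 := h 0 (0 : (0 : C) ⟶ A) (L.hP0 _ (isZero_zero C))
  rwa [L.nadd.zero (isZero_zero C)] at h1

theorem L1_level {L : Lvl C} (hc : Ctx k L)
    (base : ∀ A B : C, L.Good A → L.Good B → ¬ L.Has A → ¬ L.Has B → L1 k A B) :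
    ∀ A B : C, L.Good A → L.Good B → L1 k A B := by
  have main : ∀ m : ℕ, ∀ A B : C, L.Good A → L.Good B → ∀ N N' : ℤ, L.NB N A → L.NB N' B →
      N + N' ≤ m → L1 k A B := by
    intro m
    induction m using Nat.strong_induction_on with
    | _ m IH =>
    intro A B hgA hgB N N' hN hN' hm
    by_cases hex : L.Has A ∨ L.Has B
    · obtain ⟨E, hE⟩ := hc.eb A
      obtain ⟨E', hE'⟩ := hc.eb B
      have := hc.noeth A
      have := hc.noeth B
      obtain ⟨p, q, hq, hbA, hbB, hX⟩ := Lvl.exists_top hgA hgB hN hE hN' hE' hex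
      obtain ⟨s⟩ := Lvl.exists_slice hgA hN hE hq hbA
      obtain ⟨s'⟩ := Lvl.exists_slice hgB hN' hE' hq hbB
      have hn := s.n_sub_nonneg
      have hn' := s'.n_sub_nonneg
      have hpos : 0 < L.n s.sub + L.n s'.sub := by
        rcases hX with ⟨X, i, hi, hPX, hX0, hXs⟩ | ⟨X, i, hi, hPX, hX0, hXs⟩
        · have := s.n_sub_pos hgA (s.sub_ne_zero i hPX hX0 hXs)
          omega
        · have := s'.n_sub_pos hgB (s'.sub_ne_zero i hPX hX0 hXs)
          omega
      have hNq := s.nb hN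
      have hNq' := s'.nb hN'
      have z1 := nonneg_of_NB hNq
      have z2 := nonneg_of_NB hNq'
      have ih : L1 k s.quo s'.quo :=
        IH ((N - L.n s.sub) + (N' - L.n s'.sub)).toNat (by omega) s.quo s'.quo (s.good hq)
          (s'.good hq) _ _ hNq hNq' (by omega)
      intro h5
      have g1 : ed k B s.sub 2 = 0 := by
        rw [hc.serre, ed_zero_iff hc.fin]
        exact fun f => s.hom_zero hbA (Lvl.twist_lt hq hgB hbB) f
      have g2 : ed k s'.sub s.quo 0 = 0 := by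
        rw [ed_zero_iff hc.fin]
        exact fun f => s'.hom_zero hbB s.lt f
      have g3 : ed k s.quo s'.sub 2 = 0 := by
        rw [hc.serre, ed_zero_iff hc.fin]
        exact fun f => s'.hom_zero hbB (Lvl.twist_lt hq (s.good hq) s.bd) f
      have g4 : ch k s'.sub s.quo ≤ ch k s.quo s'.sub :=
        hc.sym p q hq s.quo s'.sub s'.P s'.slope s.bd
      exact step1 (S := ShortComplex.mk s.i s.π s.w) (R := ShortComplex.mk s'.i s'.π s'.w)
        hc.fin hc.ext3 s.ex s'.ex g1 g2 g3 g4 h5 ih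
    · push Not at hex
      exact base A B hgA hgB hex.1 hex.2
  intro A B hgA hgB
  obtain ⟨N, hN⟩ := hc.nb A
  obtain ⟨N', hN'⟩ := hc.nb B
  exact main (N + N').toNat A B hgA hgB N N' hN hN' (Int.self_le_toNat _)

theorem L2_level {L : Lvl C} (hc : Ctx k L)
    (base : ∀ H : C, L.Good H → ¬ L.Has H → L2 k H) :
    ∀ H : C, L.Good H → L2 k H := by
  have main : ∀ m : ℕ, ∀ H : C, L.Good H → ∀ N : ℤ, L.NB N H → N ≤ m → L2 k H := by
    intro m
    induction m using Nat.strong_induction_on with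
    | _ m IH =>
    intro H hg N hN hm
    by_cases hex : L.Has H
    · obtain ⟨E, hE⟩ := hc.eb H
      have := hc.noeth H
      obtain ⟨p, q, hq, hb, -, hX⟩ := Lvl.exists_top hg hg hN hE hN hE (Or.inl hex)
      obtain ⟨s⟩ := Lvl.exists_slice hg hN hE hq hb
      have hs0 : ¬ IsZero s.sub := by
        rcases hX with ⟨X, i, hi, hPX, hX0, hXs⟩ | ⟨X, i, hi, hPX, hX0, hXs⟩
        · exact s.sub_ne_zero i hPX hX0 hXs
        · exact s.sub_ne_zero i hPX hX0 hXs
      have hpos := s.n_sub_pos hg hs0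
      have hNq := s.nb hN
      have z1 := nonneg_of_NB hNq
      have ih : L2 k s.quo :=
        IH (N - L.n s.sub).toNat (by omega) s.quo (s.good hq) _ hNq (by omega)
      intro h5 _
      have g1 : ed k H s.sub 2 = 0 := by
        rw [hc.serre, ed_zero_iff hc.fin]
        exact fun f => s.hom_zero hb (Lvl.twist_lt hq hg hb) f
      have g2 : ed k s.sub s.quo 0 = 0 := by
        rw [ed_zero_iff hc.fin]
        exact fun f => s.hom_zero hb s.lt f
      have g3 : ed k s.quo s.sub 2 = 0 := by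
        rw [hc.serre, ed_zero_iff hc.fin]
        exact fun f => s.hom_zero hb (Lvl.twist_lt hq (s.good hq) s.bd) f
      have g4 : ch k s.sub s.quo ≤ ch k s.quo s.sub :=
        hc.sym p q hq s.quo s.sub s.P s.slope s.bd
      have g6 : ed k s.quo s.quo 1 = 0 → ed k s.quo s.quo 2 ≤ ed k s.quo s.quo 0 := by
        intro h6
        by_cases hz : IsZero s.quo
        · rw [ed_of_isZero_left hc.fin hz]
          exact Nat.zero_le _
        · exact (Nat.le_succ _).trans (ih h6 hz)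
      exact step2 (S := ShortComplex.mk s.i s.π s.w) hc.fin hc.ext3 s.ex hs0 g1 g2 g3 g4 h5 g6
    · exact base H hg hex
  intro H hg
  obtain ⟨N, hN⟩ := hc.nb H
  exact main N.toNat H hg N hN (Int.self_le_toNat _)

end

variable (k : Type t) [Field k] (C : Type u) [Category.{v} C] [Abelian C] [Linear k C]
  [HasExt.{w} C]

/-- The properties of the category of coherent sheaves on a smooth projective surface with ample
anticanonical bundle which are used: `T` is the tensor product with the canonical bundle `K`, `r`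
the rank, `d` the degree `χ(A) - χ(A (K))`, `x` the Euler characteristic, `c` the number `K ^ 2`. -/
structure SurfCat where
  T : C ≌ C
  r : C → ℤ
  d : C → ℤ
  x : C → ℤ
  c : ℤ
  hc : 0 < c
  fin : FinExt k C
  ext3 : ∀ A B : C, ed k A B 3 = 0
  serre : ∀ A B : C, ed k A B 2 = ed k B (T.functor.obj A) 0
  radd : IsAdd r
  dadd : IsAdd d
  xadd : IsAdd x
  r_nonneg : ∀ A, 0 ≤ r A
  d_nonneg : ∀ A, r A = 0 → 0 ≤ d A
  x_nonneg : ∀ A, r A = 0 → d A = 0 → 0 ≤ x A
  rT : ∀ A, r (T.functor.obj A) = r A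
  dT : ∀ A, d (T.functor.obj A) = d A - c * r A
  xT : ∀ A, r A = 0 → x (T.functor.obj A) = x A - d A
  ch_fin : ∀ A, r A = 0 → d A = 0 → ch k A A = 0
  n1 : ∀ A B, ch k A B - ch k B A = r A * d B - r B * d A
  noeth : ∀ A : C, IsNoetherianObject A
  dbd : ∀ A : C, ∃ M : ℤ, ∀ (X : C) (i : X ⟶ A) [Mono i], d X ≤ M
  xbd : ∀ A : C, ∃ M : ℤ, ∀ (X : C) (i : X ⟶ A) [Mono i], r X = 0 → x X ≤ M

namespace SurfCat

variable {k C} (S : SurfCat k C)

/-- the level of the torsion objects -/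
def lvl1 : Lvl C where
  T := S.T
  P X := S.r X = 0
  n := S.d
  e := S.x
  c := 1
  hc := one_pos
  nadd := S.dadd
  eadd := S.xadd
  hP R hR := by
    have h1 := S.radd R hR
    have h2 := S.r_nonneg R.X₁
    have h3 := S.r_nonneg R.X₃
    omega
  hP0 Z hZ := S.radd.zero hZ
  n0 X hX := S.d_nonneg X hX
  e0 X hX h0 := S.x_nonneg X hX h0
  PT X hX := by rw [← S.rT]; exact hX
  nT X hX := by
    have h := S.dT X
    rw [hX, mul_zero, sub_zero] at h
    exact h
  eT X hX := by rw [one_mul]; exact S.xT X hX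

/-- the level of all objects -/
def lvl2 : Lvl C where
  T := S.T
  P _ := True
  n := S.r
  e := S.d
  c := S.c
  hc := S.hc
  nadd := S.radd
  eadd := S.dadd
  hP _ _ := by simp
  hP0 _ _ := trivial
  n0 X _ := S.r_nonneg X
  e0 X _ h0 := S.d_nonneg X h0
  PT _ _ := trivial
  nT X _ := S.rT X
  eT X _ := S.dT X

lemma ctx1 : Ctx k S.lvl1 where
  fin := S.fin
  ext3 := S.ext3
  serre := S.serre
  noeth := S.noeth
  nb A := by
    obtain ⟨M, hM⟩ := S.dbd A
    exact ⟨M, fun X i _ _ => hM X i⟩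
  eb A := by
    obtain ⟨M, hM⟩ := S.xbd A
    exact ⟨M, fun X i _ hX => hM X i hX⟩
  sym p q _ X Y hY _ _ := by
    have h1 := S.n1 X Y
    have h2 : S.r Y = 0 := hY
    have h3 := S.d_nonneg Y h2
    have h4 := S.r_nonneg X
    rw [h2, zero_mul, sub_zero] at h1
    have h5 := mul_nonneg h4 h3
    linarith

lemma ctx2 : Ctx k S.lvl2 where
  fin := S.fin
  ext3 := S.ext3
  serre := S.serre
  noeth := S.noeth
  nb A := by
    refine ⟨S.r A, fun X i _ _ => ?_⟩
    have h1 := S.radd _ (ses_of_mono i)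
    have h2 := S.r_nonneg (cokernel i)
    dsimp at h1
    change S.r X ≤ S.r A
    linarith
  eb A := by
    obtain ⟨M, hM⟩ := S.dbd A
    exact ⟨M, fun X i _ _ => hM X i⟩
  sym p q hq X Y _ hY hX := by
    have h1 := S.n1 X Y
    have h2 : S.d X * q ≤ p * S.r X := hX X (𝟙 X) trivial
    have h3 : S.d Y * q = p * S.r Y := hY
    have h4 := S.r_nonneg X
    have h5 := S.r_nonneg Y
    have h6 : 0 ≤ (S.r X * S.d Y - S.r Y * S.d X) * q := by
      have h7 : (S.r X * S.d Y - S.r Y * S.d X) * q = S.r Y * (p * S.r X - S.d X * q) := by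
        calc (S.r X * S.d Y - S.r Y * S.d X) * q = S.r X * (S.d Y * q) - S.r Y * (S.d X * q) := by
              ring
          _ = S.r X * (p * S.r Y) - S.r Y * (S.d X * q) := by rw [h3]
          _ = _ := by ring
      rw [h7]
      exact mul_nonneg h5 (by linarith)
    have h8 : 0 ≤ S.r X * S.d Y - S.r Y * S.d X := nonneg_of_mul_nonneg_left h6 hq
    linarith

/-- the finite objects -/
def IsFin (X : C) : Prop := S.r X = 0 ∧ S.d X = 0

lemma isFin_iff {R : ShortComplex C} (hR : R.ShortExact) :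
    S.IsFin R.X₂ ↔ S.IsFin R.X₁ ∧ S.IsFin R.X₃ := by
  have h1 := S.radd R hR
  have h2 := S.dadd R hR
  have h3 := S.r_nonneg R.X₁
  have h4 := S.r_nonneg R.X₃
  have h5 := S.d_nonneg R.X₁
  have h6 := S.d_nonneg R.X₃
  unfold IsFin
  constructor
  · rintro ⟨h7, h8⟩
    have h9 : S.r R.X₁ = 0 := by omega
    have h10 : S.r R.X₃ = 0 := by omega
    have := h5 h9
    have := h6 h10
    omega
  · rintro ⟨⟨h7, h8⟩, h9, h10⟩
    omega

/-- there are no nonzero finite subobjects -/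
def NoFin (A : C) : Prop := ∀ (X : C) (i : X ⟶ A) [Mono i], S.IsFin X → IsZero X

lemma good1 {A : C} (h : S.NoFin A) : S.lvl1.Good A := by
  intro X i _ hX hX0
  have h1 : S.r X = 0 := hX
  have h2 : 0 ≤ S.d X := S.d_nonneg X h1
  rcases h2.lt_or_eq with h3 | h3
  · exact h3
  · exact absurd (h X i ⟨h1, h3.symm⟩) hX0

lemma good2 {A : C} (h : ¬ S.lvl1.Has A) : S.lvl2.Good A := by
  intro X i hi _ hX0
  have h1 : 0 ≤ S.r X := S.r_nonneg X
  rcases h1.lt_or_eq with h3 | h3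
  · exact h3
  · exact absurd ⟨X, i, hi, h3.symm, hX0⟩ h

lemma isZero_of_not_has2 {A : C} (h : ¬ S.lvl2.Has A) : IsZero A := by
  by_contra h0
  exact h ⟨A, 𝟙 A, inferInstance, trivial, h0⟩

theorem lemma1_noFin {A B : C} (hA : S.NoFin A) (hB : S.NoFin B) : L1 k A B := by
  refine L1_level S.ctx1 ?_ A B (S.good1 hA) (S.good1 hB)
  intro A B _ _ hA hB
  refine L1_level S.ctx2 ?_ A B (S.good2 hA) (S.good2 hB)
  intro A B _ _ hA _ _
  rw [ed_of_isZero_right S.fin B (S.isZero_of_not_has2 hA)]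
  exact Nat.zero_le _

theorem lemma2_noFin {H : C} (hH : S.NoFin H) : L2 k H := by
  refine L2_level S.ctx1 ?_ H (S.good1 hH)
  intro H _ hH
  refine L2_level S.ctx2 ?_ H (S.good2 hH)
  intro H _ hH _ h0
  exact absurd (S.isZero_of_not_has2 hH) h0

/-- Rigid objects have no finite subobjects. -/
theorem noFin_of_rigid {H : C} (h : ed k H H 1 = 0) : S.NoFin H := by
  classical
  have := S.noeth H
  have hiso : ∀ {X Y : C}, (X ≅ Y) → S.IsFin X → S.IsFin Y := fun {X Y} e hX =>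
    ⟨(S.radd.iso e).symm.trans hX.1, (S.dadd.iso e).symm.trans hX.2⟩
  let 𝓜 : Set (Subobject H) := {Q | S.IsFin (Q : C)}
  have hne : 𝓜.Nonempty := by
    refine ⟨⊥, ?_⟩
    have h0 : IsZero ((⊥ : Subobject H) : C) := (isZero_zero C).of_iso Subobject.botCoeIsoZero
    exact ⟨S.radd.zero h0, S.dadd.zero h0⟩
  obtain ⟨Q, hQ, hQmax⟩ := wellFounded_gt.has_min 𝓜 hne
  have hQf : S.IsFin (Q : C) := hQ
  have hmax : ∀ (X : C) (j : X ⟶ H) [Mono j], S.IsFin X → Q ≤ Subobject.mk j →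
      Subobject.mk j ≤ Q := by
    intro X j _ hX hle
    rcases hle.eq_or_lt with h1 | h1
    · exact h1.ge
    · exact absurd h1 (hQmax _ (hiso (Subobject.underlyingIso j).symm hX))
  -- the quotient has no finite subobjects
  have hquo : S.NoFin (cokernel Q.arrow) := by
    intro J j _ hJ
    obtain ⟨Y, a, b, w, c, hY, hac, hcb, hc⟩ := pull_ses (ses_of_mono Q.arrow) j
    have : Mono c := hc inferInstance
    have hYf : S.IsFin Y := (S.isFin_iff hY).mpr ⟨hQf, hJ⟩
    have h1 : Subobject.mk c ≤ Q := hmax Y c hYf (Subobject.le_mk_of_comm a hac)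
    have : Epi b := hY.epi_g
    have hcb' : c ≫ cokernel.π Q.arrow = b ≫ j := hcb
    have h2 : b ≫ j = 0 := by
      rw [← hcb', ← Subobject.ofMkLE_arrow h1, Category.assoc, cokernel.condition, comp_zero]
    have hj0 : j = 0 := by rw [← cancel_epi b, h2, comp_zero]
    rw [IsZero.iff_id_eq_zero, ← cancel_mono j, hj0, comp_zero, comp_zero]
  -- maps from finite objects to objects without finite subobjects
  have hom0 : ∀ {X Y : C}, S.IsFin X → S.NoFin Y → ∀ f : X ⟶ Y, f = 0 := by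
    intro X Y hX hY f
    have h1 : S.IsFin (Limits.image f) :=
      ((S.isFin_iff (ses_of_epi (Limits.factorThruImage f))).mp hX).2
    have h2 := hY _ (Limits.image.ι f) h1
    rw [← Limits.image.fac f, h2.eq_of_tgt (Limits.factorThruImage f) 0, zero_comp]
  have hT : S.NoFin (S.T.functor.obj (cokernel Q.arrow)) := by
    intro I j _ hI
    have e : S.T.functor.obj (S.T.inverse.obj I) ≅ I := S.T.counitIso.app I
    set l : S.T.inverse.obj I ⟶ cokernel Q.arrow :=
      S.T.inverse.map j ≫ S.T.unitIso.inv.app _ with hl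
    have : Mono (S.T.inverse.map j) := inferInstance
    have : Mono l := by rw [hl]; exact mono_comp _ _
    have hI' := hiso e.symm hI
    have h1 : S.r (S.T.inverse.obj I) = 0 := by rw [← S.rT]; exact hI'.1
    have h2 : S.d (S.T.inverse.obj I) = 0 := by
      have h3 := S.dT (S.T.inverse.obj I)
      rw [h1, mul_zero, sub_zero] at h3
      rw [← h3]
      exact hI'.2
    have h3 : IsZero (S.T.inverse.obj I) := hquo _ l ⟨h1, h2⟩
    have h4 : IsZero (S.T.functor.obj (S.T.inverse.obj I)) := by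
      rw [IsZero.iff_id_eq_zero] at h3 ⊢
      rw [← S.T.functor.map_id, h3, Functor.map_zero]
    exact h4.of_iso e.symm
  have hrig : ed k (Q : C) (Q : C) 1 = 0 := by
    refine mukai S.fin (ses_of_mono Q.arrow) ?_ ?_ h
    · rw [ed_zero_iff S.fin]
      exact fun f => hom0 hQf hquo f
    · dsimp
      rw [S.serre, ed_zero_iff S.fin]
      exact fun f => hom0 hQf hT f
  have hch := S.ch_fin (Q : C) hQf.1 hQf.2
  have hQ0 : IsZero (Q : C) := by
    by_contra h0
    have h1 := one_le_ed_self S.fin h0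
    unfold ch at hch
    omega
  intro X i _ hX
  have hbot : Q = ⊥ := by
    have h1 : Q.arrow = 0 := hQ0.eq_of_src _ _
    exact (Subobject.mk_arrow Q).symm.trans (Subobject.mk_eq_bot_iff_zero.mpr h1)
  have h1 : Subobject.mk i ≤ Q := hmax X i hX (by rw [hbot]; exact bot_le)
  have h2 : i = 0 := by
    rw [← Subobject.ofMkLE_arrow h1, hQ0.eq_of_src Q.arrow 0, comp_zero]
  rw [IsZero.iff_id_eq_zero, ← cancel_mono i, h2, comp_zero, comp_zero]

include S in
/-- **First inequality**: `ext ^ 2 (B, A) ≤ hom (A, B)` for rigid `A`, `B` with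
`Ext ^ 1 (B, A) = 0`. -/
theorem ext_two_le_hom {A B : C} (hA : ed k A A 1 = 0) (hB : ed k B B 1 = 0)
    (h : ed k B A 1 = 0) : ed k B A 2 ≤ ed k A B 0 :=
  S.lemma1_noFin (S.noFin_of_rigid hA) (S.noFin_of_rigid hB) h

include S in
/-- **Second inequality**: `ext ^ 2 (H, H) < hom (H, H)` for rigid `H ≠ 0`. -/
theorem ext_two_lt_hom {H : C} (h : ed k H H 1 = 0) (h0 : ¬ IsZero H) :
    ed k H H 2 + 1 ≤ ed k H H 0 :=
  S.lemma2_noFin (S.noFin_of_rigid h) h h0

end SurfCat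

end Pool.Agent.Work.MP_f714fc_ag.Abs
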