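import Pool.Agent.Work.MP_f714fc_ag.Abs.SurfP1
import Pool.Agent.Work.MP_f714fc_ag.Abs.Ranks

/-!
MP_f714fc_ag, block ABS-S2, part P3: the Euler characteristic and the degree of an object of a
host category, their behaviour under twists, positivity of the degree on torsion objects.
-/

open CategoryTheory CategoryTheory.Abelian CategoryTheory.Limits

universe w v u t

set_option linter.unusedSectionVars false

namespace Fdim

open Pool.Agent.Work.MP_f714fc_ag.Abs (ses_of_mono ses_of_epi IsAdd ses_biprod ses_zero ed ch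
  FinExt ch_add_left ch_add_right ed_eq_zero_iff pull_ses)

variable {k : Type t} [Field k] {C : Type u} [Category.{v} C] [Abelian C] [Linear k C]
  [HasShift C ℤ] [∀ n : ℤ, (shiftFunctor C n).Additive] [∀ n : ℤ, (shiftFunctor C n).Linear k]
  [HasExt.{w} C]

/-- the maximal subobject of finite length -/
lemma exists_maxFin (A : C) [IsNoetherianObject A] : ∃ R : ShortComplex C, R.X₂ = A ∧
    R.ShortExact ∧ IsFin R.X₁ ∧ NoFin R.X₃ := by
  classical
  let 𝓜 : Set (Subobject A) := {Q | IsFin (Q : C)}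
  have hne : 𝓜.Nonempty := by
    refine ⟨⊥, ?_⟩
    exact IsFin.of_isZero ((isZero_zero C).of_iso Subobject.botCoeIsoZero)
  obtain ⟨Q, hQ, hQmax⟩ := wellFounded_gt.has_min 𝓜 hne
  have hQf : IsFin (Q : C) := hQ
  refine ⟨ShortComplex.mk Q.arrow (cokernel.π Q.arrow) (cokernel.condition _), rfl,
    ses_of_mono Q.arrow, hQf, ?_⟩
  intro J j _ hJ
  obtain ⟨Y, a, b, w, c, hY, hac, hcb, hc⟩ := pull_ses (ses_of_mono Q.arrow) j
  have : Mono c := hc inferInstance
  have hYf : IsFin Y := IsFin.ext hY hQf hJ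
  have h1 : Subobject.mk c ≤ Q := by
    rcases (Subobject.le_mk_of_comm a hac : Q ≤ Subobject.mk c).eq_or_lt with h1 | h1
    · exact h1.ge
    · exact absurd h1 (hQmax _ (IsFin.of_iso (Subobject.underlyingIso c).symm hYf))
  have : Epi b := hY.epi_g
  have hcb' : c ≫ cokernel.π Q.arrow = b ≫ j := hcb
  have h2 : b ≫ j = 0 := by
    rw [← hcb', ← Subobject.ofMkLE_arrow h1, Category.assoc, cokernel.condition, comp_zero]
  have hj0 : j = 0 := by rw [← cancel_epi b, h2, comp_zero]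
  rw [IsZero.iff_id_eq_zero, ← cancel_mono j, hj0, comp_zero, comp_zero]

omit [HasExt.{w} C] in
/-- twisting preserves additivity -/
lemma isAdd_shift {Φ : C → ℤ} (h : IsAdd Φ) (n : ℤ) : IsAdd (fun A => Φ (A⟦n⟧)) :=
  fun _ hS => h _ (ses_shift n hS)

omit [HasShift C ℤ] [∀ n : ℤ, (shiftFunctor C n).Additive]
  [∀ n : ℤ, (shiftFunctor C n).Linear k] [HasExt.{w} C] [Linear k C] in
/-- an additive function, kernel and cokernel of a map -/
lemma add_ker_coker {Φ : C → ℤ} (h : IsAdd Φ) {A B : C} (f : A ⟶ B) :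
    Φ A + Φ (cokernel f) = Φ B + Φ (kernel f) := by
  have e1 := h.epi (Limits.factorThruImage f)
  have e2 : Φ B = Φ (Limits.image f) + Φ (cokernel (Limits.image.ι f)) := h _ (ses_of_mono (Limits.image.ι f))
  have e3 := h.iso (kernelCompMono (Limits.factorThruImage f) (Limits.image.ι f))
  have e4 := h.iso (cokernelEpiComp (Limits.factorThruImage f) (Limits.image.ι f))
  have e5 : Φ (kernel (Limits.factorThruImage f ≫ Limits.image.ι f)) = Φ (kernel f) := by
    congr 1
    simp only [Limits.image.fac]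
  have e6 : Φ (cokernel (Limits.factorThruImage f ≫ Limits.image.ι f)) = Φ (cokernel f) := by
    congr 1
    simp only [Limits.image.fac]
  omega

namespace HostData

variable (H : HostData.{w} k C)

include H in
lemma finExt : FinExt k C := H.fin

include H in
lemma ed_three (A B : C) : ed k A B 3 = 0 :=
  (ed_eq_zero_iff H.fin A B 3).mpr (H.van A B 3 le_rfl)

include H in
/-- additivity of the Euler characteristic in the second variable -/
lemma chi_add_right (X : C) : IsAdd (fun B => chi k X B) := fun _ hS =>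
  ch_add_right H.fin H.ed_three hS X

include H in
/-- additivity of the Euler characteristic in the first variable -/
lemma chi_add_left (Y : C) : IsAdd (fun A => chi k A Y) := fun _ hS =>
  ch_add_left H.fin H.ed_three hS Y

include H in
lemma chi_congr {A A' B B' : C} (e : A ≅ A') (e' : B ≅ B') : chi k A B = chi k A' B' :=
  ((H.chi_add_right A).iso e').trans ((H.chi_add_left B').iso e)

include H in
/-- Serre duality for the Euler characteristic -/
lemma chi_serre (A B : C) : chi k A B = chi k B (A⟦(-1 : ℤ)⟧) := by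
  unfold chi
  rw [H.serre A B 0 2 rfl, H.serre A B 1 1 rfl, H.serre A B 2 0 rfl]
  ring

include H in
lemma chi_shift_neg (A B : C) : chi k (A⟦(-1 : ℤ)⟧) (B⟦(-1 : ℤ)⟧) = chi k A B := by
  rw [H.chi_serre A B, H.chi_serre B (A⟦(-1 : ℤ)⟧)]

include H in
/-- the Euler characteristic is invariant under twists -/
lemma chi_shift (A B : C) (n : ℤ) : chi k (A⟦n⟧) (B⟦n⟧) = chi k A B := by
  induction n with
  | zero => exact H.chi_congr ((shiftFunctorZero C ℤ).app A) ((shiftFunctorZero C ℤ).app B)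
  | succ n ih =>
    rw [← H.chi_shift_neg (A⟦((n : ℤ) + 1)⟧), ← ih]
    exact (H.chi_congr ((shiftFunctorAdd' C ((n : ℤ) + 1) (-1) n (by lia)).app A)
      ((shiftFunctorAdd' C ((n : ℤ) + 1) (-1) n (by lia)).app B)).symm
  | pred n ih =>
    rw [← ih, ← H.chi_shift_neg (A⟦(-(n : ℤ))⟧)]
    exact (H.chi_congr ((shiftFunctorAdd' C (-(n : ℤ)) (-1) (-(n : ℤ) - 1) (by lia)).app A)
      ((shiftFunctorAdd' C (-(n : ℤ)) (-1) (-(n : ℤ) - 1) (by lia)).app B))

/-- the degree -/
noncomputable def deg (A : C) : ℤ := chi k H.O A - chi k A H.O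

lemma isAdd_deg : IsAdd H.deg := by
  intro S hS
  have h1 := H.chi_add_right H.O S hS
  have h2 := H.chi_add_left H.O S hS
  dsimp only at h1 h2
  unfold deg
  rw [h1, h2]
  ring

lemma deg_O : H.deg H.O = 0 := sub_self _

lemma deg_iso {A B : C} (e : A ≅ B) : H.deg A = H.deg B := H.isAdd_deg.iso e

/-- the degree is the difference of two consecutive values of the Hilbert function -/
lemma deg_eq (A : C) : H.deg A = chi k H.O A - chi k H.O (A⟦(-1 : ℤ)⟧) := by
  rw [deg, H.chi_serre A H.O]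

section

variable (hchi : ∀ A Z : C, Simple Z → chi k A Z = H.r A)

include hchi

lemma chi_fin_shift (Z : C) (hZ : IsFin Z) (n : ℤ) : chi k H.O (Z⟦n⟧) = chi k H.O Z := by
  refine IsFin.induct (P := fun Z => chi k H.O (Z⟦n⟧) = chi k H.O Z) ?_ ?_ Z hZ
  · intro Z hZ
    rw [(H.chi_add_right H.O).zero hZ,
      (H.chi_add_right H.O).zero ((isZero_shift_iff n).2 hZ)]
  · intro S hS h1 _ h3
    have h4 := isAdd_shift (H.chi_add_right H.O) n S hS
    have h5 := H.chi_add_right H.O S hS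
    have h6 : Simple (S.X₁⟦n⟧) := simple_obj (shiftFunctor C n) S.X₁
    dsimp only at h4 h5
    rw [h4, h5, h3, hchi _ _ h6, hchi _ _ h1]

lemma deg_fin (Z : C) (hZ : IsFin Z) : H.deg Z = 0 := by
  rw [deg_eq, H.chi_fin_shift hchi Z hZ (-1), sub_self]

lemma chi_O_fin (Z : C) (hZ : IsFin Z) : 0 ≤ chi k H.O Z ∧ (chi k H.O Z = 0 → IsZero Z) := by
  refine IsFin.induct (P := fun Z => 0 ≤ chi k H.O Z ∧ (chi k H.O Z = 0 → IsZero Z)) ?_ ?_ Z hZ
  · intro Z hZ
    exact ⟨((H.chi_add_right H.O).zero hZ).ge, fun _ => hZ⟩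
  · intro S hS h1 _ h3
    have h5 := H.chi_add_right H.O S hS
    dsimp only at h5
    rw [hchi _ _ h1, H.r_O] at h5
    have h6 := h3.1
    push_cast at h5
    refine ⟨by omega, fun h => ?_⟩
    omega

lemma chi_O_fin_pos (Z : C) (hZ : IsFin Z) (h0 : ¬ IsZero Z) : 0 < chi k H.O Z := by
  obtain ⟨h1, h2⟩ := H.chi_O_fin hchi Z hZ
  exact lt_of_le_of_ne h1 fun h => h0 (h2 h.symm)

/-- a map with finite kernel and cokernel -/
lemma deg_act {T : C} (n : ℤ) (s : ShiftedHom H.O H.O n) (h1 : IsFin (kernel (H.act n T s)))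
    (h2 : IsFin (cokernel (H.act n T s))) : H.deg (T⟦n⟧) = H.deg T := by
  have h3 := add_ker_coker H.isAdd_deg (H.act n T s)
  rw [H.deg_fin hchi _ h1, H.deg_fin hchi _ h2] at h3
  have h4 : H.deg T + 0 = H.deg (T⟦n⟧) + 0 := h3
  omega

theorem deg_shift_tors (T : C) (hT : H.r T = 0) (m : ℤ) : H.deg (T⟦m⟧) = H.deg T := by
  obtain ⟨n₀, h₀⟩ := H.dim_le T hT
  obtain ⟨n₁, h₁⟩ := H.dim_le (T⟦m⟧) (by rw [H.r_shift, hT])
  obtain ⟨s, hs1, hs2, -⟩ := h₀ (max n₀ (n₁ + m)) (le_max_left _ _)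
  have h2 := le_max_right n₀ (n₁ + m)
  obtain ⟨s', hs1', hs2', -⟩ := h₁ (max n₀ (n₁ + m) - m) (by omega)
  have e1 := H.deg_act hchi _ s hs1 hs2
  have e2 := H.deg_act hchi _ s' hs1' hs2'
  rw [← e1, ← e2]
  exact (H.deg_iso ((shiftFunctorAdd' C m (max n₀ (n₁ + m) - m) (max n₀ (n₁ + m))
    (by lia)).app T)).symm

/-- twisting by the canonical bundle changes the degree by a multiple of the rank -/
theorem deg_shift_neg (A : C) :
    H.deg (A⟦(-1 : ℤ)⟧) = H.deg A + H.r A * H.deg (H.O⟦(-1 : ℤ)⟧) := by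
  have h1 : IsAdd (fun A => H.deg (A⟦(-1 : ℤ)⟧) - H.deg A) := by
    intro S hS
    have e1 := isAdd_shift H.isAdd_deg (-1) S hS
    have e2 := H.isAdd_deg S hS
    dsimp only at e1 ⊢
    rw [e1, e2]
    ring
  have h2 := H.add_dev h1 (fun T hT => by
    rw [H.deg_shift_tors hchi T hT, sub_self]) A
  rw [H.deg_O, sub_zero] at h2
  linarith

/-- the Hilbert function of a torsion object is linear -/
theorem chi_O_shift (T : C) (hT : H.r T = 0) (n : ℤ) :
    chi k H.O (T⟦n⟧) = chi k H.O T + n * H.deg T := by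
  have key : ∀ m : ℤ, chi k H.O (T⟦m⟧) = chi k H.O (T⟦(m - 1)⟧) + H.deg T := by
    intro m
    have h1 := H.deg_eq (T⟦m⟧)
    rw [H.deg_shift_tors hchi T hT m] at h1
    have h2 := (H.chi_add_right H.O).iso
      ((shiftFunctorAdd' C m (-1) (m - 1) (by lia)).app T)
    dsimp only [Functor.comp_obj] at h2
    rw [h2]
    omega
  induction n with
  | zero =>
    rw [zero_mul, add_zero]
    exact (H.chi_add_right H.O).iso ((shiftFunctorZero C ℤ).app T)
  | succ n ih =>
    rw [key, add_sub_cancel_right, ih]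
    ring
  | pred n ih =>
    have h1 := key (-(n : ℤ))
    rw [ih] at h1
    linarith

lemma deg_noFin (T : C) (hT : H.r T = 0) (h : NoFin T) :
    0 ≤ H.deg T ∧ (¬ IsFin T → 0 < H.deg T) := by
  obtain ⟨n₀, h₀⟩ := H.dim_le T hT
  obtain ⟨s, hs1, hs2, hs3⟩ := h₀ (max n₀ 1) (le_max_left _ _)
  have hn : 0 < max n₀ 1 := lt_of_lt_of_le one_pos (le_max_right _ _)
  generalize max n₀ 1 = n at s hs1 hs2 hs3 hn
  have h1 : IsZero (kernel (H.act n T s)) := h _ (kernel.ι _) inferInstance hs1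
  have h2 := add_ker_coker (H.chi_add_right H.O) (H.act n T s)
  have h3 : chi k H.O T + chi k H.O (cokernel (H.act n T s)) = chi k H.O (T⟦n⟧) +
    chi k H.O (kernel (H.act n T s)) := h2
  have h4 : chi k H.O (kernel (H.act n T s)) = 0 := (H.chi_add_right H.O).zero h1
  rw [H.chi_O_shift hchi T hT n, h4] at h3
  have h5 : chi k H.O (cokernel (H.act n T s)) = n * H.deg T := by linarith
  obtain ⟨h6, h7⟩ := H.chi_O_fin hchi _ hs2
  rw [h5] at h6 h7
  refine ⟨nonneg_of_mul_nonneg_right h6 hn, fun h8 => ?_⟩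
  refine lt_of_le_of_ne (nonneg_of_mul_nonneg_right h6 hn) fun h9 => hs3 h8 (h7 ?_)
  rw [← h9, mul_zero]

/-- (N2) -/
lemma deg_tors (T : C) (hT : H.r T = 0) : 0 ≤ H.deg T ∧ (¬ IsFin T → 0 < H.deg T) := by
  have := H.noeth T
  obtain ⟨R, rfl, hR, h1, h3⟩ := exists_maxFin T
  have e1 := H.isAdd_deg R hR
  have e2 := H.r_add R hR
  rw [H.deg_fin hchi _ h1, zero_add] at e1
  obtain ⟨e3, e4⟩ := H.deg_noFin hchi R.X₃ (by omega) h3
  rw [e1]
  exact ⟨e3, fun h => e4 fun h5 => h (IsFin.ext hR h1 h5)⟩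

/-- (N2), first part -/
theorem deg_nonneg (T : C) (hT : H.r T = 0) : 0 ≤ H.deg T := (H.deg_tors hchi T hT).1

/-- (N2), second part -/
theorem deg_eq_zero_iff (T : C) (hT : H.r T = 0) : H.deg T = 0 ↔ IsFin T := by
  refine ⟨fun h => ?_, H.deg_fin hchi T⟩
  by_contra h1
  exact absurd h ((H.deg_tors hchi T hT).2 h1).ne'

end

end HostData

end Fdim
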