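import Pool.Agent.Work.MP_f714fc_ag.Abs.S1Base
import Pool.Agent.Work.MP_f714fc_ag.Abs.SurfP4

/-!
MP_f714fc_ag, block ABS-S2, parts P5 and P7: the canonical bundle has negative degree, degrees of
subobjects are bounded above.
-/

open CategoryTheory CategoryTheory.Limits

universe w v u t

set_option linter.unusedSectionVars false

namespace Fdim

open Pool.Agent.Work.MP_f714fc_ag.Abs (ses_of_mono ses_of_epi IsAdd ses_biprod ses_zero pull_ses)

section

variable {C : Type u} [Category.{v} C] [Abelian C]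

/-- the maximal subobject of finite length -/
theorem exists_max_fin (Y : C) [IsNoetherianObject Y] :
    ∃ (F : C) (i : F ⟶ Y), Mono i ∧ IsFin F ∧ NoFin (cokernel i) := by
  classical
  let 𝓜 : Set (Subobject Y) := {U | IsFin (U : C)}
  have hne : 𝓜.Nonempty := ⟨⊥, IsFin.of_isZero (IsZero.of_mono_eq_zero _ Subobject.bot_arrow)⟩
  obtain ⟨U, hU, hmax⟩ := wellFounded_gt.has_min 𝓜 hne
  refine ⟨(U : C), U.arrow, inferInstance, hU, ?_⟩
  intro J j hj hJ
  obtain ⟨P, a, b, w, c, hP, hac, hcb, hc⟩ := pull_ses (ses_of_mono U.arrow) j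
  have hcm : Mono c := hc hj
  have hPf : IsFin P := IsFin.ext hP hU hJ
  set V : Subobject Y := Subobject.mk c with hV
  have e : P ≅ (V : C) := (Subobject.underlyingIso c).symm
  have hVM : V ∈ 𝓜 := hPf.of_iso e
  have hUV : U ≤ V := Subobject.le_mk_of_comm a hac
  have hVU : V ≤ U := by
    rcases hUV.eq_or_lt with h | h
    · exact h.ge
    · exact absurd h (hmax V hVM)
  have hb0 : b ≫ j = 0 := by
    have h6 : c ≫ cokernel.π U.arrow = b ≫ j := hcb
    have h7 : Subobject.ofMkLE c U hVU ≫ U.arrow = c := Subobject.ofMkLE_arrow _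
    rw [← h6, ← h7, Category.assoc, cokernel.condition, comp_zero]
  have : Epi b := hP.epi_g
  have hj0 : j = 0 := by
    rw [← cancel_epi b, hb0, comp_zero]
  exact IsZero.of_mono_eq_zero _ hj0

/-- a jointly epimorphic family with images of finite length -/
theorem fin_of_jepi {ι : Type*} {X : ι → C} {Y : C} [IsNoetherianObject Y] (f : ∀ i, X i ⟶ Y)
    (hf : JEpi f) (h : ∀ i, IsFin (image (f i))) : IsFin Y := by
  obtain ⟨F, i, hi, hF, hN⟩ := exists_max_fin Y
  have h1 : cokernel.π i = 0 := by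
    apply hf
    intro a
    set g : image (f a) ⟶ cokernel i := image.ι (f a) ≫ cokernel.π i with hg
    have h2 : IsFin (image g) := (h a).of_epi (factorThruImage g)
    have h3 : IsZero (image g) := hN _ (image.ι g) inferInstance h2
    have h4 : g = 0 := by rw [← image.fac g, h3.eq_of_tgt (factorThruImage g) 0, zero_comp]
    rw [← image.fac (f a), Category.assoc, ← hg, h4, comp_zero]
  have h2 : Epi i := Preadditive.epi_of_cokernel_zero h1
  exact hF.of_epi i

end

section

variable {C : Type u} [Category.{v} C] [Abelian C] [HasShift C ℤ]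
  [∀ n : ℤ, (shiftFunctor C n).Additive]

omit [∀ n : ℤ, (shiftFunctor C n).Additive] in
lemma untw_comp {A B D : C} {n : ℤ} (f : A ⟶ B⟦n⟧) (g : B ⟶ D) :
    untw f ≫ g = untw (f ≫ g⟦n⟧') := by
  rw [untw, untw, Functor.map_comp, Category.assoc, Category.assoc]
  congr 1
  exact ((shiftFunctorCompIsoId C n (-n) (add_neg_cancel n)).hom.naturality g).symm

lemma jepi_untw {ι : Type*} {X : C} {A : C} {n : ℤ} {f : ι → (X ⟶ A⟦n⟧)} (hf : JEpi f) :
    JEpi (fun i => untw (f i)) := by
  intro B g hg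
  apply (shiftFunctor C n).map_injective
  rw [Functor.map_zero]
  apply hf
  intro i
  have h1 := hg i
  rw [untw_comp] at h1
  exact untw_inj (h1.trans untw_zero.symm)

/-- degrees of quotients of sums of copies of `X` -/
lemma deg_quot {d : C → ℤ} (hd : IsAdd d) {X : C} {b : ℤ} (hb0 : b ≤ 0)
    (hb : ∀ (Q : C) (p : X ⟶ Q) [Epi p], b ≤ d Q) :
    ∀ (j : ℕ) (Y : C) (f : Fin j → (X ⟶ Y)), JEpi f → j * b ≤ d Y := by
  intro j
  induction j with
  | zero =>
    intro Y f hf
    have h1 : 𝟙 Y = 0 := hf Y (𝟙 Y) (fun i => i.elim0)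
    rw [hd.zero ((IsZero.iff_id_eq_zero Y).2 h1)]
    simp
  | succ j ih =>
    intro Y f hf
    set g := f 0 with hg
    have h5 : (factorThruImage g ≫ image.ι g) ≫ cokernel.π (image.ι g) = 0 := by
      rw [Category.assoc, cokernel.condition, comp_zero]
    rw [image.fac] at h5
    set Y' := cokernel (image.ι g) with hY'
    have h1 : d Y = d (image g) + d Y' := hd _ (ses_of_mono (image.ι g))
    have h2 : b ≤ d (image g) := hb _ (factorThruImage g)
    have h3 : (j : ℤ) * b ≤ d Y' := by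
      refine ih Y' (fun i => f i.succ ≫ cokernel.π (image.ι g)) ?_
      intro B u hu
      have h4 : cokernel.π (image.ι g) ≫ u = 0 := by
        apply hf
        intro i
        refine Fin.cases ?_ (fun i => ?_) i
        · rw [← hg, ← Category.assoc, h5, zero_comp]
        · have := hu i
          rwa [Category.assoc] at this
      exact (cancel_epi (cokernel.π (image.ι g))).1 (by rw [h4, comp_zero])
    push_cast
    linarith

end

section

variable {k : Type t} [Field k] {C : Type u} [Category.{v} C] [Abelian C] [Linear k C]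
  [HasShift C ℤ] [∀ n : ℤ, (shiftFunctor C n).Additive] [∀ n : ℤ, (shiftFunctor C n).Linear k]

namespace IntAmpleData

variable (H : IntAmpleData k C)

/-- P7: degrees of subobjects are bounded above -/
theorem bdd {d : C → ℤ} (hd : IsAdd d) (h0 : ∀ T, H.r T = 0 → 0 ≤ d T) (A : C) :
    ∃ c : ℤ, ∀ (A' : C) (i : A' ⟶ A), Mono i → d A' ≤ c := by
  obtain ⟨n₀, hn⟩ := H.gg' A
  obtain ⟨j, f, hf⟩ := hn n₀ le_rfl
  set X : C := H.O⟦-n₀⟧ with hX
  have hu : JEpi (fun i => untw (f i)) := jepi_untw hf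
  refine ⟨d A - j * min 0 (d X), fun A' i hi => ?_⟩
  have h1 : d A = d A' + d (cokernel i) := hd _ (ses_of_mono i)
  have h2 : (j : ℤ) * min 0 (d X) ≤ d (cokernel i) := by
    refine deg_quot hd (min_le_left _ _) ?_ j (cokernel i)
      (fun a => untw (f a) ≫ cokernel.π i) (hu.comp (cokernel.π i))
    intro Q p hp
    by_cases hQ : H.r Q = 0
    · exact (min_le_left _ _).trans (h0 Q hQ)
    · have h3 := H.r_kernel p
      rw [H.r_shift, H.r_O] at h3
      have h4 : H.r (kernel p) = 0 := by omega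
      have h5 : IsZero (kernel p) := H.tors_shift _ (kernel.ι p) h4
      have h6 : d X = d (kernel p) + d Q := hd _ (ses_of_epi p)
      rw [hd.zero h5, zero_add] at h6
      rw [h6]
      exact min_le_right _ _
  linarith

/-- a torsion object which is not of finite length gives a divisor of `O` which is not of finite
length -/
theorem exists_divisor {T : C} (hT : H.r T = 0) (hT1 : ¬ IsFin T) :
    ∃ (n : ℕ) (s : H.O⟦-(n + 1 : ℤ)⟧ ⟶ H.O), Mono s ∧ H.r (cokernel s) = 0 ∧
      ¬ IsFin (cokernel s) := by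
  obtain ⟨n₀, hn⟩ := H.gg' T
  obtain ⟨j, f, hf⟩ := hn n₀ le_rfl
  have hN := H.noeth (T⟦n₀⟧)
  obtain ⟨a, ha⟩ : ∃ a, ¬ IsFin (image (f a)) := by
    by_contra h
    push Not at h
    exact hT1 ((isFin_shift_iff n₀).1 (fin_of_jepi f hf h))
  set g := f a with hg
  have hr : H.r (image g) = 0 := by
    have := H.r_mono (image.ι g)
    rw [H.r_shift, hT] at this
    omega
  set p := factorThruImage g with hp
  have hJ : H.r (kernel p) = 1 := by
    have := H.r_kernel p
    rw [H.r_O, hr] at this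
    omega
  have hJ0 : ¬ IsZero (kernel p) := fun h => by
    rw [H.r_zero h] at hJ
    omega
  obtain ⟨m₀, hm⟩ := H.exists_sec _ hJ0
  set n : ℕ := m₀.toNat with hn'
  obtain ⟨s, hs⟩ := hm (n + 1 : ℤ) (by omega)
  have hs1 : untw s ≫ kernel.ι p ≠ 0 := fun h =>
    untw_ne_zero hs ((cancel_mono (kernel.ι p)).1 (by rw [h, zero_comp]))
  set σ : H.O⟦-(n + 1 : ℤ)⟧ ⟶ H.O := untw s ≫ kernel.ι p with hσ
  have hmono : Mono σ := by
    apply H.mono_of_rank
    intro h
    have h1 : IsZero (image σ) := H.tors_free _ (image.ι σ) inferInstance h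
    apply hs1
    rw [← image.fac σ, h1.eq_of_tgt (factorThruImage σ) 0, zero_comp]
  refine ⟨n, σ, hmono, ?_, ?_⟩
  · have := H.r_coker σ
    rw [H.r_shift, H.r_O] at this
    omega
  · intro h
    have h1 : σ ≫ p = 0 := by rw [hσ, Category.assoc, kernel.condition, comp_zero]
    have h2 : Epi (cokernel.desc σ p h1) := by
      have : Epi (cokernel.π σ ≫ cokernel.desc σ p h1) := by
        rw [cokernel.π_desc]
        infer_instance
      exact epi_of_epi (cokernel.π σ) _
    exact ha (h.of_epi (cokernel.desc σ p h1))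

end IntAmpleData

namespace HostData

variable [HasExt.{w} C] (H : HostData.{w} k C)

/-- P5: the canonical bundle has negative degree -/
theorem dKO {d : C → ℤ} (hd : IsAdd d) (h0 : ∀ T, H.r T = 0 → 0 ≤ d T)
    (h1 : ∀ T, H.r T = 0 → d T = 0 → IsFin T) (hO : d H.O = 0)
    (hK : ∀ A, d (A⟦(-1 : ℤ)⟧) = d A + H.r A * d (H.O⟦(-1 : ℤ)⟧)) :
    d (H.O⟦(-1 : ℤ)⟧) < 0 := by
  obtain ⟨T, hT, hT1⟩ := H.dim_ge
  obtain ⟨n, s, hs, hr, hf⟩ := H.exists_divisor hT hT1
  have h2 : ∀ m : ℕ, d (H.O⟦-(m : ℤ)⟧) = m * d (H.O⟦(-1 : ℤ)⟧) := by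
    intro m
    induction m with
    | zero =>
      have e : H.O⟦-((0 : ℕ) : ℤ)⟧ ≅ H.O :=
        (shiftFunctorZero' C (-((0 : ℕ) : ℤ)) (by simp)).app H.O
      rw [hd.iso e, hO]
      simp
    | succ m ih =>
      have e : H.O⟦-((m + 1 : ℕ) : ℤ)⟧ ≅ (H.O⟦-(m : ℤ)⟧)⟦(-1 : ℤ)⟧ :=
        (shiftFunctorAdd' C (-(m : ℤ)) (-1) (-((m + 1 : ℕ) : ℤ)) (by push_cast; ring)).app H.O
      rw [hd.iso e, hK, ih, H.r_shift, H.r_O]
      push_cast
      ring
  have h3 : d H.O = d (H.O⟦-(n + 1 : ℤ)⟧) + d (cokernel s) := hd _ (ses_of_mono s)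
  have h4 := h2 (n + 1)
  push_cast at h4
  rw [h4, hO] at h3
  have h5 : 0 < d (cokernel s) := lt_of_le_of_ne (h0 _ hr) (fun h => hf (h1 _ hr h.symm))
  by_contra h6
  push Not at h6
  have h7 : 0 ≤ ((n : ℤ) + 1) * d (H.O⟦(-1 : ℤ)⟧) := mul_nonneg (by omega) h6
  linarith

end HostData

end

end Fdim
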