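import Pool.Agent.Work.MP_f714fc_ag.Abs.SurfP2
import Pool.Agent.Work.MP_f714fc_ag.Abs.SurfP3
import Pool.Agent.Work.MP_f714fc_ag.Abs.SurfP5

/-!
MP_f714fc_ag, block ABS-S2: the numerical package of HostData, given the Euler characteristics
with simple objects.
-/

set_option autoImplicit false
set_option linter.unusedSectionVars false

open CategoryTheory CategoryTheory.Abelian CategoryTheory.Limits Pool.Agent.Work.MP_f714fc_ag.Abs

universe w v u t

namespace Fdim

variable {k : Type t} [Field k] {C : Type u} [Category.{v} C] [Abelian C] [Linear k C]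
  [HasShift C ℤ] [∀ n : ℤ, (shiftFunctor C n).Additive] [∀ n : ℤ, (shiftFunctor C n).Linear k]
  [HasExt.{w} C]

namespace HostData

variable (H : HostData.{w} k C)

include H

/-- objects of finite length have sections -/
lemma fin_pos (hchi : ∀ A Z : C, Simple Z → chi k A Z = H.r A) (Z : C) (hZ : IsFin Z) :
    0 ≤ chi k H.O Z ∧ (¬ IsZero Z → 0 < chi k H.O Z) := by
  refine IsFin.induct (P := fun Z => 0 ≤ chi k H.O Z ∧ (¬ IsZero Z → 0 < chi k H.O Z))
    (fun Z hZ => ?_) ?_ Z hZ
  · have := (H.addR H.O).zero hZ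
    exact ⟨this.ge, fun h => absurd hZ h⟩
  · intro S hS h1 _ h3
    have e := H.addR H.O S hS
    dsimp only at e
    rw [hchi H.O S.X₁ h1, H.r_O] at e
    push_cast at e
    exact ⟨by omega, fun _ => by omega⟩

/-- the Euler form on objects of finite length -/
lemma fin_chi_eq (hchi : ∀ A Z : C, Simple Z → chi k A Z = H.r A) (A Z : C) (hZ : IsFin Z) :
    chi k A Z = H.r A * chi k H.O Z := by
  have hadd : IsAdd (fun B => chi k A B - H.r A * chi k H.O B) := by
    intro S hS
    have e1 := H.addR A S hS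
    have e2 := H.addR H.O S hS
    dsimp only at e1 e2 ⊢
    rw [e1, e2]
    ring
  have := H.fin_of_simple hadd (fun Z hZ => by
      rw [hchi A Z hZ, hchi H.O Z hZ, H.r_O]
      push_cast
      ring) Z hZ
  linarith

/-- ABS-S2, given the Euler characteristics with simple objects and the degree in rank zero -/
theorem surfNum_aux (hchi : ∀ A Z : C, Simple Z → chi k A Z = H.r A)
    (hd0 : ∀ T : C, H.r T = 0 → 0 ≤ chi k H.O T - chi k T H.O)
    (hd1 : ∀ T : C, H.r T = 0 → (chi k H.O T - chi k T H.O = 0 ↔ IsFin T))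
    (hdK : ∀ A : C, chi k H.O (A⟦(-1 : ℤ)⟧) - chi k (A⟦(-1 : ℤ)⟧) H.O =
      chi k H.O A - chi k A H.O +
        H.r A * (chi k H.O (H.O⟦(-1 : ℤ)⟧) - chi k (H.O⟦(-1 : ℤ)⟧) H.O)) :
    ∃ N : SurfNum.{w} k C, N.K = shiftFunctor C (-1 : ℤ) := by
  have hadd : IsAdd (fun A => chi k H.O A - chi k A H.O) := by
    intro S hS
    have e1 := H.addR H.O S hS
    have e2 := H.addL H.O S hS
    dsimp only at e1 e2 ⊢
    rw [e1, e2]
    ring
  exact ⟨{
    K := shiftFunctor C (-1 : ℤ)
    hK := inferInstance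
    hKadd := inferInstance
    noeth := H.noeth
    fin := H.fin
    van := H.van
    serre := H.serre
    O := H.O
    r := H.r
    r_add := H.r_add
    r_O := H.r_O
    r_K := fun A => H.r_shift A (-1)
    d := fun A => chi k H.O A - chi k A H.O
    d_def := fun _ => rfl
    n1 := H.n1 hchi
    n2 := hd0
    n2' := hd1
    fin_r := H.r_fin
    fin_pos := fun Z hZ hZ0 => (H.fin_pos hchi Z hZ).2 hZ0
    fin_chi := fun Z hZ => by rw [H.fin_chi_eq hchi Z Z hZ, H.r_fin Z hZ]; simp
    dKO := H.dKO hadd hd0 (fun T hT h => (hd1 T hT).1 h) (sub_self _) hdK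
    torsKO := H.torsKO
    bdd := H.bdd hadd hd0 }, rfl⟩

/-- Block ABS-S2: everything the key lemma needs, given the Euler characteristics with simple
objects -/
theorem surfNum_of (hchi : ∀ A Z : C, Simple Z → chi k A Z = H.r A) :
    ∃ N : SurfNum.{w} k C, N.K = shiftFunctor C (-1 : ℤ) :=
  H.surfNum_aux hchi (fun T hT => H.deg_nonneg hchi T hT)
    (fun T hT => H.deg_eq_zero_iff hchi T hT) (fun A => H.deg_shift_neg hchi A)

end HostData

end Fdim
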