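import Pool.Agent.Work.MP_f714fc_ag.Abs.S1Base
import Pool.Agent.Work.MP_f714fc_ag.Abs.Slope
import Pool.Agent.Work.MP_f714fc_ag.Abs.SurfP4

/-!
MP_f714fc_ag, block ABS-S2, step P1: additive functions which vanish on objects of rank zero are
multiples of the rank.
-/

set_option autoImplicit false
set_option linter.unusedSectionVars false

open CategoryTheory CategoryTheory.Abelian CategoryTheory.Limits Pool.Agent.Work.MP_f714fc_ag.Abs

universe w v u t

namespace Fdim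

variable {k : Type t} [Field k] {C : Type u} [Category.{v} C] [Abelian C] [Linear k C]
  [HasShift C ℤ] [∀ n : ℤ, (shiftFunctor C n).Additive] [∀ n : ℤ, (shiftFunctor C n).Linear k]

omit [Linear k C] [∀ n : ℤ, (shiftFunctor C n).Linear k] in
lemma IsAdd.shift {f : C → ℤ} (hf : IsAdd f) (n : ℤ) : IsAdd (fun A => f (A⟦n⟧)) :=
  fun _ hS => hf _ (hS.map_of_exact (shiftFunctor C n))

/-- `A(m)(n) = A(p)` -/
noncomputable def shiftIso (A : C) (m n p : ℤ) (h : m + n = p) : (A⟦m⟧)⟦n⟧ ≅ A⟦p⟧ :=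
  ((shiftFunctorAdd' C m n p h).app A).symm

/-- `A(m)(-m) = A` -/
noncomputable def shiftNeg (A : C) (m : ℤ) : (A⟦m⟧)⟦-m⟧ ≅ A :=
  (shiftFunctorCompIsoId C m (-m) (by omega)).app A

/-- `A(-m)(m) = A` -/
noncomputable def negShift (A : C) (m : ℤ) : (A⟦-m⟧)⟦m⟧ ≅ A :=
  (shiftFunctorCompIsoId C (-m) m (by omega)).app A

omit [Linear k C] [HasShift C ℤ] [∀ n : ℤ, (shiftFunctor C n).Additive]
  [∀ n : ℤ, (shiftFunctor C n).Linear k] in
/-- Maximal subobjects in a class closed under extensions. -/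
lemma exists_max_sub {Q : C → Prop} (h0 : ∀ Z, IsZero Z → Q Z)
    (hext : ∀ S : ShortComplex C, S.ShortExact → Q S.X₁ → Q S.X₃ → Q S.X₂)
    (A : C) (hA : IsNoetherianObject A) : ∃ (Y : C) (i : Y ⟶ A) (_ : Mono i), Q Y ∧
      ∀ (Z : C) (j : Z ⟶ cokernel i), Mono j → Q Z → IsZero Z := by
  have hne : ({Y : Subobject A | Q (Y : C)}).Nonempty := by
    refine ⟨⊥, h0 _ ?_⟩
    exact (isZero_zero C).of_iso Subobject.botCoeIsoZero
  obtain ⟨Y, hY, hmax⟩ := WellFounded.has_min (wellFounded_gt (α := Subobject A)) _ hne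
  refine ⟨Y, Y.arrow, inferInstance, hY, fun Z j hj hZ => ?_⟩
  obtain ⟨P, a, b, w, c, hS, h1, h2, h3⟩ := pull_ses (ses_of_mono Y.arrow) j
  have hP : Q P := hext _ hS hY hZ
  have hc := h3 hj
  have hbe : Epi b := hS.epi_g
  dsimp only at h1 h2 a
  by_contra hz
  refine hmax (Subobject.mk c) ?_ (lt_of_le_of_ne ?_ ?_)
  · exact hext _ (ses_of_epi (Subobject.underlyingIso c).hom)
      (h0 _ (isZero_kernel_of_mono _)) hP
  · exact Subobject.le_mk_of_comm a h1
  · intro he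
    have h4 : Y.Factors c := by
      rw [he]
      exact Subobject.mk_factors_self c
    have h5 : b ≫ j = 0 := by
      rw [← h2, ← Subobject.factorThru_arrow _ _ h4, Category.assoc, cokernel.condition,
        comp_zero]
    have h6 : j = 0 := by rw [← cancel_epi b, h5, comp_zero]
    exact hz (IsZero.of_mono_eq_zero j h6)

namespace IntAmpleData

variable (H : IntAmpleData k C)

/-- nonzero sections exist -/
lemma exists_secO : ∃ n₀ : ℤ, ∀ n ≥ n₀, ∃ s : ShiftedHom H.O H.O n, s ≠ 0 := by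
  obtain ⟨n₀, h⟩ := H.gg_O
  refine ⟨n₀, fun n hn => ?_⟩
  obtain ⟨j, s, hs⟩ := h n hn
  by_contra hne
  push Not at hne
  refine H.not_isZero_O ((isZero_shift_iff n).1 ?_)
  rw [IsZero.iff_id_eq_zero]
  refine hs _ _ fun i => ?_
  change (s i : H.O ⟶ H.O⟦n⟧) ≫ _ = 0
  rw [show (s i : H.O ⟶ H.O⟦n⟧) = 0 from hne (s i), zero_comp]

/-- An additive function vanishing in rank zero is constant on line bundles. -/
lemma add_O {f : C → ℤ} (hf : IsAdd f) (h0 : ∀ T, H.r T = 0 → f T = 0) (m : ℤ) :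
    f (H.O⟦m⟧) = f H.O := by
  obtain ⟨n₀, hn₀⟩ := H.exists_secO
  have key : ∀ n ≥ n₀, ∀ p : ℤ, f (H.O⟦p⟧) = f (H.O⟦n + p⟧) := by
    intro n hn p
    obtain ⟨s, hs⟩ := hn₀ n hn
    have hm : Mono (s : H.O ⟶ H.O⟦n⟧) := H.mono_of_ne n s hs
    let i : H.O⟦p⟧ ⟶ H.O⟦n + p⟧ := (s : H.O ⟶ H.O⟦n⟧)⟦p⟧' ≫ (shiftIso H.O n p (n + p) rfl).hom
    have : Mono i := by
      dsimp only [i]
      infer_instance
    have h1 := H.r_coker i
    rw [H.r_shift, H.r_shift] at h1
    have h2 := hf _ (ses_of_mono i)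
    dsimp only at h2
    rw [h0 (cokernel i) (by omega)] at h2
    omega
  have h1 := key (n₀ + |m|) (by have := abs_nonneg m; omega) m
  have h2 := key (n₀ + |m| + m) (by have := neg_abs_le m; omega) 0
  rw [h1, add_zero] at *
  rw [← h2]
  exact hf.iso ((shiftFunctorZero C ℤ).app H.O)

/-- Nonzero objects without subobjects of rank zero receive, after a twist, a monomorphism
from O; more precisely every object of positive rank has this property modulo rank zero. -/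
lemma exists_step (A : C) (hA : H.r A ≠ 0) : ∃ n₀ : ℤ, ∀ n ≥ n₀, ∃ (Y : C) (i : Y ⟶ A⟦n⟧)
    (_ : Mono i) (g : H.O ⟶ cokernel i), Mono g ∧ H.r Y = 0 := by
  obtain ⟨n₀, h⟩ := H.gg' A
  refine ⟨n₀, fun n hn => ?_⟩
  obtain ⟨j, f, hf⟩ := h n hn
  have := H.noeth (A⟦n⟧)
  obtain ⟨Y, i, hi, hY, hm⟩ : ∃ (Y : C) (i : Y ⟶ A⟦n⟧) (_ : Mono i), H.r Y = 0 ∧
      ∀ (Z : C) (j : Z ⟶ cokernel i), Mono j → H.r Z = 0 → IsZero Z :=
    exists_max_sub (fun Z hZ => H.r_zero hZ)
      (fun S hS h1 h3 => by rw [H.r_add S hS, h1, h3]) _ this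
  refine ⟨Y, i, hi, ?_⟩
  have h1 := H.r_coker i
  rw [H.r_shift, hY, zero_add] at h1
  have hne : cokernel.π i ≠ 0 := by
    intro h0
    have hz : IsZero (cokernel i) := by
      rw [IsZero.iff_id_eq_zero, ← cancel_epi (cokernel.π i), h0, zero_comp, zero_comp]
    exact hA (by rw [h1, H.r_zero hz])
  obtain ⟨a, ha⟩ := hf.exists_ne _ hne
  have hp : Epi (factorThruImage (f a ≫ cokernel.π i)) := inferInstance
  have hq : ¬ IsZero (Limits.image (f a ≫ cokernel.π i)) := fun hz => by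
    apply ha
    rw [← Limits.image.fac (f a ≫ cokernel.π i), hz.eq_of_src (image.ι _) 0, comp_zero]
  have h2 := H.r_kernel (factorThruImage (f a ≫ cokernel.π i))
  rw [H.r_O] at h2
  have h3 : H.r (Limits.image (f a ≫ cokernel.π i)) ≠ 0 := fun h0 =>
    hq (hm _ (image.ι _) inferInstance h0)
  have h4 : IsZero (kernel (factorThruImage (f a ≫ cokernel.π i))) :=
    H.tors_free _ (kernel.ι _) inferInstance (by omega)
  have h5 : Mono (factorThruImage (f a ≫ cokernel.π i)) :=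
    Preadditive.mono_of_kernel_zero (h4.eq_of_src _ _)
  refine ⟨f a ≫ cokernel.π i, ?_, hY⟩
  rw [← Limits.image.fac (f a ≫ cokernel.π i)]
  exact mono_comp _ _

/-- P1: additive functions vanishing in rank zero. -/
theorem add_dev {f : C → ℤ} (hf : IsAdd f) (h0 : ∀ T, H.r T = 0 → f T = 0) (A : C) :
    f A = H.r A * f H.O := by
  suffices key : ∀ (b : ℕ) (f : C → ℤ), IsAdd f → (∀ T, H.r T = 0 → f T = 0) → ∀ A : C,
      H.r A = b → f A = H.r A * f H.O from key _ f hf h0 A rfl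
  intro b
  induction b with
  | zero => intro f hf h0 A hA; rw [h0 A hA, hA]; simp
  | succ b ih =>
    intro f hf h0 A hA
    obtain ⟨n, hn⟩ := H.exists_step A (by omega)
    obtain ⟨Y, i, hi, g, hg, hY⟩ := hn n le_rfl
    have hf' := IsAdd.shift hf (-n)
    have h0' : ∀ T, H.r T = 0 → f (T⟦-n⟧) = 0 := fun T hT => h0 _ (by rw [H.r_shift, hT])
    have e1 : f A = f ((A⟦n⟧)⟦-n⟧) := (hf.iso (shiftNeg A n)).symm
    have e2 := hf' _ (ses_of_mono i)
    have e3 := hf' _ (ses_of_mono g)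
    have r1 := H.r_coker i
    have r2 := H.r_coker g
    rw [H.r_shift] at r1
    rw [H.r_O] at r2
    have e4 := ih _ hf' h0' (cokernel g) (by omega)
    have e5 := h0' Y hY
    have e6 := H.add_O hf h0 (-n)
    dsimp only at e2 e3 e4
    rw [e1, e2, e3, e4, e5, e6]
    have r3 : (H.r A : ℤ) = 1 + H.r (cokernel g) := by omega
    rw [r3]
    ring

end IntAmpleData

end Fdim
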