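import Pool.Agent.Work.MP_f714fc_ag.Abs.SurfP1
import Pool.Agent.Work.MP_f714fc_ag.Abs.Ranks

/-!
MP_f714fc_ag, block ABS-S2, step P2: the antisymmetric part of the Euler form.
-/

set_option autoImplicit false
set_option linter.unusedSectionVars false

open CategoryTheory CategoryTheory.Abelian CategoryTheory.Limits Pool.Agent.Work.MP_f714fc_ag.Abs

universe w v u t

namespace Fdim

variable {k : Type t} [Field k] {C : Type u} [Category.{v} C] [Abelian C] [Linear k C]
  [HasShift C ℤ] [∀ n : ℤ, (shiftFunctor C n).Additive] [∀ n : ℤ, (shiftFunctor C n).Linear k]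
  [HasExt.{w} C]

omit [Linear k C] [HasShift C ℤ] [∀ n : ℤ, (shiftFunctor C n).Additive]
  [∀ n : ℤ, (shiftFunctor C n).Linear k] [HasExt.{w} C] in
lemma IsAdd.ker_coker {φ : C → ℤ} (hφ : IsAdd φ) {A B : C} (f : A ⟶ B) :
    φ A - φ (kernel f) = φ B - φ (cokernel f) := by
  have e1 := hφ _ (ses_of_mono (kernel.ι f))
  have e2 := hφ _ (ses_of_epi (cokernel.π f))
  have e3 := hφ.iso (Abelian.coimageIsoImage f)
  change φ (cokernel (kernel.ι f)) = φ (kernel (cokernel.π f)) at e3
  dsimp only at e1 e2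
  omega

namespace HostData

variable (H : HostData.{w} k C)

include H

lemma van3 (A B : C) : ed k A B 3 = 0 := by
  have := H.van A B 3 le_rfl
  exact Module.finrank_zero_of_subsingleton

/-- the Euler form is additive in the second variable -/
lemma addR (A : C) : IsAdd (fun B => chi k A B) :=
  fun _ hS => ch_add_right H.fin H.van3 hS A

/-- the Euler form is additive in the first variable -/
lemma addL (B : C) : IsAdd (fun A => chi k A B) :=
  fun _ hS => ch_add_left H.fin H.van3 hS B

/-- Serre duality -/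
lemma serre_chi (A B : C) : chi k A B = chi k B (A⟦(-1 : ℤ)⟧) := by
  unfold chi
  rw [H.serre A B 0 2 rfl, H.serre A B 1 1 rfl, H.serre A B 2 0 rfl]
  ring

/-- additive functions vanishing on simple objects vanish on objects of finite length -/
lemma fin_of_simple {f : C → ℤ} (hf : IsAdd f) (h0 : ∀ Z, Simple Z → f Z = 0) (Z : C)
    (hZ : IsFin Z) : f Z = 0 := by
  refine IsFin.induct (P := fun Z => f Z = 0) (fun Z hZ => hf.zero hZ) ?_ Z hZ
  intro S hS h1 _ h3
  rw [hf S hS, h0 _ h1, h3, add_zero]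

/-- additive functions vanishing on objects of finite length are invariant under the twist in
rank zero -/
lemma inv_of_fin {f : C → ℤ} (hf : IsAdd f) (h0 : ∀ Z, IsFin Z → f Z = 0) (T : C)
    (hT : H.r T = 0) (m : ℤ) : f (T⟦m⟧) = f T := by
  have key : ∀ T : C, H.r T = 0 → ∃ n₀ : ℤ, ∀ n ≥ n₀, f (T⟦n⟧) = f T := by
    intro T hT
    obtain ⟨n₀, h⟩ := H.dim_le T hT
    refine ⟨n₀, fun n hn => ?_⟩
    obtain ⟨s, h1, h2, -⟩ := h n hn
    have e1 := IsAdd.ker_coker hf (H.act n T s : T ⟶ T⟦n⟧)
    rw [h0 _ h1, h0 _ h2] at e1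
    omega
  obtain ⟨n₀, h1⟩ := key T hT
  obtain ⟨n₁, h2⟩ := key (T⟦m⟧) (by rw [H.r_shift, hT])
  have e1 := h1 (m + max n₁ (n₀ - m)) (by have := le_max_right n₁ (n₀ - m); omega)
  have e2 := h2 (max n₁ (n₀ - m)) (le_max_left _ _)
  rw [← e1, ← e2]
  exact hf.iso (shiftIso T m _ _ rfl)

/-- P2 in rank zero -/
lemma n1_tors (hchi : ∀ A Z : C, Simple Z → chi k A Z = H.r A) (A T : C) (hT : H.r T = 0) :
    chi k A T - chi k T A = H.r A * (chi k H.O T - chi k T H.O) := by
  have hadd : IsAdd (fun B => chi k A B - H.r A * chi k H.O B) := by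
    intro S hS
    have e1 := H.addR A S hS
    have e2 := H.addR H.O S hS
    dsimp only at e1 e2 ⊢
    rw [e1, e2]
    ring
  have h0 : ∀ Z, IsFin Z → chi k A Z - H.r A * chi k H.O Z = 0 := fun Z hZ =>
    H.fin_of_simple hadd (fun Z hZ => by
      rw [hchi A Z hZ, hchi H.O Z hZ, H.r_O]
      push_cast
      ring) Z hZ
  have e := H.inv_of_fin hadd h0 T hT (-1)
  rw [H.serre_chi T A, H.serre_chi T H.O]
  linarith

/-- P2: the antisymmetric part of the Euler form -/
theorem n1 (hchi : ∀ A Z : C, Simple Z → chi k A Z = H.r A) (A B : C) :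
    chi k A B - chi k B A = H.r A * (chi k H.O B - chi k B H.O) -
      H.r B * (chi k H.O A - chi k A H.O) := by
  have hadd : IsAdd (fun B => chi k A B - chi k B A - H.r A * (chi k H.O B - chi k B H.O) +
      H.r B * (chi k H.O A - chi k A H.O)) := by
    intro S hS
    have e1 := H.addR A S hS
    have e2 := H.addR H.O S hS
    have e3 := H.addL A S hS
    have e4 := H.addL H.O S hS
    have e5 := H.isAdd_r S hS
    dsimp only at e1 e2 e3 e4 e5 ⊢
    rw [e1, e2, e3, e4, e5]
    ring
  have e := H.add_dev hadd (fun T hT => by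
    rw [H.n1_tors hchi A T hT, hT]
    push_cast
    ring) B
  rw [H.r_O] at e
  push_cast at e
  linarith

end HostData

end Fdim
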