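import Pool.Agent.Work.MP_f714fc_ag.Abs.SerreDef
import Pool.Agent.Work.MP_f714fc_ag.Abs.Core

/-!
MP_f714fc_ag.  YBase, YCat: the formal properties of the category of sheaves on the surface Y_c.
The twist by the line bundle O(n C_inf + m f) is written as a shift by (n, m) : Int x Int.
C_inf is the section at infinity (self-intersection 2), f the fibre over the point at infinity of
the line, the canonical bundle is the shift by (-2, 0), H = C_inf + f is the shift by (1, 1).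
-/

open CategoryTheory CategoryTheory.Abelian CategoryTheory.Limits

attribute [-instance] CategoryTheory.catToReflQuiver

universe w v u t

namespace Fdim

/-- twist data: O and the exact sequences of two fibres and of the curve at infinity -/
structure YBase (C : Type u) [Category.{v} C] [Abelian C] [HasExt.{w} C] [HasShift C (ℤ × ℤ)]
    [∀ a : ℤ × ℤ, (shiftFunctor C a).Additive] where
  O : C
  /-- H^p(O) = 0 for p at least 1 -/
  hO : ∀ p : ℕ, 1 ≤ p → Subsingleton (Ext.{w} O O p)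
  /-- H^p(O(-f)) = 0 for all p -/
  hF : ∀ p : ℕ, Subsingleton (Ext.{w} O (O⟦((0 : ℤ), (-1 : ℤ))⟧) p)
  /-- H^p(O(-C_inf + m f)) = 0 for all p -/
  hC : ∀ (m : ℤ) (p : ℕ), Subsingleton (Ext.{w} O (O⟦((-1 : ℤ), m)⟧) p)
  /-- Koszul sequence 0 -> O(-2f) -> O(-f) + O(-f) -> O -> 0 -/
  K : ShortComplex C
  hK : K.ShortExact
  eK₁ : K.X₁ ≅ O⟦((0 : ℤ), (-2 : ℤ))⟧
  eK₂ : K.X₂ ≅ (O⟦((0 : ℤ), (-1 : ℤ))⟧) ⊞ (O⟦((0 : ℤ), (-1 : ℤ))⟧)
  eK₃ : K.X₃ ≅ O
  /-- sequence of the curve at infinity 0 -> O(-C_inf) -> O -> O_(C_inf) -> 0 -/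
  D : ShortComplex C
  hD : D.ShortExact
  eD₁ : D.X₁ ≅ O⟦((-1 : ℤ), (0 : ℤ))⟧
  eD₂ : D.X₂ ≅ O
  /-- C_inf restricted to C_inf is linearly equivalent to 2f -/
  eD₃ : D.X₃⟦((1 : ℤ), (0 : ℤ))⟧ ≅ D.X₃⟦((0 : ℤ), (2 : ℤ))⟧

/-- E is a finite sum of copies of L -/
def IsSumOf {C : Type u} [Category.{v} C] [Preadditive C] (L E : C) : Prop :=
  ∃ (r : ℕ) (inc : Fin r → (L ⟶ E)) (pr : Fin r → (E ⟶ L)),
    (∀ i, inc i ≫ pr i = 𝟙 L) ∧ (∀ i j, i ≠ j → inc i ≫ pr j = 0) ∧ ∑ i, pr i ≫ inc i = 𝟙 E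

/-- The formal properties of the category of coherent sheaves on Y_c. -/
structure YCat (k : Type t) [Field k] (C : Type u) [Category.{v} C] [Abelian C] [HasExt.{w} C]
    [HasShift C (ℤ × ℤ)] [∀ a : ℤ × ℤ, (shiftFunctor C a).Additive] [Linear k C]
    [∀ a : ℤ × ℤ, (shiftFunctor C a).Linear k] extends YBase.{w} C where
  /-- global functions are constant -/
  homO : Module.finrank k (O ⟶ O) = 1
  /-- sections act centrally -/
  act : ∀ (a : ℤ × ℤ) (A : C), ShiftedHom O O a →ₗ[k] ShiftedHom A A a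
  act_O : ∀ (a : ℤ × ℤ) (s : ShiftedHom O O a), act a O s = s
  central : ∀ {A B : C} {a b c : ℤ × ℤ} (f : ShiftedHom A B b) (s : ShiftedHom O O a)
    (h : a + b = c) (h' : b + a = c), f.comp (act a B s) h = (act a A s).comp f h'
  /-- every object is a quotient of a sum of copies of O(-n H), n large -/
  gen : ∀ B : C, ∃ n₀ : ℤ, ∀ n ≥ n₀, ∃ (E : C) (u : E ⟶ B), Epi u ∧ IsSumOf (O⟦(-n, -n)⟧) E
  /-- Serre vanishing -/
  van : ∀ B : C, ∃ n₀ : ℤ, ∀ n ≥ n₀, ∀ p : ℕ, 1 ≤ p → Subsingleton (Ext.{w} O (B⟦(n, n)⟧) p)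
  /-- cohomology vanishes in degrees at least 3 -/
  hbd : ∀ (B : C) (p : ℕ), 3 ≤ p → Subsingleton (Ext.{w} O B p)
  /-- finite cohomological dimension -/
  bd : ∃ N₀ : ℕ, ∀ (A B : C) (p : ℕ), N₀ ≤ p → Subsingleton (Ext.{w} A B p)

end Fdim
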