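import Pool.Agent.Work.MP_f714fc_ag.Abs.YCat
import Pool.Agent.Work.MP_f714fc_ag.Abs.Ranks

/-!
MP_f714fc_ag.  The groups H^p(O(-2f)) and H^p(omega) on the surface Y_c (V6, V7), from the Koszul
sequence and the sequence of the curve at infinity.
-/

open CategoryTheory CategoryTheory.Abelian CategoryTheory.Limits

attribute [-instance] CategoryTheory.catToReflQuiver

universe w v u t

namespace Fdim

open Pool.Agent.Work.MP_f714fc_ag.Abs (postL postL_apply)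

namespace YCohAux

section

variable {C : Type u} [Category.{v} C] [Abelian C] [HasExt.{w} C]

/-- Ext into a direct sum vanishes -/
lemma subsingleton_ext_biprod {X A B : C} {p : ℕ} (hA : Subsingleton (Ext.{w} X A p))
    (hB : Subsingleton (Ext.{w} X B p)) : Subsingleton (Ext.{w} X (A ⊞ B) p) := by
  refine subsingleton_of_forall_eq 0 fun x => ?_
  have h1 : x = (x.comp (Ext.mk₀ biprod.fst) (add_zero p)).comp (Ext.mk₀ biprod.inl) (add_zero p) +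
      (x.comp (Ext.mk₀ biprod.snd) (add_zero p)).comp (Ext.mk₀ biprod.inr) (add_zero p) := by
    rw [Ext.comp_assoc_of_third_deg_zero, Ext.comp_assoc_of_third_deg_zero, Ext.mk₀_comp_mk₀,
      Ext.mk₀_comp_mk₀, ← Ext.comp_add, ← Ext.mk₀_add, biprod.total, Ext.comp_mk₀_id]
  rw [h1, Subsingleton.elim (x.comp (Ext.mk₀ biprod.fst) (add_zero p)) 0,
    Subsingleton.elim (x.comp (Ext.mk₀ biprod.snd) (add_zero p)) 0, Ext.zero_comp, Ext.zero_comp,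
    add_zero]

lemma subsingleton_ext_iso {X A B : C} {p : ℕ} (e : A ≅ B) (h : Subsingleton (Ext.{w} X A p)) :
    Subsingleton (Ext.{w} X B p) := by
  refine subsingleton_of_forall_eq 0 fun x => ?_
  have h1 : x = (x.comp (Ext.mk₀ e.inv) (add_zero p)).comp (Ext.mk₀ e.hom) (add_zero p) := by
    rw [Ext.comp_assoc_of_third_deg_zero, Ext.mk₀_comp_mk₀, e.inv_hom_id, Ext.comp_mk₀_id]
  rw [h1, Subsingleton.elim (x.comp (Ext.mk₀ e.inv) (add_zero p)) 0, Ext.zero_comp]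

lemma subsingleton_ext_X₁_zero {S : ShortComplex C} (hS : S.ShortExact) (X : C)
    (h : Subsingleton (Ext.{w} X S.X₂ 0)) : Subsingleton (Ext.{w} X S.X₁ 0) := by
  have := hS.mono_f
  exact (Ext.postcomp_mk₀_injective_of_mono X S.f).subsingleton

end

section

variable (k : Type t) [Field k] {C : Type u} [Category.{v} C] [Abelian C] [HasExt.{w} C]
  [Linear k C]

/-- isomorphic objects have isomorphic Ext groups -/
noncomputable def extIso (X : C) {A B : C} (e : A ≅ B) (p : ℕ) : Ext.{w} X A p ≃ₗ[k] Ext.{w} X B p :=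
  LinearEquiv.ofLinearMap (postL (k := k) (A := X) (Ext.mk₀ e.hom) (add_zero p))
    (postL (k := k) (A := X) (Ext.mk₀ e.inv) (add_zero p))
    (by ext x; simp [postL_apply])
    (by ext x; simp [postL_apply])

/-- the connecting map is an isomorphism if the cohomology of the middle vanishes -/
lemma exists_connEquiv {S : ShortComplex C} (hS : S.ShortExact) (X : C) (p : ℕ)
    (h1 : Subsingleton (Ext.{w} X S.X₂ p)) (h2 : Subsingleton (Ext.{w} X S.X₂ (p + 1))) :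
    Nonempty (Ext.{w} X S.X₃ p ≃ₗ[k] Ext.{w} X S.X₁ (p + 1)) := by
  refine ⟨LinearEquiv.ofBijective (postL (k := k) (A := X) hS.extClass rfl) ⟨?_, ?_⟩⟩
  · rw [← LinearMap.ker_eq_bot, LinearMap.ker_eq_bot']
    intro x hx
    obtain ⟨y, rfl⟩ := Ext.covariant_sequence_exact₃ X hS x rfl hx
    rw [Subsingleton.elim y 0, Ext.zero_comp]
  · intro x
    obtain ⟨y, hy⟩ := Ext.covariant_sequence_exact₁ X hS x (Subsingleton.elim _ _) rfl
    exact ⟨y, hy⟩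

/-- the restriction is an isomorphism if the cohomology of the first term vanishes -/
lemma exists_restEquiv {S : ShortComplex C} (hS : S.ShortExact) (X : C) (p : ℕ)
    (h1 : Subsingleton (Ext.{w} X S.X₁ p)) (h2 : Subsingleton (Ext.{w} X S.X₁ (p + 1))) :
    Nonempty (Ext.{w} X S.X₂ p ≃ₗ[k] Ext.{w} X S.X₃ p) := by
  refine ⟨LinearEquiv.ofBijective (postL (k := k) (A := X) (Ext.mk₀ S.g) (add_zero p)) ⟨?_, ?_⟩⟩
  · rw [← LinearMap.ker_eq_bot, LinearMap.ker_eq_bot']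
    intro x hx
    obtain ⟨y, rfl⟩ := Ext.covariant_sequence_exact₂ X hS x hx
    rw [Subsingleton.elim y 0, Ext.zero_comp]
  · intro x
    obtain ⟨y, hy⟩ := Ext.covariant_sequence_exact₃ X hS x rfl (Subsingleton.elim _ _)
    exact ⟨y, hy⟩

end

section

variable {C : Type u} [Category.{v} C] [Abelian C] [HasExt.{w} C] [HasShift C (ℤ × ℤ)]
  [∀ a : ℤ × ℤ, (shiftFunctor C a).Additive]

/-- two shifts compose -/
noncomputable def shiftAddIso (A : C) (a b c : ℤ × ℤ) (h : a + b = c) : (A⟦a⟧)⟦b⟧ ≅ A⟦c⟧ :=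
  ((shiftFunctorAdd' C a b c h).app A).symm

omit [HasExt.{w} C] in
lemma ses_shift2 (a : ℤ × ℤ) {S : ShortComplex C} (hS : S.ShortExact) :
    (S.map (shiftFunctor C a)).ShortExact := hS.map_of_exact (shiftFunctor C a)

end

end YCohAux

open YCohAux

section

variable {C : Type u} [Category.{v} C] [Abelian C] [HasExt.{w} C] [HasShift C (ℤ × ℤ)]
  [∀ a : ℤ × ℤ, (shiftFunctor C a).Additive]

namespace YBase

variable (Y : YBase.{w} C)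

/-- the restrictions to the curve at infinity of the bundles O(-C_inf) and O(-2f) agree -/
noncomputable def eD : Y.D.X₃⟦((0 : ℤ), (-2 : ℤ))⟧ ≅ Y.D.X₃⟦((-1 : ℤ), (0 : ℤ))⟧ :=
  (shiftAddIso Y.D.X₃ ((1 : ℤ), (0 : ℤ)) ((-1 : ℤ), (-2 : ℤ)) ((0 : ℤ), (-2 : ℤ)) (by simp)).symm ≪≫
    (shiftFunctor C ((-1 : ℤ), (-2 : ℤ))).mapIso Y.eD₃ ≪≫
    shiftAddIso Y.D.X₃ ((0 : ℤ), (2 : ℤ)) ((-1 : ℤ), (-2 : ℤ)) ((-1 : ℤ), (0 : ℤ)) (by simp)

end YBase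

end

section

variable {k : Type t} [Field k] {C : Type u} [Category.{v} C] [Abelian C] [HasExt.{w} C]
    [HasShift C (ℤ × ℤ)] [∀ a : ℤ × ℤ, (shiftFunctor C a).Additive] [Linear k C]
    [∀ a : ℤ × ℤ, (shiftFunctor C a).Linear k]

variable (Y : YCat.{w} k C)

/-- V6 (file Abs/YCoh.lean): the groups H^p(O(-2f)) -/
theorem YCat.finrank_f2 : Module.finrank k (Ext.{w} Y.O (Y.O⟦((0 : ℤ), (-2 : ℤ))⟧) 1) = 1 ∧
    ∀ p : ℕ, p ≠ 1 → Subsingleton (Ext.{w} Y.O (Y.O⟦((0 : ℤ), (-2 : ℤ))⟧) p) := by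
  have h2 : ∀ p : ℕ, Subsingleton (Ext.{w} Y.O Y.K.X₂ p) := fun p =>
    subsingleton_ext_iso Y.eK₂.symm (subsingleton_ext_biprod (Y.hF p) (Y.hF p))
  have e : ∀ p : ℕ, Nonempty (Ext.{w} Y.O Y.O p ≃ₗ[k]
      Ext.{w} Y.O (Y.O⟦((0 : ℤ), (-2 : ℤ))⟧) (p + 1)) := fun p => by
    obtain ⟨e⟩ := exists_connEquiv k Y.hK Y.O p (h2 p) (h2 (p + 1))
    exact ⟨(extIso k Y.O Y.eK₃.symm p) ≪≫ₗ e ≪≫ₗ extIso k Y.O Y.eK₁ (p + 1)⟩
  refine ⟨?_, fun p hp => ?_⟩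
  · obtain ⟨e0⟩ := e 0
    have h1 : Ext.{w} Y.O Y.O 0 ≃ₗ[k] (Y.O ⟶ Y.O) := Ext.linearEquiv₀
    rw [← e0.finrank_eq, h1.finrank_eq, Y.homO]
  · match p, hp with
    | 0, _ =>
      exact subsingleton_ext_iso Y.eK₁ (subsingleton_ext_X₁_zero Y.hK Y.O (h2 0))
    | 1, h => exact absurd rfl h
    | p + 2, _ =>
      obtain ⟨e1⟩ := e (p + 1)
      have := Y.hO (p + 1) (by omega)
      exact e1.symm.toEquiv.subsingleton

/-- V7 (file Abs/YCoh.lean): cohomology of the canonical bundle -/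
theorem YCat.finrank_omega : Module.finrank k (Ext.{w} Y.O (Y.O⟦((-2 : ℤ), (0 : ℤ))⟧) 2) = 1 ∧
    ∀ p : ℕ, p ≠ 2 → Subsingleton (Ext.{w} Y.O (Y.O⟦((-2 : ℤ), (0 : ℤ))⟧) p) := by
  have hS := ses_shift2 ((-1 : ℤ), (0 : ℤ)) Y.hD
  have hR := ses_shift2 ((0 : ℤ), (-2 : ℤ)) Y.hD
  have h2 : ∀ p : ℕ, Subsingleton (Ext.{w} Y.O (Y.D.X₂⟦((-1 : ℤ), (0 : ℤ))⟧) p) := fun p =>
    subsingleton_ext_iso ((shiftFunctor C ((-1 : ℤ), (0 : ℤ))).mapIso Y.eD₂).symm (Y.hC 0 p)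
  have h1 : ∀ p : ℕ, Subsingleton (Ext.{w} Y.O (Y.D.X₁⟦((0 : ℤ), (-2 : ℤ))⟧) p) := fun p => by
    refine subsingleton_ext_iso ?_ (Y.hC (-2) p)
    exact ((shiftFunctor C ((0 : ℤ), (-2 : ℤ))).mapIso Y.eD₁ ≪≫
      shiftAddIso Y.O ((-1 : ℤ), (0 : ℤ)) ((0 : ℤ), (-2 : ℤ)) ((-1 : ℤ), (-2 : ℤ)) (by simp)).symm
  have e3 : Y.D.X₁⟦((-1 : ℤ), (0 : ℤ))⟧ ≅ Y.O⟦((-2 : ℤ), (0 : ℤ))⟧ :=
    (shiftFunctor C ((-1 : ℤ), (0 : ℤ))).mapIso Y.eD₁ ≪≫
      shiftAddIso Y.O ((-1 : ℤ), (0 : ℤ)) ((-1 : ℤ), (0 : ℤ)) ((-2 : ℤ), (0 : ℤ)) (by simp)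
  have e : ∀ p : ℕ, Nonempty (Ext.{w} Y.O (Y.O⟦((0 : ℤ), (-2 : ℤ))⟧) p ≃ₗ[k]
      Ext.{w} Y.O (Y.O⟦((-2 : ℤ), (0 : ℤ))⟧) (p + 1)) := fun p => by
    obtain ⟨e⟩ := exists_connEquiv k hS Y.O p (h2 p) (h2 (p + 1))
    obtain ⟨e'⟩ := exists_restEquiv k hR Y.O p (h1 p) (h1 (p + 1))
    exact ⟨extIso k Y.O ((shiftFunctor C ((0 : ℤ), (-2 : ℤ))).mapIso Y.eD₂.symm) p ≪≫ₗ e' ≪≫ₗ
      extIso k Y.O Y.toYBase.eD p ≪≫ₗ e ≪≫ₗ extIso k Y.O e3 (p + 1)⟩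
  obtain ⟨f1, f2⟩ := Y.finrank_f2
  refine ⟨?_, fun p hp => ?_⟩
  · obtain ⟨e0⟩ := e 1
    rw [← e0.finrank_eq, f1]
  · match p, hp with
    | 0, _ =>
      exact subsingleton_ext_iso e3 (subsingleton_ext_X₁_zero hS Y.O (h2 0))
    | 2, h => exact absurd rfl h
    | 1, _ =>
      obtain ⟨e1⟩ := e 0
      have := f2 0 (by omega)
      exact e1.symm.toEquiv.subsingleton
    | p + 3, _ =>
      obtain ⟨e1⟩ := e (p + 2)
      have := f2 (p + 2) (by omega)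
      exact e1.symm.toEquiv.subsingleton

end

end Fdim
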