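import Pool.Agent.Work.MP_f714fc_ag.Abs.YCat
import Pool.Agent.Work.MP_f714fc_ag.Abs.SerreVan

/-!
# MP_f714fc_ag: from generation by global sections after a twist by n H to epimorphisms from sums
of O(-n H)
-/

open CategoryTheory CategoryTheory.Abelian CategoryTheory.Limits

attribute [-instance] CategoryTheory.catToReflQuiver

universe w v u t

namespace Fdim

section

variable {C : Type u} [Category.{v} C] [Abelian C] [HasShift C (ℤ × ℤ)]
    [∀ a : ℤ × ℤ, (shiftFunctor C a).Additive]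

/-- (B[a])[-a] = B -/
noncomputable def shiftCancel (B : C) (a : ℤ × ℤ) : (B⟦a⟧)⟦-a⟧ ≅ B :=
  (shiftFunctorCompIsoId C a (-a) (add_neg_cancel a)).app B

theorem genLarge_of_gg {O : C}
    (h : ∀ B : C, ∃ n₀ : ℤ, ∀ n ≥ n₀, GenBySections O (B⟦(n, n)⟧)) :
    GenLarge fun n : ℤ => O⟦(-n, -n)⟧ := by
  intro B
  obtain ⟨n₀, hn₀⟩ := h B
  refine ⟨n₀, fun n hn => ?_⟩
  obtain ⟨j, f, hf⟩ := hn₀ n hn
  let a : ℤ × ℤ := (n, n)
  refine ⟨j, fun i => (f i)⟦-a⟧' ≫ (shiftCancel B a).hom, fun D g hg => ?_⟩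
  -- transport g to the shift by a
  have h1 : ∀ i, f i ≫ ((shiftFunctor C (-a)).preimage ((shiftCancel B a).hom ≫ g ≫
      (shiftCancel D a).inv)) = 0 := by
    intro i
    apply (shiftFunctor C (-a)).map_injective
    rw [Functor.map_comp, Functor.map_preimage, Functor.map_zero, ← Category.assoc,
      ← Category.assoc, hg i, zero_comp]
  have h2 := hf _ _ h1
  have h3 : (shiftCancel B a).hom ≫ g ≫ (shiftCancel D a).inv = 0 := by
    rw [← (shiftFunctor C (-a)).map_preimage ((shiftCancel B a).hom ≫ g ≫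
      (shiftCancel D a).inv), h2, Functor.map_zero]
  have h4 : g ≫ (shiftCancel D a).inv = 0 := by
    rw [← cancel_epi (shiftCancel B a).hom, h3, comp_zero]
  rw [← cancel_mono (shiftCancel D a).inv, h4, zero_comp]

attribute [local instance] Abelian.hasFiniteBiproducts

omit [∀ a : ℤ × ℤ, (shiftFunctor C a).Additive] [HasShift C (ℤ × ℤ)] in
theorem isSumOf_biproduct (L : C) (j : ℕ) : IsSumOf L (⨁ fun _ : Fin j => L) :=
  ⟨j, fun i => biproduct.ι (fun _ : Fin j => L) i, fun i => biproduct.π (fun _ : Fin j => L) i,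
    fun _ => biproduct.ι_π_self _ _, fun _ _ h => biproduct.ι_π_ne _ h, biproduct.total⟩

omit [∀ a : ℤ × ℤ, (shiftFunctor C a).Additive] [HasShift C (ℤ × ℤ)] in
theorem GenLarge.gen {E : ℤ → C} (h : GenLarge E) (B : C) : ∃ n₀ : ℤ, ∀ n ≥ n₀,
    ∃ (D : C) (u : D ⟶ B), Epi u ∧ IsSumOf (E n) D := by
  obtain ⟨n₀, h⟩ := h.epi B
  refine ⟨n₀, fun n hn => ?_⟩
  obtain ⟨j, p, hp⟩ := h n hn
  exact ⟨_, p, hp, isSumOf_biproduct (E n) j⟩

end

end Fdim
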