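import Pool.Agent.Work.MP_f714fc_ag.Abs.YCat

/-!
MP_f714fc_ag: vanishing of the cohomology of the line bundles O(n C_inf + m f), n not negative,
m at least -1 (V1, V2, V3 of YTasks).
-/

open CategoryTheory CategoryTheory.Abelian CategoryTheory.Limits

attribute [-instance] CategoryTheory.catToReflQuiver

universe w v u t

namespace Fdim

section

variable {C : Type u} [Category.{v} C] [Abelian C] [HasExt.{w} C]

namespace YVan

/-- isomorphic coefficients -/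
theorem sub_iso {A B B' : C} (e : B ≅ B') {p : ℕ} (h : Subsingleton (Ext.{w} A B p)) :
    Subsingleton (Ext.{w} A B' p) := by
  refine ⟨fun x y => ?_⟩
  have h1 : ∀ z : Ext.{w} A B' p, z = 0 := by
    intro z
    have h2 : z = (z.comp (Ext.mk₀ e.inv) (add_zero p)).comp (Ext.mk₀ e.hom) (add_zero p) := by
      rw [Ext.comp_assoc_of_third_deg_zero, Ext.mk₀_comp_mk₀, e.inv_hom_id, Ext.comp_mk₀_id]
    rw [h2, Subsingleton.elim (z.comp (Ext.mk₀ e.inv) (add_zero p)) 0, Ext.zero_comp]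
  rw [h1 x, h1 y]

/-- middle term -/
theorem sub_mid {S : ShortComplex C} (hS : S.ShortExact) {A : C} {p : ℕ}
    (h1 : Subsingleton (Ext.{w} A S.X₁ p)) (h3 : Subsingleton (Ext.{w} A S.X₃ p)) :
    Subsingleton (Ext.{w} A S.X₂ p) := by
  have h : ∀ z : Ext.{w} A S.X₂ p, z = 0 := by
    intro z
    obtain ⟨x, hx⟩ := Ext.covariant_sequence_exact₂ A hS z (Subsingleton.elim _ _)
    rw [← hx, Subsingleton.elim x 0, Ext.zero_comp]
  exact ⟨fun x y => by rw [h x, h y]⟩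

/-- right term -/
theorem sub_right {S : ShortComplex C} (hS : S.ShortExact) {A : C} {p : ℕ}
    (h2 : Subsingleton (Ext.{w} A S.X₂ p)) (h1 : Subsingleton (Ext.{w} A S.X₁ (p + 1))) :
    Subsingleton (Ext.{w} A S.X₃ p) := by
  have h : ∀ z : Ext.{w} A S.X₃ p, z = 0 := by
    intro z
    obtain ⟨x, hx⟩ := Ext.covariant_sequence_exact₃ A hS z rfl (Subsingleton.elim _ _)
    rw [← hx, Subsingleton.elim x 0, Ext.zero_comp]
  exact ⟨fun x y => by rw [h x, h y]⟩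

/-- sums -/
theorem sub_biprod {A B B' : C} {p : ℕ} (h : Subsingleton (Ext.{w} A B p))
    (h' : Subsingleton (Ext.{w} A B' p)) : Subsingleton (Ext.{w} A (B ⊞ B') p) := by
  have h0 : ∀ z : Ext.{w} A (B ⊞ B') p, z = 0 := by
    intro z
    have h2 : z = z.comp (Ext.mk₀ (𝟙 (B ⊞ B'))) (add_zero p) := (Ext.comp_mk₀_id z).symm
    rw [h2, ← biprod.total, Ext.mk₀_add, Ext.comp_add, ← Ext.mk₀_comp_mk₀, ← Ext.mk₀_comp_mk₀,
      ← Ext.comp_assoc_of_third_deg_zero, ← Ext.comp_assoc_of_third_deg_zero,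
      Subsingleton.elim (z.comp (Ext.mk₀ biprod.fst) (add_zero p)) 0,
      Subsingleton.elim (z.comp (Ext.mk₀ biprod.snd) (add_zero p)) 0, Ext.zero_comp,
      Ext.zero_comp, add_zero]
  exact ⟨fun x y => by rw [h0 x, h0 y]⟩

variable [HasShift C (ℤ × ℤ)] [∀ a : ℤ × ℤ, (shiftFunctor C a).Additive]

omit [HasExt.{w} C] in
theorem se_shift (a : ℤ × ℤ) {S : ShortComplex C} (hS : S.ShortExact) :
    (S.map (shiftFunctor C a)).ShortExact :=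
  hS.map_of_exact (shiftFunctor C a)

/-- composition of two shifts -/
noncomputable def add (A : C) (a b c : ℤ × ℤ) (h : a + b = c) : A⟦a⟧⟦b⟧ ≅ A⟦c⟧ :=
  (shiftFunctorAdd' C a b c h).symm.app A

/-- zero shift -/
noncomputable def zer (A : C) (a : ℤ × ℤ) (h : a = 0) : A⟦a⟧ ≅ A :=
  (shiftFunctorZero' C a h).app A

end YVan

open YVan

variable [HasShift C (ℤ × ℤ)] [∀ a : ℤ × ℤ, (shiftFunctor C a).Additive]

variable (Y : YBase.{w} C)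

/-- V1 (file Abs/YVan.lean): cohomology of the multiples of f -/
theorem YBase.ext_f (m : ℤ) (hm : -1 ≤ m) (p : ℕ) (hp : 1 ≤ p) :
    Subsingleton (Ext.{w} Y.O (Y.O⟦((0 : ℤ), m)⟧) p) := by
  obtain ⟨n, rfl⟩ : ∃ n : ℕ, m = (n : ℤ) - 1 := ⟨(m + 1).toNat, by omega⟩
  clear hm
  induction n using Nat.strong_induction_on generalizing p with
  | _ n ih =>
    rcases n with _ | _ | n
    · have h := Y.hF p
      simpa using h
    · have h := sub_iso (zer Y.O ((0 : ℤ), ((0 + 1 : ℕ) : ℤ) - 1) (by simp)).symm (Y.hO p hp)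
      exact h
    · have h1 := se_shift ((0 : ℤ), ((n + 1 + 1 : ℕ) : ℤ) - 1) Y.hK
      have i1 := ih (n + 1) (by omega) p hp
      have i2 := ih n (by omega) (p + 1) (by omega)
      have e1 : (Y.K.map (shiftFunctor C ((0 : ℤ), ((n + 1 + 1 : ℕ) : ℤ) - 1))).X₁ ≅
          Y.O⟦((0 : ℤ), (n : ℤ) - 1)⟧ :=
        (shiftFunctor C ((0 : ℤ), ((n + 1 + 1 : ℕ) : ℤ) - 1)).mapIso Y.eK₁ ≪≫
          add Y.O _ _ _ (by ext <;> simp; ring)
      have : PreservesBinaryBiproducts (shiftFunctor C ((0 : ℤ), ((n + 1 + 1 : ℕ) : ℤ) - 1)) :=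
        preservesBinaryBiproducts_of_preservesBinaryProducts _
      have e2 : (Y.K.map (shiftFunctor C ((0 : ℤ), ((n + 1 + 1 : ℕ) : ℤ) - 1))).X₂ ≅
          (Y.O⟦((0 : ℤ), ((n + 1 : ℕ) : ℤ) - 1)⟧) ⊞ (Y.O⟦((0 : ℤ), ((n + 1 : ℕ) : ℤ) - 1)⟧) :=
        (shiftFunctor C ((0 : ℤ), ((n + 1 + 1 : ℕ) : ℤ) - 1)).mapIso Y.eK₂ ≪≫
          (shiftFunctor C ((0 : ℤ), ((n + 1 + 1 : ℕ) : ℤ) - 1)).mapBiprod _ _ ≪≫
          biprod.mapIso (add Y.O _ _ _ (by ext <;> simp)) (add Y.O _ _ _ (by ext <;> simp))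
      have e3 : (Y.K.map (shiftFunctor C ((0 : ℤ), ((n + 1 + 1 : ℕ) : ℤ) - 1))).X₃ ≅
          Y.O⟦((0 : ℤ), ((n + 1 + 1 : ℕ) : ℤ) - 1)⟧ :=
        (shiftFunctor C ((0 : ℤ), ((n + 1 + 1 : ℕ) : ℤ) - 1)).mapIso Y.eK₃
      exact sub_iso e3 (sub_right h1 (sub_iso e2.symm (sub_biprod i1 i1)) (sub_iso e1.symm i2))

/-- the twists of the sequence of the curve at infinity -/
theorem YBase.exD (a : ℤ × ℤ) (a' : ℤ × ℤ) (h : a' = ((-1 : ℤ), (0 : ℤ)) + a) :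
    ∃ S : ShortComplex C, S.ShortExact ∧ Nonempty (S.X₁ ≅ Y.O⟦a'⟧) ∧ Nonempty (S.X₂ ≅ Y.O⟦a⟧) ∧
      Nonempty (S.X₃ ≅ Y.D.X₃⟦a⟧) :=
  ⟨Y.D.map (shiftFunctor C a), se_shift a Y.hD,
    ⟨(shiftFunctor C a).mapIso Y.eD₁ ≪≫ add Y.O _ _ _ h.symm⟩,
    ⟨(shiftFunctor C a).mapIso Y.eD₂⟩, ⟨Iso.refl _⟩⟩

/-- V2 (file Abs/YVan.lean): cohomology of the sheaf O_(C_inf)(m f) -/
theorem YBase.ext_D (m : ℤ) (hm : -1 ≤ m) (p : ℕ) (hp : 1 ≤ p) :
    Subsingleton (Ext.{w} Y.O (Y.D.X₃⟦((0 : ℤ), m)⟧) p) := by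
  obtain ⟨S, hS, ⟨e1⟩, ⟨e2⟩, ⟨e3⟩⟩ := Y.exD ((0 : ℤ), m) ((-1 : ℤ), m) (by ext <;> simp)
  exact sub_iso e3 (sub_right hS (sub_iso e2.symm (Y.ext_f m hm p hp))
    (sub_iso e1.symm (Y.hC m (p + 1))))

/-- the twists of the structure sheaf of the curve at infinity -/
theorem YBase.nonempty_D (n : ℕ) (m : ℤ) :
    Nonempty (Y.D.X₃⟦((n : ℤ), m)⟧ ≅ Y.D.X₃⟦((0 : ℤ), m + 2 * n)⟧) := by
  induction n generalizing m with
  | zero => exact ⟨eqToIso (by simp)⟩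
  | succ n ih =>
    obtain ⟨e⟩ := ih (m + 2)
    refine ⟨(add Y.D.X₃ ((1 : ℤ), (0 : ℤ)) ((n : ℤ), m) _ (by ext <;> simp; ring)).symm ≪≫
      (shiftFunctor C ((n : ℤ), m)).mapIso Y.eD₃ ≪≫
      add Y.D.X₃ ((0 : ℤ), (2 : ℤ)) ((n : ℤ), m) ((n : ℤ), m + 2) (by ext <;> simp; ring) ≪≫ e ≪≫
      eqToIso ?_⟩
    congr 2
    push_cast
    ring_nf

/-- V3 (file Abs/YVan.lean): cohomology of O(n C_inf + m f), n not negative -/
theorem YBase.ext_pos (n m : ℤ) (hn : 0 ≤ n) (hm : -1 ≤ m) (p : ℕ) (hp : 1 ≤ p) :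
    Subsingleton (Ext.{w} Y.O (Y.O⟦(n, m)⟧) p) := by
  obtain ⟨n, rfl⟩ := Int.eq_ofNat_of_zero_le hn
  clear hn
  induction n with
  | zero => exact Y.ext_f m hm p hp
  | succ n ih =>
    obtain ⟨S, hS, ⟨e1⟩, ⟨e2⟩, ⟨e3⟩⟩ := Y.exD (((n + 1 : ℕ) : ℤ), m) ((n : ℤ), m)
      (by ext <;> simp)
    obtain ⟨e4⟩ := Y.nonempty_D (n + 1) m
    exact sub_iso e2 (sub_mid hS (sub_iso e1.symm ih)
      (sub_iso (e3 ≪≫ e4).symm (Y.ext_D _ (by push_cast; omega) p hp)))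

end

end Fdim
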