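import Pool.Agent.Work.MP_f714fc_ag.Abs.YCoh
import Pool.Agent.Work.MP_f714fc_ag.Abs.YVan
import Pool.Agent.Work.MP_f714fc_ag.Abs.SerreMap

/-!
MP_f714fc_ag.  Duality of the structure sheaf with every line bundle O(n C_inf + m f) on the
surface Y_c (V8 of YTasks).
-/

open CategoryTheory CategoryTheory.Abelian CategoryTheory.Limits

attribute [-instance] CategoryTheory.catToReflQuiver

universe w v u t

namespace Fdim

section

variable {C : Type u} [Category.{v} C] [Abelian C] [HasExt.{w} C]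

/-- left term of an exact sequence with acyclic middle and right terms -/
theorem YPerf.sub_left {S : ShortComplex C} (hS : S.ShortExact) {A : C}
    (h2 : ∀ p : ℕ, Subsingleton (Ext.{w} A S.X₂ p))
    (h3 : ∀ p : ℕ, Subsingleton (Ext.{w} A S.X₃ p)) (p : ℕ) :
    Subsingleton (Ext.{w} A S.X₁ p) := by
  rcases p with _ | p
  · have := hS.mono_f
    have := h2 0
    exact (Ext.postcomp_mk₀_injective_of_mono A S.f).subsingleton
  · have h : ∀ z : Ext.{w} A S.X₁ (p + 1), z = 0 := by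
      intro z
      obtain ⟨x, hx⟩ := Ext.covariant_sequence_exact₁ A hS z
        (@Subsingleton.elim _ (h2 (p + 1)) _ _) rfl
      rw [← hx, @Subsingleton.elim _ (h3 p) x 0, Ext.zero_comp]
    exact ⟨fun x y => by rw [h x, h y]⟩

end

section

variable {k : Type t} [Field k] {C : Type u} [Category.{v} C] [Abelian C] [Linear k C]
  [HasExt.{w} C] {X Y : C} {n : ℕ} {t : Ext.{w} X Y n →ₗ[k] k}

/-- acyclic objects have duality -/
theorem PairDual.of_acyclic {B : C} (hX : ∀ p, Subsingleton (Ext.{w} X B p))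
    (hY : ∀ q, Subsingleton (Ext.{w} B Y q)) : PairDual t B := by
  refine PairDual.of ?_ ?_ ?_ (fun p _ => hX p) (fun q _ => hY q)
  · intro p
    have := hX p
    infer_instance
  · intro p q _ y _
    exact @Subsingleton.elim _ (hY q) _ _
  · intro p q _ φ
    refine ⟨0, fun x => ?_⟩
    rw [@Subsingleton.elim _ (hX p) x 0]
    simp

/-- sums have duality -/
theorem PairDual.biprod {B B' : C} (h : PairDual t B) (h' : PairDual t B') :
    PairDual t (B ⊞ B') := by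
  have hS := (ShortComplex.Splitting.ofHasBinaryBiproduct B B').shortExact
  exact PairDual.second hS h h'

end

section

variable {C : Type u} [Category.{v} C] [Abelian C] [HasExt.{w} C] [HasShift C (ℤ × ℤ)]
    [∀ a : ℤ × ℤ, (shiftFunctor C a).Additive]

open YVan YPerf

namespace YBase

variable (Y : YBase.{w} C)

/-- Ext between line bundles -/
theorem sub_line (a b c : ℤ × ℤ) (h : c + a = b) (p : ℕ)
    (hs : Subsingleton (Ext.{w} Y.O (Y.O⟦c⟧) p)) :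
    Subsingleton (Ext.{w} (Y.O⟦a⟧) (Y.O⟦b⟧) p) :=
  sub_iso (add Y.O c a b h) (subsingleton_map_of_equiv (shiftFunctor C a) p Y.O (Y.O⟦c⟧))

/-- the restrictions of the line bundles to the curve at infinity -/
theorem nonempty_D' (n m : ℤ) : Nonempty (Y.D.X₃⟦(n, m)⟧ ≅ Y.D.X₃⟦((0 : ℤ), m + 2 * n)⟧) := by
  obtain ⟨n', hn⟩ : ∃ n' : ℕ, n = n' ∨ n = -(n' : ℤ) := Int.eq_nat_or_neg n
  rcases hn with rfl | rfl
  · exact Y.nonempty_D n' m
  · obtain ⟨e⟩ := Y.nonempty_D n' (m - 2 * n')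
    have e1 := (shiftFunctor C (-(n' : ℤ), (0 : ℤ))).mapIso e
    have e2 := (add Y.D.X₃ ((n' : ℤ), m - 2 * n') (-(n' : ℤ), (0 : ℤ))
      ((0 : ℤ), m - 2 * n') (by ext <;> simp)).symm ≪≫ e1 ≪≫
      add Y.D.X₃ ((0 : ℤ), m - 2 * n' + 2 * n') (-(n' : ℤ), (0 : ℤ)) (-(n' : ℤ), m)
        (by ext <;> simp)
    refine ⟨e2.symm ≪≫ eqToIso ?_⟩
    congr 2
    ring_nf

/-- O_(C_inf)(-f) is acyclic -/
theorem acyclic_D (p : ℕ) : Subsingleton (Ext.{w} Y.O (Y.D.X₃⟦((0 : ℤ), (-1 : ℤ))⟧) p) := by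
  obtain ⟨S, hS, ⟨e1⟩, ⟨e2⟩, ⟨e3⟩⟩ := Y.exD ((0 : ℤ), (-1 : ℤ)) ((-1 : ℤ), (-1 : ℤ)) (by simp)
  exact sub_iso e3 (sub_right hS (sub_iso e2.symm (Y.hF p)) (sub_iso e1.symm (Y.hC _ (p + 1))))

/-- O(-2 C_inf + f) is acyclic -/
theorem acyclic_two (p : ℕ) : Subsingleton (Ext.{w} Y.O (Y.O⟦((-2 : ℤ), (1 : ℤ))⟧) p) := by
  obtain ⟨S, hS, ⟨e1⟩, ⟨e2⟩, ⟨e3⟩⟩ := Y.exD ((-1 : ℤ), (1 : ℤ)) ((-2 : ℤ), (1 : ℤ)) (by simp)
  obtain ⟨e⟩ := Y.nonempty_D' (-1) 1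
  exact sub_iso e1 (sub_left hS (fun p => sub_iso e2.symm (Y.hC 1 p))
    (fun p => sub_iso (e3 ≪≫ e).symm (Y.acyclic_D p)) p)

/-- the twists of the Koszul sequence -/
theorem exK (m : ℤ) : ∃ S : ShortComplex C, S.ShortExact ∧
    Nonempty (S.X₁ ≅ Y.O⟦((0 : ℤ), m)⟧) ∧
    Nonempty (S.X₂ ≅ (Y.O⟦((0 : ℤ), m + 1)⟧) ⊞ (Y.O⟦((0 : ℤ), m + 1)⟧)) ∧
      Nonempty (S.X₃ ≅ Y.O⟦((0 : ℤ), m + 2)⟧) := by
  have : PreservesBinaryBiproducts (shiftFunctor C ((0 : ℤ), m + 2)) :=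
    preservesBinaryBiproducts_of_preservesBinaryProducts _
  exact ⟨Y.K.map (shiftFunctor C ((0 : ℤ), m + 2)), se_shift _ Y.hK,
    ⟨(shiftFunctor C ((0 : ℤ), m + 2)).mapIso Y.eK₁ ≪≫ add Y.O _ _ _ (by ext <;> simp)⟩,
    ⟨(shiftFunctor C ((0 : ℤ), m + 2)).mapIso Y.eK₂ ≪≫
      (shiftFunctor C ((0 : ℤ), m + 2)).mapBiprod _ _ ≪≫
      biprod.mapIso (add Y.O _ _ _ (by ext <;> simp; ring))
        (add Y.O _ _ _ (by ext <;> simp; ring))⟩,
    ⟨(shiftFunctor C ((0 : ℤ), m + 2)).mapIso Y.eK₃⟩⟩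

end YBase

end

section

variable {k : Type t} [Field k] {C : Type u} [Category.{v} C] [Abelian C] [HasExt.{w} C]
    [HasShift C (ℤ × ℤ)] [∀ a : ℤ × ℤ, (shiftFunctor C a).Additive] [Linear k C]
    [∀ a : ℤ × ℤ, (shiftFunctor C a).Linear k]

variable (Y : YCat.{w} k C)

open YVan

namespace YCat

/-- endomorphisms of O are scalars -/
lemma hom_scalar (x : Ext.{w} Y.O Y.O 0) : ∃ c : k, x = c • Ext.mk₀ (𝟙 Y.O) := by
  have h0 : (𝟙 Y.O : Y.O ⟶ Y.O) ≠ 0 := by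
    intro h
    have h1 : Subsingleton (Y.O ⟶ Y.O) :=
      ⟨fun f g => by rw [← Category.comp_id f, ← Category.comp_id g, h, comp_zero, comp_zero]⟩
    have h2 := Y.homO
    rw [Module.finrank_zero_of_subsingleton] at h2
    exact absurd h2 (by norm_num)
  obtain ⟨f, rfl⟩ := (Ext.mk₀_bijective _ _).2 x
  obtain ⟨c, hc⟩ := exists_smul_eq_of_finrank_eq_one Y.homO h0 f
  exact ⟨c, by rw [← hc, Ext.mk₀_smul]⟩

variable (t : Ext.{w} Y.O (Y.O⟦((-2 : ℤ), (0 : ℤ))⟧) 2 →ₗ[k] k) (ht : t ≠ 0)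

include ht

lemma t_inj (y : Ext.{w} Y.O (Y.O⟦((-2 : ℤ), (0 : ℤ))⟧) 2) (hy : t y = 0) : y = 0 := by
  by_contra hne
  apply ht
  ext z
  obtain ⟨c, rfl⟩ := exists_smul_eq_of_finrank_eq_one Y.finrank_omega.1 hne z
  rw [map_smul, hy, smul_zero, LinearMap.zero_apply]

lemma t_surj (c : k) : ∃ y, t y = c := by
  obtain ⟨z, hz⟩ : ∃ z, t z ≠ 0 := by
    by_contra h
    push Not at h
    exact ht (LinearMap.ext h)
  exact ⟨(c / t z) • z, by rw [map_smul, smul_eq_mul, div_mul_cancel₀ _ hz]⟩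

/-- duality of O and O -/
theorem pairDual_O : PairDual t Y.O := by
  obtain ⟨-, hω⟩ := Y.finrank_omega
  refine PairDual.of ?_ ?_ ?_ ?_ ?_
  · intro p
    rcases p with _ | p
    · have h1 : Ext.{w} Y.O Y.O 0 ≃ₗ[k] (Y.O ⟶ Y.O) := Ext.linearEquiv₀
      have := Module.finite_of_finrank_eq_succ Y.homO
      exact Module.Finite.equiv h1.symm
    · have := Y.hO (p + 1) (by omega)
      infer_instance
  · intro p q hpq y hy
    by_cases hq : q = 2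
    · subst hq
      obtain rfl : p = 0 := by omega
      have h1 := hy (Ext.mk₀ (𝟙 _))
      rw [Ext.mk₀_id_comp] at h1
      exact Y.t_inj t ht y h1
    · exact @Subsingleton.elim _ (hω q hq) _ _
  · intro p q hpq φ
    rcases p with _ | p
    · obtain rfl : q = 2 := by omega
      obtain ⟨y, hy⟩ := Y.t_surj t ht (φ (Ext.mk₀ (𝟙 _)))
      refine ⟨y, fun x => ?_⟩
      obtain ⟨c, rfl⟩ := Y.hom_scalar x
      rw [Ext.smul_comp, Ext.mk₀_id_comp, map_smul, map_smul, hy]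
    · refine ⟨0, fun x => ?_⟩
      rw [@Subsingleton.elim _ (Y.hO (p + 1) (by omega)) x 0]
      simp
  · intro p hp
    exact Y.hO p (by omega)
  · intro q hq
    exact hω q (by omega)

/-- duality of O and O(m f) -/
theorem pairDual_f (m : ℤ) : PairDual t (Y.O⟦((0 : ℤ), m)⟧) := by
  have h0 : PairDual t (Y.O⟦((0 : ℤ), (0 : ℤ))⟧) :=
    (Y.pairDual_O t ht).of_iso (zer Y.O ((0 : ℤ), (0 : ℤ)) rfl).symm
  have h1 : PairDual t (Y.O⟦((0 : ℤ), (-1 : ℤ))⟧) :=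
    PairDual.of_acyclic Y.hF fun q => Y.sub_line _ _ ((-2 : ℤ), (1 : ℤ)) (by simp) q
      (Y.acyclic_two q)
  suffices h : ∀ m : ℤ, PairDual t (Y.O⟦((0 : ℤ), m)⟧) ∧ PairDual t (Y.O⟦((0 : ℤ), m + 1)⟧) from
    (h m).1
  intro m
  induction m using Int.induction_on with
  | zero =>
    refine ⟨h0, ?_⟩
    obtain ⟨S, hS, ⟨e1⟩, ⟨e2⟩, ⟨e3⟩⟩ := Y.exK (-1)
    have := PairDual.third hS (h1.of_iso e1.symm)
      ((PairDual.biprod h0 h0).of_iso (B' := S.X₂) e2.symm)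
    exact this.of_iso e3
  | succ i ih =>
    refine ⟨ih.2, ?_⟩
    obtain ⟨S, hS, ⟨e1⟩, ⟨e2⟩, ⟨e3⟩⟩ := Y.exK i
    have := PairDual.third hS (ih.1.of_iso e1.symm)
      ((PairDual.biprod ih.2 ih.2).of_iso (B' := S.X₂) e2.symm)
    refine this.of_iso (e3 ≪≫ eqToIso ?_)
    congr 2
  | pred i ih =>
    have e4 : PairDual t (Y.O⟦((0 : ℤ), -(i : ℤ) - 1 + 1)⟧) := by
      refine ih.1.of_iso (eqToIso ?_)
      congr 2
      ring_nf
    refine ⟨?_, e4⟩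
    obtain ⟨S, hS, ⟨e1⟩, ⟨e2⟩, ⟨e3⟩⟩ := Y.exK (-(i : ℤ) - 1)
    have h5 : PairDual t (Y.O⟦((0 : ℤ), -(i : ℤ) - 1 + 2)⟧) := by
      refine ih.2.of_iso (eqToIso ?_)
      congr 2
      ring_nf
    have := PairDual.first hS ((PairDual.biprod e4 e4).of_iso (B' := S.X₂) e2.symm)
      (h5.of_iso e3.symm)
    exact this.of_iso e1

/-- duality of O and the line bundles on the curve at infinity -/
theorem pairDual_D (n m : ℤ) : PairDual t (Y.D.X₃⟦(n, m)⟧) := by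
  have h : ∀ m : ℤ, PairDual t (Y.D.X₃⟦((0 : ℤ), m)⟧) := by
    intro m
    obtain ⟨S, hS, ⟨e1⟩, ⟨e2⟩, ⟨e3⟩⟩ := Y.exD ((0 : ℤ), m) ((-1 : ℤ), m) (by simp)
    have h1 : PairDual t (Y.O⟦((-1 : ℤ), m)⟧) :=
      PairDual.of_acyclic (Y.hC m) fun q => Y.sub_line _ _ ((-1 : ℤ), -m) (by simp) q
        (Y.hC (-m) q)
    exact (PairDual.third hS (h1.of_iso e1.symm) ((Y.pairDual_f t ht m).of_iso e2.symm)).of_iso e3
  obtain ⟨e⟩ := Y.nonempty_D' n m
  exact (h _).of_iso e.symm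

/-- duality of O and all line bundles -/
theorem pairDual_line (a : ℤ × ℤ) : PairDual t (Y.O⟦a⟧) := by
  obtain ⟨n, m⟩ := a
  induction n using Int.induction_on with
  | zero => exact Y.pairDual_f t ht m
  | succ i ih =>
    obtain ⟨S, hS, ⟨e1⟩, ⟨e2⟩, ⟨e3⟩⟩ := Y.exD ((i : ℤ) + 1, m) ((i : ℤ), m) (by ext <;> simp)
    exact (PairDual.second hS (ih.of_iso e1.symm)
      ((Y.pairDual_D t ht _ m).of_iso e3.symm)).of_iso e2
  | pred i ih =>
    obtain ⟨S, hS, ⟨e1⟩, ⟨e2⟩, ⟨e3⟩⟩ := Y.exD (-(i : ℤ), m) (-(i : ℤ) - 1, m)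
      (by ext <;> simp; ring)
    exact (PairDual.first hS (ih.of_iso e2.symm)
      ((Y.pairDual_D t ht _ m).of_iso e3.symm)).of_iso e1

/-- V8 (file Abs/YPerf.lean): the pairing of O with every line bundle is perfect -/
theorem perf_line (a : ℤ × ℤ) (p q : ℕ) (h : p + q = 2) :
    (serrePairing k t (Y.O⟦a⟧) p q h).IsPerfPair :=
  (Y.pairDual_line t ht a).perf p q h

end YCat

end

end Fdim
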