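import Pool.Agent.Work.MP_f714fc_ag.Abs.YPerf
import Pool.Agent.Work.MP_f714fc_ag.Abs.SerreSum
import Pool.Agent.Work.MP_f714fc_ag.Abs.ExtAdj

/-!
MP_f714fc_ag.  Serre duality on the surface Y_c (V9 of YTasks).
-/

open CategoryTheory CategoryTheory.Abelian CategoryTheory.Limits

attribute [-instance] CategoryTheory.catToReflQuiver

universe w v u t s

namespace Fdim

section

variable {k : Type t} [Field k] {C : Type u} [Category.{v} C] [Abelian C] [Linear k C]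
  [HasExt.{w} C] {X Y : C} {n : ℕ} {t : Ext.{w} X Y n →ₗ[k] k}

omit [Linear k C] [Field k] [HasExt.{w} C] in
/-- a finite sum of copies of a basic object -/
theorem nonempty_basicSum {ι : Type s} {L : ι → C} (i : ι) {E : C} (h : IsSumOf (L i) E) :
    Nonempty (BasicSum L E) := by
  obtain ⟨r, inc, pr, h1, h2, h3⟩ := h
  exact ⟨{ J := Fin r, f := fun _ => i, inc := inc, pr := pr, inc_pr := h1, inc_pr_ne := h2,
           total := h3 }⟩

omit [Linear k C] [Field k] in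
/-- the groups Ext from a finite sum -/
theorem subsingleton_ext_isSumOf {L E A : C} (hE : IsSumOf L E) {q : ℕ}
    (h : Subsingleton (Ext.{w} L A q)) : Subsingleton (Ext.{w} E A q) := by
  obtain ⟨r, inc, pr, -, -, hsum⟩ := hE
  suffices ∀ y : Ext.{w} E A q, y = 0 from ⟨fun a b => (this a).trans (this b).symm⟩
  intro y
  have hY : ∑ i, (Ext.mk₀ (pr i)).comp
      ((Ext.mk₀ (inc i)).comp y (zero_add q)) (zero_add q) = y := by
    simp only [Ext.mk₀_comp_mk₀_assoc]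
    rw [← ext_sum_comp, ← mk₀_sum, hsum, Ext.mk₀_id_comp]
  rw [← hY]
  refine Finset.sum_eq_zero fun i _ => ?_
  rw [Subsingleton.elim ((Ext.mk₀ (inc i)).comp y (zero_add q)) 0, Ext.comp_zero]

/-- finite sums of copies of an object with duality have duality -/
theorem PairDual.of_isSumOf {L E : C} (h : PairDual t L) (hE : IsSumOf L E) : PairDual t E := by
  obtain ⟨r, inc, pr, -, -, hsum⟩ := hE
  have hX : ∀ {p : ℕ} (x : Ext.{w} X E p), ∑ i, (x.comp (Ext.mk₀ (pr i)) (add_zero p)).comp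
      (Ext.mk₀ (inc i)) (add_zero p) = x := by
    intro p x
    simp only [Ext.comp_assoc_of_third_deg_zero, Ext.mk₀_comp_mk₀]
    rw [← ext_comp_sum, ← mk₀_sum, hsum, Ext.comp_mk₀_id]
  have hY : ∀ {q : ℕ} (y : Ext.{w} E Y q), ∑ i, (Ext.mk₀ (pr i)).comp
      ((Ext.mk₀ (inc i)).comp y (zero_add q)) (zero_add q) = y := by
    intro q y
    simp only [Ext.mk₀_comp_mk₀_assoc]
    rw [← ext_sum_comp, ← mk₀_sum, hsum, Ext.mk₀_id_comp]
  refine PairDual.of ?_ ?_ ?_ ?_ ?_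
  · intro p
    have := h.fin p
    let F : (Fin r → Ext.{w} X L p) →ₗ[k] Ext.{w} X E p :=
      ∑ i, (Ext.postcompOfLinear (Ext.mk₀ (inc i)) k X (add_zero p)).comp (LinearMap.proj i)
    have hF : ∀ x, F x = ∑ i, (x i).comp (Ext.mk₀ (inc i)) (add_zero p) := by
      intro x
      simp [F, LinearMap.sum_apply]
    refine Module.Finite.of_surjective F fun x => ?_
    exact ⟨fun i => x.comp (Ext.mk₀ (pr i)) (add_zero p), by rw [hF, hX]⟩
  · intro p q hpq y hy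
    rw [← hY y]
    refine Finset.sum_eq_zero fun i _ => ?_
    have : (Ext.mk₀ (inc i)).comp y (zero_add q) = 0 := by
      apply h.inj p q hpq
      intro x
      rw [← Ext.comp_assoc_of_second_deg_zero]
      exact hy _
    rw [this, Ext.comp_zero]
  · intro p q hpq φ
    choose y hy using fun i => h.surj p q hpq
      (φ.comp (Ext.postcompOfLinear (Ext.mk₀ (inc i)) k X (add_zero p)))
    refine ⟨∑ i, (Ext.mk₀ (pr i)).comp (y i) (zero_add q), fun x => ?_⟩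
    rw [ext_comp_sum, map_sum]
    have h1 : ∀ i, t (x.comp ((Ext.mk₀ (pr i)).comp (y i) (zero_add q)) hpq) =
        φ ((x.comp (Ext.mk₀ (pr i)) (add_zero p)).comp (Ext.mk₀ (inc i)) (add_zero p)) := by
      intro i
      rw [← Ext.comp_assoc_of_second_deg_zero, hy i]
      rfl
    rw [Finset.sum_congr rfl fun i _ => h1 i, ← map_sum, hX]
  · intro p hp
    have := h.vanX p hp
    suffices ∀ x : Ext.{w} X E p, x = 0 from ⟨fun a b => (this a).trans (this b).symm⟩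
    intro x
    rw [← hX x]
    refine Finset.sum_eq_zero fun i _ => ?_
    rw [Subsingleton.elim (x.comp (Ext.mk₀ (pr i)) (add_zero p)) 0, Ext.zero_comp]
  · intro q hq
    have := h.vanY q hq
    suffices ∀ y : Ext.{w} E Y q, y = 0 from ⟨fun a b => (this a).trans (this b).symm⟩
    intro y
    rw [← hY y]
    refine Finset.sum_eq_zero fun i _ => ?_
    rw [Subsingleton.elim ((Ext.mk₀ (inc i)).comp y (zero_add q)) 0, Ext.comp_zero]

end

section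

variable {k : Type t} [Field k] {C : Type u} [Category.{v} C] [Abelian C] [HasExt.{w} C]
    [HasShift C (ℤ × ℤ)] [∀ a : ℤ × ℤ, (shiftFunctor C a).Additive] [Linear k C]
    [∀ a : ℤ × ℤ, (shiftFunctor C a).Linear k]

variable (Y : YCat.{w} k C)

open YVan

namespace YCat

/-- the action of sections is natural -/
lemma act_nat {A B : C} (f : A ⟶ B) {c : ℤ × ℤ} (s : ShiftedHom Y.O Y.O c) :
    f ≫ Y.act c B s = Y.act c A s ≫ f⟦c⟧' := by
  have h := Y.central (ShiftedHom.mk₀ (0 : ℤ × ℤ) rfl f) s (add_zero c) (zero_add c)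
  rw [ShiftedHom.mk₀_comp, ShiftedHom.comp_mk₀] at h
  exact h

/-- the action of a section as a natural transformation -/
noncomputable def actNT {c : ℤ × ℤ} (s : ShiftedHom Y.O Y.O c) : 𝟭 C ⟶ shiftFunctor C c where
  app A := Y.act c A s
  naturality _ _ f := Y.act_nat f s

/-- the action on a shift -/
lemma act_shift (A : C) (c d : ℤ × ℤ) (s : ShiftedHom Y.O Y.O c) :
    Y.act c (A⟦d⟧) s = (Y.act c A s)⟦d⟧' ≫ (shiftComm A c d).hom := by
  have h := Y.central (A := A⟦d⟧) (B := A) (b := d) (c := c + d) (𝟙 (A⟦d⟧)) s rfl (add_comm d c)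
  simp only [ShiftedHom.comp, Category.id_comp, CategoryTheory.Functor.map_id] at h
  have h2 : (shiftComm A c d).hom = (shiftFunctorAdd' C c d (c + d) rfl).inv.app A ≫
      (shiftFunctorAdd' C d c (c + d) (add_comm d c)).hom.app A := by
    have h3 := congrArg (fun i => i.hom.app A) (shiftFunctorComm_eq C c d (c + d) rfl)
    exact h3
  rw [h2, ← Category.assoc]
  have h4 := congrArg (fun x => x ≫ (shiftFunctorAdd' C d c (c + d) (add_comm d c)).hom.app A) h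
  simp only [Category.assoc, Iso.inv_hom_id_app] at h4
  rw [Category.assoc, h4]
  exact (Category.comp_id _).symm

variable (t : Ext.{w} Y.O (Y.O⟦((-2 : ℤ), (0 : ℤ))⟧) 2 →ₗ[k] k)

/-- duality of O and all objects -/
theorem pairDual (ht : t ≠ 0) (B : C) : PairDual t B := by
  refine PairDual.all (fun B => ?_) (fun B p hp => Y.hbd B p hp) B
  obtain ⟨n₀, h⟩ := Y.gen B
  obtain ⟨E, u, hu, hE⟩ := h n₀ le_rfl
  exact ⟨E, (Y.pairDual_line t ht (-n₀, -n₀)).of_isSumOf hE, u, hu⟩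

/-- the functional on Ext^2(O(a), omega(a)) -/
noncomputable def tau (a : ℤ × ℤ) :
    Ext.{w} (Y.O⟦a⟧) ((shiftFunctor C ((-2 : ℤ), (0 : ℤ))).obj (Y.O⟦a⟧)) 2 →ₗ[k] k :=
  (t.comp (extEquiv (k := k) (shiftFunctor C a) Y.O
    (Y.O⟦((-2 : ℤ), (0 : ℤ))⟧) 2).symm.toLinearMap).comp
    (Ext.postcompOfLinear (Ext.mk₀ (shiftComm Y.O a ((-2 : ℤ), (0 : ℤ))).hom) k _ (add_zero 2))

lemma tau_eq (a : ℤ × ℤ)
    (ξ : Ext.{w} (Y.O⟦a⟧) ((shiftFunctor C ((-2 : ℤ), (0 : ℤ))).obj (Y.O⟦a⟧)) 2)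
    (η : Ext.{w} Y.O (Y.O⟦((-2 : ℤ), (0 : ℤ))⟧) 2)
    (h : ξ.comp (Ext.mk₀ (shiftComm Y.O a ((-2 : ℤ), (0 : ℤ))).hom) (add_zero 2) =
      η.mapExactFunctor (shiftFunctor C a)) : Y.tau t a ξ = t η := by
  have h1 : Y.tau t a ξ = t ((extEquiv (k := k) (shiftFunctor C a) Y.O
    (Y.O⟦((-2 : ℤ), (0 : ℤ))⟧) 2).symm (ξ.comp (Ext.mk₀
      (shiftComm Y.O a ((-2 : ℤ), (0 : ℤ))).hom) (add_zero 2))) := rfl
  rw [h1, h]
  congr 1
  exact (extEquiv (k := k) (shiftFunctor C a) Y.O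
    (Y.O⟦((-2 : ℤ), (0 : ℤ))⟧) 2).symm_apply_apply η

/-- duality of O(a) and all objects -/
theorem pairDual_tau (ht : t ≠ 0) (a : ℤ × ℤ) (B : C) : PairDual (Y.tau t a) B := by
  have h1 := (Y.pairDual t ht ((shiftFunctor C a).objPreimage B)).map (shiftFunctor C a)
    (t.comp (extEquiv (k := k) (shiftFunctor C a) Y.O
      (Y.O⟦((-2 : ℤ), (0 : ℤ))⟧) 2).symm.toLinearMap) (fun ξ => by
      rw [LinearMap.comp_apply]
      congr 1
      exact (extEquiv (k := k) (shiftFunctor C a) Y.O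
        (Y.O⟦((-2 : ℤ), (0 : ℤ))⟧) 2).symm_apply_apply ξ)
  have h2 := h1.of_iso ((shiftFunctor C a).objObjPreimageIso B)
  refine h2.congr (Iso.refl _) (shiftComm Y.O a ((-2 : ℤ), (0 : ℤ))).symm _ fun ξ => ?_
  rw [Iso.refl_hom, Ext.mk₀_id_comp]
  rfl

/-- the twist of a section acts like the section -/
lemma cyc_zero {c : ℤ × ℤ} (s : Y.O ⟶ Y.O⟦c⟧)
    (ξ : Ext.{w} (Y.O⟦c⟧) (Y.O⟦((-2 : ℤ), (0 : ℤ))⟧) 2) :
    ((Ext.mk₀ s).comp ξ (zero_add 2)).mapExactFunctor (shiftFunctor C c) =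
      ξ.comp (Ext.mk₀ (s⟦((-2 : ℤ), (0 : ℤ))⟧' ≫
        (shiftComm Y.O c ((-2 : ℤ), (0 : ℤ))).hom)) (add_zero 2) := by
  have h1 : s⟦c⟧' = Y.act c (Y.O⟦c⟧) s := by
    have h := Y.act_shift Y.O c c s
    have h2 : (shiftComm Y.O c c).hom = 𝟙 _ := by
      have h3 := congrArg (fun i => i.hom.app Y.O) (shiftFunctorComm_eq_refl C c)
      exact h3
    rw [h2, Y.act_O, Category.comp_id] at h
    exact h.symm
  have h2 : s⟦((-2 : ℤ), (0 : ℤ))⟧' ≫ (shiftComm Y.O c ((-2 : ℤ), (0 : ℤ))).hom =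
      Y.act c (Y.O⟦((-2 : ℤ), (0 : ℤ))⟧) s := by
    rw [Y.act_shift, Y.act_O]
  have h3 := mapExactFunctor_natTrans (Y.actNT s) ξ
  rw [mapExactFunctor_id] at h3
  rw [Ext.mapExactFunctor_comp, Ext.mapExactFunctor_mk₀, h1, h2]
  exact h3.symm

omit [HasExt.{w} C] [∀ a : ℤ × ℤ, (shiftFunctor C a).Additive] [Linear k C]
    [∀ a : ℤ × ℤ, (shiftFunctor C a).Linear k] [Abelian C] [Field k] in
lemma comm_inv (X : C) (i j : ℤ × ℤ) :
    (shiftFunctorComm C j i).hom.app X = (shiftComm X i j).inv := by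
  rw [← shiftFunctorComm_symm]
  rfl

/-- cyclicity of the functionals -/
lemma cyc (a b : ℤ × ℤ) (u : Y.O⟦a⟧ ⟶ Y.O⟦b⟧)
    (ξ : Ext.{w} (Y.O⟦b⟧) ((shiftFunctor C ((-2 : ℤ), (0 : ℤ))).obj (Y.O⟦a⟧)) 2) :
    Y.tau t b (ξ.comp (Ext.mk₀ ((shiftFunctor C ((-2 : ℤ), (0 : ℤ))).map u)) (add_zero 2)) =
      Y.tau t a ((Ext.mk₀ u).comp ξ (zero_add 2)) := by
  obtain ⟨c, rfl⟩ : ∃ c : ℤ × ℤ, b = c + a := ⟨b - a, by abel⟩
  let f : Y.O⟦c + a⟧ ≅ (Y.O⟦c⟧)⟦a⟧ := (shiftFunctorAdd C c a).app Y.O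
  obtain ⟨s, hs⟩ := (shiftFunctor C a).map_surjective (u ≫ f.hom)
  obtain ⟨ξ0, hξ0⟩ := mapExt_surjective_of_equiv (shiftFunctor C a) 2 (Y.O⟦c⟧)
    (Y.O⟦((-2 : ℤ), (0 : ℤ))⟧) ((Ext.mk₀ f.inv).comp (ξ.comp (Ext.mk₀
      (shiftComm Y.O a ((-2 : ℤ), (0 : ℤ))).hom) (add_zero 2)) (zero_add 2))
  have hf : (Ext.mk₀ f.hom).comp (ξ0.mapExactFunctor (shiftFunctor C a)) (zero_add 2) =
      ξ.comp (Ext.mk₀ (shiftComm Y.O a ((-2 : ℤ), (0 : ℤ))).hom) (add_zero 2) := by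
    rw [hξ0, Ext.mk₀_comp_mk₀_assoc, f.hom_inv_id, Ext.mk₀_id_comp]
  obtain ⟨η, hη⟩ : ∃ η, η = (Ext.mk₀ s).comp ξ0 (zero_add 2) := ⟨_, rfl⟩
  have hη' := Y.cyc_zero s ξ0
  rw [← hη] at hη'
  rw [Y.tau_eq t a _ η ?_]
  · refine Y.tau_eq t (c + a) _ _ ?_
    have h1 := mapExactFunctor_natTrans (shiftFunctorAdd C c a).hom η
    rw [mapExactFunctor_comp_functor, hη', Ext.mapExactFunctor_comp,
      Ext.mapExactFunctor_mk₀, ← Ext.comp_assoc_of_third_deg_zero] at h1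
    have h2 : (Ext.mk₀ ((shiftFunctorAdd C c a).hom.app Y.O)).comp
      (ξ0.mapExactFunctor (shiftFunctor C a)) (zero_add 2) =
      ξ.comp (Ext.mk₀ (shiftComm Y.O a ((-2 : ℤ), (0 : ℤ))).hom) (add_zero 2) := hf
    rw [h2, Ext.comp_assoc_of_third_deg_zero, Ext.mk₀_comp_mk₀] at h1
    have h4 : (shiftComm Y.O (c + a) ((-2 : ℤ), (0 : ℤ))).hom ≫
        (shiftFunctorAdd C c a).hom.app (Y.O⟦((-2 : ℤ), (0 : ℤ))⟧) =
        (shiftFunctor C ((-2 : ℤ), (0 : ℤ))).map f.hom ≫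
          (shiftComm (Y.O⟦c⟧) a ((-2 : ℤ), (0 : ℤ))).hom ≫
          (shiftFunctor C a).map (shiftComm Y.O c ((-2 : ℤ), (0 : ℤ))).hom := by
      have h5 := shiftFunctorComm_hom_app_comp_shift_shiftFunctorAdd_hom_app
        ((-2 : ℤ), (0 : ℤ)) c a Y.O
      rw [comm_inv, comm_inv, comm_inv] at h5
      have h6 := congrArg (fun x => (shiftComm Y.O (c + a) ((-2 : ℤ), (0 : ℤ))).hom ≫ x ≫
        (shiftComm (Y.O⟦c⟧) a ((-2 : ℤ), (0 : ℤ))).hom ≫
          (shiftFunctor C a).map (shiftComm Y.O c ((-2 : ℤ), (0 : ℤ))).hom) h5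
      simp only [Category.assoc, Iso.hom_inv_id_assoc, Iso.inv_hom_id_assoc] at h6
      rw [← Functor.map_comp, Iso.inv_hom_id, CategoryTheory.Functor.map_id] at h6
      refine Eq.trans ?_ h6.symm
      exact congrArg (fun x => _ ≫ x) (Category.comp_id _).symm
    have h3 : (shiftFunctor C ((-2 : ℤ), (0 : ℤ))).map u ≫
        (shiftComm Y.O (c + a) ((-2 : ℤ), (0 : ℤ))).hom ≫
        (shiftFunctorAdd C c a).hom.app (Y.O⟦((-2 : ℤ), (0 : ℤ))⟧) =
        (shiftComm Y.O a ((-2 : ℤ), (0 : ℤ))).hom ≫ (shiftFunctor C a).map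
          (s⟦((-2 : ℤ), (0 : ℤ))⟧' ≫ (shiftComm Y.O c ((-2 : ℤ), (0 : ℤ))).hom) := by
      rw [h4, Functor.map_comp, shiftComm_hom_comp_assoc, hs, Functor.map_comp, Category.assoc]
    rw [← h3] at h1
    have h8 : (shiftFunctor C ((-2 : ℤ), (0 : ℤ))).map u ≫
        (shiftComm Y.O (c + a) ((-2 : ℤ), (0 : ℤ))).hom =
        ((shiftFunctor C ((-2 : ℤ), (0 : ℤ))).map u ≫
        (shiftComm Y.O (c + a) ((-2 : ℤ), (0 : ℤ))).hom ≫
        (shiftFunctorAdd C c a).hom.app (Y.O⟦((-2 : ℤ), (0 : ℤ))⟧)) ≫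
        (shiftFunctorAdd C c a).inv.app (Y.O⟦((-2 : ℤ), (0 : ℤ))⟧) := by
      rw [Category.assoc, Category.assoc, Iso.hom_inv_id_app, Category.comp_id]
    rw [Ext.comp_assoc_of_third_deg_zero, Ext.mk₀_comp_mk₀, h8, ← Ext.mk₀_comp_mk₀,
      ← Ext.comp_assoc_of_third_deg_zero, ← h1, Ext.comp_assoc_of_third_deg_zero,
      Ext.mk₀_comp_mk₀, Iso.hom_inv_id_app, Ext.comp_mk₀_id]
  · rw [Ext.comp_assoc_of_third_deg_zero, ← hf, hη, Ext.mapExactFunctor_comp,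
      Ext.mapExactFunctor_mk₀, hs, Ext.mk₀_comp_mk₀_assoc]

/-- the pairings of line bundles and all objects -/
theorem basicDuality (ht : t ≠ 0) : BasicDuality (shiftFunctor C ((-2 : ℤ), (0 : ℤ))) 2
    (fun a : ℤ × ℤ => Y.O⟦a⟧) (Y.tau t) where
  cyc a b u ξ := Y.cyc t a b u ξ
  perf a B p q h := (Y.pairDual_tau t ht a B).perf p q h
  van a B p hp := (Y.pairDual_tau t ht a B).vanY p hp
  gen A B := by
    obtain ⟨n₀, h₀⟩ := Y.gen B
    obtain ⟨n₁, h₁⟩ := Y.van A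
    obtain ⟨E, u, hu, hE⟩ := h₀ (max n₀ n₁) (le_max_left _ _)
    refine ⟨E, nonempty_basicSum (L := fun a : ℤ × ℤ => Y.O⟦a⟧) (-(max n₀ n₁), -(max n₀ n₁)) hE,
      u, hu, fun q hq _ => ?_⟩
    refine subsingleton_ext_isSumOf hE ?_
    have h2 := h₁ (max n₀ n₁) (le_max_right _ _) q hq
    have h3 := subsingleton_map_of_equiv (shiftFunctor C (-(max n₀ n₁), -(max n₀ n₁))) q
      Y.O (A⟦(max n₀ n₁, max n₀ n₁)⟧)
    exact sub_iso (add A _ _ 0 (by ext <;> simp) ≪≫ zer A 0 rfl) h3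
  bound := by
    obtain ⟨N₀, h⟩ := Y.bd
    exact ⟨N₀, fun N hN A B => h A B N hN⟩

include Y in
/-- V9 (file Abs/YSerre.lean): **Serre duality** on Y_c -/
theorem serre : IsSerreTwist.{w} k 2 (shiftFunctor C ((-2 : ℤ), (0 : ℤ))) := by
  intro A
  obtain ⟨e⟩ := Module.nonempty_linearEquiv_of_finrank_eq_one Y.finrank_omega.1
  have ht : e.symm.toLinearMap ≠ 0 := by
    intro h
    have h1 := LinearMap.congr_fun h (e 1)
    simp at h1
  have H := Y.basicDuality e.symm.toLinearMap ht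
  obtain ⟨tr, -, htr⟩ := H.serre A
  exact ⟨tr, fun B => ⟨fun p q h => htr B p q h, fun p hp => H.van_all A B p hp⟩⟩

end YCat

end

end Fdim
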