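import Pool.Agent.Work.MP_f714fc_ag.Abs.YCat
import Pool.Agent.Work.MP_f714fc_ag.Abs.H1

/-!
MP_f714fc_ag.  Shifts (twists) are exact equivalences; the induced equivalences of the groups Ext.
-/

open CategoryTheory CategoryTheory.Abelian CategoryTheory.Limits

attribute [-instance] CategoryTheory.catToReflQuiver

universe w v u t

namespace Fdim

section

variable {C : Type u} [Category.{v} C] [Abelian C] [HasExt.{w} C] [HasShift C (ℤ × ℤ)]
    [∀ a : ℤ × ℤ, (shiftFunctor C a).Additive]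

/-- the additive equivalence of the groups Ext given by a shift -/
noncomputable def shiftExtAdd (a : ℤ × ℤ) (A B : C) (p : ℕ) :
    Ext.{w} A B p ≃+ Ext.{w} (A⟦a⟧) (B⟦a⟧) p :=
  extAddEquiv (shiftFunctor C a) (epiDom_of_isEquivalence _) A B p

lemma shiftExtAdd_apply (a : ℤ × ℤ) (A B : C) (p : ℕ) (e : Ext.{w} A B p) :
    shiftExtAdd a A B p e = e.mapExactFunctor (shiftFunctor C a) := rfl

lemma shiftExtAdd_comp (a : ℤ × ℤ) {A B D : C} {p q n : ℕ} (e : Ext.{w} A B p)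
    (f : Ext.{w} B D q) (h : p + q = n) :
    shiftExtAdd a A D n (e.comp f h) = (shiftExtAdd a A B p e).comp (shiftExtAdd a B D q f) h := by
  simp only [shiftExtAdd_apply, Ext.mapExactFunctor_comp]

lemma shiftExtAdd_mk₀ (a : ℤ × ℤ) {A B : C} (f : A ⟶ B) :
    shiftExtAdd a A B 0 (Ext.mk₀ f) = Ext.mk₀ (f⟦a⟧') := by
  rw [shiftExtAdd_apply, Ext.mapExactFunctor_mk₀]

/-- V0: shifts are exact equivalences on Ext -/
theorem subsingleton_shift (a : ℤ × ℤ) {A B : C} {p : ℕ} (h : Subsingleton (Ext.{w} A B p)) :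
    Subsingleton (Ext.{w} (A⟦a⟧) (B⟦a⟧) p) :=
  (shiftExtAdd a A B p).symm.toEquiv.subsingleton

/-- V0, converse -/
theorem subsingleton_of_shift (a : ℤ × ℤ) {A B : C} {p : ℕ}
    (h : Subsingleton (Ext.{w} (A⟦a⟧) (B⟦a⟧) p)) : Subsingleton (Ext.{w} A B p) :=
  (shiftExtAdd a A B p).toEquiv.subsingleton

omit [HasExt.{w} C] in
/-- V0b -/
theorem shortExact_shift (a : ℤ × ℤ) {S : ShortComplex C} (hS : S.ShortExact) :
    (S.map (shiftFunctor C a)).ShortExact :=
  hS.map_of_exact (shiftFunctor C a)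

omit [HasShift C (ℤ × ℤ)] [∀ a : ℤ × ℤ, (shiftFunctor C a).Additive] in
theorem subsingleton_iso {A A' B B' : C} (i : A ≅ A') (j : B ≅ B') {p : ℕ}
    (h : Subsingleton (Ext.{w} A B p)) : Subsingleton (Ext.{w} A' B' p) := by
  refine ⟨fun e e' => ?_⟩
  have key : ∀ e : Ext.{w} A' B' p, e = 0 := fun e => by
    have h1 : (Ext.mk₀ i.hom).comp (e.comp (Ext.mk₀ j.inv) (add_zero p)) (zero_add p) =
      (0 : Ext.{w} A B p) := Subsingleton.elim _ _
    have h2 := congrArg (fun x : Ext.{w} A B p =>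
      (Ext.mk₀ i.inv).comp (x.comp (Ext.mk₀ j.hom) (add_zero p)) (zero_add p)) h1
    simpa [← Ext.comp_assoc_of_second_deg_zero, Ext.mk₀_comp_mk₀] using h2
  rw [key e, key e']

end

section

variable {k : Type t} [Field k] {C : Type u} [Category.{v} C] [Abelian C] [HasExt.{w} C]
    [HasShift C (ℤ × ℤ)] [∀ a : ℤ × ℤ, (shiftFunctor C a).Additive] [Linear k C]
    [∀ a : ℤ × ℤ, (shiftFunctor C a).Linear k]

variable (k) in
/-- the linear equivalence of the groups Ext given by a shift -/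
noncomputable def shiftExt (a : ℤ × ℤ) (A B : C) (p : ℕ) :
    Ext.{w} A B p ≃ₗ[k] Ext.{w} (A⟦a⟧) (B⟦a⟧) p :=
  extLinEquiv (shiftFunctor C a) k (epiDom_of_isEquivalence _) A B p

lemma shiftExt_apply (a : ℤ × ℤ) (A B : C) (p : ℕ) (e : Ext.{w} A B p) :
    shiftExt k a A B p e = e.mapExactFunctor (shiftFunctor C a) := rfl

lemma shiftExt_comp (a : ℤ × ℤ) {A B D : C} {p q n : ℕ} (e : Ext.{w} A B p)
    (f : Ext.{w} B D q) (h : p + q = n) :
    shiftExt k a A D n (e.comp f h) = (shiftExt k a A B p e).comp (shiftExt k a B D q f) h := by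
  simp only [shiftExt_apply, Ext.mapExactFunctor_comp]

lemma shiftExt_mk₀ (a : ℤ × ℤ) {A B : C} (f : A ⟶ B) :
    shiftExt k a A B 0 (Ext.mk₀ f) = Ext.mk₀ (f⟦a⟧') := by
  rw [shiftExt_apply, Ext.mapExactFunctor_mk₀]

/-- V4: shifts preserve dimensions -/
theorem finrank_shift (a : ℤ × ℤ) (A B : C) (p : ℕ) :
    Module.finrank k (Ext.{w} (A⟦a⟧) (B⟦a⟧) p) = Module.finrank k (Ext.{w} A B p) :=
  (shiftExt k a A B p).symm.finrank_eq

/-- isomorphic objects have isomorphic groups Ext -/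
noncomputable def extIso {A A' B B' : C} (i : A ≅ A') (j : B ≅ B') (p : ℕ) :
    Ext.{w} A B p ≃ₗ[k] Ext.{w} A' B' p where
  toFun e := (Ext.mk₀ i.inv).comp (e.comp (Ext.mk₀ j.hom) (add_zero p)) (zero_add p)
  invFun e := (Ext.mk₀ i.hom).comp (e.comp (Ext.mk₀ j.inv) (add_zero p)) (zero_add p)
  map_add' e e' := by simp
  map_smul' c e := by simp
  left_inv e := by
    simp [← Ext.comp_assoc_of_second_deg_zero, Ext.mk₀_comp_mk₀]
  right_inv e := by
    simp [← Ext.comp_assoc_of_second_deg_zero, Ext.mk₀_comp_mk₀]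

omit [HasShift C (ℤ × ℤ)] [∀ a : ℤ × ℤ, (shiftFunctor C a).Additive]
  [∀ a : ℤ × ℤ, (shiftFunctor C a).Linear k] in
theorem finrank_iso {A A' B B' : C} (i : A ≅ A') (j : B ≅ B') (p : ℕ) :
    Module.finrank k (Ext.{w} A B p) = Module.finrank k (Ext.{w} A' B' p) :=
  (extIso (k := k) i j p).finrank_eq

end

end Fdim
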