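import Pool.Agent.Work.MP_f714fc_ag.Abs.YShift
import Pool.Agent.Work.MP_f714fc_ag.Abs.YCoh

/-!
MP_f714fc_ag.  V10: the spherical object on the surface Y_c with a curve C disjoint from the
curve at infinity.
-/

open CategoryTheory CategoryTheory.Abelian CategoryTheory.Limits

attribute [-instance] CategoryTheory.catToReflQuiver

universe w v u t

namespace Fdim

section gen

variable {k : Type t} [Field k] {C : Type u} [Category.{v} C] [Abelian C] [HasExt.{w} C]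
  [Linear k C]

/-- if the Ext groups to the subobject vanish, the Ext groups to the middle and to the quotient
are the same -/
noncomputable def extQuot (k : Type t) [Field k] [Linear k C] {S : ShortComplex C}
    (hS : S.ShortExact) (A : C) (p : ℕ) (h0 : Subsingleton (Ext.{w} A S.X₁ p))
    (h1 : Subsingleton (Ext.{w} A S.X₁ (p + 1))) :
    Ext.{w} A S.X₂ p ≃ₗ[k] Ext.{w} A S.X₃ p :=
  LinearEquiv.ofBijective (Ext.postcompOfLinear (Ext.mk₀ S.g) k A (add_zero p)) (by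
    constructor
    · rw [← LinearMap.ker_eq_bot, LinearMap.ker_eq_bot']
      intro x hx
      obtain ⟨y, hy⟩ := Ext.covariant_sequence_exact₂ A hS x hx
      rw [← hy, h0.elim y 0, Ext.zero_comp]
    · intro x
      obtain ⟨y, hy⟩ := Ext.covariant_sequence_exact₃ A hS x rfl (h1.elim _ _)
      exact ⟨y, hy⟩)

end gen

variable {k : Type t} [Field k] {C : Type u} [Category.{v} C] [Abelian C] [HasExt.{w} C]
    [HasShift C (ℤ × ℤ)] [∀ a : ℤ × ℤ, (shiftFunctor C a).Additive] [Linear k C]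
    [∀ a : ℤ × ℤ, (shiftFunctor C a).Linear k]

variable (Y : YCat.{w} k C)

include Y in
/-- V10: the spherical object, from the second sequence 0 -> O(-C) -> O -> E -> 0,
C = C_inf - 2f a curve disjoint from C_inf -/
theorem YCat.sphere (S : ShortComplex C) (hS : S.ShortExact)
    (e₁ : S.X₁ ≅ Y.O⟦((-1 : ℤ), (2 : ℤ))⟧) (e₂ : S.X₂ ≅ Y.O)
    (e₃ : S.X₃⟦((1 : ℤ), (0 : ℤ))⟧ ≅ S.X₃) :
    Module.finrank k (Ext.{w} S.X₃ S.X₃ 0) = 1 ∧ Subsingleton (Ext.{w} S.X₃ S.X₃ 1) ∧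
      Module.finrank k (Ext.{w} S.X₃ S.X₃ 2) = 1 ∧
      ∀ p : ℕ, 3 ≤ p → Subsingleton (Ext.{w} S.X₃ S.X₃ p) := by
  -- Ext(O, X₁) = 0
  have hX₁ : ∀ p : ℕ, Subsingleton (Ext.{w} Y.O S.X₁ p) := fun p =>
    subsingleton_iso (Iso.refl _) e₁.symm (Y.hC 2 p)
  -- Ext(O, E)
  have hOE0 : Module.finrank k (Ext.{w} Y.O S.X₃ 0) = 1 := by
    rw [← (extQuot k hS Y.O 0 (hX₁ 0) (hX₁ 1)).finrank_eq, finrank_iso (Iso.refl Y.O) e₂ 0,
      (Ext.linearEquiv₀ (R := k)).finrank_eq, Y.homO]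
  have hOE : ∀ p : ℕ, 1 ≤ p → Subsingleton (Ext.{w} Y.O S.X₃ p) := fun p hp => by
    have h2 : Subsingleton (Ext.{w} Y.O S.X₂ p) :=
      subsingleton_iso (Iso.refl _) e₂.symm (Y.hO p hp)
    exact (extQuot k hS Y.O p (hX₁ p) (hX₁ (p + 1))).symm.toEquiv.subsingleton
  -- Ext(O, E(0,-2))
  have hS' := shortExact_shift ((0 : ℤ), (-2 : ℤ)) hS
  have hX₁' : ∀ p : ℕ, Subsingleton
      (Ext.{w} Y.O (S.map (shiftFunctor C ((0 : ℤ), (-2 : ℤ)))).X₁ p) := fun p => by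
    refine subsingleton_iso (Iso.refl _) ?_ (Y.hC 0 p)
    exact (shiftFunctorAdd' C ((-1 : ℤ), (2 : ℤ)) ((0 : ℤ), (-2 : ℤ)) ((-1 : ℤ), (0 : ℤ))
      (by simp)).app Y.O ≪≫ (shiftFunctor C ((0 : ℤ), (-2 : ℤ))).mapIso e₁.symm
  have e₂' : (S.map (shiftFunctor C ((0 : ℤ), (-2 : ℤ)))).X₂ ≅ Y.O⟦((0 : ℤ), (-2 : ℤ))⟧ :=
    (shiftFunctor C ((0 : ℤ), (-2 : ℤ))).mapIso e₂
  have hOE1' : Module.finrank k (Ext.{w} Y.O (S.X₃⟦((0 : ℤ), (-2 : ℤ))⟧) 1) = 1 := by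
    have h1 := (extQuot k hS' Y.O 1 (hX₁' 1) (hX₁' 2)).finrank_eq
    rw [finrank_iso (Iso.refl Y.O) e₂' 1, Y.finrank_f2.1] at h1
    exact h1.symm
  have hOE' : ∀ p : ℕ, p ≠ 1 → Subsingleton (Ext.{w} Y.O (S.X₃⟦((0 : ℤ), (-2 : ℤ))⟧) p) :=
    fun p hp => by
      have h2 : Subsingleton (Ext.{w} Y.O (S.map (shiftFunctor C ((0 : ℤ), (-2 : ℤ)))).X₂ p) :=
        subsingleton_iso (Iso.refl _) e₂'.symm (Y.finrank_f2.2 p hp)
      exact (extQuot k hS' Y.O p (hX₁' p) (hX₁' (p + 1))).symm.toEquiv.subsingleton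
  -- Ext(X₁, E)
  have eE : S.X₃ ≅ (S.X₃⟦((0 : ℤ), (-2 : ℤ))⟧)⟦((-1 : ℤ), (2 : ℤ))⟧ :=
    (shiftFunctorCompIsoId C ((1 : ℤ), (0 : ℤ)) ((-1 : ℤ), (0 : ℤ)) (by simp)).symm.app S.X₃ ≪≫
      (shiftFunctor C ((-1 : ℤ), (0 : ℤ))).mapIso e₃ ≪≫
      (shiftFunctorAdd' C ((0 : ℤ), (-2 : ℤ)) ((-1 : ℤ), (2 : ℤ)) ((-1 : ℤ), (0 : ℤ))
        (by simp)).app S.X₃
  have hXE : ∀ p : ℕ, p ≠ 1 → Subsingleton (Ext.{w} S.X₁ S.X₃ p) := fun p hp =>
    subsingleton_iso e₁.symm eE.symm (subsingleton_shift ((-1 : ℤ), (2 : ℤ)) (hOE' p hp))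
  have hXE1 : Module.finrank k (Ext.{w} S.X₁ S.X₃ 1) = 1 := by
    rw [finrank_iso e₁ eE 1, finrank_shift, hOE1']
  -- Ext(X₂, E)
  have hX₂E : ∀ p : ℕ, 1 ≤ p → Subsingleton (Ext.{w} S.X₂ S.X₃ p) := fun p hp =>
    subsingleton_iso e₂.symm (Iso.refl _) (hOE p hp)
  have hX₂E0 : Module.finrank k (Ext.{w} S.X₂ S.X₃ 0) = 1 := by
    rw [finrank_iso e₂ (Iso.refl _) 0, hOE0]
  -- the long exact sequence
  have hsub : ∀ p : ℕ, 1 ≤ p → Subsingleton (Ext.{w} S.X₁ S.X₃ p) →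
      Subsingleton (Ext.{w} S.X₃ S.X₃ (p + 1)) := fun p hp h => by
    have key : ∀ x : Ext.{w} S.X₃ S.X₃ (p + 1), x = 0 := fun x => by
      obtain ⟨y, hy⟩ := Ext.contravariant_sequence_exact₃ hS S.X₃ x
        ((hX₂E (p + 1) (by omega)).elim _ _) (add_comm 1 p)
      rw [← hy, h.elim y 0, Ext.comp_zero]
    exact ⟨fun x y => by rw [key x, key y]⟩
  refine ⟨?_, ?_, ?_, ?_⟩
  · have h0 : Subsingleton (Ext.{w} S.X₁ S.X₃ 0) := hXE 0 (by omega)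
    have e : Ext.{w} S.X₃ S.X₃ 0 ≃ₗ[k] Ext.{w} S.X₂ S.X₃ 0 :=
      LinearEquiv.ofBijective (Ext.precompOfLinear (Ext.mk₀ S.g) k S.X₃ (zero_add 0)) (by
        have hepi := hS.epi_g
        constructor
        · rw [← LinearMap.ker_eq_bot, LinearMap.ker_eq_bot']
          intro x hx
          obtain ⟨f, rfl⟩ := (Ext.mk₀_bijective _ _).2 x
          change (Ext.mk₀ S.g).comp (Ext.mk₀ f) (zero_add 0) = 0 at hx
          rw [Ext.mk₀_comp_mk₀] at hx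
          have h1 : S.g ≫ f = 0 := (Ext.mk₀_bijective _ _).1 (hx.trans (Ext.mk₀_zero _ _).symm)
          rw [(cancel_epi S.g).1 (h1.trans comp_zero.symm), Ext.mk₀_zero]
        · intro x
          obtain ⟨y, hy⟩ := Ext.contravariant_sequence_exact₂ hS S.X₃ x (h0.elim _ _)
          exact ⟨y, hy⟩)
    rw [e.finrank_eq, hX₂E0]
  · have key : ∀ x : Ext.{w} S.X₃ S.X₃ 1, x = 0 := fun x => by
      obtain ⟨y, hy⟩ := Ext.contravariant_sequence_exact₃ hS S.X₃ x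
        ((hX₂E 1 le_rfl).elim _ _) (add_comm 1 0)
      rw [← hy, (hXE 0 (by omega)).elim y 0, Ext.comp_zero]
    exact ⟨fun x y => by rw [key x, key y]⟩
  · have e : Ext.{w} S.X₁ S.X₃ 1 ≃ₗ[k] Ext.{w} S.X₃ S.X₃ 2 :=
      LinearEquiv.ofBijective (Ext.precompOfLinear hS.extClass k S.X₃ (add_comm 1 1)) (by
        constructor
        · rw [← LinearMap.ker_eq_bot, LinearMap.ker_eq_bot']
          intro x hx
          obtain ⟨y, hy⟩ := Ext.contravariant_sequence_exact₁ hS S.X₃ x (add_comm 1 1) hx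
          rw [← hy, (hX₂E 1 le_rfl).elim y 0, Ext.comp_zero]
        · intro x
          obtain ⟨y, hy⟩ := Ext.contravariant_sequence_exact₃ hS S.X₃ x
            ((hX₂E 2 (by omega)).elim _ _) (add_comm 1 1)
          exact ⟨y, hy⟩)
    rw [← e.finrank_eq, hXE1]
  · intro p hp
    obtain ⟨q, rfl⟩ : ∃ q, p = q + 1 := ⟨p - 1, by omega⟩
    exact hsub q (by omega) (hXE q (by omega))

end Fdim
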