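import Pool.Agent.Work.MP_f714fc_ag.Abs.YCat

/-!
MP_f714fc_ag.  Statements (tasks) about YBase and YCat.  Nobody imports this file: every owner
proves the verbatim statement in the file named in the comment.
-/

open CategoryTheory CategoryTheory.Abelian CategoryTheory.Limits

attribute [-instance] CategoryTheory.catToReflQuiver

universe w v u t

namespace Fdim

section

variable {C : Type u} [Category.{v} C] [Abelian C] [HasExt.{w} C] [HasShift C (ℤ × ℤ)]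
    [∀ a : ℤ × ℤ, (shiftFunctor C a).Additive]

/-- V0 (file Abs/YShift.lean): shifts are exact equivalences on Ext -/
theorem subsingleton_shift (a : ℤ × ℤ) {A B : C} {p : ℕ} (h : Subsingleton (Ext.{w} A B p)) :
    Subsingleton (Ext.{w} (A⟦a⟧) (B⟦a⟧) p) := sorry

/-- V0b (file Abs/YShift.lean) -/
theorem shortExact_shift (a : ℤ × ℤ) {S : ShortComplex C} (hS : S.ShortExact) :
    (S.map (shiftFunctor C a)).ShortExact := sorry

variable (Y : YBase.{w} C)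

/-- V1 (file Abs/YVan.lean): cohomology of the multiples of f -/
theorem YBase.ext_f (m : ℤ) (hm : -1 ≤ m) (p : ℕ) (hp : 1 ≤ p) :
    Subsingleton (Ext.{w} Y.O (Y.O⟦((0 : ℤ), m)⟧) p) := sorry

/-- V2 (file Abs/YVan.lean): cohomology of the sheaf O_(C_inf)(m f) -/
theorem YBase.ext_D (m : ℤ) (hm : -1 ≤ m) (p : ℕ) (hp : 1 ≤ p) :
    Subsingleton (Ext.{w} Y.O (Y.D.X₃⟦((0 : ℤ), m)⟧) p) := sorry

/-- V3 (file Abs/YVan.lean): cohomology of O(n C_inf + m f), n not negative -/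
theorem YBase.ext_pos (n m : ℤ) (hn : 0 ≤ n) (hm : -1 ≤ m) (p : ℕ) (hp : 1 ≤ p) :
    Subsingleton (Ext.{w} Y.O (Y.O⟦(n, m)⟧) p) := sorry

end

section

variable {k : Type t} [Field k] {C : Type u} [Category.{v} C] [Abelian C] [HasExt.{w} C]
    [HasShift C (ℤ × ℤ)] [∀ a : ℤ × ℤ, (shiftFunctor C a).Additive] [Linear k C]
    [∀ a : ℤ × ℤ, (shiftFunctor C a).Linear k]

variable (Y : YCat.{w} k C)

/-- V4 (file Abs/YShift.lean): shifts preserve dimensions -/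
theorem finrank_shift (a : ℤ × ℤ) (A B : C) (p : ℕ) :
    Module.finrank k (Ext.{w} (A⟦a⟧) (B⟦a⟧) p) = Module.finrank k (Ext.{w} A B p) := sorry

/-- V6 (file Abs/YCoh.lean): the groups H^p(O(-2f)) -/
theorem YCat.finrank_f2 : Module.finrank k (Ext.{w} Y.O (Y.O⟦((0 : ℤ), (-2 : ℤ))⟧) 1) = 1 ∧
    ∀ p : ℕ, p ≠ 1 → Subsingleton (Ext.{w} Y.O (Y.O⟦((0 : ℤ), (-2 : ℤ))⟧) p) := sorry

/-- V7 (file Abs/YCoh.lean): cohomology of the canonical bundle -/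
theorem YCat.finrank_omega : Module.finrank k (Ext.{w} Y.O (Y.O⟦((-2 : ℤ), (0 : ℤ))⟧) 2) = 1 ∧
    ∀ p : ℕ, p ≠ 2 → Subsingleton (Ext.{w} Y.O (Y.O⟦((-2 : ℤ), (0 : ℤ))⟧) p) := sorry

/-- V8 (file Abs/YPerf.lean): the pairing of O with every line bundle is perfect -/
theorem YCat.perf_line (t : Ext.{w} Y.O (Y.O⟦((-2 : ℤ), (0 : ℤ))⟧) 2 →ₗ[k] k) (ht : t ≠ 0)
    (a : ℤ × ℤ) (p q : ℕ) (h : p + q = 2) :
    (serrePairing k t (Y.O⟦a⟧) p q h).IsPerfPair := sorry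

/-- V9 (file Abs/YSerre.lean): **Serre duality** on Y_c -/
theorem YCat.serre : IsSerreTwist.{w} k 2 (shiftFunctor C ((-2 : ℤ), (0 : ℤ))) := sorry

/-- V10 (file Abs/YSphere.lean): the spherical object, from the second sequence
0 -> O(-C) -> O -> E -> 0, C = C_inf - 2f a curve disjoint from C_inf -/
theorem YCat.sphere (S : ShortComplex C) (hS : S.ShortExact)
    (e₁ : S.X₁ ≅ Y.O⟦((-1 : ℤ), (2 : ℤ))⟧) (e₂ : S.X₂ ≅ Y.O)
    (e₃ : S.X₃⟦((1 : ℤ), (0 : ℤ))⟧ ≅ S.X₃) :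
    Module.finrank k (Ext.{w} S.X₃ S.X₃ 0) = 1 ∧ Subsingleton (Ext.{w} S.X₃ S.X₃ 1) ∧
      Module.finrank k (Ext.{w} S.X₃ S.X₃ 2) = 1 ∧
      ∀ p : ℕ, 3 ≤ p → Subsingleton (Ext.{w} S.X₃ S.X₃ p) := sorry

end

end Fdim
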