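import Pool.Agent.Work.MP_f714fc_ag.Abs.YVan
import Pool.Agent.Work.MP_f714fc_ag.Abs.YShift
import Pool.Agent.Work.MP_f714fc_ag.Abs.SerreVan

/-!
MP_f714fc_ag.  The passage from sheaves of modules to coherent sheaves: if `F : C ⥤ A` is exact and
fully faithful, `A` has twist data `YBase A` and `C` is generated by negative twists of the
structure sheaf, then `C` has twist data, and the groups Ext of `C` and `A` agree.
-/

open CategoryTheory CategoryTheory.Abelian CategoryTheory.Limits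

attribute [-instance] CategoryTheory.catToReflQuiver

universe w w' v v' u u' t

namespace Fdim

section lift

variable {C : Type u} [Category.{v} C] [Abelian C] {A : Type u'} [Category.{v'} A] [Abelian A]
  (F : C ⥤ A) [F.Additive] [F.Full] [F.Faithful]

/-- a short complex with objects in the image comes from a short complex of the source -/
noncomputable def liftS (S : ShortComplex A) {c₁ c₂ c₃ : C}
    (e₁ : F.obj c₁ ≅ S.X₁) (e₂ : F.obj c₂ ≅ S.X₂) (e₃ : F.obj c₃ ≅ S.X₃) : ShortComplex C where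
  X₁ := c₁
  X₂ := c₂
  X₃ := c₃
  f := F.preimage (e₁.hom ≫ S.f ≫ e₂.inv)
  g := F.preimage (e₂.hom ≫ S.g ≫ e₃.inv)
  zero := by
    apply F.map_injective
    rw [F.map_comp, F.map_preimage, F.map_preimage, F.map_zero]
    simp

/-- its image -/
noncomputable def liftSIso (S : ShortComplex A) {c₁ c₂ c₃ : C}
    (e₁ : F.obj c₁ ≅ S.X₁) (e₂ : F.obj c₂ ≅ S.X₂) (e₃ : F.obj c₃ ≅ S.X₃) :
    (liftS F S e₁ e₂ e₃).map F ≅ S :=
  ShortComplex.isoMk e₁ e₂ e₃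
    (by
      change e₁.hom ≫ S.f = F.map (F.preimage (e₁.hom ≫ S.f ≫ e₂.inv)) ≫ e₂.hom
      rw [F.map_preimage, Category.assoc, Category.assoc, e₂.inv_hom_id, Category.comp_id])
    (by
      change e₂.hom ≫ S.g = F.map (F.preimage (e₂.hom ≫ S.g ≫ e₃.inv)) ≫ e₃.hom
      rw [F.map_preimage, Category.assoc, Category.assoc, e₃.inv_hom_id, Category.comp_id])

/-- a short exact sequence of objects of the image is a sequence of the source -/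
theorem liftS_shortExact [PreservesFiniteLimits F] [PreservesFiniteColimits F]
    {S : ShortComplex A} (hS : S.ShortExact) {c₁ c₂ c₃ : C}
    (e₁ : F.obj c₁ ≅ S.X₁) (e₂ : F.obj c₂ ≅ S.X₂) (e₃ : F.obj c₃ ≅ S.X₃) :
    (liftS F S e₁ e₂ e₃).ShortExact := by
  have h1 : ((liftS F S e₁ e₂ e₃).map F).ShortExact :=
    ShortComplex.shortExact_of_iso (liftSIso F S e₁ e₂ e₃).symm hS
  have h2 : Mono (F.map (liftS F S e₁ e₂ e₃).f) := h1.mono_f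
  have h3 : Epi (F.map (liftS F S e₁ e₂ e₃).g) := h1.epi_g
  have h4 := (ShortComplex.exact_map_iff_of_faithful (liftS F S e₁ e₂ e₃) F).1 h1.exact
  exact { exact := h4, mono_f := F.mono_of_mono_map h2, epi_g := F.epi_of_epi_map h3 }

end lift

section

variable {C : Type u} [Category.{v} C] [Abelian C] [HasShift C (ℤ × ℤ)]
    {A : Type u'} [Category.{v'} A] [Abelian A] [HasExt.{w'} A] [HasShift A (ℤ × ℤ)]
    [∀ a : ℤ × ℤ, (shiftFunctor A a).Additive]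

/-- the hypotheses of the passage from `A` to `C` -/
structure Transfer (Y : YBase.{w'} A) (F : C ⥤ A) where
  O : C
  eO : F.obj O ≅ Y.O
  sh : ∀ (a : ℤ × ℤ) (B : C), Nonempty (F.obj (B⟦a⟧) ≅ (F.obj B)⟦a⟧)
  E : C
  eE : F.obj E ≅ Y.D.X₃
  gen : ∀ B : C, ∃ n₀ : ℤ, ∀ n ≥ n₀, ∃ (E : C) (u : E ⟶ B), Epi u ∧ IsSumOf (O⟦(-n, -n)⟧) E
  hbd : ∀ (B : C) (p : ℕ), 3 ≤ p → Subsingleton (Ext.{w'} Y.O (F.obj B) p)
  bd : ∃ N₀ : ℕ, ∀ (B B' : C) (p : ℕ), N₀ ≤ p → Subsingleton (Ext.{w'} (F.obj B) (F.obj B') p)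

namespace Transfer

variable {Y : YBase.{w'} A} {F : C ⥤ A} (T : Transfer Y F)

include T

lemma genLarge : GenLarge (fun n : ℤ => T.O⟦((-n : ℤ), (-n : ℤ))⟧) := by
  intro B
  obtain ⟨n₀, h⟩ := T.gen B
  refine ⟨n₀, fun n hn => ?_⟩
  obtain ⟨E, u, hu, r, inc, pr, -, -, h3⟩ := h n hn
  refine ⟨r, fun i => inc i ≫ u, fun D g hg => ?_⟩
  have h4 : u ≫ g = 0 := by
    rw [← Category.id_comp (u ≫ g), ← h3, Preadditive.sum_comp]
    refine Finset.sum_eq_zero fun i _ => ?_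
    rw [Category.assoc, ← Category.assoc (inc i) u g, hg i, comp_zero]
  rw [← cancel_epi u, h4, comp_zero]

/-- the image of a twist of the structure sheaf, twisted back -/
noncomputable def backIso (n : ℤ) :
    (F.obj (T.O⟦((-n : ℤ), (-n : ℤ))⟧))⟦((n : ℤ), (n : ℤ))⟧ ≅ Y.O :=
  (shiftFunctor A ((n : ℤ), (n : ℤ))).mapIso
      ((T.sh ((-n : ℤ), (-n : ℤ)) T.O).some ≪≫ (shiftFunctor A ((-n : ℤ), (-n : ℤ))).mapIso T.eO) ≪≫
    ((shiftFunctorAdd' A ((-n : ℤ), (-n : ℤ)) ((n : ℤ), (n : ℤ)) 0 (by simp)).symm.app _) ≪≫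
      (shiftFunctorZero A (ℤ × ℤ)).app _

/-- vanishing against a twist of the structure sheaf -/
lemma sub_twist (n : ℤ) (B : C) (p : ℕ)
    (h : Subsingleton (Ext.{w'} Y.O (F.obj (B⟦((n : ℤ), (n : ℤ))⟧)) p)) :
    Subsingleton (Ext.{w'} (F.obj (T.O⟦((-n : ℤ), (-n : ℤ))⟧)) (F.obj B) p) := by
  obtain ⟨e2⟩ := T.sh ((n : ℤ), (n : ℤ)) B
  apply subsingleton_of_shift ((n : ℤ), (n : ℤ))
  exact subsingleton_iso (T.backIso n).symm e2 h

/-- and conversely -/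
lemma sub_twist' (n : ℤ) (B : C) (p : ℕ)
    (h : Subsingleton (Ext.{w'} (F.obj (T.O⟦((-n : ℤ), (-n : ℤ))⟧)) (F.obj B) p)) :
    Subsingleton (Ext.{w'} Y.O (F.obj (B⟦((n : ℤ), (n : ℤ))⟧)) p) := by
  obtain ⟨e2⟩ := T.sh ((n : ℤ), (n : ℤ)) B
  exact subsingleton_iso (T.backIso n) e2.symm (subsingleton_shift ((n : ℤ), (n : ℤ)) h)

lemma ext_gen (m n : ℤ) (hn : m ≤ n) (p : ℕ) (hp : 1 ≤ p) :
    Subsingleton (Ext.{w'} (F.obj (T.O⟦((-n : ℤ), (-n : ℤ))⟧))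
      (F.obj (T.O⟦((-m : ℤ), (-m : ℤ))⟧)) p) := by
  apply T.sub_twist
  have h := Y.ext_pos (n - m) (n - m) (by omega) (by omega) p hp
  obtain ⟨e1⟩ := T.sh ((n : ℤ), (n : ℤ)) (T.O⟦((-m : ℤ), (-m : ℤ))⟧)
  obtain ⟨e2⟩ := T.sh ((-m : ℤ), (-m : ℤ)) T.O
  refine subsingleton_iso (Iso.refl _) ?_ h
  exact ((shiftFunctorAdd' A ((-m : ℤ), (-m : ℤ)) ((n : ℤ), (n : ℤ)) (n - m, n - m)
    (by simp only [Prod.mk_add_mk]; ring_nf)).app Y.O) ≪≫ ((shiftFunctor A ((n : ℤ), (n : ℤ))).mapIso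
      ((shiftFunctor A ((-m : ℤ), (-m : ℤ))).mapIso T.eO.symm ≪≫ e2.symm)) ≪≫ e1.symm

lemma ext_large (n : ℤ) (B : C) (p : ℕ) (hp : 3 ≤ p) :
    Subsingleton (Ext.{w'} (F.obj (T.O⟦((-n : ℤ), (-n : ℤ))⟧)) (F.obj B) p) :=
  T.sub_twist n B p (T.hbd _ p hp)

variable [F.Additive] [PreservesFiniteLimits F] [PreservesFiniteColimits F]

/-- **Serre vanishing** for the groups Ext of `A` -/
theorem van_A (B : C) : ∃ n₀ : ℤ, ∀ n ≥ n₀, ∀ p : ℕ, 1 ≤ p →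
    Subsingleton (Ext.{w'} Y.O (F.obj (B⟦((n : ℤ), (n : ℤ))⟧)) p) := by
  obtain ⟨n₀, h⟩ := serre_vanishing F T.genLarge
    (fun m => ⟨m, fun n hn p hp => T.ext_gen m n hn p hp⟩) 3 T.ext_large B
  exact ⟨n₀, fun n hn p hp => T.sub_twist' n B p (h n hn p hp)⟩

variable [F.Full] [F.Faithful] [HasExt.{w} C]

/-- the groups Ext agree -/
theorem bijective (B B' : C) (n : ℕ) : Function.Bijective (F.mapExtAddHom B B' n) :=
  mapExt_bijective_of_serre F T.genLarge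
    (fun m => ⟨m, fun n hn p hp => T.ext_gen m n hn p hp⟩) 3 T.ext_large B B' n

/-- vanishing of Ext in `C` from vanishing in `A` -/
theorem sub_of (B B' : C) (p : ℕ) (h : Subsingleton (Ext.{w'} (F.obj B) (F.obj B') p)) :
    Subsingleton (Ext.{w} B B' p) :=
  (T.bijective B B' p).1.subsingleton

theorem sub_of_O (B : C) (p : ℕ) (h : Subsingleton (Ext.{w'} Y.O (F.obj B) p)) :
    Subsingleton (Ext.{w} T.O B p) :=
  T.sub_of _ _ p (subsingleton_iso T.eO.symm (Iso.refl _) h)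

theorem sub_of_O' (a : ℤ × ℤ) (p : ℕ) (h : Subsingleton (Ext.{w'} Y.O (Y.O⟦a⟧) p)) :
    Subsingleton (Ext.{w} T.O (T.O⟦a⟧) p) := by
  obtain ⟨e⟩ := T.sh a T.O
  exact T.sub_of_O _ p (subsingleton_iso (Iso.refl _)
    ((shiftFunctor A a).mapIso T.eO.symm ≪≫ e.symm) h)

theorem van (B : C) : ∃ n₀ : ℤ, ∀ n ≥ n₀, ∀ p : ℕ, 1 ≤ p →
    Subsingleton (Ext.{w} T.O (B⟦((n : ℤ), (n : ℤ))⟧) p) := by
  obtain ⟨n₀, h⟩ := T.van_A B
  exact ⟨n₀, fun n hn p hp => T.sub_of_O _ p (h n hn p hp)⟩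

theorem hbd' (B : C) (p : ℕ) (hp : 3 ≤ p) : Subsingleton (Ext.{w} T.O B p) :=
  T.sub_of_O _ p (T.hbd B p hp)

theorem bd' : ∃ N₀ : ℕ, ∀ (B B' : C) (p : ℕ), N₀ ≤ p → Subsingleton (Ext.{w} B B' p) := by
  obtain ⟨N₀, h⟩ := T.bd
  exact ⟨N₀, fun B B' p hp => T.sub_of B B' p (h B B' p hp)⟩

omit [PreservesFiniteLimits F] [PreservesFiniteColimits F] [HasExt.{w} C] in
/-- the twists of the structure sheaf -/
noncomputable def twIso (a : ℤ × ℤ) : F.obj (T.O⟦a⟧) ≅ Y.O⟦a⟧ :=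
  (T.sh a T.O).some ≪≫ (shiftFunctor A a).mapIso T.eO

variable [∀ a : ℤ × ℤ, (shiftFunctor C a).Additive]

/-- the twist data of `C` -/
noncomputable def base : YBase.{w} C where
  O := T.O
  hO p hp := T.sub_of_O _ p (subsingleton_iso (Iso.refl _) T.eO.symm (Y.hO p hp))
  hF p := T.sub_of_O' _ p (Y.hF p)
  hC m p := T.sub_of_O' _ p (Y.hC m p)
  K := liftS F Y.K (c₁ := T.O⟦((0 : ℤ), (-2 : ℤ))⟧)
    (c₂ := (T.O⟦((0 : ℤ), (-1 : ℤ))⟧) ⊞ (T.O⟦((0 : ℤ), (-1 : ℤ))⟧)) (c₃ := T.O)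
    (T.twIso _ ≪≫ Y.eK₁.symm)
    (haveI := preservesBinaryBiproducts_of_preservesBinaryProducts F; F.mapBiprod _ _ ≪≫ biprod.mapIso (T.twIso _) (T.twIso _) ≪≫ Y.eK₂.symm)
    (T.eO ≪≫ Y.eK₃.symm)
  hK := liftS_shortExact F Y.hK _ _ _
  eK₁ := Iso.refl _
  eK₂ := Iso.refl _
  eK₃ := Iso.refl _
  D := liftS F Y.D (c₁ := T.O⟦((-1 : ℤ), (0 : ℤ))⟧) (c₂ := T.O) (c₃ := T.E)
    (T.twIso _ ≪≫ Y.eD₁.symm) (T.eO ≪≫ Y.eD₂.symm) T.eE
  hD := liftS_shortExact F Y.hD _ _ _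
  eD₁ := Iso.refl _
  eD₂ := Iso.refl _
  eD₃ := F.preimageIso ((T.sh _ T.E).some ≪≫ (shiftFunctor A _).mapIso T.eE ≪≫ Y.eD₃ ≪≫
    (shiftFunctor A _).mapIso T.eE.symm ≪≫ (T.sh _ T.E).some.symm)

end Transfer

end

end Fdim
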